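import Pool.Agent.Lib.MP_abca01_gt.Sym.SBase

/-!
# Cone volume measures with a fixed axis, 2: the centroid lies on the axis

Lower bounds for the support function of an invariant body in the half space `ht v ≥ 0`.
-/

set_option autoImplicit false

open MeasureTheory Set Metric Filter Topology
open scoped RealInnerProductSpace Pointwise

namespace Pool.Agent.Lib.MP_abca01_gt.Sym

variable {E : Type} [NormedAddCommGroup E] [InnerProductSpace ℝ E] [FiniteDimensional ℝ E]
  [MeasurableSpace E] [BorelSpace E] {G : Subgroup (E ≃ₗᵢ[ℝ] E)}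

theorem int_inner {K : Set E} (hK : IsCompact K) (u : E) :
    IntegrableOn (fun x => ⟪x, u⟫) K (volume : Measure E) :=
  (continuous_id.inner continuous_const).continuousOn.integrableOn_compact hK

/-- The integral over an invariant set does not change under the isometries of `G`. -/
theorem int_map {K : Set E} (h : Inv G K) {g : E ≃ₗᵢ[ℝ] E} (hg : g ∈ G) (f : E → ℝ) :
    ∫ x in K, f (g x) = ∫ x in K, f x := by
  have h1 := (g.measurePreserving).setIntegral_preimage_emb
    g.toHomeomorph.measurableEmbedding f K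
  rw [h.preimage hg] at h1
  exact h1

/-- The centroid of an invariant body is on the axis. -/
theorem int_zero [Finite G] {v : E} (hA : Axis G v) {K : Set E} (hK : IsCompact K) (h : Inv G K)
    {u : E} (hu : ⟪v, u⟫ = 0) : ∫ x in K, ⟪x, u⟫ = 0 := by
  have := Fintype.ofFinite G
  have h1 : ∫ x in K, ∑ g : G, ⟪(g : E ≃ₗᵢ[ℝ] E) x, u⟫ = 0 := by
    have h2 : ∀ x : E, ∑ g : G, ⟪(g : E ≃ₗᵢ[ℝ] E) x, u⟫ = 0 := by
      intro x
      rw [← sum_inner, hA.sum, real_inner_smul_left, hu, mul_zero]
    simp only [h2, integral_zero]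
  rw [integral_finsetSum] at h1
  · have h2 : ∀ g ∈ (Finset.univ : Finset G),
        ∫ x in K, ⟪(g : E ≃ₗᵢ[ℝ] E) x, u⟫ = ∫ x in K, ⟪x, u⟫ := by
      intro g _
      exact int_map h g.2 fun x => ⟪x, u⟫
    rw [Finset.sum_congr rfl h2, Finset.sum_const, Finset.card_univ, nsmul_eq_mul] at h1
    rcases mul_eq_zero.1 h1 with h3 | h3
    · exact absurd h3 (card_pos' G).ne'
    · exact h3
  · intro g _
    have h2 : Continuous fun x : E => ⟪(g : E ≃ₗᵢ[ℝ] E) x, u⟫ :=
      ((g : E ≃ₗᵢ[ℝ] E).continuous.inner continuous_const)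
    exact h2.continuousOn.integrableOn_compact hK

/-- A nonnegative affine function on a convex body has a large mean. -/
theorem mean_low {K : Set E} (hK : IsCompact K) (hc : Convex ℝ K) {u : E} {b : ℝ}
    (h0 : ∀ x ∈ K, 0 ≤ ⟪x, u⟫ + b) {x0 : E} (hx0 : x0 ∈ K) :
    (1 / 4) ^ Module.finrank ℝ E * (3 / 4) * (⟪x0, u⟫ + b) * volume.real K ≤
      ∫ x in K, (⟪x, u⟫ + b) := by
  set A : Set E := (fun x => x + (3 / 4 : ℝ) • x0) '' ((1 / 4 : ℝ) • K) with hA
  have hAK : A ⊆ K := by
    rintro _ ⟨_, ⟨x, hx, rfl⟩, rfl⟩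
    exact hc hx hx0 (by norm_num) (by norm_num) (by norm_num)
  have hAc : IsCompact A := (hK.smul _).image (by fun_prop)
  have hAv : volume.real A = (1 / 4) ^ Module.finrank ℝ E * volume.real K := by
    rw [hA, image_add_right, measureReal_def, measure_preimage_add_right, ← measureReal_def,
      Energyaux.real_smul _ (by norm_num)]
  have hint : IntegrableOn (fun x => ⟪x, u⟫ + b) K (volume : Measure E) := by
    have h2 : Continuous fun x : E => ⟪x, u⟫ + b := by fun_prop
    exact h2.continuousOn.integrableOn_compact hK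
  have h1 : ∫ x in A, (⟪x, u⟫ + b) ≤ ∫ x in K, (⟪x, u⟫ + b) := by
    apply setIntegral_mono_set hint
    · filter_upwards [ae_restrict_mem hK.measurableSet] with x hx
      exact h0 x hx
    · exact hAK.eventuallyLE
  have h2 : (3 / 4) * (⟪x0, u⟫ + b) * volume.real A ≤ ∫ x in A, (⟪x, u⟫ + b) := by
    have h3 : ∫ _x in A, ((3 / 4) * (⟪x0, u⟫ + b)) ≤ ∫ x in A, (⟪x, u⟫ + b) := by
      apply setIntegral_mono_on _ (hint.mono_set hAK) hAc.measurableSet
      · rintro _ ⟨_, ⟨x, hx, rfl⟩, rfl⟩
        simp only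
        rw [inner_add_left, real_inner_smul_left, real_inner_smul_left]
        have := h0 x hx
        linarith
      · exact integrableOn_const hAc.measure_lt_top.ne
    rw [setIntegral_const, smul_eq_mul] at h3
    linarith
  rw [hAv] at h2
  calc (1 / 4) ^ Module.finrank ℝ E * (3 / 4) * (⟪x0, u⟫ + b) * volume.real K
      = (3 / 4) * (⟪x0, u⟫ + b) * ((1 / 4) ^ Module.finrank ℝ E * volume.real K) := by ring
    _ ≤ _ := h2.trans h1

/-- Opposite values of the support function are comparable if the mean is zero. -/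
theorem supp_neg_le {K : Set E} (hK : IsCompact K) (hc : Convex ℝ K) (hV : 0 < volume.real K)
    {u : E} (hu : ∫ x in K, ⟪x, u⟫ = 0) :
    supp K (-u) ≤ 2 * 4 ^ Module.finrank ℝ E * supp K u := by
  have hne : K.Nonempty := by
    by_contra hcon
    rw [not_nonempty_iff_eq_empty] at hcon
    rw [hcon] at hV
    simp at hV
  obtain ⟨x0, hx0, hx0u, -⟩ := exists_supp hK hne (-u)
  have h0 : ∀ x ∈ K, 0 ≤ ⟪x, -u⟫ + supp K u := by
    intro x hx
    rw [inner_neg_right]
    have := le_supp hK hx u
    linarith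
  have h1 := mean_low hK hc h0 hx0
  rw [integral_add (int_inner hK _) (integrableOn_const hK.measure_lt_top.ne), setIntegral_const,
    smul_eq_mul] at h1
  simp only [inner_neg_right] at h1
  rw [integral_neg, hu, neg_zero, zero_add] at h1
  rw [inner_neg_right] at hx0u
  rw [hx0u] at h1
  have h2 : 0 ≤ supp K (-u) + supp K u := by
    have := h0 x0 hx0
    rw [inner_neg_right, hx0u] at this
    exact this
  have h3 : (1 / 4) ^ Module.finrank ℝ E * (3 / 4) * (supp K (-u) + supp K u) ≤ supp K u := by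
    have h4 : ((1 / 4) ^ Module.finrank ℝ E * (3 / 4) * (supp K (-u) + supp K u)) * volume.real K ≤
        supp K u * volume.real K := by linarith
    exact le_of_mul_le_mul_right h4 hV
  have h5 : (0 : ℝ) < 4 ^ Module.finrank ℝ E := by positivity
  have h6 : (3 / 4) * (supp K (-u) + supp K u) ≤ 4 ^ Module.finrank ℝ E * supp K u := by
    have h7 := mul_le_mul_of_nonneg_left h3 h5.le
    have h8 : (4 : ℝ) ^ Module.finrank ℝ E * ((1 / 4) ^ Module.finrank ℝ E * (3 / 4) *
        (supp K (-u) + supp K u)) = (3 / 4) * (supp K (-u) + supp K u) := by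
      rw [← mul_assoc, ← mul_assoc, ← mul_pow]
      norm_num
    rwa [h8] at h7
  have h7 : 0 ≤ supp K u := by
    have h8 : 0 ≤ 4 ^ Module.finrank ℝ E * supp K u := le_trans (by positivity) h6
    exact nonneg_of_mul_nonneg_right h8 h5
  nlinarith

/-- The part of `u` orthogonal to `v`. -/
noncomputable def pr (v u : E) : E := u - ⟪u, v⟫ • v

omit [FiniteDimensional ℝ E] [MeasurableSpace E] [BorelSpace E] in
theorem inner_pr {v : E} (hv : ‖v‖ = 1) (u : E) : ⟪v, pr v u⟫ = 0 := by
  unfold pr
  rw [inner_sub_right, real_inner_smul_right, real_inner_self_eq_norm_sq, hv, real_inner_comm]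
  ring

omit [FiniteDimensional ℝ E] [MeasurableSpace E] [BorelSpace E] in
theorem inner_split (v x u : E) : ⟪x, u⟫ = ht v x * ht v u + ⟪x, pr v u⟫ := by
  unfold pr ht
  rw [inner_sub_right, real_inner_smul_right]
  ring

/-- An invariant body in the half space, of height one. -/
structure Up (G : Subgroup (E ≃ₗᵢ[ℝ] E)) (v : E) (K : Set E) : Prop where
  cpt : IsCompact K
  cvx : Convex ℝ K
  zero : (0 : E) ∈ K
  inv : Inv G K
  vol : 0 < volume.real K
  up : K ⊆ QQ v (1 / 2)
  top : ∃ x ∈ K, ht v x = 1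

theorem Up.ht_nonneg {v : E} {K : Set E} (h : Up G v K) {x : E} (hx : x ∈ K) : 0 ≤ ht v x := by
  have h1 := (h.up hx).1
  have h2 : 0 ≤ hor v x := norm_nonneg _
  linarith

theorem Up.low_ht [Finite G] {v : E} (hA : Axis G v) {K : Set E} (h : Up G v K) {u : E}
    (hu : 0 ≤ ht v u) : (1 / 4) ^ Module.finrank ℝ E * (3 / 4) * ht v u ≤ supp K u := by
  obtain ⟨x0, hx0, hx1⟩ := h.top
  have h1 := mean_low h.cpt h.cvx (u := v) (b := 0)
    (fun x hx => by rw [add_zero]; exact h.ht_nonneg hx) hx0
  simp only [add_zero] at h1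
  have hx1' : ⟪x0, v⟫ = 1 := hx1
  rw [hx1', mul_one] at h1
  have h2 : ∫ x in K, ⟪x, u⟫ = ht v u * ∫ x in K, ⟪x, v⟫ := by
    have h3 : ∀ x : E, ⟪x, u⟫ = ht v u * ⟪x, v⟫ + ⟪x, pr v u⟫ := by
      intro x
      rw [inner_split v x u]
      unfold ht
      ring
    simp only [h3]
    rw [integral_add ((int_inner h.cpt v).const_mul _) (int_inner h.cpt _),
      int_zero hA h.cpt h.inv (inner_pr hA.norm u), add_zero, integral_const_mul]
  have h3 : ∫ x in K, ⟪x, u⟫ ≤ supp K u * volume.real K := by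
    have h4 : ∫ x in K, ⟪x, u⟫ ≤ ∫ _x in K, supp K u := by
      apply setIntegral_mono_on (int_inner h.cpt u) _ h.cpt.measurableSet
      · intro x hx
        exact le_supp h.cpt hx u
      · exact integrableOn_const h.cpt.measure_lt_top.ne
    rw [setIntegral_const, smul_eq_mul] at h4
    linarith
  rw [h2] at h3
  have h4 := mul_le_mul_of_nonneg_left h1 hu
  have h5 : ((1 / 4) ^ Module.finrank ℝ E * (3 / 4) * ht v u) * volume.real K ≤
      supp K u * volume.real K := by linarith
  exact le_of_mul_le_mul_right h5 h.vol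

theorem Up.low_pr [Finite G] {v : E} (hA : Axis G v) {K : Set E} (h : Up G v K) {u : E}
    (hu : 0 ≤ ht v u) :
    supp K (pr v u) + supp K (-(pr v u)) ≤ (1 + 2 * 4 ^ Module.finrank ℝ E) * supp K u := by
  have h1 := supp_neg_le h.cpt h.cvx h.vol (int_zero hA h.cpt h.inv (inner_pr hA.norm u))
  have h2 : supp K (pr v u) ≤ supp K u := by
    refine supp_le ⟨0, h.zero⟩ fun x hx => ?_
    have h3 := le_supp h.cpt hx u
    rw [inner_split v x u] at h3
    have h4 := mul_nonneg (h.ht_nonneg hx) hu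
    linarith
  have h3 : 2 * 4 ^ Module.finrank ℝ E * supp K (pr v u) ≤
      2 * 4 ^ Module.finrank ℝ E * supp K u := mul_le_mul_of_nonneg_left h2 (by positivity)
  linarith

end Pool.Agent.Lib.MP_abca01_gt.Sym
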