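import Pool.Agent.Lib.MP_abca01_gt.Sym.SInv

/-!
# Cone volume measures with a fixed axis, 4: coercivity in the half space
-/

set_option autoImplicit false

open MeasureTheory Set Metric Filter Topology
open scoped RealInnerProductSpace Pointwise

namespace Pool.Agent.Lib.MP_abca01_gt.Sym

open Ess

section alg

variable {E : Type} [NormedAddCommGroup E] [InnerProductSpace ℝ E]

theorem norm_sq_split {v : E} (hv : ‖v‖ = 1) (u : E) : ‖u‖ ^ 2 = ht v u ^ 2 + ‖pr v u‖ ^ 2 := by
  have h1 : ‖pr v u‖ ^ 2 = ‖u‖ ^ 2 - 2 * ⟪u, ⟪u, v⟫ • v⟫ + ‖⟪u, v⟫ • v‖ ^ 2 := by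
    unfold pr
    exact norm_sub_sq_real _ _
  rw [h1, real_inner_smul_right, norm_smul, hv, Real.norm_eq_abs, mul_one, sq_abs]
  unfold ht
  ring

theorem norm_le_two {v : E} (hv : ‖v‖ = 1) {x : E} (hx : x ∈ QQ v (1 / 2)) : ‖x‖ ≤ 2 := by
  have h1 := norm_sq_split hv x
  have h2 : hor v x ≤ 2 * (1 / 2) * ht v x := hx.1
  have h3 : ht v x ≤ 1 := hx.2
  have h4 : hor v x = ‖pr v x‖ := rfl
  rw [h4] at h2
  have h5 : 0 ≤ ‖pr v x‖ := norm_nonneg _
  have h6 : ‖pr v x‖ ^ 2 ≤ 1 := by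
    have : ‖pr v x‖ ≤ 1 := by linarith
    nlinarith
  have h7 : ht v x ^ 2 ≤ 1 := by
    have : 0 ≤ ht v x := by linarith
    nlinarith
  have h8 : ‖x‖ ^ 2 ≤ 2 ^ 2 := by linarith
  exact le_of_sq_le_sq h8 (by norm_num)

/-- the vectors almost orthogonal to `v` and to `e m`, `m > i` -/
def NN {M : ℕ} (v : E) (e : Fin (M + 1) → E) (δ : ℝ) (i : Fin M) : Set E :=
  {u | |ht v u| < δ ∧ ∀ m, i.castSucc < m → |⟪e m, pr v u⟫| < δ}

theorem continuous_ht (v : E) : Continuous (ht v) := by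
  unfold ht
  fun_prop

theorem continuous_pr (v : E) : Continuous (pr v) := by
  unfold pr
  fun_prop

theorem isOpen_NN {M : ℕ} (v : E) (e : Fin (M + 1) → E) (δ : ℝ) (i : Fin M) :
    IsOpen (NN v e δ i) := by
  have h1 : NN v e δ i = {u | |ht v u| < δ} ∩ (pr v) ⁻¹' BB e δ i := rfl
  rw [h1]
  exact (isOpen_lt (continuous_ht v).abs continuous_const).inter
    ((isOpen_BB e δ i).preimage (continuous_pr v))

end alg

variable {E : Type} [NormedAddCommGroup E] [InnerProductSpace ℝ E] [FiniteDimensional ℝ E]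
  [MeasurableSpace E] [BorelSpace E] {G : Subgroup (E ≃ₗᵢ[ℝ] E)}

/-- The constant in the lower bound of the support function. -/
noncomputable def cc (n : ℕ) (c : ℝ) : ℝ :=
  min ((1 / 4) ^ n * (3 / 4) * (c / 2)) (2 * c / (1 + 2 * 4 ^ n))

theorem cc_pos (n : ℕ) {c : ℝ} (hc : 0 < c) : 0 < cc n c := by
  unfold cc
  positivity

theorem Up.r_le {v : E} (hv : ‖v‖ = 1) {K : Set E} (h : Up G v K) {N : ℕ} {c : ℝ} (hc : 0 < c)
    {g : E} {e : OrthonormalBasis (Fin N) ℝ E} {r : Fin N → ℝ} (hP : Pos c K g e r) (m : Fin N) :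
    c / 2 * r m ≤ 1 := by
  have h1 := norm_le_two hv (h.up (Pos.end_mem hc hP m (s := 1) (by norm_num)))
  have h2 := norm_le_two hv (h.up (Pos.end_mem hc hP m (s := -1) (by norm_num)))
  have h3 : (g + (1 * (c * r m)) • e m) - (g + (-1 * (c * r m)) • e m) =
      (2 * (c * r m)) • e m := by
    rw [add_sub_add_left_eq_sub, ← sub_smul]
    congr 1
    ring
  have h4 := norm_sub_le (g + (1 * (c * r m)) • e m) (g + (-1 * (c * r m)) • e m)
  have h5 := hP.pos m
  rw [h3, norm_smul, e.norm_eq_one, mul_one, Real.norm_eq_abs, abs_of_pos (by positivity)] at h4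
  linarith

theorem Up.low_coord [Finite G] {v : E} (hA : Axis G v) {K : Set E} (h : Up G v K) {N : ℕ} {c : ℝ}
    (hc : 0 < c) {g : E} {e : OrthonormalBasis (Fin N) ℝ E} {r : Fin N → ℝ} (hP : Pos c K g e r)
    {u : E} (hu : 0 ≤ ht v u) (m : Fin N) :
    cc (Module.finrank ℝ E) c * r m * ht v u ≤ supp K u ∧
      cc (Module.finrank ℝ E) c * r m * |⟪e m, pr v u⟫| ≤ supp K u := by
  have hr := hP.pos m
  constructor
  · have h1 := h.low_ht hA hu
    have h2 := h.r_le hA.norm hc hP m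
    have h3 : cc (Module.finrank ℝ E) c ≤ (1 / 4) ^ (Module.finrank ℝ E) * (3 / 4) * (c / 2) :=
      min_le_left _ _
    have h4 : cc (Module.finrank ℝ E) c * r m ≤ (1 / 4) ^ (Module.finrank ℝ E) * (3 / 4) := by
      calc cc (Module.finrank ℝ E) c * r m
          ≤ (1 / 4) ^ (Module.finrank ℝ E) * (3 / 4) * (c / 2) * r m :=
            mul_le_mul_of_nonneg_right h3 hr.le
        _ = (1 / 4) ^ (Module.finrank ℝ E) * (3 / 4) * (c / 2 * r m) := by ring
        _ ≤ (1 / 4) ^ (Module.finrank ℝ E) * (3 / 4) * 1 :=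
            mul_le_mul_of_nonneg_left h2 (by positivity)
        _ = _ := mul_one _
    exact (mul_le_mul_of_nonneg_right h4 hu).trans h1
  · have h1 := h.low_pr hA hu
    have h2 := hP.le_supp h.cpt hc (pr v u) m
    have h3 := hP.le_supp h.cpt hc (-(pr v u)) m
    rw [inner_neg_right, inner_neg_right, abs_neg] at h3
    have h4 : (0 : ℝ) < 1 + 2 * 4 ^ Module.finrank ℝ E := by positivity
    have h5 : cc (Module.finrank ℝ E) c ≤ 2 * c / (1 + 2 * 4 ^ Module.finrank ℝ E) :=
      min_le_right _ _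
    have h6 : 2 * c * (r m * |⟪e m, pr v u⟫|) ≤ (1 + 2 * 4 ^ Module.finrank ℝ E) * supp K u := by
      linarith
    calc cc (Module.finrank ℝ E) c * r m * |⟪e m, pr v u⟫|
        = cc (Module.finrank ℝ E) c * (r m * |⟪e m, pr v u⟫|) := by ring
      _ ≤ 2 * c / (1 + 2 * 4 ^ Module.finrank ℝ E) * (r m * |⟪e m, pr v u⟫|) :=
          mul_le_mul_of_nonneg_right h5 (by positivity)
      _ = (2 * c * (r m * |⟪e m, pr v u⟫|)) / (1 + 2 * 4 ^ Module.finrank ℝ E) := by ring
      _ ≤ supp K u := by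
          rw [div_le_iff₀ h4]
          linarith

omit [FiniteDimensional ℝ E] [MeasurableSpace E] [BorelSpace E] in
/-- Some coordinate of a unit vector is not small. -/
theorem exists_coord {M : ℕ} {v : E} (hv : ‖v‖ = 1) (e : OrthonormalBasis (Fin (M + 1)) ℝ E)
    {δ : ℝ} (hδ1 : ((M : ℝ) + 2) * δ ^ 2 ≤ 1) {u : E} (hu : ‖u‖ = 1) (h0 : 0 ≤ ht v u)
    (hδu : ht v u < δ) : ∃ m, δ ≤ |⟪e m, pr v u⟫| := by
  by_contra hcon
  push Not at hcon
  have h1 : ∑ m, ⟪e m, pr v u⟫ ^ 2 = ‖pr v u‖ ^ 2 := by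
    have h2 := e.sum_sq_norm_inner_right (pr v u)
    simp only [Real.norm_eq_abs, sq_abs] at h2
    exact h2
  have h3 : ∑ m, ⟪e m, pr v u⟫ ^ 2 ≤ ∑ _m : Fin (M + 1), δ ^ 2 := by
    apply Finset.sum_le_sum
    intro m _
    rw [← sq_abs]
    exact pow_le_pow_left₀ (abs_nonneg _) (hcon m).le 2
  rw [h1, Finset.sum_const, Finset.card_univ, Fintype.card_fin, nsmul_eq_mul] at h3
  push_cast at h3
  have h4 := norm_sq_split hv u
  rw [hu] at h4
  have h5 : ht v u ^ 2 < δ ^ 2 := pow_lt_pow_left₀ hδu h0 two_ne_zero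
  linarith

theorem Up.low_point [Finite G] {v : E} (hA : Axis G v) {K : Set E} (h : Up G v K) {M : ℕ} {c : ℝ}
    (hc : 0 < c) {g : E} {e : OrthonormalBasis (Fin (M + 1)) ℝ E} {r : Fin (M + 1) → ℝ}
    (hP : Pos c K g e r) {δ : ℝ} (hδ : 0 < δ) (hδ1 : ((M : ℝ) + 2) * δ ^ 2 ≤ 1) {u : E}
    (hu : ‖u‖ = 1) (h0 : 0 ≤ ht v u) :
    Real.log (cc (Module.finrank ℝ E) c * δ) + Real.log (r (Fin.last M)) -
      ∑ i : Fin M, (NN v e δ i).indicator 1 u * (Real.log (r i.succ) - Real.log (r i.castSucc)) ≤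
      Real.log (supp K u) ∧
    cc (Module.finrank ℝ E) c * δ * r 0 ≤ supp K u := by
  classical
  have hcc := cc_pos (Module.finrank ℝ E) hc
  -- an index
  obtain ⟨I, hI, hind⟩ : ∃ I : Fin (M + 1), cc (Module.finrank ℝ E) c * δ * r I ≤ supp K u ∧
      ∀ i : Fin M, u ∈ NN v e δ i ↔ I ≤ i.castSucc := by
    rcases le_or_gt δ (ht v u) with hδu | hδu
    · refine ⟨Fin.last M, ?_, fun i => ?_⟩
      · have h1 := (h.low_coord hA hc hP h0 (Fin.last M)).1
        have h2 : 0 < cc (Module.finrank ℝ E) c * r (Fin.last M) := mul_pos hcc (hP.pos _)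
        have h3 := mul_le_mul_of_nonneg_left hδu h2.le
        linarith
      · constructor
        · intro hmem
          have h1 := hmem.1
          rw [abs_of_nonneg h0] at h1
          linarith
        · intro hle
          exact absurd hle (not_le.2 (Fin.castSucc_lt_last i))
    · let S : Finset (Fin (M + 1)) := Finset.univ.filter fun m => δ ≤ |⟪e m, pr v u⟫|
      have hS : S.Nonempty := by
        obtain ⟨m, hm⟩ := exists_coord hA.norm e hδ1 hu h0 hδu
        exact ⟨m, by simp [S, hm]⟩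
      let I := S.max' hS
      have hI : δ ≤ |⟪e I, pr v u⟫| := by
        have := S.max'_mem hS
        simpa [S] using this
      have hImax : ∀ m, I < m → |⟪e m, pr v u⟫| < δ := by
        intro m hm
        by_contra hcon
        push Not at hcon
        exact absurd (S.le_max' m (by simp [S, hcon])) (not_le.2 hm)
      refine ⟨I, ?_, fun i => ?_⟩
      · have h1 := (h.low_coord hA hc hP h0 I).2
        have h2 : 0 < cc (Module.finrank ℝ E) c * r I := mul_pos hcc (hP.pos _)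
        have h3 := mul_le_mul_of_nonneg_left hI h2.le
        linarith
      · constructor
        · intro hmem
          by_contra hcon
          exact absurd (hmem.2 I (not_le.1 hcon)) (not_lt.2 hI)
        · intro hle
          refine ⟨by rwa [abs_of_nonneg h0], fun m hm => hImax m (lt_of_le_of_lt hle hm)⟩
  have hpos : 0 < cc (Module.finrank ℝ E) c * δ * r I := by
    have := hP.pos I
    positivity
  constructor
  · have hsum : ∀ i : Fin M, (NN v e δ i).indicator (1 : E → ℝ) u *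
        (Real.log (r i.succ) - Real.log (r i.castSucc)) =
        if I ≤ i.castSucc then Real.log (r i.succ) - Real.log (r i.castSucc) else 0 := by
      intro i
      by_cases hi : I ≤ i.castSucc
      · rw [if_pos hi, indicator_of_mem ((hind i).2 hi)]
        simp
      · rw [if_neg hi, indicator_of_notMem (fun hm => hi ((hind i).1 hm)), zero_mul]
    simp only [hsum]
    rw [sum_gap M (fun i => Real.log (r i)) I]
    have h4 := Real.log_le_log hpos hI
    rw [Real.log_mul (by positivity) (hP.pos I).ne'] at h4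
    linarith
  · have h5 : cc (Module.finrank ℝ E) c * δ * r 0 ≤ cc (Module.finrank ℝ E) c * δ * r I :=
      mul_le_mul_of_nonneg_left (hP.mono (Fin.zero_le I)) (by positivity)
    exact h5.trans hI

theorem Up.int_log [Finite G] {v : E} (hA : Axis G v) {mu : Measure E} [IsFiniteMeasure mu]
    (hmu : ∀ᵐ u ∂mu, ‖u‖ = 1 ∧ 0 ≤ ht v u) {K : Set E} (h : Up G v K) {M : ℕ} {c : ℝ}
    (hc : 0 < c) {g : E} {e : OrthonormalBasis (Fin (M + 1)) ℝ E} {r : Fin (M + 1) → ℝ}
    (hP : Pos c K g e r) {δ : ℝ} (hδ : 0 < δ) (hδ1 : ((M : ℝ) + 2) * δ ^ 2 ≤ 1) :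
    Integrable (fun u => Real.log (supp K u)) mu := by
  have hcc := cc_pos (Module.finrank ℝ E) hc
  have hr := hP.pos 0
  apply Variationaux.integrable_log_supp h.cpt ⟨0, h.zero⟩
    (c := cc (Module.finrank ℝ E) c * δ * r 0) (by positivity)
  filter_upwards [hmu] with u hu
  exact ⟨hu.1, (h.low_point hA hc hP hδ hδ1 hu.1 hu.2).2⟩

theorem Up.low_int [Finite G] {v : E} (hA : Axis G v) {mu : Measure E} [IsFiniteMeasure mu]
    (hmu : ∀ᵐ u ∂mu, ‖u‖ = 1 ∧ 0 ≤ ht v u) {K : Set E} (h : Up G v K) {M : ℕ} {c : ℝ}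
    (hc : 0 < c) {g : E} {e : OrthonormalBasis (Fin (M + 1)) ℝ E} {r : Fin (M + 1) → ℝ}
    (hP : Pos c K g e r) {δ : ℝ} (hδ : 0 < δ) (hδ1 : ((M : ℝ) + 2) * δ ^ 2 ≤ 1) :
    mu.real univ * Real.log (cc (Module.finrank ℝ E) c * δ) +
      mu.real univ / ((M : ℝ) + 1) * ∑ m, Real.log (r m) +
      ∑ i : Fin M, (((i : ℝ) + 1) / ((M : ℝ) + 1) * mu.real univ - mu.real (NN v e δ i)) *
        (Real.log (r i.succ) - Real.log (r i.castSucc)) ≤ ∫ u, Real.log (supp K u) ∂mu := by
  have hmeas : ∀ i : Fin M, MeasurableSet (NN v e δ i) := fun i =>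
    (isOpen_NN v e δ i).measurableSet
  have hint : ∀ i : Fin M, Integrable (fun u => (NN v e δ i).indicator (1 : E → ℝ) u *
      (Real.log (r i.succ) - Real.log (r i.castSucc))) mu := by
    intro i
    apply Integrable.mul_const
    exact (integrable_indicator_iff (hmeas i)).2 (integrable_const (1 : ℝ)).integrableOn
  have hsum : Integrable (fun u => ∑ i : Fin M, (NN v e δ i).indicator (1 : E → ℝ) u *
      (Real.log (r i.succ) - Real.log (r i.castSucc))) mu :=
    integrable_finsetSum Finset.univ fun i _ => hint i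
  have h1 : ∫ u, ((Real.log (cc (Module.finrank ℝ E) c * δ) + Real.log (r (Fin.last M))) -
      ∑ i : Fin M, (NN v e δ i).indicator (1 : E → ℝ) u *
        (Real.log (r i.succ) - Real.log (r i.castSucc))) ∂mu ≤ ∫ u, Real.log (supp K u) ∂mu := by
    refine integral_mono_ae ((integrable_const _).sub hsum) (h.int_log hA hmu hc hP hδ hδ1) ?_
    filter_upwards [hmu] with u hu
    exact (h.low_point hA hc hP hδ hδ1 hu.1 hu.2).1
  have h2 : ∫ u, ((Real.log (cc (Module.finrank ℝ E) c * δ) + Real.log (r (Fin.last M))) -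
      ∑ i : Fin M, (NN v e δ i).indicator (1 : E → ℝ) u *
        (Real.log (r i.succ) - Real.log (r i.castSucc))) ∂mu =
      mu.real univ * (Real.log (cc (Module.finrank ℝ E) c * δ) + Real.log (r (Fin.last M))) -
      ∑ i : Fin M, mu.real (NN v e δ i) * (Real.log (r i.succ) - Real.log (r i.castSucc)) := by
    rw [integral_sub (integrable_const _) hsum,
      integral_const, smul_eq_mul, integral_finsetSum Finset.univ fun i _ => hint i]
    congr 1
    refine Finset.sum_congr rfl fun i _ => ?_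
    rw [integral_mul_const, integral_indicator_one (hmeas i)]
  rw [h2] at h1
  refine le_trans (le_of_eq ?_) h1
  have h3 := sum_abel M (fun i => Real.log (r i))
  have hM : (0 : ℝ) < (M : ℝ) + 1 := by positivity
  have h4 : mu.real univ * Real.log (r (Fin.last M)) =
      mu.real univ / ((M : ℝ) + 1) * (∑ m, Real.log (r m) +
        ∑ i : Fin M, ((i : ℝ) + 1) * (Real.log (r i.succ) - Real.log (r i.castSucc))) := by
    rw [← h3]
    field_simp
  rw [mul_add, h4]
  have h5 : ∑ i : Fin M, (((i : ℝ) + 1) / ((M : ℝ) + 1) * mu.real univ - mu.real (NN v e δ i)) *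
        (Real.log (r i.succ) - Real.log (r i.castSucc)) =
      mu.real univ / ((M : ℝ) + 1) *
        ∑ i : Fin M, ((i : ℝ) + 1) * (Real.log (r i.succ) - Real.log (r i.castSucc)) -
      ∑ i : Fin M, mu.real (NN v e δ i) * (Real.log (r i.succ) - Real.log (r i.castSucc)) := by
    rw [Finset.mul_sum, ← Finset.sum_sub_distrib]
    refine Finset.sum_congr rfl fun i _ => ?_
    ring
  rw [h5]
  ring

/-- upper bound for the volume -/
theorem vol_le (M : ℕ) {c : ℝ} (hc : 0 < c) :
    ∃ C : ℝ, ∀ (K : Set E) (g : E) (e : OrthonormalBasis (Fin (M + 1)) ℝ E) (r : Fin (M + 1) → ℝ),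
      IsCompact K → Pos c K g e r → 0 < volume.real K →
        Real.log (volume.real K) ≤ C + ∑ m, Real.log (r m) := by
  obtain ⟨κ, hκ, hbox⟩ := box_vol E volume
  refine ⟨Real.log κ + (M + 1 : ℕ) * Real.log (2 * c⁻¹), ?_⟩
  intro K g e r hK hP hV
  have hci : 0 < c⁻¹ := inv_pos.2 hc
  have h1 : volume.real {x | ∀ i, |⟪x - g, e i⟫| ≤ c⁻¹ * r i} =
      κ * ∏ i, (2 * (c⁻¹ * r i)) :=
    hbox (Fin (M + 1)) e g (fun i => c⁻¹ * r i) (fun i => (mul_pos hci (hP.pos i)).le)
  have hbdd : Bornology.IsBounded {x : E | ∀ i, |⟪x - g, e i⟫| ≤ c⁻¹ * r i} := by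
    refine (isBounded_closedBall (x := g) (r := ((M + 1 : ℕ) : ℝ) *
      (c⁻¹ * r (Fin.last M)))).subset ?_
    intro x hx
    rw [mem_closedBall, dist_eq_norm]
    apply norm_le_sum e
    intro i
    exact (hx i).trans (mul_le_mul_of_nonneg_left (hP.mono (Fin.le_last i)) hci.le)
  have h4 : volume.real K ≤ volume.real {x | ∀ i, |⟪x - g, e i⟫| ≤ c⁻¹ * r i} :=
    measureReal_mono (fun x hx => hP.up x hx) hbdd.measure_lt_top.ne
  have h5 : 0 < ∏ i, (2 * (c⁻¹ * r i)) := Finset.prod_pos fun i _ => by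
    have := hP.pos i
    positivity
  have h6 := Real.log_le_log hV h4
  rw [h1, Real.log_mul hκ.ne' h5.ne', Real.log_prod (fun i _ => by
    have := hP.pos i
    positivity)] at h6
  have h7 : ∀ i ∈ Finset.univ, Real.log (2 * (c⁻¹ * r i)) =
      Real.log (2 * c⁻¹) + Real.log (r i) := by
    intro i _
    rw [← mul_assoc, Real.log_mul (by positivity) (hP.pos i).ne']
  rw [Finset.sum_congr rfl h7, Finset.sum_add_distrib, Finset.sum_const, Finset.card_univ,
    Fintype.card_fin, nsmul_eq_mul] at h6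
  linarith

end Pool.Agent.Lib.MP_abca01_gt.Sym
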