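import Pool.Agent.Lib.MP_abca01_gt.Sym.SNec

/-!
# Cone volume measures with a fixed axis, 36: the characterisation
-/

set_option autoImplicit false

open MeasureTheory Set Metric Filter Topology
open scoped RealInnerProductSpace Pointwise ENNReal NNReal

namespace Pool.Agent.Lib.MP_abca01_gt.Sym

variable {E : Type} [NormedAddCommGroup E] [InnerProductSpace ℝ E] [FiniteDimensional ℝ E]
  [MeasurableSpace E] [BorelSpace E] {G : Subgroup (E ≃ₗᵢ[ℝ] E)}

omit [FiniteDimensional ℝ E] [MeasurableSpace E] [BorelSpace E] in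
/-- An invariant subspace is orthogonal to the axis or contains it. -/
theorem perp_or_mem [Finite G] {v : E} (hfix : ∀ g ∈ G, g v = v)
    (hline : ∀ x : E, (∀ g ∈ G, g x = x) → ∃ c : ℝ, x = c • v) {L : Submodule ℝ E}
    (hL : SInv G L) (hnot : ¬ ∀ x ∈ L, ⟪x, v⟫ = 0) : v ∈ L := by
  have := Fintype.ofFinite G
  push Not at hnot
  obtain ⟨x, hx, hxv⟩ := hnot
  obtain ⟨c, hc⟩ := hline (avg G x) (avg_fixed x)
  have h1 := inner_avg hfix x
  have h2 : avg G x ∈ L := by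
    unfold avg
    exact L.smul_mem _ (L.sum_mem fun g _ => hL g g.2 x hx)
  have hc0 : c ≠ 0 := by
    rintro rfl
    rw [zero_smul] at hc
    rw [hc, inner_zero_left] at h1
    exact hxv h1.symm
  have h3 : v = c⁻¹ • avg G x := by
    rw [hc, inv_smul_smul₀ hc0]
  rw [h3]
  exact L.smul_mem _ h2

/-- **The characterisation.** -/
theorem char_axis [Finite G] {v : E} (hfix : ∀ g ∈ G, g v = v)
    (hline : ∀ x : E, (∀ g ∈ G, g x = x) → ∃ c : ℝ, x = c • v) (mu : Measure E)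
    [IsFiniteMeasure mu] (hmu0 : mu ≠ 0) (hn : 0 < Module.finrank ℝ E)
    (hmuinv : ∀ g ∈ G, ∀ s, MeasurableSet s → mu (g ⁻¹' s) = mu s)
    (hsph : mu (sphere (0 : E) 1)ᶜ = 0)
    (hP : ∀ L : Submodule ℝ E, SInv G L → v ∈ L → L ≠ ⊤ → SCC mu L ∨
      ∃ ε : ℝ, 0 < ε ∧ (mu {u | infDist u (L : Set E) < ε ∧ 0 < ⟪u, v⟫} = 0 ∨
        mu {u | infDist u (L : Set E) < ε ∧ ⟪u, v⟫ < 0} = 0)) :
    Rep G mu ↔ ∀ L : Submodule ℝ E, SInv G L → L ≠ ⊥ → (∀ x ∈ L, ⟪x, v⟫ = 0) → SCC mu L := by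
  constructor
  · intro hrep L hL _ hperp
    refine scc_of_rep hL (fun x hx hxG => ?_) hn hsph hrep
    obtain ⟨c, hc⟩ := hline x hxG
    have h1 := hperp x hx
    rw [hc, real_inner_smul_left] at h1
    rcases mul_eq_zero.1 h1 with h | h
    · rw [hc, h, zero_smul]
    · rw [hc, inner_self_eq_zero.1 h, smul_zero]
  · intro hS
    apply good_exists (Module.finrank ℝ E) E G v mu rfl hn hfix hline hmu0 hmuinv hsph
    intro L hL hL' hLG
    by_cases hperp : ∀ x ∈ L, ⟪x, v⟫ = 0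
    · exact Or.inl (hS L hLG hL hperp)
    have hvL := perp_or_mem hfix hline hLG hperp
    have hv0 : v ≠ 0 := by
      rintro rfl
      exact hperp fun x _ => inner_zero_right x
    rcases hP L hLG hvL hL' with h | ⟨ε, hε, h | h⟩
    · exact Or.inl h
    · exact Or.inr ⟨v, hvL, hfix, hv0, ε, hε, h⟩
    · refine Or.inr ⟨-v, L.neg_mem hvL, fun g hg => by rw [map_neg, hfix g hg],
        neg_ne_zero.2 hv0, ε, hε, ?_⟩
      have h1 : {u : E | infDist u (L : Set E) < ε ∧ 0 < ⟪u, -v⟫} =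
          {u | infDist u (L : Set E) < ε ∧ ⟪u, v⟫ < 0} := by
        ext u
        simp only [mem_ofPred_eq, inner_neg_right, Left.neg_pos_iff]
      rw [h1]
      exact h

end Pool.Agent.Lib.MP_abca01_gt.Sym
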