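import Pool.Agent.Lib.MP_abca01_gt.Sym.SFinG

/-!
# Cone volume measures with a fixed axis, 13: the theorem
-/

set_option autoImplicit false

open MeasureTheory Set Metric Filter Topology
open scoped RealInnerProductSpace Pointwise

namespace Pool.Agent.Lib.MP_abca01_gt.Sym

open Ess

variable {E : Type} [NormedAddCommGroup E] [InnerProductSpace ℝ E] [FiniteDimensional ℝ E]
  [MeasurableSpace E] [BorelSpace E] {G : Subgroup (E ≃ₗᵢ[ℝ] E)}

/-- The support of a measure. -/
def msupp (mu : Measure E) : Set E := {u | ∀ r : ℝ, 0 < r → mu (ball u r) ≠ 0}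

omit [InnerProductSpace ℝ E] [FiniteDimensional ℝ E] [BorelSpace E] in
theorem isClosed_msupp (mu : Measure E) : IsClosed (msupp mu) := by
  rw [← isOpen_compl_iff, Metric.isOpen_iff]
  intro u hu
  have hu' : ¬ ∀ r : ℝ, 0 < r → mu (ball u r) ≠ 0 := hu
  push Not at hu'
  obtain ⟨r, hr, h0⟩ := hu'
  refine ⟨r / 2, by positivity, fun w hw hcon => ?_⟩
  refine hcon (r / 2) (by positivity) (measure_mono_null ?_ h0)
  intro x hx
  rw [mem_ball] at hw hx ⊢
  have := dist_triangle x w u
  linarith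

omit [InnerProductSpace ℝ E] [FiniteDimensional ℝ E] [BorelSpace E] in
theorem notMem_of_null {mu : Measure E} {U : Set E} (hU : IsOpen U) (h0 : mu U = 0) {u : E}
    (hu : u ∈ msupp mu) : u ∉ U := by
  intro hmem
  obtain ⟨r, hr, hsub⟩ := Metric.isOpen_iff.1 hU u hmem
  exact hu r hr (measure_mono_null hsub h0)

omit [BorelSpace E] in
theorem measure_msupp (mu : Measure E) : mu (msupp mu)ᶜ = 0 := by
  apply measure_null_of_locally_null
  intro u hu
  have hu' : ¬ ∀ r : ℝ, 0 < r → mu (ball u r) ≠ 0 := hu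
  push Not at hu'
  obtain ⟨r, hr, h0⟩ := hu'
  exact ⟨ball u r, mem_nhdsWithin_of_mem_nhds (ball_mem_nhds u hr), h0⟩

omit [FiniteDimensional ℝ E] in
theorem inv_msupp {mu : Measure E}
    (hmuinv : ∀ g ∈ G, ∀ s, MeasurableSet s → mu (g ⁻¹' s) = mu s) : Inv G (msupp mu) := by
  intro g hg u hu r hr
  have h1 : g ⁻¹' ball (g u) r = ball u r := by
    ext x
    rw [mem_preimage, mem_ball, mem_ball, g.dist_map]
  rw [← hmuinv g hg _ isOpen_ball.measurableSet, h1]
  exact hu r hr

/-- The hypothesis on the invariant subspaces. -/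
def Cond (G : Subgroup (E ≃ₗᵢ[ℝ] E)) (v : E) (mu : Measure E) : Prop :=
  ∀ L : Submodule ℝ E, L ≠ ⊥ → L ≠ ⊤ → (∀ g ∈ G, ∀ x ∈ L, g x ∈ L) →
    (Module.finrank ℝ E : ℝ) * mu.real (L : Set E) < Module.finrank ℝ L * mu.real univ ∨
    (v ∈ L ∧ ∃ ε : ℝ, 0 < ε ∧ (mu {u | infDist u (L : Set E) < ε ∧ 0 < ⟪u, v⟫} = 0 ∨
      mu {u | infDist u (L : Set E) < ε ∧ ⟪u, v⟫ < 0} = 0))

theorem hypEq_of_cond {v : E} (hA : Axis G v) {mu : Measure E} (hC : Cond G v mu) :
    HypEq G v mu := by
  intro L hL hLv hLG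
  have hvv : ⟪v, v⟫ = 1 := by
    rw [real_inner_self_eq_norm_sq, hA.norm]
    norm_num
  have hvL : v ∉ L := by
    intro h
    have := hLv v h
    rw [hvv] at this
    exact one_ne_zero this
  rcases hC L hL (by
    rintro rfl
    exact hvL trivial) hLG with h | ⟨h, -⟩
  · exact h
  · exact absurd h hvL

/-- **Theorem.** Invariant measures with a fixed axis. -/
theorem axis_theorem [Finite G] {v : E} (hA : Axis G v) (mu : Measure E) [IsFiniteMeasure mu]
    (hmu0 : mu ≠ 0) (hmuinv : ∀ g ∈ G, ∀ s, MeasurableSet s → mu (g ⁻¹' s) = mu s)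
    (hsph : mu (sphere (0 : E) 1)ᶜ = 0) (hC : Cond G v mu) :
    ∃ K : Set E, IsCompact K ∧ Convex ℝ K ∧ (interior K).Nonempty ∧ (0 : E) ∈ K ∧ Inv G K ∧
      ∀ ω : Set E, MeasurableSet ω → ω ⊆ sphere (0 : E) 1 → volume (segs K ω) = mu ω := by
  by_cases hneg : mu {u | ⟪u, v⟫ < 0} = 0
  · exact apex hA mu hmu0 hmuinv hsph hneg (hypEq_of_cond hA hC)
  by_cases hposi : mu {u | 0 < ⟪u, v⟫} = 0
  · apply apex hA.neg mu hmu0 hmuinv hsph
    · have h1 : {u : E | ⟪u, -v⟫ < 0} = {u | 0 < ⟪u, v⟫} := by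
        ext u
        simp only [mem_ofPred_eq, inner_neg_right, neg_lt_zero]
      rw [h1]
      exact hposi
    · intro L hL hLv hLG
      refine hypEq_of_cond hA hC L hL (fun x hx => ?_) hLG
      have h1 := hLv x hx
      rwa [inner_neg_right, neg_eq_zero] at h1
  -- both sides
  have := Fintype.ofFinite G
  have hMpos : 0 < mu.real univ := by
    rw [measureReal_def, ENNReal.toReal_pos_iff]
    refine ⟨?_, measure_lt_top _ _⟩
    rw [pos_iff_ne_zero]
    simpa using hmu0
  have hv0 : v ≠ 0 := by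
    intro h
    have h1 := hA.norm
    rw [h, norm_zero] at h1
    exact zero_ne_one h1
  have hn : 0 < Module.finrank ℝ E := by
    have : Nontrivial E := ⟨v, 0, hv0⟩
    exact Module.finrank_pos
  set Sg : Set E := msupp mu with hSg
  have hSgmu : mu Sgᶜ = 0 := measure_msupp mu
  have hSgc : IsClosed Sg := isClosed_msupp mu
  have hSgG : Inv G Sg := inv_msupp hmuinv
  have hSgs : Sg ⊆ sphere (0 : E) 1 := by
    intro u hu
    by_contra hcon
    exact notMem_of_null isClosed_sphere.isOpen_compl hsph hu hcon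
  have hinter : ∀ U : Set E, mu U ≠ 0 → ∃ u ∈ Sg, u ∈ U := by
    intro U hU
    by_contra hcon
    push Not at hcon
    apply hU
    refine measure_mono_null (fun u hu => ?_) hSgmu
    intro hmem
    exact hcon u hmem hu
  obtain ⟨up, hup, hup0⟩ := hinter _ hposi
  obtain ⟨um, hum, hum0⟩ := hinter _ hneg
  have hup0' : 0 < ⟪up, v⟫ := hup0
  have hum0' : ⟪um, v⟫ < 0 := hum0
  have hsum : ∀ w x : E, ∑ g : G, ⟪(g : E ≃ₗᵢ[ℝ] E) w, x⟫ =
      (Fintype.card G : ℝ) * ⟪w, v⟫ * ⟪v, x⟫ := by
    intro w x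
    rw [← sum_inner, hA.sum, real_inner_smul_left]
  have hopen : ∀ (L : Submodule ℝ E) (ε : ℝ), IsOpen {u | infDist u (L : Set E) < ε ∧ 0 < ⟪u, v⟫} ∧
      IsOpen {u | infDist u (L : Set E) < ε ∧ ⟪u, v⟫ < 0} := by
    intro L ε
    have h1 : IsOpen {u : E | infDist u (L : Set E) < ε} :=
      isOpen_lt (continuous_infDist_pt _) continuous_const
    have h2 : IsOpen {u : E | 0 < ⟪u, v⟫} := isOpen_lt continuous_const (by fun_prop)
    have h3 : IsOpen {u : E | ⟪u, v⟫ < 0} := isOpen_lt (by fun_prop) continuous_const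
    exact ⟨h1.inter h2, h1.inter h3⟩
  have hex : ∀ x : E, x ≠ 0 → ∃ u ∈ Sg, ⟪u, x⟫ < 0 := by
    intro x hx
    by_contra hcon
    push Not at hcon
    have hc0 : ∀ w ∈ Sg, 0 ≤ (Fintype.card G : ℝ) * ⟪w, v⟫ * ⟪v, x⟫ := by
      intro w hw
      rw [← hsum]
      exact Finset.sum_nonneg fun g _ => hcon _ (hSgG g g.2 w hw)
    have hcard := card_pos' G
    rcases lt_trichotomy ⟪v, x⟫ 0 with h1 | h1 | h1
    · have h2 := hc0 up hup
      have h3 : (Fintype.card G : ℝ) * ⟪up, v⟫ * ⟪v, x⟫ < 0 :=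
        mul_neg_of_pos_of_neg (mul_pos hcard hup0') h1
      linarith
    · have h2 : ∀ u ∈ Sg, ⟪u, x⟫ = 0 := by
        intro u hu
        have h3 := hsum u x
        rw [h1, mul_zero] at h3
        have h5 : ∀ g ∈ (Finset.univ : Finset G), 0 ≤ ⟪(g : E ≃ₗᵢ[ℝ] E) u, x⟫ :=
          fun g _ => hcon _ (hSgG g g.2 u hu)
        exact (Finset.sum_eq_zero_iff_of_nonneg h5).1 h3 1 (Finset.mem_univ _)
      have h3 : ∀ y ∈ Submodule.span ℝ Sg, ⟪y, x⟫ = 0 := by
        intro y hy
        induction hy using Submodule.span_induction with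
        | mem y hy => exact h2 y hy
        | zero => exact inner_zero_left _
        | add y z _ _ hy hz => rw [inner_add_left, hy, hz, add_zero]
        | smul a y _ hy => rw [real_inner_smul_left, hy, mul_zero]
      have hLtop : Submodule.span ℝ Sg ≠ ⊤ := by
        intro h
        have h4 := h3 x (by rw [h]; trivial)
        exact hx (inner_self_eq_zero.1 h4)
      have hupL : up ∈ Submodule.span ℝ Sg := Submodule.subset_span hup
      have humL : um ∈ Submodule.span ℝ Sg := Submodule.subset_span hum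
      have hLbot : Submodule.span ℝ Sg ≠ ⊥ := by
        intro h
        rw [h, Submodule.mem_bot] at hupL
        rw [hupL, inner_zero_left] at hup0'
        exact lt_irrefl _ hup0'
      have hLG : ∀ g ∈ G, ∀ y ∈ Submodule.span ℝ Sg, g y ∈ Submodule.span ℝ Sg := by
        intro g hg y hy
        induction hy using Submodule.span_induction with
        | mem y hy => exact Submodule.subset_span (hSgG g hg y hy)
        | zero => rw [map_zero]; exact Submodule.zero_mem _
        | add y z _ _ hy hz => rw [map_add]; exact Submodule.add_mem _ hy hz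
        | smul a y _ hy => rw [map_smul]; exact Submodule.smul_mem _ _ hy
      rcases hC _ hLbot hLtop hLG with h4 | ⟨-, ε, hε, h4⟩
      · have h5 : mu.real ((Submodule.span ℝ Sg : Submodule ℝ E) : Set E) = mu.real univ := by
          rw [measureReal_def, measureReal_def]
          congr 1
          apply measure_congr
          have h6 : ∀ᵐ u ∂mu, u ∈ Sg := hSgmu
          filter_upwards [h6] with u hu
          apply propext
          exact ⟨fun _ => trivial, fun _ => Submodule.subset_span hu⟩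
        rw [h5] at h4
        have h6 : (Module.finrank ℝ (Submodule.span ℝ Sg) : ℝ) ≤ Module.finrank ℝ E := by
          exact_mod_cast Submodule.finrank_le _
        have h7 := mul_le_mul_of_nonneg_right h6 hMpos.le
        linarith
      · rcases h4 with h4 | h4
        · refine notMem_of_null (hopen _ ε).1 h4 hup ⟨?_, hup0'⟩
          rw [infDist_zero_of_mem hupL]
          exact hε
        · refine notMem_of_null (hopen _ ε).2 h4 hum ⟨?_, hum0'⟩
          rw [infDist_zero_of_mem humL]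
          exact hε
    · have h2 := hc0 um hum
      have h3 : (Fintype.card G : ℝ) * ⟪um, v⟫ * ⟪v, x⟫ < 0 :=
        mul_neg_of_neg_of_pos (mul_neg_of_pos_of_neg hcard hum0') h1
      linarith
  have hpl : ∀ x : E, x ≠ 0 → mu {u | ⟪u, x⟫ ≠ 0} ≠ 0 := by
    intro x hx h0
    obtain ⟨u, hu, hux⟩ := hex x hx
    have hU : IsOpen {u : E | ⟪u, x⟫ ≠ 0} := isOpen_ne_fun (by fun_prop) continuous_const
    exact notMem_of_null hU h0 hu hux.ne
  apply two_sided mu hn hmuinv Sg hSgc hSgG hSgs hSgmu hex hpl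
  intro L hL hL' hLG
  rcases hC L hL hL' hLG with h | ⟨hvL, ε, hε, h | h⟩
  · exact Or.inl h
  · refine Or.inr ⟨v, hvL, hv0, ε, hε, fun u hu hd => ?_⟩
    by_contra hcon
    exact notMem_of_null (hopen L ε).1 h hu ⟨hd, not_le.1 hcon⟩
  · refine Or.inr ⟨-v, L.neg_mem hvL, neg_ne_zero.2 hv0, ε, hε, fun u hu hd => ?_⟩
    rw [inner_neg_right, neg_nonpos]
    by_contra hcon
    exact notMem_of_null (hopen L ε).2 h hu ⟨hd, not_le.1 hcon⟩

end Pool.Agent.Lib.MP_abca01_gt.Sym
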