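import Pool.Agent.Lib.MP_abca01_gt.Sym.SBase

/-!
# Cone volume measures with a fixed axis, 8: the cone volume measure is a measure

and two invariant measures which agree on the invariant sets are equal.
-/

set_option autoImplicit false

open MeasureTheory Set Metric Filter Topology
open scoped RealInnerProductSpace Pointwise ENNReal

namespace Pool.Agent.Lib.MP_abca01_gt.Sym

open Borelaux

variable {E : Type} [NormedAddCommGroup E] [InnerProductSpace ℝ E]

theorem segs_union (K ω ω' : Set E) : segs K (ω ∪ ω') = segs K ω ∪ segs K ω' := by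
  ext x
  constructor
  · rintro ⟨u, hu | hu, hx⟩
    · exact Or.inl ⟨u, hu, hx⟩
    · exact Or.inr ⟨u, hu, hx⟩
  · rintro (⟨u, hu, hx⟩ | ⟨u, hu, hx⟩)
    · exact ⟨u, Or.inl hu, hx⟩
    · exact ⟨u, Or.inr hu, hx⟩

theorem segs_iUnion (K : Set E) (f : ℕ → Set E) : segs K (⋃ i, f i) = ⋃ i, segs K (f i) := by
  ext x
  constructor
  · rintro ⟨u, hu, hx⟩
    obtain ⟨i, hi⟩ := mem_iUnion.1 hu
    exact mem_iUnion.2 ⟨i, u, hi, hx⟩
  · intro h
    obtain ⟨i, u, hu, hx⟩ := mem_iUnion.1 h
    exact ⟨u, mem_iUnion.2 ⟨i, hu⟩, hx⟩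

theorem segs_empty (K : Set E) : segs K ∅ = ∅ := by
  ext x
  constructor
  · rintro ⟨u, hu, -⟩
    exact absurd hu (notMem_empty u)
  · intro h
    exact absurd h (notMem_empty x)

variable [FiniteDimensional ℝ E] [MeasurableSpace E] [BorelSpace E]

theorem nullMeas (hov : StmtOverlap) (lam : Measure E) [lam.IsAddHaarMeasure] {K : Set E}
    (hK : IsCompact K) (hKc : Convex ℝ K) (h0 : (0 : E) ∈ K) {s : Set E} (hs : MeasurableSet s) :
    NullMeasurableSet (segs K (s ∩ sphere 0 1)) lam := by
  have hU : IsCompact (segs K (sphere (0 : E) 1)) := isCompact_segs hK (isCompact_sphere 0 1)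
  have key : ∀ (s : Set E) (_ : MeasurableSet[MeasurableSpace.generateFrom {s | IsClosed s}] s),
      NullMeasurableSet (segs K (s ∩ sphere 0 1)) lam := by
    refine MeasurableSpace.generateFrom_induction _ _ ?_ ?_ ?_ ?_
    · intro t ht _
      have ht' : IsClosed t := ht
      exact (isCompact_segs hK ((isCompact_sphere (0 : E) 1).inter_left ht')).measurableSet.nullMeasurableSet
    · rw [empty_inter, segs_empty]
      exact nullMeasurableSet_empty
    · intro t _ ih
      have h1 : lam (segs K (t ∩ sphere 0 1) ∩ segs K (tᶜ ∩ sphere 0 1)) = 0 :=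
        hov E lam K _ _ hK hKc h0 inter_subset_right inter_subset_right (by
          rw [Set.disjoint_left]
          intro u hu hu'
          exact hu'.1 hu.1)
      have h2 : segs K (sphere (0 : E) 1) =
          segs K (t ∩ sphere 0 1) ∪ segs K (tᶜ ∩ sphere 0 1) := by
        rw [← segs_union, ← union_inter_distrib_right, union_compl_self, univ_inter]
      refine (hU.measurableSet.nullMeasurableSet.diff ih).congr ?_
      rw [ae_eq_set]
      constructor
      · have h3 : (segs K (sphere (0 : E) 1) \ segs K (t ∩ sphere 0 1)) \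
            segs K (tᶜ ∩ sphere 0 1) = ∅ := by
          rw [h2]
          rw [eq_empty_iff_forall_notMem]
          rintro x ⟨⟨hx1 | hx1, hx2⟩, hx3⟩
          · exact hx2 hx1
          · exact hx3 hx1
        rw [h3, measure_empty]
      · refine measure_mono_null ?_ h1
        rintro x ⟨hx, hx'⟩
        refine ⟨?_, hx⟩
        by_contra hcon
        apply hx'
        refine ⟨?_, hcon⟩
        rw [h2]
        exact Or.inr hx
    · intro f _ ih
      rw [iUnion_inter, segs_iUnion]
      exact NullMeasurableSet.iUnion ih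
  apply key
  rw [← borel_eq_generateFrom_isClosed, ← BorelSpace.measurable_eq (α := E)]
  exact hs

/-- The cone volume measure, as a measure on the whole space. -/
noncomputable def cm (hov : StmtOverlap) (lam : Measure E) [lam.IsAddHaarMeasure] {K : Set E}
    (hK : IsCompact K) (hKc : Convex ℝ K) (h0 : (0 : E) ∈ K) : Measure E :=
  Measure.ofMeasurable (fun s _ => lam (segs K (s ∩ sphere 0 1)))
    (by rw [empty_inter, segs_empty, measure_empty])
    (by
      intro f hf hd
      rw [iUnion_inter, segs_iUnion]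
      apply measure_iUnion₀
      · intro i j hij
        apply hov E lam K _ _ hK hKc h0 inter_subset_right inter_subset_right
        exact (hd hij).mono inter_subset_left inter_subset_left
      · intro i
        exact nullMeas hov lam hK hKc h0 (hf i))

theorem cm_apply (hov : StmtOverlap) (lam : Measure E) [lam.IsAddHaarMeasure] {K : Set E}
    (hK : IsCompact K) (hKc : Convex ℝ K) (h0 : (0 : E) ∈ K) {s : Set E} (hs : MeasurableSet s) :
    cm hov lam hK hKc h0 s = lam (segs K (s ∩ sphere 0 1)) :=
  Measure.ofMeasurable_apply s hs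

variable {G : Subgroup (E ≃ₗᵢ[ℝ] E)}

omit [FiniteDimensional ℝ E] in
/-- Two invariant measures which agree on the invariant sets are equal. -/
theorem eq_of_inv [Finite G] (mu nu : Measure E)
    (hmu : ∀ g ∈ G, ∀ s, MeasurableSet s → mu (g ⁻¹' s) = mu s)
    (hnu : ∀ g ∈ G, ∀ s, MeasurableSet s → nu (g ⁻¹' s) = nu s)
    (h : ∀ s, MeasurableSet s → Inv G s → mu s = nu s) : mu = nu := by
  have := Fintype.ofFinite G
  apply Measure.ext
  intro A hA
  let f : E → ℝ≥0∞ := fun x => ∑ g : G, A.indicator 1 ((g : E ≃ₗᵢ[ℝ] E) x)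
  have hgm : ∀ g : G, Measurable fun x => A.indicator (1 : E → ℝ≥0∞) ((g : E ≃ₗᵢ[ℝ] E) x) :=
    fun g => (measurable_one.indicator hA).comp (g : E ≃ₗᵢ[ℝ] E).continuous.measurable
  have hf : Measurable f := Finset.measurable_sum _ fun g _ => hgm g
  have hfinv : ∀ h ∈ G, ∀ x, f (h x) = f x := by
    intro h hh x
    exact Fintype.sum_equiv (Equiv.mulRight ⟨h, hh⟩) _ _ fun g => rfl
  have hint : ∀ rho : Measure E, (∀ g ∈ G, ∀ s, MeasurableSet s → rho (g ⁻¹' s) = rho s) →
      ∫⁻ x, f x ∂rho = Fintype.card G * rho A := by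
    intro rho hrho
    simp only [f]
    rw [lintegral_finsetSum _ fun g _ => hgm g]
    have h1 : ∀ g ∈ (Finset.univ : Finset G),
        ∫⁻ x, A.indicator (1 : E → ℝ≥0∞) ((g : E ≃ₗᵢ[ℝ] E) x) ∂rho = rho A := by
      intro g _
      have h2 : (fun x => A.indicator (1 : E → ℝ≥0∞) ((g : E ≃ₗᵢ[ℝ] E) x)) =
          ((g : E ≃ₗᵢ[ℝ] E) ⁻¹' A).indicator 1 := by
        ext x
        rfl
      rw [h2, lintegral_indicator_one (hA.preimage (g : E ≃ₗᵢ[ℝ] E).continuous.measurable),
        hrho _ g.2 A hA]
    rw [Finset.sum_congr rfl h1, Finset.sum_const, Finset.card_univ, nsmul_eq_mul]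
  have hmap : mu.map f = nu.map f := by
    apply Measure.ext
    intro B hB
    rw [Measure.map_apply hf hB, Measure.map_apply hf hB]
    apply h _ (hf hB)
    intro g hg x hx
    rw [mem_preimage, hfinv g hg]
    exact hx
  have h1 : ∫⁻ x, f x ∂mu = ∫⁻ x, f x ∂nu := by
    have h2 : ∀ rho : Measure E, ∫⁻ x, f x ∂rho = ∫⁻ y, y ∂(rho.map f) := by
      intro rho
      rw [lintegral_map measurable_id' hf]
    rw [h2 mu, h2 nu, hmap]
  rw [hint mu hmu, hint nu hnu] at h1
  have hc : (Fintype.card G : ℝ≥0∞) ≠ 0 := by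
    exact_mod_cast Fintype.card_ne_zero
  exact (ENNReal.mul_right_inj hc (ENNReal.natCast_ne_top _)).1 h1

/-- From the inequality for invariant compact sets to equality for all Borel sets. -/
theorem borel_inv [Finite G] (hov : StmtOverlap) {K : Set E} (hK : IsCompact K)
    (hKc : Convex ℝ K) (h0 : (0 : E) ∈ K) (hKinv : Inv G K) (mu : Measure E) [IsFiniteMeasure mu]
    (hmu : ∀ g ∈ G, ∀ s, MeasurableSet s → mu (g ⁻¹' s) = mu s)
    (hsph : mu (sphere (0 : E) 1)ᶜ = 0)
    (hineq : ∀ ω : Set E, IsCompact ω → ω ⊆ sphere (0 : E) 1 → Inv G ω →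
      mu.real ω * volume.real K ≤ mu.real univ * volume.real (segs K ω)) :
    ∀ ω : Set E, MeasurableSet ω → ω ⊆ sphere (0 : E) 1 →
      mu.real univ * volume.real (segs K ω) = mu.real ω * volume.real K := by
  have hKfin : (volume : Measure E) K ≠ ⊤ := hK.measure_lt_top.ne
  have hVK : ENNReal.ofReal (volume.real K) = volume K := ENNReal.ofReal_toReal hKfin
  set nu : Measure E := cm hov volume hK hKc h0 with hnu
  have hnuap : ∀ s : Set E, MeasurableSet s → nu s = volume (segs K (s ∩ sphere 0 1)) :=
    fun s hs => cm_apply hov volume hK hKc h0 hs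
  have hsegfin : ∀ ω : Set E, (volume : Measure E) (segs K ω) ≠ ⊤ := fun ω =>
    measure_ne_top_of_subset (segs_subset hKc h0) hKfin
  have hnufin : IsFiniteMeasure nu := by
    constructor
    rw [hnuap univ MeasurableSet.univ]
    exact (hsegfin _).lt_top
  have hnuinv : ∀ g ∈ G, ∀ s, MeasurableSet s → nu (g ⁻¹' s) = nu s := by
    intro g hg s hs
    rw [hnuap _ (hs.preimage g.continuous.measurable), hnuap s hs]
    have h1 : g ⁻¹' s ∩ sphere 0 1 = (g⁻¹ : E ≃ₗᵢ[ℝ] E) '' (s ∩ sphere 0 1) := by
      ext x
      constructor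
      · rintro ⟨hx, hx'⟩
        exact ⟨g x, ⟨hx, inv_sphere G 1 g hg x hx'⟩, inv_apply' g x⟩
      · rintro ⟨y, ⟨hy, hy'⟩, rfl⟩
        refine ⟨?_, inv_sphere G 1 _ (G.inv_mem hg) y hy'⟩
        rw [mem_preimage, inv_apply]
        exact hy
    rw [h1, segs_image hKinv (G.inv_mem hg)]
    have h2 : (g⁻¹ : E ≃ₗᵢ[ℝ] E) '' segs K (s ∩ sphere 0 1) =
        g ⁻¹' segs K (s ∩ sphere 0 1) := by
      ext x
      constructor
      · rintro ⟨y, hy, rfl⟩
        rw [mem_preimage, inv_apply]
        exact hy
      · intro hx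
        exact ⟨g x, hx, inv_apply' g x⟩
    rw [h2]
    exact g.measurePreserving.measure_preimage (nullMeas hov volume hK hKc h0 hs)
  have hM0 : 0 ≤ mu.real univ := measureReal_nonneg
  have hV0 : 0 ≤ (volume : Measure E).real K := measureReal_nonneg
  -- the inequality for invariant Borel sets
  have hlow : ∀ s : Set E, MeasurableSet s → Inv G s →
      mu.real s * volume.real K ≤ mu.real univ * nu.real s := by
    intro s hs hinv
    have hs1 : mu.real s = mu.real (s ∩ sphere 0 1) := by
      rw [measureReal_def, measureReal_def]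
      congr 1
      apply measure_congr
      have h1 : ∀ᵐ u ∂mu, u ∈ sphere (0 : E) 1 := hsph
      filter_upwards [h1] with u hu
      apply propext
      exact ⟨fun h => ⟨h, hu⟩, fun h => h.1⟩
    apply le_of_forall_pos_le_add
    intro ε hε
    obtain ⟨ω', hω'sub, hω'c, hω'⟩ := exists_compact mu (hs.inter isClosed_sphere.measurableSet)
      (show 0 < ε / (volume.real K + 1) by positivity)
    have hsub : orb G ω' ⊆ s ∩ sphere 0 1 :=
      orb_subset (hinv.inter (inv_sphere G 1)) hω'sub
    have h2 := hineq (orb G ω') (isCompact_orb hω'c) (hsub.trans inter_subset_right) (inv_orb ω')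
    have h3 : mu.real ω' ≤ mu.real (orb G ω') := measureReal_mono (subset_orb ω')
    have h4 : volume.real (segs K (orb G ω')) ≤ nu.real s := by
      have h5 : nu.real s = volume.real (segs K (s ∩ sphere 0 1)) := by
        rw [measureReal_def, hnuap s hs, measureReal_def]
      rw [h5]
      exact measureReal_mono (segs_mono hsub) (hsegfin _)
    have h5 : mu.real univ * volume.real (segs K (orb G ω')) ≤ mu.real univ * nu.real s :=
      mul_le_mul_of_nonneg_left h4 hM0
    rw [hs1]
    have h6 : mu.real (s ∩ sphere 0 1) * volume.real K ≤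
        (mu.real (orb G ω') + ε / (volume.real K + 1)) * volume.real K :=
      mul_le_mul_of_nonneg_right (by linarith) hV0
    have h7 : ε / (volume.real K + 1) * volume.real K ≤ ε := by
      rw [div_mul_eq_mul_div, div_le_iff₀ (by positivity)]
      nlinarith
    nlinarith
  have hnuE : nu.real univ ≤ volume.real K := by
    rw [measureReal_def, hnuap univ MeasurableSet.univ, ← measureReal_def]
    exact measureReal_mono (segs_subset hKc h0) hKfin
  -- equality for invariant Borel sets
  have heq : ∀ s : Set E, MeasurableSet s → Inv G s →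
      mu.real s * volume.real K = mu.real univ * nu.real s := by
    intro s hs hinv
    apply le_antisymm (hlow s hs hinv)
    have h1 := hlow sᶜ hs.compl hinv.compl
    have h2 := measureReal_add_measureReal_compl (μ := mu) hs
    have h3 := measureReal_add_measureReal_compl (μ := nu) hs
    have h4 : mu.real univ * nu.real univ ≤ mu.real univ * volume.real K :=
      mul_le_mul_of_nonneg_left hnuE hM0
    have h5 : mu.real sᶜ = mu.real univ - mu.real s := by linarith
    have h6 : nu.real sᶜ = nu.real univ - nu.real s := by linarith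
    rw [h5, h6] at h1
    nlinarith
  have hall : (ENNReal.ofReal (volume.real K)) • mu = (ENNReal.ofReal (mu.real univ)) • nu := by
    apply eq_of_inv (G := G)
    · intro g hg s hs
      simp only [Measure.smul_apply]
      rw [hmu g hg s hs]
    · intro g hg s hs
      simp only [Measure.smul_apply]
      rw [hnuinv g hg s hs]
    · intro s hs hinv
      simp only [Measure.smul_apply, smul_eq_mul]
      have h1 := heq s hs hinv
      rw [← ENNReal.ofReal_toReal (measure_ne_top mu s),
        ← ENNReal.ofReal_toReal (measure_ne_top nu s), ← ENNReal.ofReal_mul hV0,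
        ← ENNReal.ofReal_mul hM0]
      congr 1
      rw [measureReal_def mu s, measureReal_def nu s] at h1
      linarith
  intro ω hω hωs
  have h1 := congrArg (fun m : Measure E => (m ω).toReal) hall
  simp only [Measure.smul_apply, smul_eq_mul, ENNReal.toReal_mul, ENNReal.toReal_ofReal hV0,
    ENNReal.toReal_ofReal hM0] at h1
  rw [hnuap ω hω, inter_eq_left.2 hωs] at h1
  rw [measureReal_def volume (segs K ω), measureReal_def mu ω]
  linarith

end Pool.Agent.Lib.MP_abca01_gt.Sym
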