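import Pool.Agent.Lib.MP_abca01_gt.Variation

/-!
# Cone volume measures with a fixed axis, 7: variation by one family of cut offs

The proof of `stmtVariation`, which uses only the bodies `cut K ω t`.
-/

set_option autoImplicit false

open MeasureTheory Set Metric Filter Topology
open scoped RealInnerProductSpace Pointwise

namespace Pool.Agent.Lib.MP_abca01_gt.Sym

open Variationaux

theorem variation_cut (h1 : StmtVolDeriv) (E : Type) [NormedAddCommGroup E]
    [InnerProductSpace ℝ E] [FiniteDimensional ℝ E] [MeasurableSpace E] [BorelSpace E]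
    (lam mu : Measure E) [lam.IsAddHaarMeasure] [IsFiniteMeasure mu] (K : Set E) (t₀ c : ℝ)
    (hK : IsCompact K) (hKc : Convex ℝ K) (h0 : (0 : E) ∈ K) (hV : 0 < lam.real K)
    (ht₀ : 0 < t₀) (ht₀1 : t₀ < 1) (hc : 0 < c) (hmu : mu ≠ 0)
    (hae : ∀ᵐ u ∂mu, ‖u‖ = 1 ∧ c ≤ supp K u) (ω : Set E) (hω : IsCompact ω)
    (hωs : ω ⊆ sphere (0 : E) 1)
    (hmin : ∀ t : ℝ, 0 < t → t ≤ t₀ → Phi lam mu K ≤ Phi lam mu (cut K ω t)) :
    mu.real ω * lam.real K ≤ mu.real univ * lam.real (segs K ω) := by
  have hne : K.Nonempty := ⟨0, h0⟩
  -- the dimension is positive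
  have hMpos : 0 < mu.real univ := by
    rw [measureReal_def, ENNReal.toReal_pos_iff]
    refine ⟨?_, measure_lt_top _ _⟩
    rw [pos_iff_ne_zero]
    simpa using hmu
  have hn : 0 < Module.finrank ℝ E := by
    haveI : (ae mu).NeBot := ae_neBot.mpr hmu
    obtain ⟨u, hu⟩ := hae.exists
    haveI : Nontrivial E := ⟨u, 0, by
      intro h
      rw [h, norm_zero] at hu
      exact zero_ne_one hu.1⟩
    exact Module.finrank_pos
  set n : ℕ := Module.finrank ℝ E with hndef
  have hn' : (0 : ℝ) < n := by exact_mod_cast hn
  set M : ℝ := mu.real univ with hMdef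
  set V : ℝ := lam.real K with hVdef
  set S : ℝ := lam.real (segs K ω) with hSdef
  set p : ℝ := n * mu.real ω / M with hpdef
  -- main inequality for small t
  have key : ∀ ε : ℝ, 0 < ε → V * p ≤ n * (S + ε) := by
    intro ε hε
    obtain ⟨t₁, ht₁0, ht₁1, hvol⟩ := h1 E lam K ω hK hKc h0 hω hωs ε hε
    have hstep : ∀ t : ℝ, 0 < t → t ≤ min t₀ t₁ →
        0 ≤ (1 - (1 - t) ^ n) * (S + ε) - V * (1 - Real.exp (p * Real.log (1 - t))) := by
      intro t ht htm
      have htt₀ : t ≤ t₀ := htm.trans (min_le_left _ _)
      have htt₁ : t ≤ t₁ := htm.trans (min_le_right _ _)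
      have ht1 : t < 1 := lt_of_le_of_lt htt₀ ht₀1
      have hsub : (1 - t) • K ⊆ cut K ω t := smul_subset_cut hK hKc h0 ht.le ht1.le
      have hcutK : cut K ω t ⊆ K := fun x hx => hx.1
      have hcutc : IsCompact (cut K ω t) := isCompact_cut hK t
      have hmin' := hmin t ht htt₀
      have h0c : (0 : E) ∈ cut K ω t := hsub ⟨0, h0, by simp⟩
      have hnec : (cut K ω t).Nonempty := ⟨0, h0c⟩
      -- volume positive
      have hV' : 0 < lam.real (cut K ω t) := by
        have h2 : lam.real ((1 - t) • K) ≤ lam.real (cut K ω t) :=
          measureReal_mono hsub hcutc.measure_lt_top.ne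
        have h3 : lam.real ((1 - t) • K) = (1 - t) ^ n * V := by
          rw [measureReal_def, Measure.addHaar_smul, ENNReal.toReal_mul,
            ENNReal.toReal_ofReal (abs_nonneg _), abs_of_nonneg (pow_nonneg (by linarith) _)]
          rfl
        have h4 : 0 < (1 - t) ^ n * V := mul_pos (pow_pos (by linarith) _) hV
        linarith
      have hae' : ∀ᵐ u ∂mu, ‖u‖ = 1 ∧ (1 - t) * c ≤ supp (cut K ω t) u := by
        filter_upwards [hae] with u hu
        refine ⟨hu.1, ?_⟩
        have h2 := supp_mono (hne.smul_set (a := 1 - t)) hcutc hsub u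
        rw [supp_smul (by linarith)] at h2
        have h3 := mul_le_mul_of_nonneg_left hu.2 (show 0 ≤ 1 - t by linarith)
        linarith
      have hI1 : Integrable (fun u => Real.log (supp K u)) mu :=
        integrable_log_supp hK hne hc hae
      have hI2 : Integrable (fun u => Real.log (supp (cut K ω t) u)) mu :=
        integrable_log_supp hcutc hnec (mul_pos (by linarith) hc) hae'
      have hI3 : Integrable (ω.indicator fun _ => Real.log (1 - t)) mu :=
        (integrable_const _).indicator hω.measurableSet
      have hint : ∫ u, Real.log (supp (cut K ω t) u) ∂mu ≤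
          ∫ u, Real.log (supp K u) ∂mu + mu.real ω * Real.log (1 - t) := by
        have h2 : ∫ u, Real.log (supp (cut K ω t) u) ∂mu ≤
            ∫ u, (Real.log (supp K u) + ω.indicator (fun _ => Real.log (1 - t)) u) ∂mu := by
          apply integral_mono_ae hI2 (hI1.add hI3)
          filter_upwards [hae, hae'] with u hu hu'
          have hpos' : 0 < supp (cut K ω t) u :=
            lt_of_lt_of_le (mul_pos (by linarith) hc) hu'.2
          have hpos : 0 < supp K u := lt_of_lt_of_le hc hu.2
          by_cases huω : u ∈ ω
          · show Real.log (supp (cut K ω t) u) ≤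
              Real.log (supp K u) + ω.indicator (fun _ => Real.log (1 - t)) u
            rw [indicator_of_mem huω, ← Real.log_mul hpos.ne' (by linarith)]
            apply Real.log_le_log hpos'
            apply supp_le hnec
            intro x hx
            have := hx.2 u huω
            linarith
          · show Real.log (supp (cut K ω t) u) ≤
              Real.log (supp K u) + ω.indicator (fun _ => Real.log (1 - t)) u
            rw [indicator_of_notMem huω, add_zero]
            exact Real.log_le_log hpos' (supp_mono hnec hK hcutK u)
        rw [integral_add hI1 hI3, integral_indicator hω.measurableSet, setIntegral_const,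
          smul_eq_mul] at h2
        exact h2
      have hlog : Real.log (lam.real (cut K ω t)) ≤ Real.log V + p * Real.log (1 - t) := by
        unfold Phi at hmin'
        have h2 : M / n * (Real.log (lam.real (cut K ω t)) - Real.log V) ≤
            mu.real ω * Real.log (1 - t) := by
          have : M / n * (Real.log (lam.real (cut K ω t)) - Real.log V) =
            M / n * Real.log (lam.real (cut K ω t)) - M / n * Real.log V := by ring
          linarith
        have h3 : Real.log (lam.real (cut K ω t)) - Real.log V =
            n / M * (M / n * (Real.log (lam.real (cut K ω t)) - Real.log V)) := by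
          field_simp
        have h4 : n / M * (M / n * (Real.log (lam.real (cut K ω t)) - Real.log V)) ≤
            n / M * (mu.real ω * Real.log (1 - t)) :=
          mul_le_mul_of_nonneg_left h2 (by positivity)
        have h5 : n / M * (mu.real ω * Real.log (1 - t)) = p * Real.log (1 - t) := by
          rw [hpdef]; ring
        linarith
      have hVle : lam.real (cut K ω t) ≤ V * Real.exp (p * Real.log (1 - t)) := by
        have h2 := Real.exp_le_exp.mpr hlog
        rw [Real.exp_log hV', Real.exp_add, Real.exp_log hV] at h2
        exact h2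
      have hv := hvol t ht htt₁
      linarith
    -- derivative at zero
    have hd : HasDerivAt (fun t : ℝ => (1 - (1 - t) ^ n) * (S + ε) -
        V * (1 - Real.exp (p * Real.log (1 - t)))) (n * (S + ε) - V * p) 0 := by
      have e1 : HasDerivAt (fun t : ℝ => 1 - t) (-1) 0 := by
        simpa using (hasDerivAt_id (0 : ℝ)).const_sub 1
      have e2 : HasDerivAt (fun t : ℝ => (1 - t) ^ n) (-(n : ℝ)) 0 := by
        have := e1.fun_pow n
        simpa using this
      have e3 : HasDerivAt (fun t : ℝ => (1 - (1 - t) ^ n) * (S + ε)) (n * (S + ε)) 0 := by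
        have := (e2.const_sub 1).mul_const (S + ε)
        simpa using this
      have e4 : HasDerivAt (fun t : ℝ => Real.log (1 - t)) (-1) 0 := by
        have := e1.log (by norm_num)
        simpa using this
      have e5 : HasDerivAt (fun t : ℝ => Real.exp (p * Real.log (1 - t))) (-p) 0 := by
        have := (e4.const_mul p).exp
        simpa using this
      have e6 : HasDerivAt (fun t : ℝ => V * (1 - Real.exp (p * Real.log (1 - t)))) (V * p) 0 := by
        have := (e5.const_sub 1).const_mul V
        simpa using this
      exact e3.sub e6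
    have := deriv_nonneg_of_right (lt_min ht₀ ht₁0) (by simp) hd hstep
    linarith
  have hfin : V * p ≤ n * S := by
    apply le_of_forall_pos_le_add
    intro ε hε
    have := key (ε / n) (by positivity)
    have h2 : n * (S + ε / n) = n * S + ε := by field_simp
    linarith
  have h5 : V * p = n / M * (mu.real ω * V) := by rw [hpdef]; ring
  have h6 : n * S = n / M * (M * S) := by field_simp
  rw [h5, h6] at hfin
  exact le_of_mul_le_mul_left hfin (by positivity)

end Pool.Agent.Lib.MP_abca01_gt.Sym
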