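import Pool.Agent.Lib.MP_abca01_gt.Sym.SMin
import Pool.Agent.Lib.MP_abca01_gt.VolDeriv
import Pool.Agent.Lib.MP_abca01_gt.Overlap
import Pool.Agent.Lib.MP_abca01_gt.Sym.SVar
import Pool.Agent.Lib.MP_abca01_gt.Sym.SMeas

/-!
# Cone volume measures with a fixed axis, 9: measures on the closed hemisphere
-/

set_option autoImplicit false

open MeasureTheory Set Metric Filter Topology
open scoped RealInnerProductSpace Pointwise

namespace Pool.Agent.Lib.MP_abca01_gt.Sym

open Ess Capaux Energyaux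

variable {E : Type} [NormedAddCommGroup E] [InnerProductSpace ℝ E] [FiniteDimensional ℝ E]
  [MeasurableSpace E] [BorelSpace E] {G : Subgroup (E ≃ₗᵢ[ℝ] E)}

/-- Normalisation of the volume. -/
theorem normalise {K : Set E} (hn : 0 < Module.finrank ℝ E) (hK : IsCompact K)
    (hKc : Convex ℝ K) (h0 : (0 : E) ∈ K) (hKinv : Inv G K) (hV : 0 < volume.real K)
    (mu : Measure E) [IsFiniteMeasure mu] (hM : 0 < mu.real univ)
    (h : ∀ ω : Set E, MeasurableSet ω → ω ⊆ sphere (0 : E) 1 →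
      mu.real univ * volume.real (segs K ω) = mu.real ω * volume.real K) :
    ∃ K : Set E, IsCompact K ∧ Convex ℝ K ∧ (interior K).Nonempty ∧ (0 : E) ∈ K ∧ Inv G K ∧
      ∀ ω : Set E, MeasurableSet ω → ω ⊆ sphere (0 : E) 1 → volume (segs K ω) = mu ω := by
  set r : ℝ := (mu.real univ / volume.real K) ^ ((Module.finrank ℝ E : ℝ)⁻¹) with hrdef
  have hr : 0 < r := Real.rpow_pos_of_pos (div_pos hM hV) _
  have hrn : r ^ Module.finrank ℝ E = mu.real univ / volume.real K :=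
    Real.rpow_inv_natCast_pow (div_pos hM hV).le hn.ne'
  refine ⟨r • K, hK.smul r, hKc.smul r, ?_, ⟨0, h0, by simp⟩, hKinv.smul r, ?_⟩
  · apply interior_nonempty volume (hKc.smul r)
    rw [real_smul volume hr.le]
    exact mul_pos (pow_pos hr _) hV
  · intro ω hω hωs
    have h5 : volume.real (segs (r • K) ω) = mu.real ω := by
      rw [segs_smul hr, real_smul volume hr.le, hrn]
      have h6 := h ω hω hωs
      field_simp
      linarith
    have h7 : (volume : Measure E) (segs (r • K) ω) ≠ ⊤ :=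
      measure_ne_top_of_subset (segs_subset (hKc.smul r) ⟨0, h0, by simp⟩)
        (hK.smul r).measure_lt_top.ne
    rw [measureReal_def, measureReal_def] at h5
    exact (ENNReal.toReal_eq_toReal_iff' h7 (measure_ne_top _ _)).mp h5

theorem apex [Finite G] {v : E} (hA : Axis G v) (mu : Measure E) [IsFiniteMeasure mu]
    (hmu0 : mu ≠ 0) (hmuinv : ∀ g ∈ G, ∀ s, MeasurableSet s → mu (g ⁻¹' s) = mu s)
    (hsph : mu (sphere (0 : E) 1)ᶜ = 0) (hhem : mu {u | ⟪u, v⟫ < 0} = 0)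
    (hH : HypEq G v mu) :
    ∃ K : Set E, IsCompact K ∧ Convex ℝ K ∧ (interior K).Nonempty ∧ (0 : E) ∈ K ∧ Inv G K ∧
      ∀ ω : Set E, MeasurableSet ω → ω ⊆ sphere (0 : E) 1 → volume (segs K ω) = mu ω := by
  have hMpos : 0 < mu.real univ := by
    rw [measureReal_def, ENNReal.toReal_pos_iff]
    refine ⟨?_, measure_lt_top _ _⟩
    rw [pos_iff_ne_zero]
    simpa using hmu0
  have hn : 0 < Module.finrank ℝ E := by
    have : Nontrivial E := ⟨v, 0, by
      intro h
      have h1 := hA.norm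
      rw [h, norm_zero] at h1
      exact zero_ne_one h1⟩
    exact Module.finrank_pos
  obtain ⟨M, hM⟩ : ∃ M, Module.finrank ℝ E = M + 1 := ⟨Module.finrank ℝ E - 1, by omega⟩
  have hmu : ∀ᵐ u ∂mu, ‖u‖ = 1 ∧ 0 ≤ ht v u := by
    have h1 : ∀ᵐ u ∂mu, u ∈ sphere (0 : E) 1 := hsph
    have h2 : ∀ᵐ u ∂mu, ¬ ⟪u, v⟫ < 0 := by
      rw [ae_iff]
      simpa using hhem
    filter_upwards [h1, h2] with u hu1 hu2
    exact ⟨by simpa using hu1, not_lt.1 hu2⟩
  obtain ⟨K, hK, ⟨κ, hκ, hlow⟩, hmin⟩ := exists_min_up hA hmu hMpos hH hM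
  have hae : ∀ᵐ u ∂mu, ‖u‖ = 1 ∧ κ ≤ supp K u := by
    filter_upwards [hmu] with u hu
    exact ⟨hu.1, hlow u hu.1 hu.2⟩
  have hineq : ∀ ω : Set E, IsCompact ω → ω ⊆ sphere (0 : E) 1 → Inv G ω →
      mu.real ω * volume.real K ≤ mu.real univ * volume.real (segs K ω) := by
    intro ω hω hωs hinv
    apply variation_cut stmtVolDeriv E volume mu K (1 / 2) κ hK.cpt hK.cvx hK.zero hK.vol
      (by norm_num) (by norm_num) hκ hmu0 hae ω hω hωs
    intro t ht0 ht1
    exact min_cut hA hmu hK hκ hlow hmin hinv ht0 (by linarith)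
  have hbor := borel_inv stmtOverlap hK.cpt hK.cvx hK.zero hK.inv mu hmuinv hsph hineq
  exact normalise hn hK.cpt hK.cvx hK.zero hK.inv hK.vol mu hMpos hbor

end Pool.Agent.Lib.MP_abca01_gt.Sym
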