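import Pool.Agent.Lib.MP_abca01_gt.Cap
import Pool.Agent.Lib.MP_abca01_gt.Borel

/-!
# Cone volume measures with a fixed axis, 1: invariant sets

`Inv G K`: the isometries of the group `G` map `K` into itself.
-/

set_option autoImplicit false

open MeasureTheory Set Metric Filter Topology
open scoped RealInnerProductSpace Pointwise

namespace Pool.Agent.Lib.MP_abca01_gt.Sym

variable {E : Type} [NormedAddCommGroup E] [InnerProductSpace ℝ E]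
  {G : Subgroup (E ≃ₗᵢ[ℝ] E)}

/-- The isometries of `G` map `K` into itself. -/
def Inv (G : Subgroup (E ≃ₗᵢ[ℝ] E)) (K : Set E) : Prop := ∀ g ∈ G, ∀ x ∈ K, g x ∈ K

theorem inv_apply (g : E ≃ₗᵢ[ℝ] E) (x : E) : g ((g⁻¹ : E ≃ₗᵢ[ℝ] E) x) = x :=
  g.apply_symm_apply x

theorem inv_apply' (g : E ≃ₗᵢ[ℝ] E) (x : E) : (g⁻¹ : E ≃ₗᵢ[ℝ] E) (g x) = x :=
  g.symm_apply_apply x

theorem inner_inv (g : E ≃ₗᵢ[ℝ] E) (x u : E) : ⟪g x, u⟫ = ⟪x, (g⁻¹ : E ≃ₗᵢ[ℝ] E) u⟫ := by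
  rw [← g.inner_map_map x, inv_apply]

theorem Inv.mem_iff {K : Set E} (h : Inv G K) {g : E ≃ₗᵢ[ℝ] E} (hg : g ∈ G) (x : E) :
    g x ∈ K ↔ x ∈ K := by
  refine ⟨fun hx => ?_, h g hg x⟩
  have h1 := h g⁻¹ (G.inv_mem hg) _ hx
  rwa [inv_apply'] at h1

theorem Inv.image {K : Set E} (h : Inv G K) {g : E ≃ₗᵢ[ℝ] E} (hg : g ∈ G) : g '' K = K := by
  apply Subset.antisymm
  · rintro _ ⟨x, hx, rfl⟩
    exact h g hg x hx
  · intro x hx
    exact ⟨(g⁻¹ : E ≃ₗᵢ[ℝ] E) x, h _ (G.inv_mem hg) x hx, inv_apply g x⟩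

theorem Inv.preimage {K : Set E} (h : Inv G K) {g : E ≃ₗᵢ[ℝ] E} (hg : g ∈ G) : g ⁻¹' K = K := by
  ext x
  exact h.mem_iff hg x

theorem Inv.supp_le {K : Set E} (h : Inv G K) (hK : IsCompact K) (hne : K.Nonempty)
    {g : E ≃ₗᵢ[ℝ] E} (hg : g ∈ G) (u : E) : supp K (g u) ≤ supp K u := by
  refine MP_abca01_gt.supp_le hne fun x hx => ?_
  have h1 := le_supp hK (h g⁻¹ (G.inv_mem hg) x hx) u
  rw [inner_inv, inv_inv] at h1
  exact h1

theorem Inv.supp {K : Set E} (h : Inv G K) (hK : IsCompact K) (hne : K.Nonempty)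
    {g : E ≃ₗᵢ[ℝ] E} (hg : g ∈ G) (u : E) : supp K (g u) = supp K u := by
  apply le_antisymm (h.supp_le hK hne hg u)
  have h1 := h.supp_le hK hne (G.inv_mem hg) (g u)
  rwa [inv_apply'] at h1

theorem Inv.cut {K ω : Set E} (h : Inv G K) (hK : IsCompact K) (hne : K.Nonempty)
    (hω : Inv G ω) (t : ℝ) : Inv G (cut K ω t) := by
  intro g hg x hx
  refine ⟨h g hg x hx.1, fun u hu => ?_⟩
  have h1 := hx.2 _ (hω g⁻¹ (G.inv_mem hg) u hu)
  rw [h.supp hK hne (G.inv_mem hg)] at h1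
  rw [inner_inv]
  exact h1

theorem Inv.smul {K : Set E} (h : Inv G K) (c : ℝ) : Inv G (c • K) := by
  rintro g hg _ ⟨x, hx, rfl⟩
  refine ⟨g x, h g hg x hx, ?_⟩
  simp only
  rw [map_smul]

theorem Inv.add {K : Set E} (h : Inv G K) {a : E} (ha : ∀ g ∈ G, g a = a) :
    Inv G ((fun x => x + a) '' K) := by
  rintro g hg _ ⟨x, hx, rfl⟩
  refine ⟨g x, h g hg x hx, ?_⟩
  simp only
  rw [map_add, ha g hg]

theorem Inv.inter {K L : Set E} (h : Inv G K) (h' : Inv G L) : Inv G (K ∩ L) :=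
  fun g hg x hx => ⟨h g hg x hx.1, h' g hg x hx.2⟩

theorem Inv.compl {K : Set E} (h : Inv G K) : Inv G Kᶜ := by
  intro g hg x hx hgx
  exact hx ((h.mem_iff hg x).1 hgx)

theorem inv_sphere (G : Subgroup (E ≃ₗᵢ[ℝ] E)) (r : ℝ) : Inv G (sphere (0 : E) r) := by
  intro g _ x hx
  rw [mem_sphere_zero_iff_norm] at hx ⊢
  rw [g.norm_map, hx]

/-- The union of the images of a set. -/
def orb (G : Subgroup (E ≃ₗᵢ[ℝ] E)) (ω : Set E) : Set E := ⋃ g : G, (g : E ≃ₗᵢ[ℝ] E) '' ω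

theorem inv_orb (ω : Set E) : Inv G (orb G ω) := by
  rintro g hg x hx
  obtain ⟨h, hx⟩ := mem_iUnion.1 hx
  obtain ⟨y, hy, rfl⟩ := hx
  refine mem_iUnion.2 ⟨⟨g, hg⟩ * h, y, hy, ?_⟩
  rfl

theorem subset_orb (ω : Set E) : ω ⊆ orb G ω := by
  intro x hx
  exact mem_iUnion.2 ⟨1, x, hx, rfl⟩

theorem orb_subset {ω A : Set E} (hA : Inv G A) (h : ω ⊆ A) : orb G ω ⊆ A := by
  intro x hx
  obtain ⟨g, y, hy, rfl⟩ := mem_iUnion.1 hx
  exact hA g g.2 y (h hy)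

theorem isCompact_orb [Finite G] {ω : Set E} (hω : IsCompact ω) : IsCompact (orb G ω) :=
  isCompact_iUnion fun g => hω.image (g : E ≃ₗᵢ[ℝ] E).continuous

theorem segs_image {K : Set E} (h : Inv G K) {g : E ≃ₗᵢ[ℝ] E} (hg : g ∈ G) (ω : Set E) :
    segs K (g '' ω) = g '' segs K ω := by
  have key : ∀ g ∈ G, ∀ ω : Set E, g '' segs K ω ⊆ segs K (g '' ω) := by
    rintro g hg ω _ ⟨_, ⟨u, hu, y, hy, hmax, s, hs, rfl⟩, rfl⟩
    refine ⟨g u, ⟨u, hu, rfl⟩, g y, h g hg y hy, fun z hz => ?_, s, hs, ?_⟩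
    · have h1 := hmax _ (h g⁻¹ (G.inv_mem hg) z hz)
      rw [inner_inv, inv_inv] at h1
      rwa [g.inner_map_map]
    · rw [map_smul]
  apply Subset.antisymm _ (key g hg ω)
  intro x hx
  have h1 := key g⁻¹ (G.inv_mem hg) (g '' ω) ⟨x, hx, rfl⟩
  rw [← image_comp] at h1
  have h2 : ((g⁻¹ : E ≃ₗᵢ[ℝ] E) ∘ g : E → E) = id := funext fun y => inv_apply' g y
  rw [h2, image_id] at h1
  exact ⟨_, h1, inv_apply g x⟩

/-! ### The average over the group -/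

/-- The average of the images of `x`. -/
noncomputable def avg (G : Subgroup (E ≃ₗᵢ[ℝ] E)) [Fintype G] (x : E) : E :=
  ((Fintype.card G : ℝ)⁻¹) • ∑ g : G, (g : E ≃ₗᵢ[ℝ] E) x

theorem card_pos' (G : Subgroup (E ≃ₗᵢ[ℝ] E)) [Fintype G] : (0 : ℝ) < Fintype.card G := by
  exact_mod_cast Fintype.card_pos

theorem avg_fixed [Fintype G] (x : E) : ∀ g ∈ G, g (avg G x) = avg G x := by
  intro g hg
  unfold avg
  rw [map_smul, map_sum]
  congr 1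
  exact Fintype.sum_equiv (Equiv.mulLeft ⟨g, hg⟩) _ _ fun h => rfl

theorem inner_avg [Fintype G] {v : E} (hv : ∀ g ∈ G, g v = v) (x : E) :
    ⟪avg G x, v⟫ = ⟪x, v⟫ := by
  unfold avg
  rw [real_inner_smul_left, sum_inner]
  have h1 : ∀ g ∈ (Finset.univ : Finset G), ⟪(g : E ≃ₗᵢ[ℝ] E) x, v⟫ = ⟪x, v⟫ := by
    intro g _
    rw [inner_inv, hv _ (G.inv_mem g.2)]
  rw [Finset.sum_congr rfl h1, Finset.sum_const, Finset.card_univ, nsmul_eq_mul]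
  have := card_pos' G
  field_simp

/-- The fixed vectors of `G` are exactly the multiples of the unit vector `v`. -/
structure Axis (G : Subgroup (E ≃ₗᵢ[ℝ] E)) (v : E) : Prop where
  norm : ‖v‖ = 1
  fix : ∀ g ∈ G, g v = v
  line : ∀ x, (∀ g ∈ G, g x = x) → ∃ c : ℝ, x = c • v

theorem Axis.avg [Fintype G] {v : E} (h : Axis G v) (x : E) : avg G x = ⟪x, v⟫ • v := by
  obtain ⟨c, hc⟩ := h.line _ (avg_fixed x)
  have h1 := inner_avg h.fix x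
  rw [hc, real_inner_smul_left, real_inner_self_eq_norm_sq, h.norm] at h1
  rw [hc, ← h1]
  norm_num

theorem Axis.sum [Fintype G] {v : E} (h : Axis G v) (x : E) :
    ∑ g : G, (g : E ≃ₗᵢ[ℝ] E) x = ((Fintype.card G : ℝ) * ⟪x, v⟫) • v := by
  have h1 := h.avg x
  unfold Sym.avg at h1
  rw [mul_smul, ← h1, smul_inv_smul₀ (card_pos' G).ne']

theorem Axis.neg {v : E} (h : Axis G v) : Axis G (-v) := by
  refine ⟨by rw [norm_neg, h.norm], fun g hg => by rw [map_neg, h.fix g hg], fun x hx => ?_⟩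
  obtain ⟨c, hc⟩ := h.line x hx
  exact ⟨-c, by rw [hc, smul_neg, neg_smul, neg_neg]⟩

theorem ht_map {v : E} (hv : ∀ g ∈ G, g v = v) {g : E ≃ₗᵢ[ℝ] E} (hg : g ∈ G) (x : E) :
    ht v (g x) = ht v x := by
  unfold ht
  rw [inner_inv, hv _ (G.inv_mem hg)]

theorem hor_map {v : E} (hv : ∀ g ∈ G, g v = v) {g : E ≃ₗᵢ[ℝ] E} (hg : g ∈ G) (x : E) :
    hor v (g x) = hor v x := by
  have h1 := ht_map hv hg x
  unfold ht at h1
  unfold hor
  rw [h1]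
  conv_lhs => rw [← hv g hg]
  rw [← map_smul, ← map_sub, g.norm_map, hv g hg]

theorem inv_QQ {v : E} (hv : ∀ g ∈ G, g v = v) (R : ℝ) : Inv G (QQ v R) := by
  intro g hg x hx
  refine ⟨?_, ?_⟩
  · rw [hor_map hv hg, ht_map hv hg]
    exact hx.1
  · rw [ht_map hv hg]
    exact hx.2

end Pool.Agent.Lib.MP_abca01_gt.Sym
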