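import Pool.Agent.Lib.MP_abca01_gt.Sym.SRes

/-!
# Cone volume measures with a fixed axis, 21: the base of the cylinder
-/

set_option autoImplicit false

open MeasureTheory Set Metric Filter Topology
open scoped RealInnerProductSpace Pointwise ENNReal

namespace Pool.Agent.Lib.MP_abca01_gt.Sym

open Ess

/-- `G` acts irreducibly on the complement of the axis. -/
def Irr {E : Type} [NormedAddCommGroup E] [InnerProductSpace ℝ E] (G : Subgroup (E ≃ₗᵢ[ℝ] E))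
    (v : E) : Prop :=
  ∀ L : Submodule ℝ E, (∀ x ∈ L, ⟪x, v⟫ = 0) → (∀ g ∈ G, ∀ x ∈ L, g x ∈ L) →
    L = ⊥ ∨ ∀ x, ⟪x, v⟫ = 0 → x ∈ L

section alg

variable {E : Type} [NormedAddCommGroup E] [InnerProductSpace ℝ E]
  {G : Subgroup (E ≃ₗᵢ[ℝ] E)}

theorem irr_GF {v : E} (hfix : ∀ g ∈ G, g v = v) (hirr : Irr G v)
    (L : Submodule ℝ (ℝ ∙ v)ᗮ) (hL : L ≠ ⊥) (hL' : L ≠ ⊤)
    (hLG : ∀ f ∈ GF G v, ∀ x ∈ L, f x ∈ L) : False := by
  have h1 : ∀ x ∈ L.map (ℝ ∙ v)ᗮ.subtype, ⟪x, v⟫ = 0 := by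
    rintro _ ⟨z, hz, rfl⟩
    exact inner_compl z
  have h2 : ∀ g ∈ G, ∀ x ∈ L.map (ℝ ∙ v)ᗮ.subtype, g x ∈ L.map (ℝ ∙ v)ᗮ.subtype := by
    rintro g hg _ ⟨z, hz, rfl⟩
    obtain ⟨f, hf, hfg⟩ := exists_res hfix hg
    exact ⟨f z, hLG f hf z hz, hfg z⟩
  rcases hirr _ h1 h2 with h | h
  · apply hL
    rw [eq_bot_iff]
    intro z hz
    have h3 : (z : E) ∈ L.map (ℝ ∙ v)ᗮ.subtype := ⟨z, hz, rfl⟩
    rw [h, Submodule.mem_bot] at h3
    rw [Submodule.mem_bot]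
    exact Subtype.ext h3
  · apply hL'
    rw [eq_top_iff]
    intro z _
    obtain ⟨z', hz', hzz⟩ := h (z : E) (inner_compl z)
    have h3 : z' = z := Subtype.ext hzz
    rwa [← h3]

theorem sum_GF {v : E} (hA : Axis G v) [Fintype (GF G v)] (u : (ℝ ∙ v)ᗮ) :
    ∑ f : GF G v, (f : (ℝ ∙ v)ᗮ ≃ₗᵢ[ℝ] (ℝ ∙ v)ᗮ) u = 0 := by
  set w : (ℝ ∙ v)ᗮ := ∑ f : GF G v, (f : (ℝ ∙ v)ᗮ ≃ₗᵢ[ℝ] (ℝ ∙ v)ᗮ) u with hw
  have h1 : ∀ f ∈ GF G v, f w = w := by
    intro f hf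
    rw [hw, map_sum]
    exact Fintype.sum_equiv (Equiv.mulLeft ⟨f, hf⟩) _ _ fun h => rfl
  obtain ⟨c, hc⟩ := hA.line (w : E) (by
    intro g hg
    obtain ⟨f, hf, hfg⟩ := exists_res hA.fix hg
    rw [← hfg, h1 f hf])
  have h2 := inner_compl w
  rw [hc, real_inner_smul_left, real_inner_self_eq_norm_sq, hA.norm] at h2
  have h3 : c = 0 := by linarith
  rw [h3, zero_smul] at hc
  exact Subtype.ext hc

end alg

variable {E : Type} [NormedAddCommGroup E] [InnerProductSpace ℝ E] [FiniteDimensional ℝ E]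
  [MeasurableSpace E] [BorelSpace E] {G : Subgroup (E ≃ₗᵢ[ℝ] E)}

theorem base_exists [Finite G] {v : E} (hA : Axis G v) (hirr : Irr G v) (mu : Measure E)
    [IsFiniteMeasure mu] (hmuinv : ∀ g ∈ G, ∀ s, MeasurableSet s → mu (g ⁻¹' s) = mu s)
    (hsph : mu (sphere (0 : E) 1)ᶜ = 0) (hpos : mu {u | ⟪u, v⟫ = 0} ≠ 0)
    (hn : 0 < Module.finrank ℝ (ℝ ∙ v)ᗮ) :
    ∃ K : Set (ℝ ∙ v)ᗮ, IsCompact K ∧ Convex ℝ K ∧ (interior K).Nonempty ∧ 0 ∈ K ∧
      Inv (GF G v) K ∧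
      ∀ ω : Set (ℝ ∙ v)ᗮ, MeasurableSet ω → ω ⊆ sphere 0 1 →
        volume (segs K ω) = mu ({u | ⟪u, v⟫ = 0} ∩ PP hA.norm ⁻¹' ω) := by
  have := Fintype.ofFinite (GF G v)
  set Q : Set E := {u | ⟪u, v⟫ = 0} with hQ
  have hQm : MeasurableSet Q := (isClosed_eq (by fun_prop) continuous_const).measurableSet
  have hPm : Measurable (PP hA.norm) := (continuous_PP hA.norm).measurable
  set nu : Measure (ℝ ∙ v)ᗮ := (mu.restrict Q).map (PP hA.norm) with hnu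
  have hnuap : ∀ s : Set (ℝ ∙ v)ᗮ, MeasurableSet s → nu s = mu (Q ∩ PP hA.norm ⁻¹' s) := by
    intro s hs
    rw [hnu, Measure.map_apply hPm hs, Measure.restrict_apply (hPm hs), inter_comm]
  have hnufin : IsFiniteMeasure nu := by
    constructor
    rw [hnuap _ MeasurableSet.univ]
    exact measure_lt_top _ _
  have hnuinv : ∀ f ∈ GF G v, ∀ s, MeasurableSet s → nu (f ⁻¹' s) = nu s := by
    intro f hf s hs
    obtain ⟨g, hg, hfg⟩ := hf
    have hfm : MeasurableSet (f ⁻¹' s) := f.continuous.measurable hs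
    rw [hnuap _ hfm, hnuap _ hs, ← hmuinv g hg _ (hQm.inter (hPm hs))]
    congr 1
    ext x
    have h1 := ht_map hA.fix hg x
    unfold ht at h1
    have h2 := PP_map hA.norm hA.fix hg hfg x
    constructor
    · rintro ⟨hx1, hx2⟩
      have hx1' : ⟪x, v⟫ = 0 := hx1
      refine ⟨?_, ?_⟩
      · change ⟪g x, v⟫ = 0
        rw [h1, hx1']
      · rw [mem_preimage, h2]
        exact hx2
    · rintro ⟨hx1, hx2⟩
      have hx1' : ⟪g x, v⟫ = 0 := hx1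
      refine ⟨?_, ?_⟩
      · change ⟪x, v⟫ = 0
        rw [← h1, hx1']
      · rw [mem_preimage, h2] at hx2
        exact hx2
  have hnusph : nu (sphere (0 : (ℝ ∙ v)ᗮ) 1)ᶜ = 0 := by
    rw [hnuap _ isClosed_sphere.measurableSet.compl]
    refine measure_mono_null ?_ hsph
    rintro u ⟨hu1, hu2⟩ hu3
    have hu1' : ⟪u, v⟫ = 0 := hu1
    apply hu2
    rw [mem_sphere_zero_iff_norm] at hu3 ⊢
    have h1 : ((PP hA.norm u : (ℝ ∙ v)ᗮ) : E) = u := by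
      change pr v u = u
      unfold pr
      rw [hu1', zero_smul, sub_zero]
    have h2 : ‖PP hA.norm u‖ = ‖((PP hA.norm u : (ℝ ∙ v)ᗮ) : E)‖ := rfl
    rw [h2, h1, hu3]
  have hnu0 : nu univ ≠ 0 := by
    rw [hnuap _ MeasurableSet.univ, preimage_univ, inter_univ]
    exact hpos
  set Sg : Set (ℝ ∙ v)ᗮ := msupp nu with hSg
  have hSgmu : nu Sgᶜ = 0 := measure_msupp nu
  have hSgc : IsClosed Sg := isClosed_msupp nu
  have hSgG : Inv (GF G v) Sg := inv_msupp hnuinv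
  have hSgs : Sg ⊆ sphere (0 : (ℝ ∙ v)ᗮ) 1 := by
    intro u hu
    by_contra hcon
    exact notMem_of_null isClosed_sphere.isOpen_compl hnusph hu hcon
  obtain ⟨w, hw⟩ : Sg.Nonempty := by
    by_contra hcon
    rw [not_nonempty_iff_eq_empty] at hcon
    rw [hcon, compl_empty] at hSgmu
    exact hnu0 hSgmu
  have hex : ∀ x : (ℝ ∙ v)ᗮ, x ≠ 0 → ∃ u ∈ Sg, ⟪u, x⟫ < 0 := by
    intro x hx
    by_contra hcon
    push Not at hcon
    have h2 : ∀ u ∈ Sg, ⟪u, x⟫ = 0 := by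
      intro u hu
      have h3 : ∑ f : GF G v, ⟪(f : (ℝ ∙ v)ᗮ ≃ₗᵢ[ℝ] (ℝ ∙ v)ᗮ) u, x⟫ = 0 := by
        rw [← sum_inner, sum_GF hA, inner_zero_left]
      have h5 : ∀ f ∈ (Finset.univ : Finset (GF G v)),
          0 ≤ ⟪(f : (ℝ ∙ v)ᗮ ≃ₗᵢ[ℝ] (ℝ ∙ v)ᗮ) u, x⟫ :=
        fun f _ => hcon _ (hSgG f f.2 u hu)
      exact (Finset.sum_eq_zero_iff_of_nonneg h5).1 h3 1 (Finset.mem_univ _)
    have h3 : ∀ y ∈ Submodule.span ℝ Sg, ⟪y, x⟫ = 0 := by
      intro y hy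
      induction hy using Submodule.span_induction with
      | mem y hy => exact h2 y hy
      | zero => exact inner_zero_left _
      | add y z _ _ hy hz => rw [inner_add_left, hy, hz, add_zero]
      | smul a y _ hy => rw [real_inner_smul_left, hy, mul_zero]
    apply irr_GF hA.fix hirr (Submodule.span ℝ Sg)
    · intro h
      have h4 : w ∈ Submodule.span ℝ Sg := Submodule.subset_span hw
      rw [h, Submodule.mem_bot] at h4
      have h5 := hSgs hw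
      rw [h4, mem_sphere_zero_iff_norm, norm_zero] at h5
      exact zero_ne_one h5
    · intro h
      have h4 := h3 x (by rw [h]; trivial)
      exact hx (inner_self_eq_zero.1 h4)
    · intro f hf y hy
      induction hy using Submodule.span_induction with
      | mem y hy => exact Submodule.subset_span (hSgG f hf y hy)
      | zero => rw [map_zero]; exact Submodule.zero_mem _
      | add y z _ _ hy hz => rw [map_add]; exact Submodule.add_mem _ hy hz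
      | smul a y _ hy => rw [map_smul]; exact Submodule.smul_mem _ _ hy
  have hpl : ∀ x : (ℝ ∙ v)ᗮ, x ≠ 0 → nu {u | ⟪u, x⟫ ≠ 0} ≠ 0 := by
    intro x hx h0
    obtain ⟨u, hu, hux⟩ := hex x hx
    have hU : IsOpen {u : (ℝ ∙ v)ᗮ | ⟪u, x⟫ ≠ 0} := isOpen_ne_fun (by fun_prop) continuous_const
    exact notMem_of_null hU h0 hu hux.ne
  obtain ⟨K, h1, h2, h3, h4, h5, h6⟩ := two_sided nu hn hnuinv Sg hSgc hSgG hSgs hSgmu hex hpl
    (fun L hL hL' hLG => (irr_GF hA.fix hirr L hL hL' hLG).elim)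
  refine ⟨K, h1, h2, h3, h4, h5, fun ω hω hωs => ?_⟩
  rw [h6 ω hω hωs, hnuap ω hω]

end Pool.Agent.Lib.MP_abca01_gt.Sym
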