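import Pool.Agent.Lib.MP_abca01_gt.Sym.SLow

/-!
# Cone volume measures with a fixed axis, 5: bodies of bounded energy have a large support function
-/

set_option autoImplicit false

open MeasureTheory Set Metric Filter Topology
open scoped RealInnerProductSpace Pointwise

namespace Pool.Agent.Lib.MP_abca01_gt.Sym

open Ess

variable {E : Type} [NormedAddCommGroup E] [InnerProductSpace ℝ E] [FiniteDimensional ℝ E]
  [MeasurableSpace E] [BorelSpace E] {G : Subgroup (E ≃ₗᵢ[ℝ] E)}

/-- The hypothesis on the invariant subspaces orthogonal to the axis. -/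
def HypEq (G : Subgroup (E ≃ₗᵢ[ℝ] E)) (v : E) (mu : Measure E) : Prop :=
  ∀ L : Submodule ℝ E, L ≠ ⊥ → (∀ x ∈ L, ⟪x, v⟫ = 0) → (∀ g ∈ G, ∀ x ∈ L, g x ∈ L) →
    (Module.finrank ℝ E : ℝ) * mu.real (L : Set E) < Module.finrank ℝ L * mu.real univ

/-- small neighbourhoods of the subspace have almost the same measure -/
theorem exists_delta' {mu : Measure E} [IsFiniteMeasure mu] {M : ℕ} (v : E)
    (e : OrthonormalBasis (Fin (M + 1)) ℝ E) (i : Fin M) {x : ℝ}
    (h : mu.real {u : E | ⟪u, v⟫ = 0 ∧ u ∈ Lsp e i} < x) :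
    ∃ δ : ℝ, 0 < δ ∧ mu.real (NN v e δ i) < x := by
  have h1 : {u : E | ⟪u, v⟫ = 0 ∧ u ∈ Lsp e i} = ⋂ k : ℕ, NN v e (1 / ((k : ℝ) + 1)) i := by
    ext u
    rw [mem_iInter]
    constructor
    · rintro ⟨hu0, hu⟩ k
      have hpr : pr v u = u := by
        unfold pr
        rw [hu0, zero_smul, sub_zero]
      refine ⟨?_, fun m hm => ?_⟩
      · unfold ht
        rw [hu0, abs_zero]
        positivity
      · rw [hpr, hu m hm, abs_zero]
        positivity
    · intro hu
      have hu0 : ⟪u, v⟫ = 0 := by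
        by_contra hne
        obtain ⟨k, hk⟩ := exists_nat_one_div_lt (abs_pos.2 hne)
        exact absurd (hu k).1 (not_lt.2 hk.le)
      have hpr : pr v u = u := by
        unfold pr
        rw [hu0, zero_smul, sub_zero]
      refine ⟨hu0, fun m hm => ?_⟩
      by_contra hne
      obtain ⟨k, hk⟩ := exists_nat_one_div_lt (abs_pos.2 hne)
      have h2 := (hu k).2 m hm
      rw [hpr] at h2
      exact absurd h2 (not_lt.2 hk.le)
  have h2 : Antitone fun k : ℕ => NN v e (1 / ((k : ℝ) + 1)) i := by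
    intro k l hkl u hu
    have h3 : 1 / ((l : ℝ) + 1) ≤ 1 / ((k : ℝ) + 1) := by
      apply one_div_le_one_div_of_le (by positivity)
      have : (k : ℝ) ≤ l := by exact_mod_cast hkl
      linarith
    exact ⟨lt_of_lt_of_le hu.1 h3, fun m hm => lt_of_lt_of_le (hu.2 m hm) h3⟩
  have h3 := tendsto_measure_iInter_atTop (μ := mu)
    (fun k : ℕ => (isOpen_NN v e (1 / ((k : ℝ) + 1)) i).measurableSet.nullMeasurableSet) h2
    ⟨0, measure_ne_top mu _⟩
  rw [← h1] at h3
  have h4 : Tendsto (fun k : ℕ => mu.real (NN v e (1 / ((k : ℝ) + 1)) i)) atTop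
      (𝓝 (mu.real {u : E | ⟪u, v⟫ = 0 ∧ u ∈ Lsp e i})) :=
    (ENNReal.tendsto_toReal (measure_ne_top mu _)).comp h3
  obtain ⟨k, hk⟩ := (h4.eventually (gt_mem_nhds h)).exists
  exact ⟨1 / ((k : ℝ) + 1), by positivity, hk⟩

/-- The strict inequality for the part of the invariant subspace orthogonal to the axis. -/
theorem hyp_Lsp {v : E} (hA : Axis G v) {mu : Measure E} [IsFiniteMeasure mu]
    (hmu : ∀ᵐ u ∂mu, ‖u‖ = 1 ∧ 0 ≤ ht v u) (hmu0 : 0 < mu.real univ) (hH : HypEq G v mu) {M : ℕ}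
    (hM : Module.finrank ℝ E = M + 1) (e : OrthonormalBasis (Fin (M + 1)) ℝ E) (i : Fin M)
    (hL : ∀ g ∈ G, ∀ x ∈ Lsp e i, g x ∈ Lsp e i) :
    mu.real {u : E | ⟪u, v⟫ = 0 ∧ u ∈ Lsp e i} < ((i : ℝ) + 1) / ((M : ℝ) + 1) * mu.real univ := by
  have hM1 : (0 : ℝ) < (M : ℝ) + 1 := by positivity
  let W : Submodule ℝ E :=
    { carrier := {u : E | ⟪u, v⟫ = 0}
      add_mem' := by
        intro a b ha hb
        have ha' : ⟪a, v⟫ = 0 := ha
        have hb' : ⟪b, v⟫ = 0 := hb
        change ⟪a + b, v⟫ = 0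
        rw [inner_add_left, ha', hb', add_zero]
      zero_mem' := inner_zero_left _
      smul_mem' := by
        intro s a ha
        have ha' : ⟪a, v⟫ = 0 := ha
        change ⟪s • a, v⟫ = 0
        rw [real_inner_smul_left, ha', mul_zero] }
  have hW : ∀ x, x ∈ W ↔ ⟪x, v⟫ = 0 := fun x => Iff.rfl
  set L : Submodule ℝ E := W ⊓ Lsp e i with hLdef
  have hLset : {u : E | ⟪u, v⟫ = 0 ∧ u ∈ Lsp e i} = (L : Set E) := by
    ext u
    simp only [hLdef, Submodule.coe_inf, mem_inter_iff, SetLike.mem_coe, hW, mem_ofPred_eq]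
  rw [hLset]
  rcases eq_or_ne L ⊥ with hbot | hbot
  · rw [hbot]
    have h1 : mu.real ((⊥ : Submodule ℝ E) : Set E) = 0 := by
      rw [measureReal_def]
      have h2 : mu ((⊥ : Submodule ℝ E) : Set E) = 0 := by
        have h3 : ∀ᵐ u ∂mu, u ∉ ((⊥ : Submodule ℝ E) : Set E) := by
          filter_upwards [hmu] with u hu hmem
          rw [SetLike.mem_coe, Submodule.mem_bot] at hmem
          rw [hmem, norm_zero] at hu
          exact zero_ne_one hu.1
        rw [ae_iff] at h3
        simpa using h3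
      rw [h2, ENNReal.toReal_zero]
    rw [h1]
    positivity
  · have h1 := hH L hbot (fun x hx => ((Submodule.mem_inf.1 hx).1)) (by
      intro g hg x hx
      obtain ⟨hx1, hx2⟩ := Submodule.mem_inf.1 hx
      refine Submodule.mem_inf.2 ⟨?_, hL g hg x hx2⟩
      rw [hW] at hx1 ⊢
      have h2 := ht_map hA.fix hg x
      unfold ht at h2
      rw [h2, hx1])
    rw [hM] at h1
    push_cast at h1
    have h2 : Module.finrank ℝ L ≤ (i : ℕ) + 1 := by
      rw [← finrank_Lsp e i]
      exact Submodule.finrank_mono inf_le_right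
    have h3 : (Module.finrank ℝ L : ℝ) ≤ (i : ℝ) + 1 := by exact_mod_cast h2
    rw [div_mul_eq_mul_div, lt_div_iff₀ hM1]
    have h4 := mul_le_mul_of_nonneg_right h3 hmu0.le
    linarith

theorem Up.loc_bdd [Finite G] {v : E} (hA : Axis G v) {mu : Measure E} [IsFiniteMeasure mu]
    (hmu : ∀ᵐ u ∂mu, ‖u‖ = 1 ∧ 0 ≤ ht v u) (hmu0 : 0 < mu.real univ) (hH : HypEq G v mu) {M : ℕ}
    (hM : Module.finrank ℝ E = M + 1) {c : ℝ} (hc : 0 < c) (A : ℝ)
    (e : OrthonormalBasis (Fin (M + 1)) ℝ E) :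
    ∃ η B : ℝ, 0 < η ∧ ∀ (K : Set E) (g : E) (e' : OrthonormalBasis (Fin (M + 1)) ℝ E)
      (r : Fin (M + 1) → ℝ), (∀ m, ‖e' m - e m‖ < η) → Up G v K → Pos c K g e' r →
      Phi volume mu K ≤ A → ∀ i : Fin M, Real.log (r i.succ) - Real.log (r i.castSucc) ≤ B := by
  have hM1 : (0 : ℝ) < (M : ℝ) + 1 := by positivity
  -- the dichotomy
  have hdi : ∀ i : Fin M, ∃ η δ a B : ℝ, 0 < η ∧ 0 < δ ∧ 0 < a ∧ 0 ≤ B ∧
      ((∀ (K : Set E) (g : E) (e' : OrthonormalBasis (Fin (M + 1)) ℝ E)
        (r : Fin (M + 1) → ℝ), (∀ m, ‖e' m - e m‖ < η) → Up G v K → Pos c K g e' r →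
        Real.log (r i.succ) - Real.log (r i.castSucc) ≤ B) ∨
      mu.real (NN v e (2 * δ) i) + a ≤ ((i : ℝ) + 1) / ((M : ℝ) + 1) * mu.real univ) := by
    intro i
    by_cases hL : ∀ g ∈ G, ∀ x ∈ Lsp e i, g x ∈ Lsp e i
    · have h1 := hyp_Lsp hA hmu hmu0 hH hM e i hL
      obtain ⟨x, hx1, hx2⟩ := exists_between h1
      obtain ⟨δ, hδ, hδx⟩ := exists_delta' v e i hx1
      refine ⟨1, δ / 2, ((i : ℝ) + 1) / ((M : ℝ) + 1) * mu.real univ - x, 0, one_pos,
        by positivity, by linarith, le_rfl, Or.inr ?_⟩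
      have h2 : 2 * (δ / 2) = δ := by ring
      rw [h2]
      linarith
    · obtain ⟨η, hη, hess⟩ := inv_false hc e i hL
      refine ⟨η, 1, 1, |Real.log η|, hη, one_pos, one_pos, abs_nonneg _, Or.inl ?_⟩
      intro K g e' r hee hK hP
      have h1 := hess K g e' r hK.inv hP hee
      have h2 := Real.log_le_log (mul_pos hη (hP.pos _)) h1
      rw [Real.log_mul hη.ne' (hP.pos _).ne'] at h2
      have h3 := neg_abs_le (Real.log η)
      linarith
  choose η' δ' a' B' hη' hδ' ha' hB' hdi' using hdi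
  obtain ⟨η1, hη1, hη1'⟩ := exists_pos_le η' hη'
  obtain ⟨δ1, hδ1, hδ1'⟩ := exists_pos_le δ' hδ'
  obtain ⟨a, ha, ha1⟩ := exists_pos_le a' ha'
  obtain ⟨C, hC⟩ := vol_le (E := E) M hc
  set δ : ℝ := min δ1 (1 / ((M : ℝ) + 2)) with hδdef
  have hM2 : (0 : ℝ) < (M : ℝ) + 2 := by positivity
  have hδ : 0 < δ := by positivity
  have hδM : ((M : ℝ) + 2) * δ ^ 2 ≤ 1 := by
    have h1 : δ ≤ 1 / ((M : ℝ) + 2) := min_le_right _ _
    have h2 : ((M : ℝ) + 2) * δ ≤ 1 := by
      calc ((M : ℝ) + 2) * δ ≤ ((M : ℝ) + 2) * (1 / ((M : ℝ) + 2)) :=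
            mul_le_mul_of_nonneg_left h1 hM2.le
        _ = 1 := by field_simp
    have h3 : δ ≤ 1 := by
      refine h1.trans ?_
      rw [div_le_one hM2]
      have : (0 : ℝ) ≤ M := Nat.cast_nonneg M
      linarith
    nlinarith
  set W : ℝ := A - mu.real univ * Real.log (cc (Module.finrank ℝ E) c * δ) +
    mu.real univ / ((M : ℝ) + 1) * C + mu.real univ * ∑ i, B' i with hW
  refine ⟨min η1 (δ / 2), ∑ i, B' i + |W| / a, by positivity, ?_⟩
  intro K g e' r hee hK hP hEE i0
  have hμ : 0 ≤ mu.real univ := measureReal_nonneg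
  have hgap : ∀ i : Fin M, 0 ≤ Real.log (r i.succ) - Real.log (r i.castSucc) := by
    intro i
    have := Real.log_le_log (hP.pos i.castSucc) (hP.mono (Fin.castSucc_le_succ i))
    linarith
  have hBsum : B' i0 ≤ ∑ i, B' i := Finset.single_le_sum (f := B') (fun i _ => hB' i)
    (Finset.mem_univ i0)
  have hBs0 : 0 ≤ ∑ i, B' i := Finset.sum_nonneg fun i _ => hB' i
  rcases hdi' i0 with h1 | h1
  · have h2 := h1 K g e' r (fun m => (hee m).trans_le ((min_le_left _ _).trans (hη1' i0))) hK hP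
    have h3 : 0 ≤ |W| / a := by positivity
    linarith
  · -- the energy
    have h2 := hK.low_int hA hmu hc hP hδ hδM
    have h4 := hC K g e' r hK.cpt hP hK.vol
    have h5 : mu.real univ / ((M : ℝ) + 1) * Real.log (volume.real K) ≤
        mu.real univ / ((M : ℝ) + 1) * (C + ∑ m, Real.log (r m)) :=
      mul_le_mul_of_nonneg_left h4 (by positivity)
    unfold Phi at hEE
    rw [hM] at hEE
    push_cast at hEE
    rw [mul_add] at h5
    set q : Fin M → ℝ := fun i => ((i : ℝ) + 1) / ((M : ℝ) + 1) * mu.real univ -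
      mu.real (NN v e' δ i) with hq
    have hBle : ∀ i : Fin M, mu.real (NN v e' δ i) ≤ mu.real (NN v e (2 * δ' i) i) := by
      intro i
      apply ENNReal.toReal_mono (measure_ne_top mu _)
      apply measure_mono_ae
      filter_upwards [hmu] with u hu hmem
      have h10 : δ ≤ δ' i := (min_le_left _ _).trans (hδ1' i)
      refine ⟨hmem.1.trans (by linarith), fun m hm => ?_⟩
      have h6 := hmem.2 m hm
      have h7 : ⟪e m, pr v u⟫ = ⟪e' m, pr v u⟫ - ⟪e' m - e m, pr v u⟫ := by
        rw [inner_sub_left]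
        ring
      have hprn : ‖pr v u‖ ≤ 1 := by
        have h11 := norm_sq_split hA.norm u
        rw [hu.1] at h11
        have h12 : ‖pr v u‖ ^ 2 ≤ 1 ^ 2 := by nlinarith [sq_nonneg (ht v u)]
        exact le_of_sq_le_sq h12 zero_le_one
      have h8 : |⟪e' m - e m, pr v u⟫| < δ := by
        refine lt_of_le_of_lt (abs_real_inner_le_norm _ _) ?_
        have h11 : ‖e' m - e m‖ < δ / 2 := (hee m).trans_le (min_le_right _ _)
        have h12 : ‖e' m - e m‖ * ‖pr v u‖ ≤ ‖e' m - e m‖ * 1 :=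
          mul_le_mul_of_nonneg_left hprn (norm_nonneg _)
        linarith
      have h9 : |⟪e m, pr v u⟫| ≤ |⟪e' m, pr v u⟫| + |⟪e' m - e m, pr v u⟫| := by
        rw [h7]
        exact abs_sub _ _
      linarith
    have hqi : ∀ i, -(mu.real univ * B' i) ≤ q i * (Real.log (r i.succ) - Real.log (r i.castSucc)) := by
      intro i
      rcases hdi' i with h6 | h6
      · have h7 := h6 K g e' r (fun m => (hee m).trans_le ((min_le_left _ _).trans (hη1' i))) hK hP
        have h8 : -mu.real univ ≤ q i := by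
          have h9 : mu.real (NN v e' δ i) ≤ mu.real univ := measureReal_mono (subset_univ _)
          have h10 : 0 ≤ ((i : ℝ) + 1) / ((M : ℝ) + 1) * mu.real univ := by positivity
          simp only [hq]
          linarith
        have h9 := mul_le_mul_of_nonneg_right h8 (hgap i)
        have h10 := mul_le_mul_of_nonneg_left h7 hμ
        linarith
      · have h7 : 0 ≤ q i := by
          have := hBle i
          have := ha' i
          simp only [hq]
          linarith
        have h8 := mul_nonneg h7 (hgap i)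
        have h9 := mul_nonneg hμ (hB' i)
        linarith
    have h6 : a ≤ q i0 := by
      have := hBle i0
      have := ha1 i0
      simp only [hq]
      linarith
    have h7 : q i0 * (Real.log (r i0.succ) - Real.log (r i0.castSucc)) + mu.real univ * B' i0 ≤
        ∑ i, (q i * (Real.log (r i.succ) - Real.log (r i.castSucc)) + mu.real univ * B' i) :=
      Finset.single_le_sum (f := fun i => q i * (Real.log (r i.succ) - Real.log (r i.castSucc)) +
        mu.real univ * B' i) (fun i _ => by linarith [hqi i]) (Finset.mem_univ i0)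
    rw [Finset.sum_add_distrib, ← Finset.mul_sum] at h7
    have h8 : a * (Real.log (r i0.succ) - Real.log (r i0.castSucc)) ≤
        q i0 * (Real.log (r i0.succ) - Real.log (r i0.castSucc)) :=
      mul_le_mul_of_nonneg_right h6 (hgap i0)
    have h9 : 0 ≤ mu.real univ * B' i0 := mul_nonneg hμ (hB' i0)
    have h10 : a * (Real.log (r i0.succ) - Real.log (r i0.castSucc)) ≤ W := by
      simp only [hq] at h7
      rw [hW]
      linarith
    have h11 : Real.log (r i0.succ) - Real.log (r i0.castSucc) ≤ |W| / a := by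
      rw [le_div_iff₀ ha, mul_comm]
      exact h10.trans (le_abs_self W)
    linarith

/-- Bodies of bounded energy have a large support function on the half space. -/
theorem Up.coercive [Finite G] {v : E} (hA : Axis G v) {mu : Measure E} [IsFiniteMeasure mu]
    (hmu : ∀ᵐ u ∂mu, ‖u‖ = 1 ∧ 0 ≤ ht v u) (hmu0 : 0 < mu.real univ) (hH : HypEq G v mu) {M : ℕ}
    (hM : Module.finrank ℝ E = M + 1) (A : ℝ) :
    ∃ κ : ℝ, 0 < κ ∧ ∀ K : Set E, Up G v K → Phi volume mu K ≤ A →
      ∀ u : E, ‖u‖ = 1 → 0 ≤ ht v u → κ ≤ supp K u := by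
  obtain ⟨c, hc, -, hpos⟩ := exists_pos E (M + 1) hM (Nat.succ_pos M)
  -- compactness of the set of orthonormal frames
  have hcpt : IsCompact {f : Fin (M + 1) → E | Orthonormal ℝ f} := by
    apply Metric.isCompact_of_isClosed_isBounded
    · have h1 : {f : Fin (M + 1) → E | Orthonormal ℝ f} =
          ⋂ i, ⋂ j, {f | ⟪f i, f j⟫ = if i = j then 1 else 0} := by
        ext f
        simp only [mem_ofPred_eq, mem_iInter, orthonormal_iff_ite]
      rw [h1]
      refine isClosed_iInter fun i => isClosed_iInter fun j => isClosed_eq (by fun_prop) continuous_const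
    · refine (isBounded_closedBall (x := (0 : Fin (M + 1) → E)) (r := 1)).subset ?_
      intro f hf
      rw [mem_closedBall, dist_zero_right, pi_norm_le_iff_of_nonneg zero_le_one]
      intro i
      exact (hf.1 i).le
  have hB : ∃ B : ℝ, ∀ (K : Set E) (g : E) (e' : OrthonormalBasis (Fin (M + 1)) ℝ E)
      (r : Fin (M + 1) → ℝ), (⇑e' : Fin (M + 1) → E) ∈ {f : Fin (M + 1) → E | Orthonormal ℝ f} →
      Up G v K → Pos c K g e' r → Phi volume mu K ≤ A → ∀ i : Fin M,
        Real.log (r i.succ) - Real.log (r i.castSucc) ≤ B := by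
    refine hcpt.induction_on (p := fun S => ∃ B : ℝ, ∀ (K : Set E) (g : E)
      (e' : OrthonormalBasis (Fin (M + 1)) ℝ E) (r : Fin (M + 1) → ℝ),
      (⇑e' : Fin (M + 1) → E) ∈ S → Up G v K → Pos c K g e' r → Phi volume mu K ≤ A →
        ∀ i : Fin M, Real.log (r i.succ) - Real.log (r i.castSucc) ≤ B) ?_ ?_ ?_ ?_
    · exact ⟨0, fun K g e' r he => absurd he (notMem_empty _)⟩
    · rintro s t hst ⟨B, hB⟩
      exact ⟨B, fun K g e' r he => hB K g e' r (hst he)⟩
    · rintro s t ⟨B, hB⟩ ⟨B', hB'⟩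
      refine ⟨max B B', fun K g e' r he hK hP hE i => ?_⟩
      rcases he with he | he
      · exact (hB K g e' r he hK hP hE i).trans (le_max_left _ _)
      · exact (hB' K g e' r he hK hP hE i).trans (le_max_right _ _)
    · intro f hf
      have hsp : Submodule.span ℝ (Set.range f) = ⊤ :=
        hf.linearIndependent.span_eq_top_of_card_eq_finrank' (by rw [Fintype.card_fin, hM])
      let e : OrthonormalBasis (Fin (M + 1)) ℝ E := OrthonormalBasis.mk hf hsp.ge
      have hef : ∀ m, e m = f m := fun m => by simp [e]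
      obtain ⟨η, B, hη, h⟩ := Up.loc_bdd hA hmu hmu0 hH hM hc A e
      refine ⟨{f' | ∀ m, ‖f' m - f m‖ < η}, ?_, B, ?_⟩
      · apply mem_nhdsWithin_of_mem_nhds
        have h1 : {f' : Fin (M + 1) → E | ∀ m, ‖f' m - f m‖ < η} =
            ⋂ m, {f' | ‖f' m - f m‖ < η} := by
          ext f'
          simp
        rw [h1]
        refine (isOpen_iInter_of_finite fun m => isOpen_lt (by fun_prop) continuous_const).mem_nhds ?_
        simp [hη]
      · intro K g e' r he hK hP hE
        refine h K g e' r (fun m => ?_) hK hP hE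
        rw [hef]
        exact he m
  obtain ⟨B, hB⟩ := hB
  have hM1 : (0 : ℝ) < (M : ℝ) + 1 := by positivity
  have hM2 : (0 : ℝ) < (M : ℝ) + 2 := by positivity
  have hcc := cc_pos (Module.finrank ℝ E) hc
  set δ : ℝ := 1 / ((M : ℝ) + 2) with hδdef
  have hδ : 0 < δ := by positivity
  have hδM : ((M : ℝ) + 2) * δ ^ 2 ≤ 1 := by
    have h2 : ((M : ℝ) + 2) * δ = 1 := by
      rw [hδdef]
      field_simp
    have h3 : δ ≤ 1 := by
      rw [hδdef, div_le_one hM2]
      have : (0 : ℝ) ≤ M := Nat.cast_nonneg M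
      linarith
    nlinarith
  set ρ : ℝ := c / (2 * ((M : ℝ) + 1)) * Real.exp (-(M * B)) with hρdef
  have hρ : 0 < ρ := by positivity
  refine ⟨cc (Module.finrank ℝ E) c * δ * ρ, by positivity, ?_⟩
  intro K hK hE u hu h0
  have hKi : (interior K).Nonempty := Capaux.interior_nonempty volume hK.cvx hK.vol
  obtain ⟨g, e, r, hP⟩ := hpos K hK.cpt hK.cvx hKi
  have hgap := hB K g e r e.orthonormal hK hP hE
  have h1 : Real.log (r (Fin.last M)) - Real.log (r 0) ≤ M * B := by
    have h2 := sum_gap M (fun i => Real.log (r i)) 0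
    rw [← h2]
    have h3 : ∀ i ∈ (Finset.univ : Finset (Fin M)), (if (0 : Fin (M + 1)) ≤ i.castSucc then
        Real.log (r i.succ) - Real.log (r i.castSucc) else 0) ≤ B := by
      intro i _
      rw [if_pos (Fin.zero_le _)]
      exact hgap i
    refine (Finset.sum_le_sum h3).trans (le_of_eq ?_)
    rw [Finset.sum_const, Finset.card_univ, Fintype.card_fin, nsmul_eq_mul]
  -- the longest axis is not short
  have h2 : c / (2 * ((M : ℝ) + 1)) ≤ r (Fin.last M) := by
    obtain ⟨x, hx, hx1⟩ := hK.top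
    have h3 : ∀ y ∈ K, ‖y - g‖ ≤ ((M + 1 : ℕ) : ℝ) * (c⁻¹ * r (Fin.last M)) := by
      intro y hy
      apply norm_le_sum e
      intro i
      exact (hP.up y hy i).trans (mul_le_mul_of_nonneg_left (hP.mono (Fin.le_last i))
        (by positivity))
    have h4 : 1 ≤ ‖x‖ := by
      have h5 := real_inner_le_norm x v
      have h6 : ⟪x, v⟫ = 1 := hx1
      rw [hA.norm, mul_one, h6] at h5
      exact h5
    have h5 : ‖x‖ ≤ ‖x - g‖ + ‖(0 : E) - g‖ := by
      have h6 : x = (x - g) - (0 - g) := by abel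
      conv_lhs => rw [h6]
      exact norm_sub_le _ _
    have h6 := h3 x hx
    have h7 := h3 0 hK.zero
    push_cast at h6 h7
    have h8 : 1 ≤ 2 * (((M : ℝ) + 1) * (c⁻¹ * r (Fin.last M))) := by linarith
    rw [div_le_iff₀ (by positivity)]
    have h9 : c * 1 ≤ c * (2 * (((M : ℝ) + 1) * (c⁻¹ * r (Fin.last M)))) :=
      mul_le_mul_of_nonneg_left h8 hc.le
    have h10 : c * (2 * (((M : ℝ) + 1) * (c⁻¹ * r (Fin.last M)))) =
        r (Fin.last M) * (2 * ((M : ℝ) + 1)) := by
      field_simp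
    linarith
  have h3 : ρ ≤ r 0 := by
    have h4 : Real.log ρ ≤ Real.log (r 0) := by
      rw [hρdef, Real.log_mul (by positivity) (Real.exp_pos _).ne', Real.log_exp]
      have h5 := Real.log_le_log (by positivity) h2
      linarith
    exact (Real.log_le_log_iff hρ (hP.pos 0)).1 h4
  have h4 := (hK.low_point hA hc hP hδ hδM hu h0).2
  exact (mul_le_mul_of_nonneg_left h3 (by positivity)).trans h4

end Pool.Agent.Lib.MP_abca01_gt.Sym
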