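import Mathlib

/-!
# Cone volume measures with a fixed axis, 33: equality in the one-dimensional Prékopa–Leindler inequality
-/

set_option autoImplicit false

open Set Filter Topology

namespace Pool.Agent.Lib.MP_abca01_gt.Sym

/-- The properties of the distribution function of a convex body in a direction. -/
structure LC (c R : ℝ) (F : ℝ → ℝ) : Prop where
  cont : Continuous F
  mono : Monotone F
  low : ∀ t, t ≤ -R → F t = 0
  high : ∀ t, R ≤ t → F t = c
  lc : ∀ a b : ℝ, 0 < a → 0 < b → a + b = 1 → ∀ s t, F s ^ a * F t ^ b ≤ F (a * s + b * t)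
  lc' : ∀ a b : ℝ, 0 < a → 0 < b → a + b = 1 → ∀ s t,
    (c - F s) ^ a * (c - F t) ^ b ≤ c - F (a * s + b * t)

/-- One-sided derivatives of a concave function. -/
theorem concave_deriv {S : Set ℝ} {f : ℝ → ℝ} (hS : IsOpen S) (hf : ConcaveOn ℝ S f) {x : ℝ}
    (hx : x ∈ S) : ∃ r l : ℝ, HasDerivWithinAt f r (Ioi x) x ∧ HasDerivWithinAt f l (Iio x) x ∧
      r ≤ l := by
  have hx' : x ∈ interior S := by rwa [hS.interior_eq]
  have h1 := hf.neg
  have h2 := (h1.hasDerivWithinAt_rightDeriv_of_mem_interior hx').neg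
  have h3 := (h1.hasDerivWithinAt_leftDeriv_of_mem_interior hx').neg
  have h4 := h1.leftDeriv_le_rightDeriv_of_mem_interior hx'
  rw [neg_neg] at h2 h3
  exact ⟨_, _, h2, h3, neg_le_neg h4⟩

namespace LC

variable {c R : ℝ} {F : ℝ → ℝ}

theorem nonneg (h : LC c R F) (t : ℝ) : 0 ≤ F t := by
  rw [← h.low (min t (-R)) (min_le_right _ _)]
  exact h.mono (min_le_left _ _)

theorem le (h : LC c R F) (t : ℝ) : F t ≤ c := by
  rw [← h.high (max t R) (le_max_right _ _)]
  exact h.mono (le_max_left _ _)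

/-- The open interval where the distribution function is neither `0` nor `c`. -/
theorem openI (h : LC c R F) : IsOpen {t | 0 < F t ∧ F t < c} :=
  (isOpen_lt continuous_const h.cont).inter (isOpen_lt h.cont continuous_const)

theorem convexI (h : LC c R F) : Convex ℝ {t | 0 < F t ∧ F t < c} := by
  apply Set.OrdConnected.convex
  constructor
  intro x hx y hy z hz
  exact ⟨hx.1.trans_le (h.mono hz.1), (h.mono hz.2).trans_lt hy.2⟩

theorem concave_log (h : LC c R F) : ConcaveOn ℝ {t | 0 < F t ∧ F t < c}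
    (fun t => Real.log (F t)) := by
  refine ⟨h.convexI, ?_⟩
  intro x hx y hy a b ha hb hab
  rcases eq_or_lt_of_le ha with ha0 | ha0
  · have hb1 : b = 1 := by linarith
    rw [← ha0, hb1]
    simp
  rcases eq_or_lt_of_le hb with hb0 | hb0
  · have ha1 : a = 1 := by linarith
    rw [← hb0, ha1]
    simp
  simp only [smul_eq_mul]
  have h1 := h.lc a b ha0 hb0 hab x y
  have h2 : 0 < F x ^ a := Real.rpow_pos_of_pos hx.1 a
  have h3 : 0 < F y ^ b := Real.rpow_pos_of_pos hy.1 b
  have h4 := Real.log_le_log (mul_pos h2 h3) h1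
  rw [Real.log_mul h2.ne' h3.ne', Real.log_rpow hx.1, Real.log_rpow hy.1] at h4
  exact h4

theorem concave_log' (h : LC c R F) : ConcaveOn ℝ {t | 0 < F t ∧ F t < c}
    (fun t => Real.log (c - F t)) := by
  refine ⟨h.convexI, ?_⟩
  intro x hx y hy a b ha hb hab
  rcases eq_or_lt_of_le ha with ha0 | ha0
  · have hb1 : b = 1 := by linarith
    rw [← ha0, hb1]
    simp
  rcases eq_or_lt_of_le hb with hb0 | hb0
  · have ha1 : a = 1 := by linarith
    rw [← hb0, ha1]
    simp
  simp only [smul_eq_mul]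
  have h1 := h.lc' a b ha0 hb0 hab x y
  have hx' : 0 < c - F x := sub_pos.2 hx.2
  have hy' : 0 < c - F y := sub_pos.2 hy.2
  have h2 : 0 < (c - F x) ^ a := Real.rpow_pos_of_pos hx' a
  have h3 : 0 < (c - F y) ^ b := Real.rpow_pos_of_pos hy' b
  have h4 := Real.log_le_log (mul_pos h2 h3) h1
  rw [Real.log_mul h2.ne' h3.ne', Real.log_rpow hx', Real.log_rpow hy'] at h4
  exact h4

/-- The distribution function is differentiable with positive derivative. -/
theorem deriv (h : LC c R F) {x : ℝ} (hx : 0 < F x ∧ F x < c) :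
    ∃ d : ℝ, 0 < d ∧ HasDerivAt F d x := by
  obtain ⟨r₁, l₁, hr₁, hl₁, h1⟩ := concave_deriv h.openI h.concave_log hx
  obtain ⟨r₂, l₂, hr₂, hl₂, h2⟩ := concave_deriv h.openI h.concave_log' hx
  have hx' : 0 < c - F x := sub_pos.2 hx.2
  have hmem := h.openI.mem_nhds hx
  have e1 : ∀ S : Set ℝ, ∀ r : ℝ, HasDerivWithinAt (fun t => Real.log (F t)) r S x →
      HasDerivWithinAt F (F x * r) S x := by
    intro S r hr
    have h3 := hr.exp
    rw [Real.exp_log hx.1] at h3
    refine h3.congr_of_eventuallyEq ?_ (Real.exp_log hx.1).symm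
    apply mem_nhdsWithin_of_mem_nhds
    filter_upwards [hmem] with t ht
    exact (Real.exp_log ht.1).symm
  have e2 : ∀ S : Set ℝ, ∀ r : ℝ, HasDerivWithinAt (fun t => Real.log (c - F t)) r S x →
      HasDerivWithinAt F (-((c - F x) * r)) S x := by
    intro S r hr
    have h3 := (hr.exp).const_sub c
    rw [Real.exp_log hx'] at h3
    refine h3.congr_of_eventuallyEq ?_ (by rw [Real.exp_log hx']; ring)
    apply mem_nhdsWithin_of_mem_nhds
    filter_upwards [hmem] with t ht
    rw [Real.exp_log (sub_pos.2 ht.2)]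
    ring
  have f1 := e1 _ _ hr₁
  have f2 := e1 _ _ hl₁
  have f3 := e2 _ _ hr₂
  have f4 := e2 _ _ hl₂
  have g1 := (uniqueDiffWithinAt_Ioi x).eq_deriv _ f1 f3
  have g2 := (uniqueDiffWithinAt_Iio x).eq_deriv _ f2 f4
  have g3 : F x * r₁ = F x * l₁ := by
    apply le_antisymm
    · exact mul_le_mul_of_nonneg_left h1 hx.1.le
    · rw [g1, g2]
      exact neg_le_neg (mul_le_mul_of_nonneg_left h2 hx'.le)
  have hd : HasDerivAt F (F x * r₁) x := by
    rw [← hasDerivWithinAt_univ, ← Iic_union_Ici (a := x)]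
    refine HasDerivWithinAt.union ?_ ?_
    · rw [← hasDerivWithinAt_Iio_iff_Iic, g3]
      exact f2
    · rw [← hasDerivWithinAt_Ioi_iff_Ici]
      exact f1
  refine ⟨F x * r₁, ?_, hd⟩
  apply mul_pos hx.1
  by_contra hcon
  push Not at hcon
  -- the logarithm does not increase any more
  obtain ⟨y, hy⟩ : ∃ y, F y = (F x + c) / 2 := by
    have h3 : (F x + c) / 2 ∈ Icc (F x) (F (max x R)) := by
      rw [h.high _ (le_max_right _ _)]
      constructor <;> linarith [hx.2]
    obtain ⟨y, -, hy⟩ := intermediate_value_Icc (le_max_left x R) h.cont.continuousOn h3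
    exact ⟨y, hy⟩
  have hyI : y ∈ {t | 0 < F t ∧ F t < c} := by
    change 0 < F y ∧ F y < c
    rw [hy]
    constructor <;> linarith [hx.1, hx.2]
  have hxy : x < y := by
    by_contra hc
    push Not at hc
    have := h.mono hc
    linarith [hx.2]
  have h3 := h.concave_log.neg.le_slope_of_hasDerivWithinAt_Ioi hx hyI hxy hr₁.neg
  have h4 : 0 ≤ slope (-fun t => Real.log (F t)) x y := le_trans (by linarith) h3
  rw [slope_def_field] at h4
  have h5 : 0 ≤ -Real.log (F y) - -Real.log (F x) := by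
    have h6 := mul_nonneg h4 (sub_pos.2 hxy).le
    rw [div_mul_cancel₀ _ (sub_pos.2 hxy).ne'] at h6
    exact h6
  have h6 : Real.log (F x) < Real.log (F y) := Real.log_lt_log hx.1 (by linarith [hx.2])
  linarith

theorem strictMono (h : LC c R F) : StrictMonoOn F {t | 0 < F t ∧ F t < c} := by
  apply strictMonoOn_of_deriv_pos h.convexI h.cont.continuousOn
  intro x hx
  have hx' : x ∈ {t | 0 < F t ∧ F t < c} := interior_subset hx
  obtain ⟨d, hd, hd'⟩ := h.deriv hx'
  rw [hd'.deriv]
  exact hd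

/-- The quantile function. -/
theorem quantile (h : LC c R F) : ∃ q : ℝ → ℝ, ∀ p ∈ Ioo 0 c, F (q p) = p ∧
    (∀ x, F x = p → x = q p) ∧ ∃ α : ℝ, 0 < α ∧ HasDerivAt F α (q p) ∧ HasDerivAt q α⁻¹ p := by
  have hex : ∀ p : ℝ, ∃ x, p ∈ Ioo 0 c → F x = p := by
    intro p
    by_cases hp : p ∈ Ioo 0 c
    · have h3 : p ∈ Icc (F (min (-R) R)) (F (max (-R) R)) := by
        rw [h.high _ (le_max_right _ _), h.low _ (min_le_left _ _)]
        exact ⟨hp.1.le, hp.2.le⟩
      obtain ⟨y, -, hy⟩ := intermediate_value_Icc min_le_max h.cont.continuousOn h3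
      exact ⟨y, fun _ => hy⟩
    · exact ⟨0, fun h => absurd h hp⟩
  choose q hq using hex
  have hinj : ∀ p ∈ Ioo 0 c, ∀ x, F x = p → x = q p := by
    intro p hp x hx
    have h1 : x ∈ {t | 0 < F t ∧ F t < c} := by
      change 0 < F x ∧ F x < c
      rw [hx]
      exact hp
    have h2 : q p ∈ {t | 0 < F t ∧ F t < c} := by
      change 0 < F (q p) ∧ F (q p) < c
      rw [hq p hp]
      exact hp
    exact h.strictMono.injOn h1 h2 (by rw [hx, hq p hp])
  refine ⟨q, fun p hp => ⟨hq p hp, hinj p hp, ?_⟩⟩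
  have hmemq : 0 < F (q p) ∧ F (q p) < c := by
    rw [hq p hp]
    exact hp
  obtain ⟨α, hα, hd⟩ := h.deriv hmemq
  refine ⟨α, hα, hd, ?_⟩
  have hmonoq : StrictMonoOn q (Ioo 0 c) := by
    intro s hs t ht hst
    by_contra hcon
    push Not at hcon
    have h1 := h.mono hcon
    rw [hq s hs, hq t ht] at h1
    linarith
  have hcont : ContinuousAt q p := by
    apply hmonoq.continuousAt_of_image_mem_nhds (isOpen_Ioo.mem_nhds hp)
    apply mem_of_superset (h.openI.mem_nhds hmemq)
    intro x hx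
    exact ⟨F x, hx, (hinj (F x) hx x rfl).symm⟩
  apply HasDerivAt.of_local_left_inverse hcont hd hα.ne'
  filter_upwards [isOpen_Ioo.mem_nhds hp] with y hy
  exact hq y hy

end LC

/-- **The case of equality.** -/
theorem dist_eq_of_lc {c R : ℝ} {F H M : ℝ → ℝ} (hc : 0 < c) (hF : LC c R F) (hH : LC c R H)
    (hM : LC c R M)
    (hsl : ∀ s s' t t', s ≤ s' → t ≤ t' →
      (F s' - F s) * (H t' - H t) ≤ (M ((s' + t') / 2) - M ((s + t) / 2)) ^ 2) :
    ∃ τ : ℝ, ∀ t, H (t + τ) = F t := by
  obtain ⟨qF, hqF⟩ := hF.quantile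
  obtain ⟨qH, hqH⟩ := hH.quantile
  obtain ⟨qM, hqM⟩ := hM.quantile
  -- the quantile of the mean
  have hmid : ∀ p ∈ Ioo 0 c, qM p = (qF p + qH p) / 2 := by
    intro p hp
    obtain ⟨h1, -, -⟩ := hqF p hp
    obtain ⟨h2, -, -⟩ := hqH p hp
    obtain ⟨-, h3, -⟩ := hqM p hp
    symm
    apply h3
    set z := (qF p + qH p) / 2
    have hMz := hM.nonneg z
    have hMz' := hM.le z
    -- a common lower and upper bound
    set B := max (max |qF p| |qH p|) |R| with hB
    have hB1 : |qF p| ≤ B := (le_max_left _ _).trans (le_max_left _ _)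
    have hB2 : |qH p| ≤ B := (le_max_right _ _).trans (le_max_left _ _)
    have hB3 : |R| ≤ B := le_max_right _ _
    have hR1 := neg_abs_le R
    have hR2 := le_abs_self R
    have e1 := abs_le.1 hB1
    have e2 := abs_le.1 hB2
    have f1 := hsl (-B) (qF p) (-B) (qH p) e1.1 e2.1
    have f2 := hsl (qF p) B (qH p) B e1.2 e2.2
    rw [hF.low (-B) (by linarith), hH.low (-B) (by linarith), h1, h2,
      hM.low ((-B + -B) / 2) (by linarith)] at f1
    rw [hF.high B (by linarith), hH.high B (by linarith), h1, h2,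
      hM.high ((B + B) / 2) (by linarith)] at f2
    have g1 : p ≤ M z := by
      by_contra hcon
      push Not at hcon
      nlinarith
    have g2 : M z ≤ p := by
      by_contra hcon
      push Not at hcon
      nlinarith [hp.2]
    exact le_antisymm g2 g1
  -- the derivative of the difference
  have hder : ∀ p ∈ Ioo 0 c, HasDerivAt (fun p => qH p - qF p) 0 p := by
    intro p hp
    obtain ⟨h1, -, α, hα, hFα, hqα⟩ := hqF p hp
    obtain ⟨h2, -, β, hβ, hHβ, hqβ⟩ := hqH p hp
    obtain ⟨h3, -, γ, hγ, hMγ, hqγ⟩ := hqM p hp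
    have e1 : γ⁻¹ = (α⁻¹ + β⁻¹) / 2 := by
      have h4 : HasDerivAt qM ((α⁻¹ + β⁻¹) / 2) p := by
        refine ((hqα.add hqβ).div_const 2).congr_of_eventuallyEq ?_
        filter_upwards [isOpen_Ioo.mem_nhds hp] with y hy
        exact hmid y hy
      exact hqγ.unique h4
    have e2 : α * β ≤ γ ^ 2 := by
      have t1 := hFα.tendsto_slope_zero_right
      have t2 := hHβ.tendsto_slope_zero_right
      have t3 := hMγ.tendsto_slope_zero_right
      refine le_of_tendsto_of_tendsto (t1.mul t2) (t3.pow 2) ?_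
      filter_upwards [self_mem_nhdsWithin] with η hη
      have hη' : 0 < η := hη
      simp only [smul_eq_mul]
      have h4 := hsl (qF p) (qF p + η) (qH p) (qH p + η) (by linarith) (by linarith)
      have h5 : (qF p + η + (qH p + η)) / 2 = qM p + η := by
        rw [hmid p hp]
        ring
      rw [h5, ← hmid p hp] at h4
      calc η⁻¹ * (F (qF p + η) - F (qF p)) * (η⁻¹ * (H (qH p + η) - H (qH p)))
          = (η⁻¹) ^ 2 * ((F (qF p + η) - F (qF p)) * (H (qH p + η) - H (qH p))) := by ring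
        _ ≤ (η⁻¹) ^ 2 * (M (qM p + η) - M (qM p)) ^ 2 :=
          mul_le_mul_of_nonneg_left h4 (by positivity)
        _ = _ := by ring
    have e3 : α⁻¹ = β⁻¹ := by
      have hα' : 0 < α⁻¹ := inv_pos.2 hα
      have hβ' : 0 < β⁻¹ := inv_pos.2 hβ
      have hγ' : 0 < γ⁻¹ := inv_pos.2 hγ
      have h4 : (γ⁻¹) ^ 2 ≤ α⁻¹ * β⁻¹ := by
        rw [← mul_inv, inv_pow]
        exact inv_anti₀ (mul_pos hα hβ) e2
      rw [e1] at h4
      nlinarith [sq_nonneg (α⁻¹ - β⁻¹)]
    have h4 := hqβ.sub hqα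
    rw [e3, sub_self] at h4
    exact h4
  have hconst : ∀ p ∈ Ioo 0 c, qH p - qF p = qH (c / 2) - qF (c / 2) := by
    intro p hp
    have hc2 : c / 2 ∈ Ioo 0 c := ⟨by linarith, by linarith⟩
    exact isOpen_Ioo.is_const_of_deriv_eq_zero isPreconnected_Ioo
      (fun x hx => (hder x hx).differentiableAt.differentiableWithinAt)
      (fun x hx => (hder x hx).deriv) hp hc2
  refine ⟨qH (c / 2) - qF (c / 2), fun t => ?_⟩
  set τ := qH (c / 2) - qF (c / 2) with hτ
  have hq : ∀ p ∈ Ioo 0 c, qH p = qF p + τ := by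
    intro p hp
    have := hconst p hp
    linarith
  have h0 := hF.nonneg t
  have h1 := hF.le t
  have hH0 := hH.nonneg (t + τ)
  have hH1 := hH.le (t + τ)
  -- upper and lower bounds by quantiles
  have hup : ∀ p ∈ Ioo 0 c, F t < p → H (t + τ) ≤ p := by
    intro p hp hlt
    have h2 : t ≤ qF p := by
      by_contra hcon
      push Not at hcon
      have := hF.mono hcon.le
      rw [(hqF p hp).1] at this
      linarith
    have h3 := hH.mono (show t + τ ≤ qH p by rw [hq p hp]; linarith)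
    rwa [(hqH p hp).1] at h3
  have hlow : ∀ p ∈ Ioo 0 c, p < F t → p ≤ H (t + τ) := by
    intro p hp hlt
    have h2 : qF p ≤ t := by
      by_contra hcon
      push Not at hcon
      have := hF.mono hcon.le
      rw [(hqF p hp).1] at this
      linarith
    have h3 := hH.mono (show qH p ≤ t + τ by rw [hq p hp]; linarith)
    rwa [(hqH p hp).1] at h3
  apply le_antisymm
  · apply le_of_forall_gt_imp_ge_of_dense
    intro p hp
    rcases lt_or_ge p c with hpc | hpc
    · exact hup p ⟨lt_of_le_of_lt h0 hp, hpc⟩ hp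
    · exact hH1.trans hpc
  · apply le_of_forall_lt_imp_le_of_dense
    intro p hp
    rcases le_or_gt p 0 with hp0 | hp0
    · exact hp0.trans hH0
    · exact hlow p ⟨hp0, hp.trans_le h1⟩ hp

end Pool.Agent.Lib.MP_abca01_gt.Sym
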