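import Pool.Agent.Lib.MP_abca01_gt.Sym.SIrr

/-!
# Cone volume measures with a fixed axis, 23: the characterisation for irreducible groups
-/

set_option autoImplicit false

open MeasureTheory Set Metric Filter Topology
open scoped RealInnerProductSpace Pointwise ENNReal

namespace Pool.Agent.Lib.MP_abca01_gt.Sym

section alg

variable {E : Type} [NormedAddCommGroup E] [InnerProductSpace ℝ E]
  {G : Subgroup (E ≃ₗᵢ[ℝ] E)}

theorem norm_pr_le {v : E} (hv : ‖v‖ = 1) (u : E) (c : ℝ) : ‖pr v u‖ ≤ ‖u - c • v‖ := by
  have h1 : pr v u = pr v (u - c • v) := by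
    unfold pr
    rw [inner_sub_left, real_inner_smul_left, real_inner_self_eq_norm_sq, hv]
    module
  have h2 := norm_sq_split hv (u - c • v)
  rw [h1]
  apply le_of_sq_le_sq _ (norm_nonneg _)
  nlinarith [sq_nonneg (ht v (u - c • v))]

/-- Unit vectors close to the axis on the side of `v` are close to `v`. -/
theorem near_pole {v : E} (hv : ‖v‖ = 1) {u : E} (hu : ‖u‖ = 1) (h0 : 0 < ⟪u, v⟫) {ε : ℝ}
    (hε : 0 < ε) (hd : infDist u ((ℝ ∙ v : Submodule ℝ E) : Set E) < min 1 (ε / 2)) :
    u ∈ ball v ε := by
  have hne : ((ℝ ∙ v : Submodule ℝ E) : Set E).Nonempty := ⟨0, Submodule.zero_mem _⟩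
  obtain ⟨w, hw, hwd⟩ := (infDist_lt_iff hne).1 hd
  obtain ⟨c, rfl⟩ := Submodule.mem_span_singleton.1 hw
  rw [dist_eq_norm] at hwd
  have h1 := norm_pr_le hv u c
  have h2 : ‖pr v u‖ < 1 := lt_of_le_of_lt h1 (hwd.trans_le (min_le_left _ _))
  have h3 : ‖pr v u‖ < ε / 2 := lt_of_le_of_lt h1 (hwd.trans_le (min_le_right _ _))
  have h4 := norm_sq_split hv u
  rw [hu] at h4
  have hht : 0 < ht v u := h0
  have hp0 : 0 ≤ ‖pr v u‖ := norm_nonneg _
  have h5 : 1 - ht v u ≤ ‖pr v u‖ ^ 2 := by nlinarith
  have h6 := norm_sq_split hv (u - v)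
  have h7 : ht v (u - v) = ht v u - 1 := by
    unfold ht
    rw [inner_sub_left, real_inner_self_eq_norm_sq, hv]
    ring
  have h8 : pr v (u - v) = pr v u := by
    unfold pr
    rw [inner_sub_left, real_inner_self_eq_norm_sq, hv]
    module
  rw [h7, h8] at h6
  have h9 : ht v u ≤ 1 := by nlinarith [sq_nonneg ‖pr v u‖]
  rw [mem_ball, dist_eq_norm]
  have h10 : ‖u - v‖ ^ 2 < ε ^ 2 := by
    have h11 : (1 - ht v u) ^ 2 ≤ ‖pr v u‖ ^ 2 := by
      have h12 : (1 - ht v u) ≤ ‖pr v u‖ := by nlinarith
      exact pow_le_pow_left₀ (by linarith) h12 2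
    nlinarith
  exact lt_of_pow_lt_pow_left₀ 2 hε.le h10

/-- Invariant subspaces for a group which is irreducible on the complement of the axis. -/
theorem inv_cases [Finite G] {v : E} (hA : Axis G v) (hirr : Irr G v) (L : Submodule ℝ E)
    (hL : L ≠ ⊥) (hL' : L ≠ ⊤) (hLG : ∀ g ∈ G, ∀ x ∈ L, g x ∈ L) :
    (∀ x, x ∈ L ↔ ⟪x, v⟫ = 0) ∨ L = ℝ ∙ v := by
  have := Fintype.ofFinite G
  have hvv : ⟪v, v⟫ = 1 := by
    rw [real_inner_self_eq_norm_sq, hA.norm]
    norm_num
  by_cases hvL : v ∈ L
  · right
    -- the part orthogonal to the axis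
    let W : Submodule ℝ E :=
      { carrier := {u : E | ⟪u, v⟫ = 0 ∧ u ∈ L}
        add_mem' := by
          intro a b ha hb
          refine ⟨?_, L.add_mem ha.2 hb.2⟩
          rw [inner_add_left, ha.1, hb.1, add_zero]
        zero_mem' := ⟨inner_zero_left _, L.zero_mem⟩
        smul_mem' := by
          intro s a ha
          refine ⟨?_, L.smul_mem s ha.2⟩
          rw [real_inner_smul_left, ha.1, mul_zero] }
    have hWmem : ∀ x, x ∈ W ↔ ⟪x, v⟫ = 0 ∧ x ∈ L := fun x => Iff.rfl
    have hsplit : ∀ x : E, x = ⟪x, v⟫ • v + pr v x := by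
      intro x
      unfold pr
      abel
    rcases hirr W (fun x hx => hx.1) (by
      intro g hg x hx
      have h1 := ht_map hA.fix hg x
      unfold ht at h1
      exact ⟨by rw [h1]; exact hx.1, hLG g hg x hx.2⟩) with h | h
    · apply le_antisymm
      · intro x hx
        have h1 : pr v x ∈ W := by
          refine ⟨?_, ?_⟩
          · rw [real_inner_comm]
            exact inner_pr hA.norm x
          · unfold pr
            exact L.sub_mem hx (L.smul_mem _ hvL)
        rw [h, Submodule.mem_bot] at h1
        rw [hsplit x, h1, add_zero]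
        exact Submodule.smul_mem _ _ (Submodule.mem_span_singleton_self v)
      · rw [Submodule.span_singleton_le_iff_mem]
        exact hvL
    · exfalso
      apply hL'
      rw [eq_top_iff]
      intro x _
      rw [hsplit x]
      refine L.add_mem (L.smul_mem _ hvL) (h _ ?_).2
      rw [real_inner_comm]
      exact inner_pr hA.norm x
  · left
    have h1 : ∀ x ∈ L, ⟪x, v⟫ = 0 := by
      intro x hx
      by_contra hne
      apply hvL
      have h2 : avg G x ∈ L := by
        unfold avg
        exact L.smul_mem _ (L.sum_mem fun g _ => hLG g g.2 x hx)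
      rw [hA.avg x] at h2
      have h3 := L.smul_mem (⟪x, v⟫)⁻¹ h2
      rwa [inv_smul_smul₀ hne] at h3
    rcases hirr L h1 hLG with h | h
    · exact absurd h hL
    · exact fun x => ⟨h1 x, h x⟩

end alg

variable {E : Type} [NormedAddCommGroup E] [InnerProductSpace ℝ E] [FiniteDimensional ℝ E]
  [MeasurableSpace E] [BorelSpace E] {G : Subgroup (E ≃ₗᵢ[ℝ] E)}

/-- The representability by an invariant body. -/
def Rep (G : Subgroup (E ≃ₗᵢ[ℝ] E)) (mu : Measure E) : Prop :=
  ∃ K : Set E, IsCompact K ∧ Convex ℝ K ∧ (interior K).Nonempty ∧ (0 : E) ∈ K ∧ Inv G K ∧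
    ∀ ω : Set E, MeasurableSet ω → ω ⊆ sphere (0 : E) 1 → volume (segs K ω) = mu ω

/-- **Characterisation** for groups which are irreducible on the complement of the axis. -/
theorem char_irr [Finite G] {v : E} (hA : Axis G v) (hirr : Irr G v) (mu : Measure E)
    [IsFiniteMeasure mu] (hmu0 : mu ≠ 0)
    (hmuinv : ∀ g ∈ G, ∀ s, MeasurableSet s → mu (g ⁻¹' s) = mu s)
    (hsph : mu (sphere (0 : E) 1)ᶜ = 0) (hn : 2 ≤ Module.finrank ℝ E)
    (hpole : (Module.finrank ℝ E : ℝ) * mu.real {v, -v} < mu.real univ ∨
      ∃ ε : ℝ, 0 < ε ∧ (mu (ball v ε) = 0 ∨ mu (ball (-v) ε) = 0)) :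
    Rep G mu ↔
      (Module.finrank ℝ E : ℝ) * mu.real {u | ⟪u, v⟫ = 0} ≤
        ((Module.finrank ℝ E : ℝ) - 1) * mu.real univ ∧
      ((Module.finrank ℝ E : ℝ) * mu.real {u | ⟪u, v⟫ = 0} =
        ((Module.finrank ℝ E : ℝ) - 1) * mu.real univ →
        mu {u | ⟪u, v⟫ ≠ 0 ∧ u ≠ v ∧ u ≠ -v} = 0) := by
  have hv := hA.norm
  constructor
  · rintro ⟨K, hK, hKc, hKi, hK0, hKG, hKmu⟩
    exact nec_eq hA hK hKc hK0 hKG hKi mu hsph hKmu
  · rintro ⟨h1, h2⟩
    rcases eq_or_lt_of_le h1 with heq | hlt
    · exact equality_exists hA hirr mu hmu0 hmuinv hsph hn heq (h2 heq)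
    · apply axis_theorem hA mu hmu0 hmuinv hsph
      intro L hL hL' hLG
      rcases inv_cases hA hirr L hL hL' hLG with h | h
      · left
        have h3 : (L : Set E) = {u | ⟪u, v⟫ = 0} := by
          ext x
          exact h x
        have h4 : (Module.finrank ℝ L : ℝ) = Module.finrank ℝ E - 1 := by
          have h5 := finrank_compl hv
          have h6 : L = (ℝ ∙ v)ᗮ := by
            ext x
            rw [h x, Submodule.mem_orthogonal_singleton_iff_inner_left]
          rw [h6, h5]
          push_cast
          ring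
        rw [h3, h4]
        exact hlt
      · subst h
        have h4 : Module.finrank ℝ (ℝ ∙ v) = 1 := finrank_span_singleton (by
          intro h
          rw [h, norm_zero] at hv
          exact zero_ne_one hv)
        have hunit : ∀ᵐ u ∂mu, ‖u‖ = 1 := by
          have h5 : ∀ᵐ u ∂mu, u ∈ sphere (0 : E) 1 := hsph
          filter_upwards [h5] with u hu
          simpa using hu
        rcases hpole with hp | ⟨ε, hε, hp | hp⟩
        · left
          rw [h4]
          have h5 : mu.real ((ℝ ∙ v : Submodule ℝ E) : Set E) = mu.real {v, -v} := by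
            rw [measureReal_def, measureReal_def]
            congr 1
            apply measure_congr
            filter_upwards [hunit] with u hu
            apply propext
            constructor
            · intro hmem
              obtain ⟨c, rfl⟩ := Submodule.mem_span_singleton.1 hmem
              rw [norm_smul, hv, mul_one, Real.norm_eq_abs] at hu
              rcases (abs_eq zero_le_one).1 hu with h6 | h6
              · left
                rw [h6, one_smul]
              · right
                rw [h6, neg_one_smul]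
                rfl
            · rintro (h6 | h6)
              · rw [h6]
                exact Submodule.mem_span_singleton_self v
              · have h7 : u = -v := h6
                rw [h7]
                exact Submodule.neg_mem _ (Submodule.mem_span_singleton_self v)
          rw [h5]
          push_cast
          linarith
        · right
          refine ⟨Submodule.mem_span_singleton_self v, min 1 (ε / 2), by positivity, Or.inl ?_⟩
          have h5 : ∀ᵐ u ∂mu, ¬ (infDist u ((ℝ ∙ v : Submodule ℝ E) : Set E) < min 1 (ε / 2) ∧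
              0 < ⟪u, v⟫) := by
            have h6 : ∀ᵐ u ∂mu, u ∉ ball v ε := by
              rw [ae_iff]
              simp only [not_not]
              exact hp
            filter_upwards [hunit, h6] with u hu hu' hcon
            exact hu' (near_pole hv hu hcon.2 hε hcon.1)
          rw [ae_iff] at h5
          simp only [not_not] at h5
          exact h5
        · right
          refine ⟨Submodule.mem_span_singleton_self v, min 1 (ε / 2), by positivity, Or.inr ?_⟩
          have h5 : ∀ᵐ u ∂mu, ¬ (infDist u ((ℝ ∙ v : Submodule ℝ E) : Set E) < min 1 (ε / 2) ∧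
              ⟪u, v⟫ < 0) := by
            have h6 : ∀ᵐ u ∂mu, u ∉ ball (-v) ε := by
              rw [ae_iff]
              simp only [not_not]
              exact hp
            filter_upwards [hunit, h6] with u hu hu' hcon
            apply hu'
            have hspan : (ℝ ∙ v : Submodule ℝ E) = ℝ ∙ (-v) := by
              rw [← Set.neg_singleton, Submodule.span_neg]
            refine near_pole (by rw [norm_neg, hv]) hu ?_ hε ?_
            · rw [inner_neg_right]
              linarith [hcon.2]
            · rw [← hspan]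
              exact hcon.1
          rw [ae_iff] at h5
          simp only [not_not] at h5
          exact h5

end Pool.Agent.Lib.MP_abca01_gt.Sym
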