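import Pool.Agent.Lib.MP_abca01_gt.Sym.SNecEq

/-!
# Cone volume measures with a fixed axis, 19: the volume of cut offs
-/

set_option autoImplicit false

open MeasureTheory Set Metric Filter Topology
open scoped RealInnerProductSpace Pointwise ENNReal

namespace Pool.Agent.Lib.MP_abca01_gt.Sym

open Variationaux Energyaux Borelaux Capaux

variable {E : Type} [NormedAddCommGroup E] [InnerProductSpace ℝ E] [FiniteDimensional ℝ E]
  [MeasurableSpace E] [BorelSpace E]

/-- Upper bound of the volume of a cut off. -/
theorem cut_le {K ω : Set E} (hK : IsCompact K) (hKc : Convex ℝ K) (h0 : (0 : E) ∈ K)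
    (hω : IsCompact ω) (hωs : ω ⊆ sphere (0 : E) 1) {t : ℝ} (ht0 : 0 < t) (ht1 : t < 1) :
    volume.real (cut K ω t) ≤
      volume.real K - (1 - (1 - t) ^ Module.finrank ℝ E) * volume.real (segs K ω) := by
  set n : ℕ := Module.finrank ℝ E with hn
  set S : Set E := segs K ω with hS
  have h1t : 0 < 1 - t := by linarith
  have hSc : IsCompact S := isCompact_segs hK hω
  have hfr : volume (frontier K) = 0 := hKc.addHaar_frontier volume
  have hMc : IsCompact (cut K ω t) := isCompact_cut hK t
  have hMK : cut K ω t ⊆ K := fun x hx => hx.1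
  have hstar : (1 - t) • S ⊆ S := by
    rintro _ ⟨_, ⟨u, hu, y, hy, hmax, s, hs, rfl⟩, rfl⟩
    refine ⟨u, hu, y, hy, hmax, (1 - t) * s, ⟨mul_nonneg h1t.le hs.1, ?_⟩, ?_⟩
    · nlinarith [hs.2, hs.1]
    · simp only [smul_smul]
  have hsub : S \ (1 - t) • S ⊆ (K \ cut K ω t) ∪ frontier K := by
    rintro x ⟨hxS, hx⟩
    obtain ⟨u, hu, y, hy, hmax, s, hs, rfl⟩ := hxS
    have hu1 : ‖u‖ = 1 := by simpa using hωs hu
    have hxK : s • y ∈ K := hKc.smul_mem_of_zero_mem h0 hy hs
    have hs1 : 1 - t < s := by
      by_contra hcon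
      push Not at hcon
      apply hx
      refine ⟨(s / (1 - t)) • y, ⟨u, hu, y, hy, hmax, s / (1 - t),
        ⟨div_nonneg hs.1 h1t.le, ?_⟩, rfl⟩, ?_⟩
      · rw [div_le_one h1t]
        exact hcon
      · simp only [smul_smul]
        congr 1
        field_simp
    by_cases hxM : s • y ∈ cut K ω t
    · right
      refine ⟨subset_closure hxK, ?_⟩
      intro hint
      have h1 := hxM.2 u hu
      rw [real_inner_smul_left] at h1
      have hsupp : supp K u ≤ ⟪y, u⟫ := supp_le ⟨0, h0⟩ fun z hz => hmax z hz
      have h3 := hmax 0 h0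
      rw [inner_zero_left] at h3
      have h4 : ⟪y, u⟫ = 0 := by
        have h5 : s * ⟪y, u⟫ ≤ (1 - t) * ⟪y, u⟫ :=
          h1.trans (mul_le_mul_of_nonneg_left hsupp h1t.le)
        nlinarith
      obtain ⟨ε, hε, hball⟩ := Metric.isOpen_iff.1 isOpen_interior _ hint
      have h5 : s • y + (ε / 2) • u ∈ K := by
        apply interior_subset
        apply hball
        rw [mem_ball, dist_eq_norm, add_sub_cancel_left, norm_smul, hu1, mul_one,
          Real.norm_eq_abs, abs_of_pos (by linarith)]
        linarith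
      have h6 := hmax _ h5
      rw [inner_add_left, real_inner_smul_left, real_inner_smul_left,
        real_inner_self_eq_norm_sq, hu1, h4] at h6
      linarith
    · left
      exact ⟨hxK, hxM⟩
  have hSt : volume.real ((1 - t) • S) = (1 - t) ^ n * volume.real S := real_smul volume h1t.le S
  have h2 : volume.real (S \ (1 - t) • S) = volume.real S - (1 - t) ^ n * volume.real S := by
    rw [measureReal_sdiff hstar (hSc.smul _).measurableSet (h₁ := hSc.measure_lt_top.ne), hSt]
  have h3 : volume.real (K \ cut K ω t) = volume.real K - volume.real (cut K ω t) :=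
    measureReal_sdiff hMK hMc.measurableSet (h₁ := hK.measure_lt_top.ne)
  have h4 : (volume : Measure E) ((K \ cut K ω t) ∪ frontier K) ≤ volume (K \ cut K ω t) := by
    refine (measure_union_le _ _).trans ?_
    rw [hfr, add_zero]
  have h5 : volume.real (S \ (1 - t) • S) ≤ volume.real (K \ cut K ω t) :=
    ENNReal.toReal_mono (measure_ne_top_of_subset sdiff_subset hK.measure_lt_top.ne)
      ((measure_mono hsub).trans h4)
  rw [h2, h3] at h5
  linarith

end Pool.Agent.Lib.MP_abca01_gt.Sym
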