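import Pool.Agent.Lib.MP_abca01_gt.Sym.SCen

/-!
# Cone volume measures with a fixed axis, 14: the splitting into the axis and its complement
-/

set_option autoImplicit false

open MeasureTheory Set Metric Filter Topology
open scoped RealInnerProductSpace Pointwise

namespace Pool.Agent.Lib.MP_abca01_gt.Sym

section
variable {E : Type} [NormedAddCommGroup E] [InnerProductSpace ℝ E]

/-- The map `(s, z) ↦ s v + z`. -/
noncomputable def TT (v : E) (p : ℝ × (ℝ ∙ v)ᗮ) : E := p.1 • v + (p.2 : E)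

theorem continuous_TT (v : E) : Continuous (TT v) := by
  unfold TT
  fun_prop

theorem inner_compl {v : E} (z : (ℝ ∙ v)ᗮ) : ⟪(z : E), v⟫ = 0 :=
  Submodule.mem_orthogonal_singleton_iff_inner_left.1 z.2

theorem ht_TT {v : E} (hv : ‖v‖ = 1) (p : ℝ × (ℝ ∙ v)ᗮ) : ht v (TT v p) = p.1 := by
  unfold ht TT
  rw [inner_add_left, real_inner_smul_left, real_inner_self_eq_norm_sq, hv, inner_compl]
  ring

/-- The orthogonal projection to the complement of the axis. -/
noncomputable def PP {v : E} (hv : ‖v‖ = 1) (x : E) : (ℝ ∙ v)ᗮ :=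
  ⟨pr v x, by
    rw [Submodule.mem_orthogonal_singleton_iff_inner_right]
    exact inner_pr hv x⟩

theorem PP_TT {v : E} (hv : ‖v‖ = 1) (p : ℝ × (ℝ ∙ v)ᗮ) : PP hv (TT v p) = p.2 := by
  apply Subtype.ext
  change pr v (TT v p) = _
  unfold pr
  have h1 : ⟪TT v p, v⟫ = p.1 := ht_TT hv p
  rw [h1]
  unfold TT
  abel

theorem TT_PP {v : E} (hv : ‖v‖ = 1) (x : E) : TT v (ht v x, PP hv x) = x := by
  change ⟪x, v⟫ • v + pr v x = x
  unfold pr
  abel

end

variable {E : Type} [NormedAddCommGroup E] [InnerProductSpace ℝ E] [FiniteDimensional ℝ E]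
  [MeasurableSpace E] [BorelSpace E]

theorem mp_TT {v : E} (hv : ‖v‖ = 1) : MeasurePreserving (TT v) := by
  have h1 := ((LinearIsometryEquiv.toSpanUnitSingleton v hv).measurePreserving.prod
    (MeasurePreserving.id (volume : Measure (ℝ ∙ v)ᗮ)))
  have h2 := WithLp.volume_preserving_toLp (U := ↥(ℝ ∙ v)) (V := ↥(ℝ ∙ v)ᗮ)
  have h3 := (ℝ ∙ v).orthogonalDecomposition.symm.measurePreserving
  have h4 := h3.comp (h2.comp h1)
  have h5 : TT v = (⇑(ℝ ∙ v).orthogonalDecomposition.symm ∘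
      WithLp.toLp 2 ∘ Prod.map (⇑(LinearIsometryEquiv.toSpanUnitSingleton v hv)) id) := by
    ext p
    simp [TT]
  rw [h5]
  exact h4

end Pool.Agent.Lib.MP_abca01_gt.Sym
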