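import Pool.Agent.Lib.MP_abca01_gt.Sym.SSub

/-!
# Cone volume measures with a fixed axis, 26: the splitting along two complementary subspaces
-/

set_option autoImplicit false

open MeasureTheory Set Metric Filter Topology
open scoped RealInnerProductSpace Pointwise ENNReal NNReal

namespace Pool.Agent.Lib.MP_abca01_gt.Sym

open Ess Variationaux Energyaux Borelaux Capaux

section

variable {E : Type} [NormedAddCommGroup E] [InnerProductSpace ℝ E] [FiniteDimensional ℝ E]

theorem pj_inj {A B : Submodule ℝ E} (hc : IsCompl A B) {x y : E} (hA : pj A x = pj A y)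
    (hB : pj B x = pj B y) : x = y := by
  apply ext_inner_right ℝ
  intro z
  have h1 : z ∈ A ⊔ B := by
    rw [hc.sup_eq_top]
    trivial
  obtain ⟨a, ha, b, hb, rfl⟩ := Submodule.mem_sup.1 h1
  have h2 := inner_pj A x ⟨a, ha⟩
  have h3 := inner_pj A y ⟨a, ha⟩
  have h4 := inner_pj B x ⟨b, hb⟩
  have h5 := inner_pj B y ⟨b, hb⟩
  rw [hA, h3] at h2
  rw [hB, h5] at h4
  rw [inner_add_right, inner_add_right]
  exact congr_arg₂ (· + ·) h2.symm h4.symm

/-- The pair of the projections is a linear equivalence. -/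
theorem exists_equiv {A B : Submodule ℝ E} (hc : IsCompl A B) :
    ∃ e : E ≃L[ℝ] (A × B), ∀ x, e x = (pj A x, pj B x) := by
  have hinj : Function.Injective ((pj A).prod (pj B) : E →L[ℝ] A × B) := by
    intro x y hxy
    have h1 : (pj A x, pj B x) = (pj A y, pj B y) := hxy
    exact pj_inj hc (Prod.ext_iff.1 h1).1 (Prod.ext_iff.1 h1).2
  have hdim : Module.finrank ℝ E = Module.finrank ℝ (A × B) := by
    rw [Module.finrank_prod, Submodule.finrank_add_eq_of_isCompl hc]
  let e0 : E ≃ₗ[ℝ] (A × B) :=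
    LinearMap.linearEquivOfInjective ((pj A).prod (pj B) : E →L[ℝ] A × B).toLinearMap hinj hdim
  exact ⟨e0.toContinuousLinearEquiv, fun x => rfl⟩

end

variable {E : Type} [NormedAddCommGroup E] [InnerProductSpace ℝ E] [FiniteDimensional ℝ E]
  [MeasurableSpace E] [BorelSpace E]

/-- The volume in the coordinates given by the two projections. -/
theorem exists_dec {A B : Submodule ℝ E} (hc : IsCompl A B) :
    ∃ (e : E ≃L[ℝ] (A × B)) (D : ℝ≥0), (∀ x, e x = (pj A x, pj B x)) ∧ 0 < D ∧
      ∀ S : Set E, MeasurableSet S → volume S = D * volume (e.symm ⁻¹' S) := by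
  obtain ⟨e, he⟩ := exists_equiv hc
  have h0 : (volume : Measure (A × B)).IsAddHaarMeasure := by
    rw [Measure.volume_eq_prod]
    infer_instance
  have h1 : (Measure.map e (volume : Measure E)).IsAddHaarMeasure := e.isAddHaarMeasure_map _
  refine ⟨e, Measure.addHaarScalarFactor (Measure.map e (volume : Measure E)) volume, he,
    Measure.addHaarScalarFactor_pos_of_isAddHaarMeasure _ _, ?_⟩
  intro S hS
  have h2 : Measure.map e (volume : Measure E) =
      Measure.addHaarScalarFactor (Measure.map e (volume : Measure E)) volume •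
        (volume : Measure (A × B)) := Measure.isAddLeftInvariant_eq_smul _ _
  have h3 : MeasurableSet (e.symm ⁻¹' S) := hS.preimage e.symm.continuous.measurable
  have h4 := congr_fun (congr_arg DFunLike.coe h2) (e.symm ⁻¹' S)
  rw [Measure.map_apply e.continuous.measurable h3] at h4
  have h5 : e ⁻¹' (e.symm ⁻¹' S) = S := by
    ext x
    simp
  rw [h5] at h4
  exact h4

/-- The set of the points with projections in `K₁` and `K₂`. -/
def bx (A B : Submodule ℝ E) (K₁ : Set A) (K₂ : Set B) : Set E :=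
  {x | pj A x ∈ K₁ ∧ pj B x ∈ K₂}

omit [MeasurableSpace E] [BorelSpace E] in
theorem isCompact_bx {A B : Submodule ℝ E} (hc : IsCompl A B) {K₁ : Set A} {K₂ : Set B}
    (h1 : IsCompact K₁) (h2 : IsCompact K₂) : IsCompact (bx A B K₁ K₂) := by
  obtain ⟨e, he⟩ := exists_equiv hc
  have h3 : bx A B K₁ K₂ = e.symm '' (K₁ ×ˢ K₂) := by
    ext x
    constructor
    · intro hx
      refine ⟨e x, ?_, e.symm_apply_apply x⟩
      rw [he]
      exact hx
    · rintro ⟨p, hp, rfl⟩
      have h4 := he (e.symm p)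
      rw [e.apply_symm_apply] at h4
      rw [h4] at hp
      exact hp
  rw [h3]
  exact (h1.prod h2).image e.symm.continuous

omit [MeasurableSpace E] [BorelSpace E] in
theorem convex_bx {A B : Submodule ℝ E} {K₁ : Set A} {K₂ : Set B}
    (h1 : Convex ℝ K₁) (h2 : Convex ℝ K₂) : Convex ℝ (bx A B K₁ K₂) := by
  intro x hx y hy a b ha hb hab
  refine ⟨?_, ?_⟩
  · rw [map_add, map_smul, map_smul]
    exact h1 hx.1 hy.1 ha hb hab
  · rw [map_add, map_smul, map_smul]
    exact h2 hx.2 hy.2 ha hb hab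

omit [MeasurableSpace E] [BorelSpace E] in
theorem zero_mem_bx {A B : Submodule ℝ E} {K₁ : Set A} {K₂ : Set B} (h1 : 0 ∈ K₁)
    (h2 : 0 ∈ K₂) : (0 : E) ∈ bx A B K₁ K₂ := by
  refine ⟨?_, ?_⟩
  · rw [map_zero]
    exact h1
  · rw [map_zero]
    exact h2

/-- The volume of a product set. -/
theorem exists_vol_bx {A B : Submodule ℝ E} (hc : IsCompl A B) :
    ∃ D : ℝ, 0 < D ∧ ∀ (K₁ : Set A) (K₂ : Set B), MeasurableSet K₁ → MeasurableSet K₂ →
      volume.real (bx A B K₁ K₂) = D * (volume.real K₁ * volume.real K₂) := by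
  obtain ⟨e, D, he, hD, hvol⟩ := exists_dec hc
  refine ⟨D, by exact_mod_cast hD, fun K₁ K₂ h1 h2 => ?_⟩
  have hm : MeasurableSet (bx A B K₁ K₂) :=
    (h1.preimage (pj A).continuous.measurable).inter (h2.preimage (pj B).continuous.measurable)
  have h3 : e.symm ⁻¹' (bx A B K₁ K₂) = K₁ ×ˢ K₂ := by
    ext p
    have h4 := he (e.symm p)
    rw [e.apply_symm_apply] at h4
    constructor
    · intro hp
      rw [h4]
      exact hp
    · intro hp
      rw [h4] at hp
      exact hp
  rw [measureReal_def, hvol _ hm, h3, Measure.volume_eq_prod, Measure.prod_prod,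
    ENNReal.toReal_mul, ENNReal.toReal_mul]
  rfl

/-- Lower bound of the cone volume measure of a product. -/
theorem bx_low {A B : Submodule ℝ E} (hc : IsCompl A B) {D : ℝ}
    (hvol : ∀ (K₁ : Set A) (K₂ : Set B), MeasurableSet K₁ → MeasurableSet K₂ →
      volume.real (bx A B K₁ K₂) = D * (volume.real K₁ * volume.real K₂)) (hD : 0 < D)
    {K₁ : Set A} {K₂ : Set B} (hK₁ : IsCompact K₁) (hK₁c : Convex ℝ K₁) (h01 : 0 ∈ K₁)
    (hK₂ : IsCompact K₂) (hK₂c : Convex ℝ K₂) (h02 : 0 ∈ K₂) {ω : Set E}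
    (hω : IsCompact ω) (hωs : ω ⊆ sphere (0 : E) 1) :
    D * (Module.finrank ℝ A * volume.real (segs K₁ {z : A | (z : E) ∈ ω}) * volume.real K₂ +
      Module.finrank ℝ B * volume.real (segs K₂ {z : B | (z : E) ∈ ω}) * volume.real K₁) ≤
      Module.finrank ℝ E * volume.real (segs (bx A B K₁ K₂) ω) := by
  have hcpt : ∀ C : Submodule ℝ E, IsCompact {z : C | (z : E) ∈ ω} ∧
      {z : C | (z : E) ∈ ω} ⊆ sphere (0 : C) 1 := by
    intro C
    have hs : {z : C | (z : E) ∈ ω} ⊆ sphere (0 : C) 1 := by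
      intro z hz
      have h1 := hωs hz
      rw [mem_sphere_zero_iff_norm] at h1 ⊢
      exact h1
    refine ⟨Metric.isCompact_of_isClosed_isBounded (hω.isClosed.preimage continuous_subtype_val)
      ((isBounded_closedBall (x := (0 : C)) (r := 1)).subset ?_), hs⟩
    exact hs.trans sphere_subset_closedBall
  set k : ℕ := Module.finrank ℝ A
  set l : ℕ := Module.finrank ℝ B
  set ω₁ : Set A := {z : A | (z : E) ∈ ω} with hω₁
  set ω₂ : Set B := {z : B | (z : E) ∈ ω} with hω₂
  set s₁ : ℝ := volume.real (segs K₁ ω₁) with hs₁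
  set s₂ : ℝ := volume.real (segs K₂ ω₂) with hs₂
  set K : Set E := bx A B K₁ K₂ with hK
  have hKc : IsCompact K := isCompact_bx hc hK₁ hK₂
  have hKcv : Convex ℝ K := convex_bx hK₁c hK₂c
  have hK0 : (0 : E) ∈ K := zero_mem_bx h01 h02
  have hle1 : s₁ ≤ volume.real K₁ :=
    measureReal_mono (segs_subset hK₁c h01) hK₁.measure_lt_top.ne
  have hle2 : s₂ ≤ volume.real K₂ :=
    measureReal_mono (segs_subset hK₂c h02) hK₂.measure_lt_top.ne
  have hs₁0 : 0 ≤ s₁ := measureReal_nonneg
  have hs₂0 : 0 ≤ s₂ := measureReal_nonneg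
  apply low_segs hKc hKcv hK0 hω hωs
    (f := fun t => D * ((volume.real K₁ - (1 - (1 - t) ^ k) * s₁) *
      (volume.real K₂ - (1 - (1 - t) ^ l) * s₂)))
  · rw [hK, hvol K₁ K₂ hK₁.measurableSet hK₂.measurableSet]
    simp
  · have e1 : HasDerivAt (fun t : ℝ => 1 - t) (-1) 0 := by
      simpa using (hasDerivAt_id (0 : ℝ)).const_sub 1
    have e2 : ∀ (p : ℕ) (s w : ℝ), HasDerivAt (fun t : ℝ => w - (1 - (1 - t) ^ p) * s)
        (-(p * s)) 0 := by
      intro p s w
      have f1 : HasDerivAt (fun t : ℝ => (1 - t) ^ p) (-(p : ℝ)) 0 := by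
        have := e1.fun_pow p
        simpa using this
      have := ((f1.const_sub 1).mul_const s).const_sub w
      simpa using this
    have e3 := ((e2 k s₁ (volume.real K₁)).mul (e2 l s₂ (volume.real K₂))).const_mul D
    have e4 : D * (-(k * s₁) * (volume.real K₂ - (1 - (1 - 0) ^ l) * s₂) +
        (volume.real K₁ - (1 - (1 - 0) ^ k) * s₁) * -(l * s₂)) =
        -(D * (k * s₁ * volume.real K₂ + l * s₂ * volume.real K₁)) := by
      simp only [sub_zero, one_pow]
      ring
    rw [e4] at e3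
    exact e3
  · intro t ht0 ht1
    have h1t : 0 < 1 - t := by linarith
    have hsub : cut K ω t ⊆ bx A B (cut K₁ ω₁ t) (cut K₂ ω₂ t) := by
      rintro x ⟨hx, hxc⟩
      refine ⟨⟨hx.1, fun z hz => ?_⟩, ⟨hx.2, fun z hz => ?_⟩⟩
      · have h2 := hxc (z : E) hz
        rw [← inner_pj] at h2
        have h3 : supp K (z : E) ≤ supp K₁ z := by
          refine supp_le ⟨0, hK0⟩ fun y hy => ?_
          rw [← inner_pj]
          exact le_supp hK₁ hy.1 z
        exact h2.trans (mul_le_mul_of_nonneg_left h3 h1t.le)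
      · have h2 := hxc (z : E) hz
        rw [← inner_pj] at h2
        have h3 : supp K (z : E) ≤ supp K₂ z := by
          refine supp_le ⟨0, hK0⟩ fun y hy => ?_
          rw [← inner_pj]
          exact le_supp hK₂ hy.2 z
        exact h2.trans (mul_le_mul_of_nonneg_left h3 h1t.le)
    have hc1 : IsCompact (cut K₁ ω₁ t) := isCompact_cut hK₁ t
    have hc2 : IsCompact (cut K₂ ω₂ t) := isCompact_cut hK₂ t
    have h2 : volume.real (cut K ω t) ≤ volume.real (bx A B (cut K₁ ω₁ t) (cut K₂ ω₂ t)) :=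
      measureReal_mono hsub (isCompact_bx hc hc1 hc2).measure_lt_top.ne
    rw [hvol _ _ hc1.measurableSet hc2.measurableSet] at h2
    refine h2.trans (mul_le_mul_of_nonneg_left ?_ hD.le)
    have h3 := cut_le hK₁ hK₁c h01 (hcpt A).1 (hcpt A).2 ht0 ht1
    have h4 := cut_le hK₂ hK₂c h02 (hcpt B).1 (hcpt B).2 ht0 ht1
    have h5 : (0 : ℝ) ≤ (1 - t) ^ k := by positivity
    have h6 : 0 ≤ volume.real K₁ - (1 - (1 - t) ^ k) * s₁ := by nlinarith
    exact mul_le_mul h3 h4 measureReal_nonneg h6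

end Pool.Agent.Lib.MP_abca01_gt.Sym
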