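import Pool.Agent.Lib.MP_abca01_gt.Sym.SInv

/-!
# Cone volume measures with symmetries, 10: invariant bodies of bounded energy are bounded

The two-sided case: the proof of `Ess.bdd_energy` for the invariant bodies; only the invariant
subspaces matter.
-/

set_option autoImplicit false

open MeasureTheory Set Metric Filter Topology
open scoped RealInnerProductSpace Pointwise

namespace Pool.Agent.Lib.MP_abca01_gt.Sym

open Ess

section alg

variable {E : Type} [NormedAddCommGroup E] [InnerProductSpace ℝ E]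
  {G : Subgroup (E ≃ₗᵢ[ℝ] E)}

theorem avg_mem [Fintype G] {K : Set E} (hc : Convex ℝ K) {x : G → E} (hx : ∀ g, x g ∈ K) :
    ((Fintype.card G : ℝ)⁻¹) • ∑ g : G, x g ∈ K := by
  rw [Finset.smul_sum]
  apply hc.sum_mem
  · intro g _
    positivity
  · rw [Finset.sum_const, Finset.card_univ, nsmul_eq_mul]
    exact mul_inv_cancel₀ (card_pos' G).ne'
  · intro g _
    exact hx g

/-- The centre of the balls can be chosen fixed. -/
theorem avg_ball [Finite G] {K : Set E} (hc : Convex ℝ K) (hK : Inv G K) {g : E} {ρ R : ℝ}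
    (h1 : closedBall g ρ ⊆ K) (h2 : K ⊆ closedBall g R) (hρ : 0 < ρ) :
    ∃ g, (∀ γ ∈ G, γ g = g) ∧ closedBall g ρ ⊆ K ∧ K ⊆ closedBall g (2 * R) := by
  have := Fintype.ofFinite G
  have hb : closedBall (avg G g) ρ ⊆ K := by
    intro y hy
    rw [mem_closedBall, dist_eq_norm] at hy
    have h3 : y = ((Fintype.card G : ℝ)⁻¹) • ∑ γ : G, ((γ : E ≃ₗᵢ[ℝ] E) g + (y - avg G g)) := by
      rw [Finset.sum_add_distrib, smul_add, Finset.sum_const, Finset.card_univ,
        ← Nat.cast_smul_eq_nsmul ℝ, inv_smul_smul₀ (card_pos' G).ne']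
      change y = avg G g + (y - avg G g)
      abel
    rw [h3]
    apply avg_mem hc
    intro γ
    have h4 : (γ : E ≃ₗᵢ[ℝ] E) g + (y - avg G g) =
        (γ : E ≃ₗᵢ[ℝ] E) (g + ((γ : E ≃ₗᵢ[ℝ] E)⁻¹ : E ≃ₗᵢ[ℝ] E) (y - avg G g)) := by
      rw [map_add, inv_apply]
    rw [h4]
    apply hK _ γ.2
    apply h1
    rw [mem_closedBall, dist_eq_norm, add_sub_cancel_left, LinearIsometryEquiv.norm_map]
    exact hy
  refine ⟨avg G g, avg_fixed g, hb, fun x hx => ?_⟩
  have h3 := h2 (hb (mem_closedBall_self hρ.le))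
  have h4 := h2 hx
  rw [mem_closedBall] at h3 h4 ⊢
  have h5 := dist_triangle_right x (avg G g) g
  linarith

/-- The hypothesis on the invariant subspaces. -/
def HypG [MeasurableSpace E] (G : Subgroup (E ≃ₗᵢ[ℝ] E)) (mu : Measure E) (Sg : Set E) : Prop :=
  ∀ L : Submodule ℝ E, L ≠ ⊥ → L ≠ ⊤ → (∀ γ ∈ G, ∀ x ∈ L, γ x ∈ L) →
    (Module.finrank ℝ E : ℝ) * mu.real (L : Set E) < Module.finrank ℝ L * mu.real univ ∨
    ∃ v ∈ L, v ≠ 0 ∧ ∃ ε : ℝ, 0 < ε ∧ ∀ u ∈ Sg, infDist u (L : Set E) < ε → ⟪u, v⟫ ≤ 0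

end alg

variable {E : Type} [NormedAddCommGroup E] [InnerProductSpace ℝ E] [FiniteDimensional ℝ E]
  [MeasurableSpace E] [BorelSpace E] {G : Subgroup (E ≃ₗᵢ[ℝ] E)} (lam mu : Measure E)
  [lam.IsAddHaarMeasure] [IsFiniteMeasure mu]

theorem loc_bdd [Finite G] (hmu : ∀ᵐ u ∂mu, ‖u‖ = 1) {M : ℕ} (hM : Module.finrank ℝ E = M + 1) {Sg : Set E}
    (hSg : ∀ u ∈ Sg, ‖u‖ = 1) (hH : HypG G mu Sg) {c : ℝ} (hc : 0 < c) (A : ℝ)
    (e : OrthonormalBasis (Fin (M + 1)) ℝ E) :
    ∃ η B : ℝ, 0 < η ∧ ∀ (K : Set E) (g : E) (e' : OrthonormalBasis (Fin (M + 1)) ℝ E)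
      (r : Fin (M + 1) → ℝ), (∀ m, ‖e' m - e m‖ < η) → Cls Sg K → Inv G K → Pos c K g e' r →
      lam.real K = 1 → EE mu K ≤ A → ∀ i : Fin M, Real.log (r i.succ) - Real.log (r i.castSucc) ≤ B := by
  have hM1 : (0 : ℝ) < (M : ℝ) + 1 := by positivity
  -- the dichotomy
  have hdi : ∀ i : Fin M, ∃ η δ a B : ℝ, 0 < η ∧ 0 < δ ∧ 0 < a ∧ 0 ≤ B ∧
      ((∀ (K : Set E) (g : E) (e' : OrthonormalBasis (Fin (M + 1)) ℝ E)
        (r : Fin (M + 1) → ℝ), (∀ m, ‖e' m - e m‖ < η) → Cls Sg K → Inv G K → Pos c K g e' r →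
        Real.log (r i.succ) - Real.log (r i.castSucc) ≤ B) ∨
      mu.real (BB e (2 * δ) i) + a ≤ ((i : ℝ) + 1) / ((M : ℝ) + 1) * mu.real univ) := by
    intro i
    by_cases hL : ∀ γ ∈ G, ∀ x ∈ Lsp e i, γ x ∈ Lsp e i
    swap
    · obtain ⟨η, hη, hess⟩ := inv_false hc e i hL
      refine ⟨η, 1, 1, |Real.log η|, hη, one_pos, one_pos, abs_nonneg _, Or.inl ?_⟩
      intro K g e' r hee _ hKG hP
      have h1 := hess K g e' r hKG hP hee
      have h2 := Real.log_le_log (mul_pos hη (hP.pos _)) h1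
      rw [Real.log_mul hη.ne' (hP.pos _).ne'] at h2
      have h3 := neg_abs_le (Real.log η)
      linarith
    rcases hH (Lsp e i) (Lsp_ne_bot e i) (Lsp_ne_top e i) hL with h | ⟨v, hv, hv0, ε, hε, h⟩
    · rw [hM, finrank_Lsp] at h
      push_cast at h
      have h1 : mu.real (Lsp e i : Set E) < ((i : ℝ) + 1) / ((M : ℝ) + 1) * mu.real univ := by
        rw [div_mul_eq_mul_div, lt_div_iff₀ hM1]
        linarith
      obtain ⟨x, hx1, hx2⟩ := exists_between h1
      obtain ⟨δ, hδ, hδx⟩ := exists_delta e i hx1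
      refine ⟨1, δ / 2, ((i : ℝ) + 1) / ((M : ℝ) + 1) * mu.real univ - x, 0, one_pos,
        by positivity, by linarith, le_rfl, Or.inr ?_⟩
      have h2 : 2 * (δ / 2) = δ := by ring
      rw [h2]
      linarith
    · obtain ⟨η, hη, hess⟩ := ess_false (M := M) hc hSg e i hv0 hv
        (ε := ε / ((M : ℝ) + 1)) (by positivity)
        (fun u hu hm => h u hu (infDist_Lsp e i hε hm))
      refine ⟨η, 1, 1, |Real.log η|, hη, one_pos, one_pos, abs_nonneg _, Or.inl ?_⟩
      intro K g e' r hee hK _ hP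
      have h1 := hess K g e' r hK hP hee
      have h2 := Real.log_le_log (mul_pos hη (hP.pos _)) h1
      rw [Real.log_mul hη.ne' (hP.pos _).ne'] at h2
      have h3 := neg_abs_le (Real.log η)
      linarith
  choose η' δ' a' B' hη' hδ' ha' hB' hdi' using hdi
  obtain ⟨η1, hη1, hη1'⟩ := exists_pos_le η' hη'
  obtain ⟨δ1, hδ1, hδ1'⟩ := exists_pos_le δ' hδ'
  obtain ⟨a, ha, ha1⟩ := exists_pos_le a' ha'
  obtain ⟨C, hC⟩ := vol_bounds lam M hc
  set δ : ℝ := min δ1 (1 / ((M : ℝ) + 1)) with hδdef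
  have hδ : 0 < δ := by positivity
  have hδM : ((M : ℝ) + 1) * δ ^ 2 ≤ 1 := by
    have h1 : δ ≤ 1 / ((M : ℝ) + 1) := min_le_right _ _
    have h2 : ((M : ℝ) + 1) * δ ≤ 1 := by
      calc ((M : ℝ) + 1) * δ ≤ ((M : ℝ) + 1) * (1 / ((M : ℝ) + 1)) :=
            mul_le_mul_of_nonneg_left h1 hM1.le
        _ = 1 := by field_simp
    have h3 : δ ≤ 1 := by
      refine h1.trans ?_
      rw [div_le_one hM1]
      have : (0 : ℝ) ≤ M := Nat.cast_nonneg M
      linarith
    nlinarith
  set W : ℝ := A - mu.real univ * Real.log (c * δ) + mu.real univ / ((M : ℝ) + 1) * C +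
    mu.real univ * ∑ i, B' i with hW
  refine ⟨min η1 δ, ∑ i, B' i + |W| / a, by positivity, ?_⟩
  intro K g e' r hee hK hKG hP hvol hEE i0
  have hμ : 0 ≤ mu.real univ := measureReal_nonneg
  have hgap : ∀ i : Fin M, 0 ≤ Real.log (r i.succ) - Real.log (r i.castSucc) := by
    intro i
    have := Real.log_le_log (hP.pos i.castSucc) (hP.mono (Fin.castSucc_le_succ i))
    linarith
  have hBsum : B' i0 ≤ ∑ i, B' i := Finset.single_le_sum (f := B') (fun i _ => hB' i)
    (Finset.mem_univ i0)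
  have hBs0 : 0 ≤ ∑ i, B' i := Finset.sum_nonneg fun i _ => hB' i
  rcases hdi' i0 with h1 | h1
  · have h2 := h1 K g e' r (fun m => (hee m).trans_le ((min_le_left _ _).trans (hη1' i0))) hK hKG hP
    have h3 : 0 ≤ |W| / a := by positivity
    linarith
  · -- the energy
    have hr0 : ∀ i, c * r 0 ≤ c * r i := fun i =>
      mul_le_mul_of_nonneg_left (hP.mono (Fin.zero_le i)) hc.le
    have hg : g ∈ interior K := mem_int (mul_pos hc (hP.pos 0)) (hP.ball_sub hr0)
    have h2 := low_FF hmu hP hK.cpt hg hc hδ hδM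
    have h3 := FF_le_EE hmu hK.cpt hg
    have h4 := hC K g e' r hK.cpt hP hvol
    have h5 : -(mu.real univ / ((M : ℝ) + 1) * C) ≤
        mu.real univ / ((M : ℝ) + 1) * ∑ m, Real.log (r m) := by
      rw [← mul_neg]
      exact mul_le_mul_of_nonneg_left (by linarith [(abs_le.1 h4).1]) (by positivity)
    set q : Fin M → ℝ := fun i => ((i : ℝ) + 1) / ((M : ℝ) + 1) * mu.real univ -
      mu.real (BB e' δ i) with hq
    have hBle : ∀ i : Fin M, mu.real (BB e' δ i) ≤ mu.real (BB e (2 * δ' i) i) := by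
      intro i
      apply ENNReal.toReal_mono (measure_ne_top mu _)
      apply measure_mono_ae
      filter_upwards [hmu] with u hu hmem m hm
      have h6 := hmem m hm
      have h7 : ⟪e m, u⟫ = ⟪e' m, u⟫ - ⟪e' m - e m, u⟫ := by
        rw [inner_sub_left]
        ring
      have h8 : |⟪e' m - e m, u⟫| < δ := by
        refine lt_of_le_of_lt (abs_real_inner_le_norm _ _) ?_
        rw [hu, mul_one]
        exact (hee m).trans_le (min_le_right _ _)
      have h9 : |⟪e m, u⟫| ≤ |⟪e' m, u⟫| + |⟪e' m - e m, u⟫| := by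
        rw [h7]
        exact abs_sub _ _
      have h10 : δ ≤ δ' i := (min_le_left _ _).trans (hδ1' i)
      linarith
    have hqi : ∀ i, -(mu.real univ * B' i) ≤ q i * (Real.log (r i.succ) - Real.log (r i.castSucc)) := by
      intro i
      rcases hdi' i with h6 | h6
      · have h7 := h6 K g e' r (fun m => (hee m).trans_le ((min_le_left _ _).trans (hη1' i))) hK hKG hP
        have h8 : -mu.real univ ≤ q i := by
          have h9 : mu.real (BB e' δ i) ≤ mu.real univ := measureReal_mono (subset_univ _)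
          have h10 : 0 ≤ ((i : ℝ) + 1) / ((M : ℝ) + 1) * mu.real univ := by positivity
          simp only [hq]
          linarith
        have h9 := mul_le_mul_of_nonneg_right h8 (hgap i)
        have h10 := mul_le_mul_of_nonneg_left h7 hμ
        linarith
      · have h7 : 0 ≤ q i := by
          have := hBle i
          have := ha' i
          simp only [hq]
          linarith
        have h8 := mul_nonneg h7 (hgap i)
        have h9 := mul_nonneg hμ (hB' i)
        linarith
    have h6 : a ≤ q i0 := by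
      have := hBle i0
      have := ha1 i0
      simp only [hq]
      linarith
    have h7 : q i0 * (Real.log (r i0.succ) - Real.log (r i0.castSucc)) + mu.real univ * B' i0 ≤
        ∑ i, (q i * (Real.log (r i.succ) - Real.log (r i.castSucc)) + mu.real univ * B' i) :=
      Finset.single_le_sum (f := fun i => q i * (Real.log (r i.succ) - Real.log (r i.castSucc)) +
        mu.real univ * B' i) (fun i _ => by linarith [hqi i]) (Finset.mem_univ i0)
    rw [Finset.sum_add_distrib, ← Finset.mul_sum] at h7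
    have h8 : a * (Real.log (r i0.succ) - Real.log (r i0.castSucc)) ≤
        q i0 * (Real.log (r i0.succ) - Real.log (r i0.castSucc)) :=
      mul_le_mul_of_nonneg_right h6 (hgap i0)
    have h9 : 0 ≤ mu.real univ * B' i0 := mul_nonneg hμ (hB' i0)
    have h10 : a * (Real.log (r i0.succ) - Real.log (r i0.castSucc)) ≤ W := by
      simp only [hq] at h7
      rw [hW]
      linarith
    have h11 : Real.log (r i0.succ) - Real.log (r i0.castSucc) ≤ |W| / a := by
      rw [le_div_iff₀ ha, mul_comm]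
      exact h10.trans (le_abs_self W)
    linarith

/-- Bodies of the class with volume one and bounded energy contain a ball of a fixed radius and are
contained in a ball of a fixed radius. -/
theorem bdd_energy [Finite G] (hmu : ∀ᵐ u ∂mu, ‖u‖ = 1) {M : ℕ} (hM : Module.finrank ℝ E = M + 1) {Sg : Set E}
    (hSg : ∀ u ∈ Sg, ‖u‖ = 1) (hH : HypG G mu Sg) (A : ℝ) :
    ∃ ρ R : ℝ, 0 < ρ ∧ ∀ K : Set E, Cls Sg K → Inv G K → lam.real K = 1 → EE mu K ≤ A →
      ∃ g, (∀ γ ∈ G, γ g = g) ∧ closedBall g ρ ⊆ K ∧ K ⊆ closedBall g R := by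
  obtain ⟨c, hc, -, hpos⟩ := exists_pos E (M + 1) hM (Nat.succ_pos M)
  -- compactness of the set of orthonormal frames
  have hcpt : IsCompact {f : Fin (M + 1) → E | Orthonormal ℝ f} := by
    apply Metric.isCompact_of_isClosed_isBounded
    · have h1 : {f : Fin (M + 1) → E | Orthonormal ℝ f} =
          ⋂ i, ⋂ j, {f | ⟪f i, f j⟫ = if i = j then 1 else 0} := by
        ext f
        simp only [mem_ofPred_eq, mem_iInter, orthonormal_iff_ite]
      rw [h1]
      refine isClosed_iInter fun i => isClosed_iInter fun j => isClosed_eq (by fun_prop) continuous_const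
    · refine (isBounded_closedBall (x := (0 : Fin (M + 1) → E)) (r := 1)).subset ?_
      intro f hf
      rw [mem_closedBall, dist_zero_right, pi_norm_le_iff_of_nonneg zero_le_one]
      intro i
      exact (hf.1 i).le
  have hB : ∃ B : ℝ, ∀ (K : Set E) (g : E) (e' : OrthonormalBasis (Fin (M + 1)) ℝ E)
      (r : Fin (M + 1) → ℝ), (⇑e' : Fin (M + 1) → E) ∈ {f : Fin (M + 1) → E | Orthonormal ℝ f} →
      Cls Sg K → Inv G K → Pos c K g e' r → lam.real K = 1 → EE mu K ≤ A → ∀ i : Fin M,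
        Real.log (r i.succ) - Real.log (r i.castSucc) ≤ B := by
    refine hcpt.induction_on (p := fun S => ∃ B : ℝ, ∀ (K : Set E) (g : E)
      (e' : OrthonormalBasis (Fin (M + 1)) ℝ E) (r : Fin (M + 1) → ℝ),
      (⇑e' : Fin (M + 1) → E) ∈ S → Cls Sg K → Inv G K → Pos c K g e' r → lam.real K = 1 →
      EE mu K ≤ A →
        ∀ i : Fin M, Real.log (r i.succ) - Real.log (r i.castSucc) ≤ B) ?_ ?_ ?_ ?_
    · exact ⟨0, fun K g e' r he => absurd he (notMem_empty _)⟩
    · rintro s t hst ⟨B, hB⟩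
      exact ⟨B, fun K g e' r he => hB K g e' r (hst he)⟩
    · rintro s t ⟨B, hB⟩ ⟨B', hB'⟩
      refine ⟨max B B', fun K g e' r he hK hKG hP hv hE i => ?_⟩
      rcases he with he | he
      · exact (hB K g e' r he hK hKG hP hv hE i).trans (le_max_left _ _)
      · exact (hB' K g e' r he hK hKG hP hv hE i).trans (le_max_right _ _)
    · intro f hf
      have hsp : Submodule.span ℝ (Set.range f) = ⊤ :=
        hf.linearIndependent.span_eq_top_of_card_eq_finrank' (by rw [Fintype.card_fin, hM])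
      let e : OrthonormalBasis (Fin (M + 1)) ℝ E := OrthonormalBasis.mk hf hsp.ge
      have hef : ∀ m, e m = f m := fun m => by simp [e]
      obtain ⟨η, B, hη, h⟩ := loc_bdd lam mu hmu hM hSg hH hc A e
      refine ⟨{f' | ∀ m, ‖f' m - f m‖ < η}, ?_, B, ?_⟩
      · apply mem_nhdsWithin_of_mem_nhds
        have h1 : {f' : Fin (M + 1) → E | ∀ m, ‖f' m - f m‖ < η} =
            ⋂ m, {f' | ‖f' m - f m‖ < η} := by
          ext f'
          simp
        rw [h1]
        refine (isOpen_iInter_of_finite fun m => isOpen_lt (by fun_prop) continuous_const).mem_nhds ?_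
        simp [hη]
      · intro K g e' r he hK hKG hP hv hE
        refine h K g e' r (fun m => ?_) hK hKG hP hv hE
        rw [hef]
        exact he m
  obtain ⟨B, hB⟩ := hB
  obtain ⟨C, hC⟩ := vol_bounds lam M hc
  have hM1 : (0 : ℝ) < (M : ℝ) + 1 := by positivity
  refine ⟨c * Real.exp (-(C / ((M : ℝ) + 1)) - M * B),
    2 * (((M + 1 : ℕ) : ℝ) * (c⁻¹ * Real.exp (C / ((M : ℝ) + 1) + M * B))), by positivity, ?_⟩
  intro K hK hKG hvol hE
  obtain ⟨g, e, r, hP⟩ := hpos K hK.cpt hK.cvx hK.int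
  have hgap := hB K g e r e.orthonormal hK hKG hP hvol hE
  have hCC := abs_le.1 (hC K g e r hK.cpt hP hvol)
  have h1 : Real.log (r (Fin.last M)) - Real.log (r 0) ≤ M * B := by
    have h2 := sum_gap M (fun i => Real.log (r i)) 0
    rw [← h2]
    have h3 : ∀ i ∈ (Finset.univ : Finset (Fin M)), (if (0 : Fin (M + 1)) ≤ i.castSucc then
        Real.log (r i.succ) - Real.log (r i.castSucc) else 0) ≤ B := by
      intro i _
      rw [if_pos (Fin.zero_le _)]
      exact hgap i
    refine (Finset.sum_le_sum h3).trans (le_of_eq ?_)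
    rw [Finset.sum_const, Finset.card_univ, Fintype.card_fin, nsmul_eq_mul]
  have hlast : ∀ m, Real.log (r m) ≤ Real.log (r (Fin.last M)) := fun m =>
    Real.log_le_log (hP.pos m) (hP.mono (Fin.le_last m))
  have hzero : ∀ m, Real.log (r 0) ≤ Real.log (r m) := fun m =>
    Real.log_le_log (hP.pos 0) (hP.mono (Fin.zero_le m))
  have h2 : ((M : ℝ) + 1) * Real.log (r 0) ≤ C := by
    have h3 : ∑ _m : Fin (M + 1), Real.log (r 0) ≤ ∑ m, Real.log (r m) :=
      Finset.sum_le_sum fun m _ => hzero m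
    rw [Finset.sum_const, Finset.card_univ, Fintype.card_fin, nsmul_eq_mul] at h3
    push_cast at h3
    linarith
  have h3 : -C ≤ ((M : ℝ) + 1) * Real.log (r (Fin.last M)) := by
    have h4 : ∑ m, Real.log (r m) ≤ ∑ _m : Fin (M + 1), Real.log (r (Fin.last M)) :=
      Finset.sum_le_sum fun m _ => hlast m
    rw [Finset.sum_const, Finset.card_univ, Fintype.card_fin, nsmul_eq_mul] at h4
    push_cast at h4
    linarith
  have h4 : Real.log (r 0) ≤ C / ((M : ℝ) + 1) := by
    rw [le_div_iff₀ hM1]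
    linarith
  have h5 : -(C / ((M : ℝ) + 1)) ≤ Real.log (r (Fin.last M)) := by
    rw [← neg_div, div_le_iff₀ hM1]
    linarith
  refine avg_ball hK.cvx hKG (g := g) ?_ ?_ (by positivity)
  · apply hP.ball_sub
    intro i
    apply mul_le_mul_of_nonneg_left _ hc.le
    rw [← Real.le_log_iff_exp_le (hP.pos i)]
    linarith [hzero i]
  · intro x hx
    rw [mem_closedBall, dist_eq_norm]
    apply norm_le_sum e
    intro i
    refine (hP.up x hx i).trans ?_
    apply mul_le_mul_of_nonneg_left _ (by positivity)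
    rw [← Real.log_le_iff_le_exp (hP.pos i)]
    linarith [hlast i]

end Pool.Agent.Lib.MP_abca01_gt.Sym
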