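import Pool.Agent.Lib.MP_abca01_gt.Sym.SSub

/-!
# Cone volume measures with a fixed axis, 25: the conditions on invariant subspaces
-/

set_option autoImplicit false

open MeasureTheory Set Metric Filter Topology
open scoped RealInnerProductSpace Pointwise ENNReal

namespace Pool.Agent.Lib.MP_abca01_gt.Sym

variable {E : Type} [NormedAddCommGroup E] [InnerProductSpace ℝ E] [FiniteDimensional ℝ E]
  [MeasurableSpace E] [BorelSpace E] {G : Subgroup (E ≃ₗᵢ[ℝ] E)}

/-- The subspace concentration condition at `L`. -/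
def SCC (mu : Measure E) (L : Submodule ℝ E) : Prop :=
  (Module.finrank ℝ E : ℝ) * mu.real (L : Set E) ≤ Module.finrank ℝ L * mu.real univ ∧
    ((Module.finrank ℝ E : ℝ) * mu.real (L : Set E) = Module.finrank ℝ L * mu.real univ →
      ∃ L' : Submodule ℝ E, IsCompl L L' ∧ mu ((L : Set E) ∪ L')ᶜ = 0)

/-- The measure is one-sided near `L`, with respect to a fixed vector in `L`. -/
def OneS (G : Subgroup (E ≃ₗᵢ[ℝ] E)) (mu : Measure E) (L : Submodule ℝ E) : Prop :=
  ∃ v ∈ L, (∀ g ∈ G, g v = v) ∧ v ≠ 0 ∧ ∃ ε : ℝ, 0 < ε ∧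
    mu {u | infDist u (L : Set E) < ε ∧ 0 < ⟪u, v⟫} = 0

omit [FiniteDimensional ℝ E] [MeasurableSpace E] [BorelSpace E] in
theorem finrank_map_sub {A : Submodule ℝ E} (L : Submodule ℝ A) :
    Module.finrank ℝ (L.map A.subtype) = Module.finrank ℝ L :=
  (LinearEquiv.finrank_eq (Submodule.equivMapOfInjective A.subtype A.injective_subtype L)).symm

theorem mR_real (A : Submodule ℝ E) (mu : Measure E) (L : Submodule ℝ A) :
    (mR A mu).real (L : Set A) = mu.real ((L.map A.subtype : Submodule ℝ E) : Set E) := by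
  rw [measureReal_def, measureReal_def, mR_coe]

theorem mR_real_univ (A : Submodule ℝ E) (mu : Measure E) :
    (mR A mu).real univ = mu.real (A : Set E) := by
  rw [measureReal_def, measureReal_def, mR_univ]

/-- Restriction of the subspace concentration condition. -/
theorem SCC.res {mu : Measure E} {A : Submodule ℝ E} (hn : 0 < Module.finrank ℝ A)
    (hkA : (Module.finrank ℝ E : ℝ) * mu.real (A : Set E) = Module.finrank ℝ A * mu.real univ)
    {L : Submodule ℝ A} (h : SCC mu (L.map A.subtype)) : SCC (mR A mu) L := by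
  have hnE : 0 < Module.finrank ℝ E := lt_of_lt_of_le hn (Submodule.finrank_le A)
  have hn' : (0 : ℝ) < Module.finrank ℝ A := by exact_mod_cast hn
  have hnE' : (0 : ℝ) < Module.finrank ℝ E := by exact_mod_cast hnE
  unfold SCC at h ⊢
  rw [finrank_map_sub L] at h
  rw [mR_real, mR_real_univ]
  set x := mu.real ((L.map A.subtype : Submodule ℝ E) : Set E)
  set a := mu.real (A : Set E)
  set M := mu.real univ
  refine ⟨?_, ?_⟩
  · have h1 : (Module.finrank ℝ E : ℝ) * (Module.finrank ℝ A * x) ≤
        Module.finrank ℝ E * (Module.finrank ℝ L * a) := by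
      calc (Module.finrank ℝ E : ℝ) * (Module.finrank ℝ A * x)
          = Module.finrank ℝ A * (Module.finrank ℝ E * x) := by ring
        _ ≤ Module.finrank ℝ A * (Module.finrank ℝ L * M) :=
          mul_le_mul_of_nonneg_left h.1 hn'.le
        _ = Module.finrank ℝ L * (Module.finrank ℝ A * M) := by ring
        _ = Module.finrank ℝ L * (Module.finrank ℝ E * a) := by rw [hkA]
        _ = _ := by ring
    exact le_of_mul_le_mul_left h1 hnE'
  · intro heq
    obtain ⟨L', hc, hmu⟩ := h.2 (by
      have h1 : (Module.finrank ℝ A : ℝ) * (Module.finrank ℝ E * x) =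
          Module.finrank ℝ A * (Module.finrank ℝ L * M) := by
        calc (Module.finrank ℝ A : ℝ) * (Module.finrank ℝ E * x)
            = Module.finrank ℝ E * (Module.finrank ℝ A * x) := by ring
          _ = Module.finrank ℝ E * (Module.finrank ℝ L * a) := by rw [heq]
          _ = Module.finrank ℝ L * (Module.finrank ℝ E * a) := by ring
          _ = Module.finrank ℝ L * (Module.finrank ℝ A * M) := by rw [hkA]
          _ = _ := by ring
      exact mul_left_cancel₀ hn'.ne' h1)
    refine ⟨L'.comap A.subtype, ?_, ?_⟩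
    · constructor
      · rw [Submodule.disjoint_def]
        intro z hz hz'
        have h1 := (Submodule.disjoint_def.1 hc.disjoint) (z : E) ⟨z, hz, rfl⟩ hz'
        exact Subtype.ext h1
      · rw [codisjoint_iff_le_sup]
        intro z _
        have h1 : (z : E) ∈ L.map A.subtype ⊔ L' := by
          rw [hc.sup_eq_top]
          trivial
        obtain ⟨_, ⟨y, hy, rfl⟩, w, hw, hyw⟩ := Submodule.mem_sup.1 h1
        have hwA : w = ((z - y : A) : E) := by
          rw [Submodule.coe_sub, ← hyw]
          simp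
        refine Submodule.mem_sup.2 ⟨y, hy, z - y, ?_, by abel⟩
        change ((z - y : A) : E) ∈ L'
        rw [← hwA]
        exact hw
    · rw [mR_apply]
      refine measure_mono_null ?_ hmu
      rintro _ ⟨z, hz, rfl⟩ hcon
      apply hz
      rcases hcon with ⟨y, hy, hyz⟩ | h2
      · left
        have h3 : y = z := Subtype.ext hyz
        rwa [← h3]
      · right
        exact h2

/-- Restriction of the one-sidedness. -/
theorem OneS.res {mu : Measure E} {A : Submodule ℝ E} {L : Submodule ℝ A}
    (h : OneS G mu (L.map A.subtype)) : OneS (GR G A) (mR A mu) L := by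
  obtain ⟨v, ⟨w, hw, rfl⟩, hfix, hv0, ε, hε, h0⟩ := h
  refine ⟨w, hw, ?_, ?_, ε, hε, ?_⟩
  · rintro f ⟨g, hg, hfg⟩
    apply Subtype.ext
    rw [hfg]
    exact hfix g hg
  · rintro rfl
    exact hv0 rfl
  · rw [mR_apply]
    refine measure_mono_null ?_ h0
    rintro _ ⟨z, ⟨hz1, hz2⟩, rfl⟩
    refine ⟨?_, hz2⟩
    have h1 := infDist_image (Φ := ((↑) : A → E)) isometry_subtype_coe (x := z) (t := (L : Set A))
    rw [Submodule.map_coe]
    change infDist (z : E) (((↑) : A → E) '' (L : Set A)) < ε
    rw [h1]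
    exact hz1

/-- An invariant subspace in the case of equality has an invariant complement. -/
theorem inv_compl {mu : Measure E} (hmuinv : ∀ g ∈ G, ∀ s, MeasurableSet s → mu (g ⁻¹' s) = mu s)
    {L L' : Submodule ℝ E} (hL : SInv G L) (hc : IsCompl L L') (hmu : mu ((L : Set E) ∪ L')ᶜ = 0) :
    ∃ N : Submodule ℝ E, IsCompl L N ∧ SInv G N ∧ mu ((L : Set E) ∪ N)ᶜ = 0 := by
  set M : Submodule ℝ E := Submodule.span ℝ (msupp mu \ L) with hM
  have hsuppU : msupp mu ⊆ (L : Set E) ∪ L' := by
    intro u hu
    by_contra hcon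
    exact notMem_of_null (U := ((L : Set E) ∪ L')ᶜ)
      ((L.closed_of_finiteDimensional.union L'.closed_of_finiteDimensional).isOpen_compl) hmu hu hcon
  have hML' : M ≤ L' := by
    rw [hM, Submodule.span_le]
    rintro u ⟨hu, hu'⟩
    rcases hsuppU hu with h | h
    · exact absurd h hu'
    · exact h
  have hdisj : ∀ x ∈ L, x ∈ M → x = 0 := fun x hx hx' =>
    (Submodule.disjoint_def.1 hc.disjoint) x hx (hML' hx')
  have hMG : SInv G M := by
    intro g hg x hx
    induction hx using Submodule.span_induction with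
    | mem y hy =>
      refine Submodule.subset_span ⟨inv_msupp hmuinv g hg y hy.1, fun hcon => hy.2 ?_⟩
      have h1 := hL g⁻¹ (G.inv_mem hg) _ hcon
      rwa [inv_apply'] at h1
    | zero => rw [map_zero]; exact Submodule.zero_mem _
    | add y z _ _ hy hz => rw [map_add]; exact Submodule.add_mem _ hy hz
    | smul a y _ hy => rw [map_smul]; exact Submodule.smul_mem _ _ hy
  have hLMG : SInv G (L ⊔ M) := by
    intro g hg x hx
    obtain ⟨y, hy, z, hz, rfl⟩ := Submodule.mem_sup.1 hx
    rw [map_add]
    exact Submodule.add_mem_sup (hL g hg y hy) (hMG g hg z hz)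
  have hperp : SInv G (L ⊔ M)ᗮ := by
    intro g hg x hx
    rw [Submodule.mem_orthogonal'] at hx ⊢
    intro y hy
    rw [inner_inv]
    exact hx _ (hLMG g⁻¹ (G.inv_mem hg) y hy)
  refine ⟨M ⊔ (L ⊔ M)ᗮ, ⟨?_, ?_⟩, ?_, ?_⟩
  · rw [Submodule.disjoint_def]
    intro x hx hx'
    obtain ⟨m, hm, w, hw, hmw⟩ := Submodule.mem_sup.1 hx'
    have h1 : w ∈ L ⊔ M := by
      have h2 : w = x - m := by
        rw [← hmw]
        abel
      rw [h2]
      exact Submodule.sub_mem _ (Submodule.mem_sup_left hx) (Submodule.mem_sup_right hm)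
    have h2 : w = 0 := by
      have h3 := (Submodule.mem_orthogonal _ _).1 hw w h1
      exact inner_self_eq_zero.1 h3
    rw [h2, add_zero] at hmw
    exact hdisj x hx (by rw [← hmw]; exact hm)
  · rw [codisjoint_iff, ← sup_assoc]
    exact Submodule.sup_orthogonal_of_hasOrthogonalProjection
  · intro g hg x hx
    obtain ⟨y, hy, z, hz, rfl⟩ := Submodule.mem_sup.1 hx
    rw [map_add]
    exact Submodule.add_mem_sup (hMG g hg y hy) (hperp g hg z hz)
  · refine measure_mono_null ?_ (measure_msupp mu)
    intro u hu hcon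
    apply hu
    by_cases h : u ∈ L
    · left
      exact h
    · right
      exact Submodule.mem_sup_left (Submodule.subset_span ⟨hcon, h⟩)

end Pool.Agent.Lib.MP_abca01_gt.Sym
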