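import Pool.Agent.Lib.MP_abca01_gt.Sym.SDec
import Pool.Agent.Lib.MP_abca01_gt.Sym.SGood
import Pool.Agent.Lib.MP_abca01_gt.Sym.SPL

/-!
# Cone volume measures with a fixed axis, 31: the volumes of the fibres
-/

set_option autoImplicit false

open MeasureTheory Set Metric Filter Topology
open scoped RealInnerProductSpace Pointwise ENNReal NNReal

namespace Pool.Agent.Lib.MP_abca01_gt.Sym

open Ess Variationaux Energyaux Borelaux Capaux

section bm

variable {B : Type} [NormedAddCommGroup B] [InnerProductSpace ℝ B] [FiniteDimensional ℝ B]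
  [MeasurableSpace B] [BorelSpace B]

/-- The multiplicative Brunn–Minkowski inequality. -/
theorem bm_mul {a b : ℝ} (ha : 0 < a) (hb : 0 < b) (hab : a + b = 1) {X Y : Set B}
    (hX : IsCompact X) (hY : IsCompact Y) :
    (volume X) ^ a * (volume Y) ^ b ≤ volume (a • X + b • Y) := by
  set φ := (stdOrthonormalBasis ℝ B).repr with hφ
  have hmp : MeasurePreserving φ := φ.measurePreserving
  have hvol : ∀ S : Set B, IsCompact S → volume (φ '' S) = volume S := by
    intro S hS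
    have h1 := hmp.measure_preimage (hS.image φ.continuous).measurableSet.nullMeasurableSet
    rw [preimage_image_eq S φ.injective] at h1
    exact h1.symm
  have hC : IsCompact (a • X + b • Y) := (hX.smul a).add (hY.smul b)
  rw [← hvol X hX, ← hvol Y hY, ← hvol _ hC]
  have h1 : φ '' (a • X + b • Y) = a • (φ '' X) + b • (φ '' Y) := by
    ext z
    constructor
    · rintro ⟨_, ⟨_, ⟨x, hx, rfl⟩, _, ⟨y, hy, rfl⟩, rfl⟩, rfl⟩
      refine ⟨a • φ x, ⟨φ x, ⟨x, hx, rfl⟩, rfl⟩, b • φ y, ⟨φ y, ⟨y, hy, rfl⟩, rfl⟩, ?_⟩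
      simp
    · rintro ⟨_, ⟨_, ⟨x, hx, rfl⟩, rfl⟩, _, ⟨_, ⟨y, hy, rfl⟩, rfl⟩, rfl⟩
      refine ⟨a • x + b • y, ⟨a • x, ⟨x, hx, rfl⟩, b • y, ⟨y, hy, rfl⟩, rfl⟩, ?_⟩
      simp
  rw [h1]
  exact BM.vol_mul ha hb hab (hX.image φ.continuous) (hY.image φ.continuous)

end bm

section fib

variable {E : Type} [NormedAddCommGroup E] [InnerProductSpace ℝ E] [FiniteDimensional ℝ E]
  {G : Subgroup (E ≃ₗᵢ[ℝ] E)}

/-- The fibre of `K` over `a`. -/
def fb (L : Submodule ℝ E) (K : Set E) (a : L) : Set Lᗮ := {b | (a : E) + (b : E) ∈ K}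

theorem pj_add (L : Submodule ℝ E) (a : L) (b : Lᗮ) : pj L ((a : E) + (b : E)) = a := by
  apply ext_inner_right ℝ
  intro z
  rw [inner_pj, inner_add_left, Submodule.inner_left_of_mem_orthogonal z.2 b.2, add_zero]
  rfl

theorem pj_add' (L : Submodule ℝ E) (a : L) (b : Lᗮ) : pj Lᗮ ((a : E) + (b : E)) = b := by
  apply ext_inner_right ℝ
  intro z
  rw [inner_pj, inner_add_left, Submodule.inner_right_of_mem_orthogonal a.2 z.2, zero_add]
  rfl

theorem compl_perp (L : Submodule ℝ E) : IsCompl L Lᗮ :=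
  Submodule.isCompl_orthogonal L

theorem pj_pj (L : Submodule ℝ E) (x : E) : ((pj L x : L) : E) + ((pj Lᗮ x : Lᗮ) : E) = x := by
  apply pj_inj (compl_perp L)
  · rw [pj_add]
  · rw [pj_add']

theorem mem_fb {L : Submodule ℝ E} {K : Set E} {x : E} (hx : x ∈ K) : pj Lᗮ x ∈ fb L K (pj L x) := by
  change ((pj L x : L) : E) + ((pj Lᗮ x : Lᗮ) : E) ∈ K
  rw [pj_pj]
  exact hx

theorem isCompact_fb (L : Submodule ℝ E) {K : Set E} (hK : IsCompact K) (a : L) :
    IsCompact (fb L K a) := by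
  have h1 : fb L K a = pj Lᗮ '' (K ∩ pj L ⁻¹' {a}) := by
    ext b
    constructor
    · intro hb
      exact ⟨(a : E) + (b : E), ⟨hb, pj_add L a b⟩, pj_add' L a b⟩
    · rintro ⟨x, ⟨hx, hxa⟩, rfl⟩
      have h2 : pj L x = a := hxa
      rw [← h2]
      exact mem_fb hx
  rw [h1]
  exact (hK.inter_right (isClosed_singleton.preimage (pj L).continuous)).image (pj Lᗮ).continuous

omit [FiniteDimensional ℝ E] in
theorem fb_combo {L : Submodule ℝ E} {K : Set E} (hK : Convex ℝ K) {s t : ℝ} (hs : 0 ≤ s)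
    (ht : 0 ≤ t) (hst : s + t = 1) (a a' : L) :
    s • fb L K a + t • fb L K a' ⊆ fb L K (s • a + t • a') := by
  rintro _ ⟨_, ⟨b, hb, rfl⟩, _, ⟨b', hb', rfl⟩, rfl⟩
  have h1 := hK hb hb' hs ht hst
  change ((s • a + t • a' : L) : E) + ((s • b + t • b' : Lᗮ) : E) ∈ K
  have h2 : ((s • a + t • a' : L) : E) + ((s • b + t • b' : Lᗮ) : E) =
      s • ((a : E) + (b : E)) + t • ((a' : E) + (b' : E)) := by
    rw [Submodule.coe_add, Submodule.coe_add, Submodule.coe_smul, Submodule.coe_smul,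
      Submodule.coe_smul, Submodule.coe_smul, smul_add, smul_add]
    abel
  rw [h2]
  exact h1

omit [FiniteDimensional ℝ E] in
theorem convex_fb {L : Submodule ℝ E} {K : Set E} (hK : Convex ℝ K) (a : L) :
    Convex ℝ (fb L K a) := by
  intro b hb b' hb' s t hs ht hst
  have h1 := fb_combo hK hs ht hst a a ⟨s • b, ⟨b, hb, rfl⟩, t • b', ⟨b', hb', rfl⟩, rfl⟩
  rwa [← add_smul, hst, one_smul] at h1

omit [FiniteDimensional ℝ E] in
theorem SInv.perp {L : Submodule ℝ E} (hL : SInv G L) : SInv G Lᗮ := by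
  intro g hg x hx
  rw [Submodule.mem_orthogonal'] at hx ⊢
  intro y hy
  rw [inner_inv]
  exact hx _ (hL g⁻¹ (G.inv_mem hg) y hy)

end fib

variable {E : Type} [NormedAddCommGroup E] [InnerProductSpace ℝ E] [FiniteDimensional ℝ E]
  [MeasurableSpace E] [BorelSpace E] {G : Subgroup (E ≃ₗᵢ[ℝ] E)}

/-- The volume of the fibre. -/
noncomputable def fv (L : Submodule ℝ E) (K : Set E) (a : L) : ℝ≥0∞ := volume (fb L K a)

theorem fv_lt_top (L : Submodule ℝ E) {K : Set E} (hK : IsCompact K) (a : L) : fv L K a < ⊤ :=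
  (isCompact_fb L hK a).measure_lt_top

/-- The volume as an integral over `L`. -/
theorem exists_vol_fib (L : Submodule ℝ E) : ∃ D : ℝ≥0, 0 < D ∧ ∀ K : Set E, MeasurableSet K →
    Measurable (fv L K) ∧ volume K = D * ∫⁻ a : L, fv L K a := by
  obtain ⟨e, D, he, hD, hvol⟩ := exists_dec (compl_perp L)
  refine ⟨D, hD, fun K hK => ?_⟩
  have hm : MeasurableSet (e.symm ⁻¹' K) := hK.preimage e.symm.continuous.measurable
  have hsymm : ∀ (a : L) (b : Lᗮ), e.symm (a, b) = (a : E) + (b : E) := by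
    intro a b
    rw [e.symm_apply_eq, he, pj_add, pj_add']
  have h1 : ∀ a : L, fv L K a = volume (Prod.mk a ⁻¹' (e.symm ⁻¹' K)) := by
    intro a
    unfold fv
    congr 1
    ext b
    change (a : E) + (b : E) ∈ K ↔ e.symm (a, b) ∈ K
    rw [hsymm]
  refine ⟨?_, ?_⟩
  · have h2 : fv L K = fun a => volume (Prod.mk a ⁻¹' (e.symm ⁻¹' K)) := funext h1
    rw [h2]
    exact measurable_measure_prodMk_left hm
  · rw [hvol K hK, Measure.volume_eq_prod, Measure.prod_apply hm]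
    congr 1
    exact lintegral_congr fun a => (h1 a).symm

/-- Log-concavity of the volume of the fibres. -/
theorem fv_combo {L : Submodule ℝ E} {K : Set E} (hK : IsCompact K) (hKc : Convex ℝ K) {s t : ℝ}
    (hs : 0 < s) (ht : 0 < t) (hst : s + t = 1) (a a' : L) :
    fv L K a ^ s * fv L K a' ^ t ≤ fv L K (s • a + t • a') :=
  (bm_mul hs ht hst (isCompact_fb L hK a) (isCompact_fb L hK a')).trans
    (measure_mono (fb_combo hKc hs.le ht.le hst a a'))

theorem convex_fv {L : Submodule ℝ E} {K : Set E} (hK : IsCompact K) (hKc : Convex ℝ K)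
    (c : ℝ≥0∞) : Convex ℝ {a : L | c ≤ fv L K a} := by
  rw [convex_iff_forall_pos]
  intro a ha a' ha' s t hs ht hst
  have ha1 : c ≤ fv L K a := ha
  have ha2 : c ≤ fv L K a' := ha'
  rcases eq_or_ne c 0 with rfl | hc0
  · change (0 : ℝ≥0∞) ≤ fv L K (s • a + t • a')
    exact _root_.bot_le
  have hctop : c ≠ ⊤ := (lt_of_le_of_lt ha1 (fv_lt_top L hK a)).ne
  change c ≤ fv L K (s • a + t • a')
  refine le_trans ?_ (fv_combo hK hKc hs ht hst a a')
  calc c = c ^ s * c ^ t := by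
        rw [← ENNReal.rpow_add s t hc0 hctop, hst, ENNReal.rpow_one]
    _ ≤ _ := mul_le_mul' (ENNReal.rpow_le_rpow ha1 hs.le) (ENNReal.rpow_le_rpow ha2 ht.le)

/-- Invariance of the volume of the fibres. -/
theorem fv_map {L : Submodule ℝ E} (hL : SInv G L) {K : Set E} (hK : IsCompact K) (hKG : Inv G K)
    {f : L ≃ₗᵢ[ℝ] L} (hf : f ∈ GR G L) (a : L) : fv L K (f a) = fv L K a := by
  obtain ⟨g, hg, hfg⟩ := hf
  obtain ⟨f', -, hfg'⟩ := exists_resR hL.perp hg
  have h1 : f' ⁻¹' fb L K (f a) = fb L K a := by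
    ext b
    change ((f a : L) : E) + ((f' b : Lᗮ) : E) ∈ K ↔ (a : E) + (b : E) ∈ K
    rw [hfg, hfg', ← map_add]
    exact hKG.mem_iff hg _
  unfold fv
  rw [← h1]
  exact (f'.measurePreserving.measure_preimage
    (isCompact_fb L hK (f a)).measurableSet.nullMeasurableSet).symm

/-- The central fibre is the largest one. -/
theorem fv_le_zero [Finite G] {L : Submodule ℝ E} (hL : SInv G L)
    (hz : ∀ x ∈ L, (∀ g ∈ G, g x = x) → x = 0) {K : Set E} (hK : IsCompact K)
    (hKc : Convex ℝ K) (hKG : Inv G K) (a : L) : fv L K a ≤ fv L K 0 := by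
  have := Fintype.ofFinite (GR G L)
  have hsum : ∑ f : GR G L, (f : L ≃ₗᵢ[ℝ] L) a = 0 := by
    set w : L := ∑ f : GR G L, (f : L ≃ₗᵢ[ℝ] L) a with hw
    have h1 : ∀ f ∈ GR G L, f w = w := by
      intro f hf
      rw [hw, map_sum]
      exact Fintype.sum_equiv (Equiv.mulLeft ⟨f, hf⟩) _ _ fun h => rfl
    have h2 := hz (w : E) w.2 (by
      intro g hg
      obtain ⟨f, hf, hfg⟩ := exists_resR hL hg
      rw [← hfg, h1 f hf])
    exact Subtype.ext h2
  have hcard := card_pos' (GR G L)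
  have h1 := (convex_fv (L := L) hK hKc (fv L K a)).sum_mem (t := Finset.univ)
    (w := fun _ : GR G L => (Fintype.card (GR G L) : ℝ)⁻¹)
    (z := fun f : GR G L => (f : L ≃ₗᵢ[ℝ] L) a) (fun _ _ => by positivity) (by
      rw [Finset.sum_const, Finset.card_univ, nsmul_eq_mul]
      exact mul_inv_cancel₀ hcard.ne') (by
      intro f _
      change fv L K a ≤ fv L K ((f : L ≃ₗᵢ[ℝ] L) a)
      rw [fv_map hL hK hKG f.2])
  rw [← Finset.smul_sum, hsum, smul_zero] at h1
  exact h1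

/-- The volume of the fibres decreases along the rays. -/
theorem fv_le_smul [Finite G] {L : Submodule ℝ E} (hL : SInv G L)
    (hz : ∀ x ∈ L, (∀ g ∈ G, g x = x) → x = 0) {K : Set E} (hK : IsCompact K)
    (hKc : Convex ℝ K) (hKG : Inv G K) (a : L) {c : ℝ} (hc0 : 0 ≤ c) (hc1 : c ≤ 1) :
    fv L K a ≤ fv L K (c • a) := by
  have h1 := (convex_fv (L := L) hK hKc (fv L K a)) (x := a) (y := 0)
    (show fv L K a ≤ fv L K a from le_rfl)
    (show fv L K a ≤ fv L K 0 from fv_le_zero hL hz hK hKc hKG a) hc0 (sub_nonneg.2 hc1) (by ring)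
  rw [smul_zero, add_zero] at h1
  exact h1

end Pool.Agent.Lib.MP_abca01_gt.Sym
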