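import Pool.Agent.Lib.MP_abca01_gt.Sym.SMinG
import Pool.Agent.Lib.MP_abca01_gt.Sym.SApex
import Pool.Agent.Lib.MP_abca01_gt.EVar

/-!
# Cone volume measures with symmetries, 12: the two-sided case
-/

set_option autoImplicit false

open MeasureTheory Set Metric Filter Topology
open scoped RealInnerProductSpace Pointwise

namespace Pool.Agent.Lib.MP_abca01_gt.Sym

open Ess Variationaux Capaux

section var

variable {E : Type} [NormedAddCommGroup E] [InnerProductSpace ℝ E] [FiniteDimensional ℝ E]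
  [MeasurableSpace E] [BorelSpace E] {G : Subgroup (E ≃ₗᵢ[ℝ] E)} (lam mu : Measure E)
  [lam.IsAddHaarMeasure] [IsFiniteMeasure mu]

theorem var_ineqG (hVD : StmtVolDeriv) (hmu : ∀ᵐ u ∂mu, ‖u‖ = 1) {M : ℕ}
    (hM : Module.finrank ℝ E = M + 1) {Sg : Set E} (hSg : Sg ⊆ sphere (0 : E) 1) {K : Set E}
    (hK : Cls Sg K) (h0 : (0 : E) ∈ K) (hV : lam.real K = 1)
    (hKG : Inv G K)
    (hmin : ∀ K', Cls Sg K' → Inv G K' →
      EE mu K + mu.real univ / ((M : ℝ) + 1) * Real.log (lam.real K') ≤ EE mu K')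
    {C : ℝ} (hC : 0 ≤ C) (hstar : ∀ ξ ∈ interior K, ‖ξ‖ ^ 2 ≤ C * (EE mu K - FF mu K ξ))
    {ω : Set E} (hω : IsCompact ω) (hωG : Inv G ω) (hωS : ω ⊆ Sg) {η : ℝ} (hη : 0 < η) :
    mu.real (ω ∩ {u | η ≤ supp K u}) ≤ mu.real univ * lam.real (segs K ω) := by
  have hμ : 0 ≤ mu.real univ := measureReal_nonneg
  have hM1 : (0 : ℝ) < (M : ℝ) + 1 := by positivity
  set S : ℝ := lam.real (segs K ω) with hS
  have hS0 : 0 ≤ S := measureReal_nonneg
  set m : ℝ := mu.real (ω ∩ {u | η ≤ supp K u}) with hm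
  have hm0 : 0 ≤ m := measureReal_nonneg
  apply le_of_forall_pos_lt_add
  intro ε' hε'
  -- choose `ε`
  obtain ⟨ε, hε, hεε⟩ : ∃ ε : ℝ, 0 < ε ∧ mu.real univ * ε < ε' := by
    refine ⟨ε' / (mu.real univ + 1), by positivity, ?_⟩
    rw [mul_div_assoc', div_lt_iff₀ (by positivity)]
    nlinarith
  obtain ⟨t₁, ht₁0, ht₁1, hvol⟩ := hVD E lam K ω hK.cpt hK.cvx h0 hω (hωS.trans hSg) ε hε
  set b : ℝ → ℝ := fun t => Real.sqrt (C * (t ^ 2 - mu.real univ * Real.log (1 - t))) with hb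
  have key : ∀ t : ℝ, 0 < t → t ≤ t₁ →
      η / (η + b t) * m ≤ mu.real univ * (S + ε) / (1 - t) ^ (M + 1) + t := by
    intro t ht htt
    have ht1 : t < 1 := lt_of_le_of_lt htt ht₁1
    have h1t : 0 < 1 - t := by linarith
    have hcls := cls_cut hK h0 hωS ht.le ht1
    have hsub : (1 - t) • K ⊆ cut K ω t := smul_subset_cut hK.cpt hK.cvx h0 ht.le ht1.le
    have hvlow : (1 - t) ^ (M + 1) ≤ lam.real (cut K ω t) := by
      have h1 : lam.real ((1 - t) • K) ≤ lam.real (cut K ω t) :=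
        measureReal_mono hsub hcls.cpt.measure_lt_top.ne
      rw [vol_smul lam K h1t, hM, hV, mul_one] at h1
      exact h1
    have hvpos : 0 < lam.real (cut K ω t) := lt_of_lt_of_le (by positivity) hvlow
    have hv := hvol t ht htt
    rw [hV, hM] at hv
    -- `- log vol`
    have hlog1 : -Real.log (lam.real (cut K ω t)) ≤
        ((M : ℝ) + 1) * t * (S + ε) / (1 - t) ^ (M + 1) := by
      have h1 := Real.one_sub_inv_le_log_of_pos hvpos
      have h2 : (lam.real (cut K ω t))⁻¹ - 1 = (1 - lam.real (cut K ω t)) / lam.real (cut K ω t) := by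
        field_simp
      have h3 : 1 - (1 - t) ^ (M + 1) ≤ ((M : ℝ) + 1) * t := by
        have h4 := one_add_mul_le_pow (show (-2 : ℝ) ≤ -t by linarith) (M + 1)
        push_cast at h4
        have h5 : (1 : ℝ) + -t = 1 - t := by ring
        rw [h5] at h4
        linarith
      have h4 : 1 - lam.real (cut K ω t) ≤ ((M : ℝ) + 1) * t * (S + ε) :=
        hv.trans (mul_le_mul_of_nonneg_right h3 (by positivity))
      have h5 : (1 - lam.real (cut K ω t)) / lam.real (cut K ω t) ≤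
          ((M : ℝ) + 1) * t * (S + ε) / (1 - t) ^ (M + 1) := by
        apply div_le_div₀ (by positivity) h4 (by positivity) hvlow
      linarith
    have hlog2 : -Real.log (lam.real (cut K ω t)) ≤ -(((M : ℝ) + 1) * Real.log (1 - t)) := by
      have h1 := Real.log_le_log (by positivity) hvlow
      rw [Real.log_pow] at h1
      push_cast at h1
      linarith
    have hmint := hmin _ hcls (hKG.cut hK.cpt ⟨0, h0⟩ hωG t)
    obtain ⟨ξ, hξ, hξE⟩ := exists_FF (mu := mu) hcls.int (show (0 : ℝ) < t ^ 2 by positivity)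
    have hF := FF_cut mu hmu hK.cpt hω.measurableSet ht hη hξ
    have hξK : ξ ∈ interior K := interior_mono (fun x hx => hx.1) hξ
    have hFE := FF_le_EE hmu hK.cpt hξK
    have hξ0 : 0 ≤ t * (η / (η + ‖ξ‖)) * m := by positivity
    -- the norm of `ξ`
    have hξb : ‖ξ‖ ≤ b t := by
      apply Real.le_sqrt_of_sq_le
      refine (hstar ξ hξK).trans (mul_le_mul_of_nonneg_left ?_ hC)
      have h1 : EE mu K - FF mu K ξ ≤
          t ^ 2 - mu.real univ / ((M : ℝ) + 1) * Real.log (lam.real (cut K ω t)) := by linarith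
      have h2 : mu.real univ / ((M : ℝ) + 1) * -Real.log (lam.real (cut K ω t)) ≤
          mu.real univ / ((M : ℝ) + 1) * -(((M : ℝ) + 1) * Real.log (1 - t)) :=
        mul_le_mul_of_nonneg_left hlog2 (by positivity)
      have h3 : mu.real univ / ((M : ℝ) + 1) * -(((M : ℝ) + 1) * Real.log (1 - t)) =
          -(mu.real univ * Real.log (1 - t)) := by field_simp
      rw [h3] at h2
      linarith
    have hq : η / (η + b t) ≤ η / (η + ‖ξ‖) := by
      apply div_le_div_of_nonneg_left hη.le (by positivity)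
      linarith
    have h1 : t * (η / (η + ‖ξ‖)) * m ≤
        mu.real univ / ((M : ℝ) + 1) * -Real.log (lam.real (cut K ω t)) + t ^ 2 := by
      linarith
    have h2 : mu.real univ / ((M : ℝ) + 1) * -Real.log (lam.real (cut K ω t)) ≤
        mu.real univ / ((M : ℝ) + 1) * (((M : ℝ) + 1) * t * (S + ε) / (1 - t) ^ (M + 1)) :=
      mul_le_mul_of_nonneg_left hlog1 (by positivity)
    have h3 : mu.real univ / ((M : ℝ) + 1) * (((M : ℝ) + 1) * t * (S + ε) / (1 - t) ^ (M + 1)) =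
        t * (mu.real univ * (S + ε) / (1 - t) ^ (M + 1)) := by
      field_simp
    rw [h3] at h2
    have h4 : t * (η / (η + ‖ξ‖) * m) ≤
        t * (mu.real univ * (S + ε) / (1 - t) ^ (M + 1) + t) := by
      calc t * (η / (η + ‖ξ‖) * m) = t * (η / (η + ‖ξ‖)) * m := by ring
        _ ≤ t * (mu.real univ * (S + ε) / (1 - t) ^ (M + 1)) + t ^ 2 := by linarith
        _ = _ := by ring
    have h5 := le_of_mul_le_mul_left h4 ht
    exact (mul_le_mul_of_nonneg_right hq hm0).trans h5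
  -- the limit
  have hbc : ContinuousAt b 0 := by
    apply ContinuousAt.sqrt
    apply ContinuousAt.mul continuousAt_const
    apply ContinuousAt.sub (by fun_prop)
    apply ContinuousAt.mul continuousAt_const
    apply ContinuousAt.log (by fun_prop)
    norm_num
  have hb0 : b 0 = 0 := by simp [hb]
  have hl1 : Tendsto (fun t => η / (η + b t) * m) (𝓝[>] 0) (𝓝 m) := by
    have h1 : ContinuousAt (fun t => η / (η + b t) * m) 0 := by
      apply ContinuousAt.mul _ continuousAt_const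
      apply ContinuousAt.div continuousAt_const (continuousAt_const.add hbc)
      change η + b 0 ≠ 0
      rw [hb0, add_zero]
      exact hη.ne'
    have h2 := h1.tendsto
    simp only [hb0, add_zero, div_self hη.ne', one_mul] at h2
    exact h2.mono_left nhdsWithin_le_nhds
  have hl2 : Tendsto (fun t : ℝ => mu.real univ * (S + ε) / (1 - t) ^ (M + 1) + t) (𝓝[>] 0)
      (𝓝 (mu.real univ * (S + ε))) := by
    have h1 : ContinuousAt (fun t : ℝ => mu.real univ * (S + ε) / (1 - t) ^ (M + 1) + t) 0 := by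
      apply ContinuousAt.add _ continuousAt_id
      apply ContinuousAt.div continuousAt_const (by fun_prop)
      norm_num
    have h2 := h1.tendsto
    simp only [sub_zero, one_pow, div_one, add_zero] at h2
    exact h2.mono_left nhdsWithin_le_nhds
  have hfin : m ≤ mu.real univ * (S + ε) := by
    apply le_of_tendsto_of_tendsto hl1 hl2
    filter_upwards [Ioc_mem_nhdsGT ht₁0] with t ht
    exact key t ht.1 ht.2
  rw [mul_add] at hfin
  linarith

end var

variable {E : Type} [NormedAddCommGroup E] [InnerProductSpace ℝ E] [FiniteDimensional ℝ E]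
  [MeasurableSpace E] [BorelSpace E] {G : Subgroup (E ≃ₗᵢ[ℝ] E)}

omit [FiniteDimensional ℝ E] in
/-- The functional is invariant. -/
theorem FF_map (mu : Measure E) (hmuinv : ∀ g ∈ G, ∀ s, MeasurableSet s → mu (g ⁻¹' s) = mu s)
    {K : Set E} (hK : IsCompact K) (hKG : Inv G K) (hne : K.Nonempty) {g : E ≃ₗᵢ[ℝ] E}
    (hg : g ∈ G) (ξ : E) : FF mu K (g ξ) = FF mu K ξ := by
  have hmp : MeasurePreserving g mu mu := by
    refine ⟨g.continuous.measurable, Measure.ext fun s hs => ?_⟩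
    rw [Measure.map_apply g.continuous.measurable hs, hmuinv g hg s hs]
  have h1 := hmp.integral_comp g.toHomeomorph.measurableEmbedding
    (fun u => Real.log (supp K u - ⟪g ξ, u⟫))
  unfold FF
  rw [← h1]
  apply integral_congr_ae
  filter_upwards with u
  rw [hKG.supp hK hne hg, g.inner_map_map]

/-- The best point is fixed. -/
theorem star_fixed (mu : Measure E)
    (hmuinv : ∀ g ∈ G, ∀ s, MeasurableSet s → mu (g ⁻¹' s) = mu s) {K : Set E}
    (hK : IsCompact K) (hKG : Inv G K) (hi : (interior K).Nonempty) {ξ₀ : E} {C : ℝ} (hC : 0 ≤ C)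
    (hst : ∀ ξ ∈ interior K, ‖ξ - ξ₀‖ ^ 2 ≤ C * (EE mu K - FF mu K ξ)) :
    ∀ g ∈ G, g ξ₀ = ξ₀ := by
  intro g hg
  have hne : K.Nonempty := hi.mono interior_subset
  have hint : ∀ x ∈ interior K, g x ∈ interior K := by
    intro x hx
    have h1 : g '' interior K = interior (g '' K) := g.toHomeomorph.image_interior K
    rw [hKG.image hg] at h1
    rw [← h1]
    exact ⟨x, hx, rfl⟩
  have h1 : ∀ ε : ℝ, 0 < ε → ‖g ξ₀ - ξ₀‖ ≤ 2 * Real.sqrt (C * ε) := by
    intro ε hε
    obtain ⟨ξ, hξ, hξE⟩ := exists_FF (mu := mu) hi hε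
    have h2 : ‖ξ - ξ₀‖ ≤ Real.sqrt (C * ε) := by
      apply Real.le_sqrt_of_sq_le
      exact (hst ξ hξ).trans (mul_le_mul_of_nonneg_left (by linarith) hC)
    have h3 : ‖g ξ - ξ₀‖ ≤ Real.sqrt (C * ε) := by
      apply Real.le_sqrt_of_sq_le
      refine (hst _ (hint ξ hξ)).trans (mul_le_mul_of_nonneg_left ?_ hC)
      rw [FF_map mu hmuinv hK hKG hne hg]
      linarith
    have h4 : g ξ₀ - ξ₀ = (g ξ - ξ₀) - g (ξ - ξ₀) := by
      rw [map_sub]
      abel
    rw [h4]
    refine (norm_sub_le _ _).trans ?_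
    rw [g.norm_map]
    linarith
  have h2 : Tendsto (fun ε : ℝ => 2 * Real.sqrt (C * ε)) (𝓝[>] 0) (𝓝 0) := by
    have h3 : ContinuousAt (fun ε : ℝ => 2 * Real.sqrt (C * ε)) 0 := by fun_prop
    have h4 := h3.tendsto
    simp only [mul_zero, Real.sqrt_zero] at h4
    exact h4.mono_left nhdsWithin_le_nhds
  have h3 : ‖g ξ₀ - ξ₀‖ ≤ 0 := by
    apply ge_of_tendsto h2
    filter_upwards [self_mem_nhdsWithin] with ε hε
    exact h1 ε hε
  exact sub_eq_zero.1 (norm_le_zero_iff.1 h3)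

/-- The existence theorem for a measure whose support positively spans the space. -/
theorem two_sided [Finite G] (mu : Measure E) [IsFiniteMeasure mu]
    (hn : 0 < Module.finrank ℝ E) (hmuinv : ∀ g ∈ G, ∀ s, MeasurableSet s → mu (g ⁻¹' s) = mu s)
    (Sg : Set E) (hSgc : IsClosed Sg) (hSgG : Inv G Sg)
    (hSgsph : Sg ⊆ sphere (0 : E) 1) (hSgmu : mu Sgᶜ = 0)
    (hex : ∀ v : E, v ≠ 0 → ∃ u ∈ Sg, ⟪u, v⟫ < 0)
    (hpl : ∀ v : E, v ≠ 0 → mu {u | ⟪u, v⟫ ≠ 0} ≠ 0)
    (hH : HypG G mu Sg) :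
    ∃ K : Set E, IsCompact K ∧ Convex ℝ K ∧ (interior K).Nonempty ∧ (0 : E) ∈ K ∧ Inv G K ∧
      ∀ ω : Set E, MeasurableSet ω → ω ⊆ sphere (0 : E) 1 → volume (segs K ω) = mu ω := by
  obtain ⟨M, hM⟩ : ∃ M, Module.finrank ℝ E = M + 1 := ⟨Module.finrank ℝ E - 1, by omega⟩
  have hSgae : ∀ᵐ u ∂mu, u ∈ Sg := hSgmu
  have hsph : mu (sphere (0 : E) 1)ᶜ = 0 := measure_mono_null (compl_subset_compl.2 hSgsph) hSgmu
  have hSg : ∀ u ∈ Sg, ‖u‖ = 1 := fun u hu => by simpa using hSgsph hu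
  have hmu : ∀ᵐ u ∂mu, ‖u‖ = 1 := by
    filter_upwards [hSgae] with u hu
    exact hSg u hu
  have hpos : ∀ x : E, x ≠ 0 → mu {u | ⟪x, u⟫ ≠ 0} ≠ 0 := by
    intro x hx h
    apply hpl x hx
    have h1 : {u : E | ⟪u, x⟫ ≠ 0} = {u | ⟪x, u⟫ ≠ 0} := by
      ext u
      simp only [mem_ofPred_eq, real_inner_comm]
    rw [h1]
    exact h
  obtain ⟨x0, hx0⟩ : ∃ x : E, x ≠ 0 := by
    have : Nontrivial E := Module.finrank_pos_iff.1 hn
    exact exists_ne 0
  have hmu0 : mu ≠ 0 := by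
    rintro rfl
    exact hpl x0 hx0 rfl
  have hMpos : 0 < mu.real univ := by
    rw [measureReal_def, ENNReal.toReal_pos_iff]
    refine ⟨?_, measure_lt_top _ _⟩
    rw [pos_iff_ne_zero]
    simpa using hmu0
  -- the minimiser
  obtain ⟨K0, hK0, hK0G, hV0, hmin0⟩ := exists_minG volume mu hmu hM hSg hH
    (exists_clsG hSg hSgG hex)
  have hmin1 := fun K' (hK' : Cls Sg K') (hK'G : Inv G K') =>
    min_ineqG volume mu hmu hM hmin0 hK' hK'G
  obtain ⟨ξ₀, hξ₀, C, hC, hst⟩ := exists_star mu hmu hpos hK0.cpt hK0.cvx hK0.int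
  have hne0 : K0.Nonempty := ⟨ξ₀, hξ₀⟩
  have hfix := star_fixed mu hmuinv hK0.cpt hK0G hK0.int hC hst
  set K : Set E := (fun x => x + -ξ₀) '' K0 with hKdef
  have hK : Cls Sg K := hK0.add _
  have hKG : Inv G K := hK0G.add fun γ hγ => by rw [map_neg, hfix γ hγ]
  have h0 : (0 : E) ∈ K := ⟨ξ₀, hξ₀, by simp⟩
  have hV : volume.real K = 1 := (vol_add volume _ _).trans hV0
  have hE : EE mu K = EE mu K0 := EE_add mu hK0.cpt hne0 _
  have hmin : ∀ K', Cls Sg K' → Inv G K' →
      EE mu K + mu.real univ / ((M : ℝ) + 1) * Real.log (volume.real K') ≤ EE mu K' := by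
    intro K' hK' hK'G
    rw [hE]
    exact hmin1 K' hK' hK'G
  have hstar : ∀ ξ ∈ interior K, ‖ξ‖ ^ 2 ≤ C * (EE mu K - FF mu K ξ) := by
    intro ξ hξ
    rw [hKdef, interior_add] at hξ
    obtain ⟨η, hη, rfl⟩ := hξ
    have h1 := hst η hη
    rw [hE]
    have h2 : FF mu K (η + -ξ₀) = FF mu K0 η := FF_add mu hK0.cpt hne0 _ _
    simp only
    rw [h2, ← sub_eq_add_neg]
    exact h1
  have hnull := null_zero mu hmu hK.cpt hK.int h0 hC hstar
  have hvar : ∀ ω : Set E, IsCompact ω → ω ⊆ sphere (0 : E) 1 → Inv G ω →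
      mu.real ω * volume.real K ≤ mu.real univ * volume.real (segs K ω) := by
    intro ω hω hωs hωG
    rw [hV, mul_one]
    have hω' : IsCompact (ω ∩ Sg) := hω.inter_right hSgc
    have h1 : ∀ k : ℕ, mu.real ((ω ∩ Sg) ∩ {u | 1 / ((k : ℝ) + 1) ≤ supp K u}) ≤
        mu.real univ * volume.real (segs K ω) := by
      intro k
      refine (var_ineqG volume mu stmtVolDeriv hmu hM hSgsph hK h0 hV hKG hmin hC hstar hω'
        (hωG.inter hSgG) inter_subset_right (by positivity)).trans ?_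
      apply mul_le_mul_of_nonneg_left _ hMpos.le
      exact measureReal_mono (segs_mono inter_subset_left)
        (measure_ne_top_of_subset (segs_subset hK.cvx h0) hK.cpt.measure_lt_top.ne)
    have h2 : Monotone fun k : ℕ => (ω ∩ Sg) ∩ {u | 1 / ((k : ℝ) + 1) ≤ supp K u} := by
      intro k l hkl u hu
      refine ⟨hu.1, ?_⟩
      have h3 : 1 / ((k : ℝ) + 1) ≤ supp K u := hu.2
      have h4 : 1 / ((l : ℝ) + 1) ≤ 1 / ((k : ℝ) + 1) := by
        apply one_div_le_one_div_of_le (by positivity)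
        have : (k : ℝ) ≤ l := by exact_mod_cast hkl
        linarith
      exact h4.trans h3
    have h3 := tendsto_measure_iUnion_atTop (μ := mu) h2
    have h4 : mu (⋃ k : ℕ, (ω ∩ Sg) ∩ {u | 1 / ((k : ℝ) + 1) ≤ supp K u}) = mu ω := by
      apply measure_congr
      have h5 : ∀ᵐ u ∂mu, supp K u ≠ 0 := by
        rw [ae_iff]
        simpa using hnull
      filter_upwards [hSgae, h5] with u hu hu0
      apply propext
      constructor
      · intro h
        obtain ⟨k, hk⟩ := mem_iUnion.1 h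
        exact hk.1.1
      · intro h
        have h6 : 0 < supp K u := lt_of_le_of_ne (supp_nonneg hK.cpt h0 u) (Ne.symm hu0)
        obtain ⟨k, hk⟩ := exists_nat_one_div_lt h6
        exact mem_iUnion.2 ⟨k, ⟨h, hu⟩, hk.le⟩
    rw [h4] at h3
    have h5 : Tendsto (fun k : ℕ => mu.real ((ω ∩ Sg) ∩ {u | 1 / ((k : ℝ) + 1) ≤ supp K u}))
        atTop (𝓝 (mu.real ω)) := (ENNReal.tendsto_toReal (measure_ne_top mu _)).comp h3
    exact le_of_tendsto' h5 h1
  have hKv : 0 < volume.real K := by rw [hV]; exact one_pos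
  have hbor := borel_inv stmtOverlap hK.cpt hK.cvx h0 hKG mu hmuinv hsph hvar
  exact normalise hn hK.cpt hK.cvx h0 hKG hKv mu hMpos hbor

end Pool.Agent.Lib.MP_abca01_gt.Sym
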