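import Pool.Agent.Lib.MP_abca01_gt.Sym.SFibre

/-!
# Cone volume measures with a fixed axis, 32: the inequality for the mass of an invariant subspace
-/

set_option autoImplicit false

open MeasureTheory Set Metric Filter Topology
open scoped RealInnerProductSpace Pointwise ENNReal NNReal

namespace Pool.Agent.Lib.MP_abca01_gt.Sym

open Ess Variationaux Energyaux Borelaux Capaux

/-- Change of variables. -/
theorem lint_smul {V : Type} [NormedAddCommGroup V] [InnerProductSpace ℝ V]
    [FiniteDimensional ℝ V] [MeasurableSpace V] [BorelSpace V] {F : V → ℝ≥0∞} (hF : Measurable F)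
    {c : ℝ} (hc : 0 < c) :
    ∫⁻ a, F a = ENNReal.ofReal (c ^ Module.finrank ℝ V) * ∫⁻ a, F (c • a) := by
  have h1 := Measure.map_addHaar_smul (volume : Measure V) hc.ne'
  have h2 : ∫⁻ a, F (c • a) = ENNReal.ofReal |(c ^ Module.finrank ℝ V)⁻¹| * ∫⁻ a, F a := by
    rw [← lintegral_map hF (measurable_const_smul c)]
    change ∫⁻ a, F a ∂(Measure.map (c • ·) volume) = _
    rw [h1, lintegral_smul_measure]
    rfl
  have hcp : 0 < c ^ Module.finrank ℝ V := pow_pos hc _
  rw [h2, ← mul_assoc, ← ENNReal.ofReal_mul hcp.le, abs_of_pos (inv_pos.2 hcp),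
    mul_inv_cancel₀ hcp.ne', ENNReal.ofReal_one, one_mul]

variable {E : Type} [NormedAddCommGroup E] [InnerProductSpace ℝ E] [FiniteDimensional ℝ E]
  [MeasurableSpace E] [BorelSpace E] {G : Subgroup (E ≃ₗᵢ[ℝ] E)}

/-- The logarithmic defect of the volume of the fibres. -/
noncomputable def dfc (L : Submodule ℝ E) (K : Set E) (a : L) : ℝ≥0∞ :=
  ENNReal.ofReal ((fv L K a).toReal * Real.log ((fv L K 0).toReal / (fv L K a).toReal))

theorem smul_ge [Finite G] {L : Submodule ℝ E} (hL : SInv G L)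
    (hz : ∀ x ∈ L, (∀ g ∈ G, g x = x) → x = 0) {K : Set E} (hK : IsCompact K)
    (hKc : Convex ℝ K) (hKG : Inv G K) (a : L) {t : ℝ} (ht0 : 0 < t) (ht1 : t < 1) :
    fv L K a + ENNReal.ofReal t * dfc L K a ≤ fv L K ((1 - t) • a) := by
  have h1t : 0 < 1 - t := by linarith
  rcases eq_or_ne (fv L K a) 0 with h0 | h0
  · have h1 : dfc L K a = 0 := by
      unfold dfc
      rw [h0]
      simp
    rw [h0, h1, mul_zero, add_zero]
    exact zero_le
  have hfin := (fv_lt_top L hK a).ne
  have hfin0 := (fv_lt_top L hK (0 : L)).ne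
  have hle := fv_le_zero hL hz hK hKc hKG a
  have hx : 0 < (fv L K a).toReal := ENNReal.toReal_pos h0 hfin
  have hy : (fv L K a).toReal ≤ (fv L K 0).toReal := ENNReal.toReal_mono hfin0 hle
  set x := (fv L K a).toReal with hxd
  set y := (fv L K 0).toReal with hyd
  have hy0 : 0 < y := hx.trans_le hy
  have hlog : 0 ≤ Real.log (y / x) := Real.log_nonneg (by rwa [one_le_div hx])
  have h2 := fv_combo hK hKc h1t ht0 (by ring) a (0 : L)
  rw [smul_zero, add_zero] at h2
  refine le_trans ?_ h2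
  have e1 : fv L K a = ENNReal.ofReal x := (ENNReal.ofReal_toReal hfin).symm
  have e2 : fv L K 0 = ENNReal.ofReal y := (ENNReal.ofReal_toReal hfin0).symm
  unfold dfc
  rw [← hxd, ← hyd, e1, e2, ENNReal.ofReal_rpow_of_pos hx, ENNReal.ofReal_rpow_of_pos hy0,
    ← ENNReal.ofReal_mul ht0.le, ← ENNReal.ofReal_mul (Real.rpow_nonneg hx.le _),
    ← ENNReal.ofReal_add hx.le (mul_nonneg ht0.le (mul_nonneg hx.le hlog))]
  apply ENNReal.ofReal_le_ofReal
  have h3 : x ^ (1 - t) * y ^ t = x * (y / x) ^ t := by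
    rw [Real.div_rpow hy0.le hx.le, Real.rpow_sub hx, Real.rpow_one]
    field_simp
  rw [h3, Real.rpow_def_of_pos (div_pos hy0 hx)]
  have h4 := Real.add_one_le_exp (Real.log (y / x) * t)
  nlinarith

/-- The part of `K` over the shrinked projection. -/
theorem shrink_ge [Finite G] {L : Submodule ℝ E} (hL : SInv G L)
    (hz : ∀ x ∈ L, (∀ g ∈ G, g x = x) → x = 0) {K : Set E} (hK : IsCompact K)
    (hKc : Convex ℝ K) (hKG : Inv G K) {D : ℝ≥0}
    (hD : ∀ K : Set E, MeasurableSet K → Measurable (fv L K) ∧ volume K = D * ∫⁻ a : L, fv L K a)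
    {t : ℝ} (ht0 : 0 < t) (ht1 : t < 1) :
    ENNReal.ofReal ((1 - t) ^ Module.finrank ℝ L) *
      (volume K + D * (ENNReal.ofReal t * ∫⁻ a : L, dfc L K a)) ≤
      volume {x | x ∈ K ∧ pj L x ∈ (1 - t) • (pj L '' K)} := by
  have h1t : 0 < 1 - t := by linarith
  have hQ : IsCompact (pj L '' K) := hK.image (pj L).continuous
  set S : Set E := {x | x ∈ K ∧ pj L x ∈ (1 - t) • (pj L '' K)} with hS
  have hSm : MeasurableSet S :=
    hK.measurableSet.inter ((hQ.smul (1 - t)).measurableSet.preimage (pj L).continuous.measurable)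
  obtain ⟨hfm, hvK⟩ := hD K hK.measurableSet
  obtain ⟨hfS, hvS⟩ := hD S hSm
  rw [hvS, hvK, lint_smul hfS h1t]
  have h2 : ∫⁻ a : L, (fv L K a + ENNReal.ofReal t * dfc L K a) ≤
      ∫⁻ a : L, fv L S ((1 - t) • a) := by
    apply lintegral_mono
    intro a
    change fv L K a + ENNReal.ofReal t * dfc L K a ≤ fv L S ((1 - t) • a)
    by_cases ha : a ∈ pj L '' K
    · refine (smul_ge hL hz hK hKc hKG a ht0 ht1).trans ?_
      apply measure_mono
      intro b hb
      refine ⟨hb, ?_⟩
      rw [pj_add]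
      exact ⟨a, ha, rfl⟩
    · have h3 : fv L K a = 0 := by
        unfold fv
        have h4 : fb L K a = ∅ := by
          rw [eq_empty_iff_forall_notMem]
          intro b hb
          exact ha ⟨_, hb, pj_add L a b⟩
        rw [h4, measure_empty]
      have h4 : dfc L K a = 0 := by
        unfold dfc
        rw [h3]
        simp
      rw [h3, h4, mul_zero, add_zero]
      exact zero_le
  have hdm : Measurable (dfc L K) := by
    unfold dfc
    exact (hfm.ennreal_toReal.mul
      (Real.measurable_log.comp (measurable_const.div hfm.ennreal_toReal))).ennreal_ofReal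
  rw [lintegral_add_left hfm, lintegral_const_mul _ hdm] at h2
  calc ENNReal.ofReal ((1 - t) ^ Module.finrank ℝ L) *
        ((D * ∫⁻ a : L, fv L K a) + D * (ENNReal.ofReal t * ∫⁻ a : L, dfc L K a))
      = D * (ENNReal.ofReal ((1 - t) ^ Module.finrank ℝ L) *
        ((∫⁻ a : L, fv L K a) + ENNReal.ofReal t * ∫⁻ a : L, dfc L K a)) := by ring
    _ ≤ _ := mul_le_mul_right (mul_le_mul_right h2 _) _

/-- The unit vectors in `L`. -/
def sL (L : Submodule ℝ E) : Set E := (L : Set E) ∩ sphere 0 1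

omit [MeasurableSpace E] [BorelSpace E] in
theorem isCompact_sL (L : Submodule ℝ E) : IsCompact (sL L) :=
  (isCompact_sphere (0 : E) 1).inter_left L.closed_of_finiteDimensional

omit [MeasurableSpace E] [BorelSpace E] in
theorem sub_cut {L : Submodule ℝ E} {K : Set E} (hK : IsCompact K) {t : ℝ} (ht1 : t < 1) :
    {x | x ∈ K ∧ pj L x ∈ (1 - t) • (pj L '' K)} ⊆ cut K (sL L) t := by
  rintro x ⟨hx, _, ⟨y, hy, rfl⟩, hxy⟩
  refine ⟨hx, fun u hu => ?_⟩
  have h1 := inner_pj L x ⟨u, hu.1⟩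
  have h2 := inner_pj L y ⟨u, hu.1⟩
  have h3 : (1 - t) • pj L y = pj L x := hxy
  rw [← h3, real_inner_smul_left, h2] at h1
  change (1 - t) * ⟪y, u⟫ = ⟪x, u⟫ at h1
  rw [← h1]
  exact mul_le_mul_of_nonneg_left (le_supp hK hy u) (by linarith)

/-- **The inequality** for the mass of an invariant subspace, with the defect. -/
theorem mass_le [Finite G] {L : Submodule ℝ E} (hL : SInv G L)
    (hz : ∀ x ∈ L, (∀ g ∈ G, g x = x) → x = 0) {K : Set E} (hK : IsCompact K)
    (hKc : Convex ℝ K) (h0 : (0 : E) ∈ K) (hKG : Inv G K) {D : ℝ≥0} (hDpos : 0 < D)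
    (hD : ∀ K : Set E, MeasurableSet K → Measurable (fv L K) ∧ volume K = D * ∫⁻ a : L, fv L K a) :
    ∫⁻ a : L, dfc L K a ≠ ⊤ ∧
    (Module.finrank ℝ E : ℝ) * volume.real (segs K (sL L)) +
      D * (∫⁻ a : L, dfc L K a).toReal ≤ Module.finrank ℝ L * volume.real K := by
  set n : ℕ := Module.finrank ℝ E with hn
  set k : ℕ := Module.finrank ℝ L with hk
  set J : ℝ≥0∞ := ∫⁻ a : L, dfc L K a with hJ
  set s : ℝ := volume.real (segs K (sL L)) with hs
  set V : ℝ := volume.real K with hV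
  have hKfin : volume K ≠ ⊤ := hK.measure_lt_top.ne
  have hDne : (D : ℝ≥0∞) ≠ 0 := by
    simpa using hDpos.ne'
  have hJfin : J ≠ ⊤ := by
    intro htop
    have h1 := shrink_ge hL hz hK hKc hKG hD (t := 1 / 2) (by norm_num) (by norm_num)
    have h2 : volume {x | x ∈ K ∧ pj L x ∈ (1 - (1 / 2 : ℝ)) • (pj L '' K)} ≠ ⊤ :=
      measure_ne_top_of_subset (fun x hx => hx.1) hKfin
    rw [← hJ, htop, ENNReal.mul_top (by simp), ENNReal.mul_top hDne, add_top,
      ENNReal.mul_top (by
        rw [Ne, ENNReal.ofReal_eq_zero, not_le]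
        positivity)] at h1
    exact h2 (top_le_iff.1 h1)
  refine ⟨hJfin, ?_⟩
  have key : ∀ t : ℝ, 0 < t → t < 1 →
      (1 - t) ^ k * (V + D * (t * J.toReal)) ≤ V - (1 - (1 - t) ^ n) * s := by
    intro t ht0 ht1
    have h1t : 0 < 1 - t := by linarith
    have h1 := shrink_ge hL hz hK hKc hKG hD ht0 ht1
    have h2 := (h1.trans (measure_mono (sub_cut (L := L) hK ht1)))
    have hcfin : volume (cut K (sL L) t) ≠ ⊤ :=
      measure_ne_top_of_subset (fun x hx => hx.1) hKfin
    have h3 := ENNReal.toReal_mono hcfin h2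
    rw [ENNReal.toReal_mul, ENNReal.toReal_ofReal (pow_nonneg h1t.le _),
      ENNReal.toReal_add hKfin (ENNReal.mul_ne_top ENNReal.coe_ne_top
        (ENNReal.mul_ne_top ENNReal.ofReal_ne_top hJfin)), ENNReal.toReal_mul,
      ENNReal.toReal_mul, ENNReal.toReal_ofReal ht0.le] at h3
    exact h3.trans (cut_le hK hKc h0 (isCompact_sL L) inter_subset_right ht0 ht1)
  have hd : HasDerivAt (fun t : ℝ => V - (1 - (1 - t) ^ n) * s -
      (1 - t) ^ k * (V + D * (t * J.toReal))) (k * V - D * J.toReal - n * s) 0 := by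
    have e1 : HasDerivAt (fun t : ℝ => 1 - t) (-1) 0 := by
      simpa using (hasDerivAt_id (0 : ℝ)).const_sub 1
    have e2 : HasDerivAt (fun t : ℝ => (1 - t) ^ n) (-(n : ℝ)) 0 := by
      have := e1.fun_pow n
      simpa using this
    have e3 : HasDerivAt (fun t : ℝ => (1 - t) ^ k) (-(k : ℝ)) 0 := by
      have := e1.fun_pow k
      simpa using this
    have e4 : HasDerivAt (fun t : ℝ => V + D * (t * J.toReal)) (D * (1 * J.toReal)) 0 :=
      (((hasDerivAt_id (0 : ℝ)).mul_const J.toReal).const_mul (D : ℝ)).const_add V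
    have e5 := ((e2.const_sub 1).mul_const s).const_sub V
    have e6 := e5.sub (e3.mul e4)
    have e8 : -(- -(n : ℝ) * s) - (-(k : ℝ) * (V + D * (0 * J.toReal)) +
        (1 - 0) ^ k * (D * (1 * J.toReal))) = k * V - D * J.toReal - n * s := by
      simp only [sub_zero, one_pow, zero_mul, mul_zero, add_zero, one_mul]
      ring
    rw [e8] at e6
    exact e6
  have h1 := deriv_nonneg_of_right (δ := 1 / 2) (by norm_num) (by simp) hd (by
    intro t ht0 ht1
    have := key t ht0 (by linarith)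
    linarith)
  linarith

end Pool.Agent.Lib.MP_abca01_gt.Sym
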