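import Pool.Agent.Lib.MP_abca01_gt.Sym.SCen
import Pool.Agent.Lib.MP_abca01_gt.EBdd

/-!
# Cone volume measures with a fixed axis, 3: long invariant bodies have invariant long directions
-/

set_option autoImplicit false

open MeasureTheory Set Metric Filter Topology
open scoped RealInnerProductSpace Pointwise

namespace Pool.Agent.Lib.MP_abca01_gt.Sym

open Ess

variable {E : Type} [NormedAddCommGroup E] [InnerProductSpace ℝ E]
  {G : Subgroup (E ≃ₗᵢ[ℝ] E)}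

theorem Pos.end_mem {N : ℕ} {c : ℝ} (hc : 0 < c) {K : Set E} {g : E}
    {e : OrthonormalBasis (Fin N) ℝ E} {r : Fin N → ℝ} (h : Pos c K g e r) (i : Fin N) {s : ℝ}
    (hs : |s| ≤ 1) : g + (s * (c * r i)) • e i ∈ K := by
  apply h.low
  intro j
  rw [add_sub_cancel_left, real_inner_smul_left]
  by_cases hj : i = j
  · subst hj
    rw [real_inner_self_eq_norm_sq, e.norm_eq_one, one_pow, mul_one, abs_mul,
      abs_of_pos (mul_pos hc (h.pos i))]
    exact mul_le_of_le_one_left (mul_pos hc (h.pos i)).le hs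
  · rw [e.inner_eq_zero hj, mul_zero, abs_zero]
    exact (mul_pos hc (h.pos j)).le

theorem Lsp_inv_iff {M : ℕ} (e : OrthonormalBasis (Fin (M + 1)) ℝ E) (i : Fin M)
    (g : E ≃ₗᵢ[ℝ] E) (h : ∀ l m : Fin (M + 1), l ≤ i.castSucc → i.castSucc < m →
      ⟪e m, g (e l)⟫ = 0) : ∀ x ∈ Lsp e i, g x ∈ Lsp e i := by
  intro x hx m hm
  rw [← e.sum_repr' x, map_sum, inner_sum]
  apply Finset.sum_eq_zero
  intro l _
  rw [map_smul, real_inner_smul_right]
  by_cases hl : i.castSucc < l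
  · rw [hx l hl, zero_mul]
  · rw [h l m (not_lt.1 hl) hm, mul_zero]

/-- If the span of the first basis vectors is not invariant then an invariant body in this position
is not much longer in the other directions. -/
theorem inv_false {M : ℕ} {c : ℝ} (hc : 0 < c) (e : OrthonormalBasis (Fin (M + 1)) ℝ E) (i : Fin M)
    (hL : ¬ ∀ g ∈ G, ∀ x ∈ Lsp e i, g x ∈ Lsp e i) :
    ∃ η : ℝ, 0 < η ∧ ∀ (K : Set E) (g : E) (e' : OrthonormalBasis (Fin (M + 1)) ℝ E)
      (r : Fin (M + 1) → ℝ), Inv G K → Pos c K g e' r → (∀ m, ‖e' m - e m‖ < η) →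
      η * r i.succ ≤ r i.castSucc := by
  push Not at hL
  obtain ⟨γ, hγ, x, hx, hgx⟩ := hL
  obtain ⟨l, m, hl, hm, hβ⟩ : ∃ l m : Fin (M + 1), l ≤ i.castSucc ∧ i.castSucc < m ∧
      ⟪e m, γ (e l)⟫ ≠ 0 := by
    by_contra hcon
    push Not at hcon
    exact hgx (Lsp_inv_iff e i γ (fun l m hl hm => hcon l m hl hm) x hx)
  have hβ' : 0 < |⟪e m, γ (e l)⟫| := abs_pos.2 hβ
  have hc2 : 0 < 2 + c⁻¹ * c⁻¹ := by positivity
  refine ⟨|⟪e m, γ (e l)⟫| / (2 + c⁻¹ * c⁻¹), by positivity, ?_⟩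
  intro K g e' r hK hP hee
  set η := |⟪e m, γ (e l)⟫| / (2 + c⁻¹ * c⁻¹) with hη
  have hηpos : 0 < η := by positivity
  by_contra hcon
  push Not at hcon
  have hrm := hP.pos m
  have hri := hP.pos i.castSucc
  have h1 : r i.castSucc < η * r m := by
    refine lt_of_lt_of_le hcon (mul_le_mul_of_nonneg_left (hP.mono ?_) hηpos.le)
    rw [Fin.le_def, Fin.val_succ]
    rw [Fin.lt_def, Fin.val_castSucc] at hm
    exact hm
  -- the width in the direction `e' l`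
  have h2 : c * r m * |⟪e' m, γ (e' l)⟫| ≤ c⁻¹ * r i.castSucc := by
    have h3 := hK γ⁻¹ (G.inv_mem hγ) _ (Pos.end_mem hc hP m (s := 1) (by norm_num))
    have h4 := hK γ⁻¹ (G.inv_mem hγ) _ (Pos.end_mem hc hP m (s := -1) (by norm_num))
    have h5 := hP.up _ h3 l
    have h6 := hP.up _ h4 l
    have h7 : c⁻¹ * r l ≤ c⁻¹ * r i.castSucc :=
      mul_le_mul_of_nonneg_left (hP.mono hl) (by positivity)
    have e1 : ⟪(γ⁻¹ : E ≃ₗᵢ[ℝ] E) (g + (1 * (c * r m)) • e' m) - g, e' l⟫ =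
        ⟪(γ⁻¹ : E ≃ₗᵢ[ℝ] E) g - g, e' l⟫ + c * r m * ⟪e' m, γ (e' l)⟫ := by
      rw [map_add, map_smul, inner_sub_left, inner_add_left, real_inner_smul_left, inner_sub_left,
        inner_inv γ⁻¹ (e' m), inv_inv]
      ring
    have e2 : ⟪(γ⁻¹ : E ≃ₗᵢ[ℝ] E) (g + (-1 * (c * r m)) • e' m) - g, e' l⟫ =
        ⟪(γ⁻¹ : E ≃ₗᵢ[ℝ] E) g - g, e' l⟫ - c * r m * ⟪e' m, γ (e' l)⟫ := by
      rw [map_add, map_smul, inner_sub_left, inner_add_left, real_inner_smul_left, inner_sub_left,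
        inner_inv γ⁻¹ (e' m), inv_inv]
      ring
    rw [e1, abs_le] at h5
    rw [e2, abs_le] at h6
    have h8 : |c * r m * ⟪e' m, γ (e' l)⟫| ≤ c⁻¹ * r l := by
      rw [abs_le]
      constructor <;> linarith [h5.1, h5.2, h6.1, h6.2]
    rw [abs_mul, abs_of_pos (mul_pos hc hrm)] at h8
    linarith
  -- the angle is small
  have h3 : |⟪e' m, γ (e' l)⟫| < c⁻¹ * c⁻¹ * η := by
    have h4 : (c * r m) * |⟪e' m, γ (e' l)⟫| < (c * r m) * (c⁻¹ * c⁻¹ * η) := by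
      calc (c * r m) * |⟪e' m, γ (e' l)⟫| ≤ c⁻¹ * r i.castSucc := h2
        _ < c⁻¹ * (η * r m) := mul_lt_mul_of_pos_left h1 (by positivity)
        _ = (c * r m) * (c⁻¹ * c⁻¹ * η) := by field_simp
    exact lt_of_mul_lt_mul_left h4 (by positivity)
  have h4 : |⟪e m, γ (e l)⟫| ≤ |⟪e' m, γ (e' l)⟫| + 2 * η := by
    have h5 : ⟪e m, γ (e l)⟫ = ⟪e' m, γ (e' l)⟫ - ⟪e' m - e m, γ (e' l)⟫ -
        ⟪e m, γ (e' l - e l)⟫ := by
      rw [map_sub, inner_sub_left, inner_sub_right]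
      ring
    have h6 : |⟪e' m - e m, γ (e' l)⟫| ≤ η := by
      refine (abs_real_inner_le_norm _ _).trans ?_
      rw [γ.norm_map, e'.norm_eq_one, mul_one]
      exact (hee m).le
    have h7 : |⟪e m, γ (e' l - e l)⟫| ≤ η := by
      refine (abs_real_inner_le_norm _ _).trans ?_
      rw [γ.norm_map, e.norm_eq_one, one_mul]
      exact (hee l).le
    rw [h5]
    refine (abs_sub _ _).trans ?_
    have h8 := abs_sub ⟪e' m, γ (e' l)⟫ ⟪e' m - e m, γ (e' l)⟫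
    linarith
  have h5 : |⟪e m, γ (e l)⟫| < (2 + c⁻¹ * c⁻¹) * η := by linarith
  have h6 : (2 + c⁻¹ * c⁻¹) * η = |⟪e m, γ (e l)⟫| := by
    rw [hη]
    field_simp
  linarith

end Pool.Agent.Lib.MP_abca01_gt.Sym
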