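import Pool.Agent.Lib.MP_abca01_gt.Sym.SBaseK

/-!
# Cone volume measures with a fixed axis, 22: the case of equality, and the characterisation
-/

set_option autoImplicit false

open MeasureTheory Set Metric Filter Topology
open scoped RealInnerProductSpace Pointwise ENNReal

namespace Pool.Agent.Lib.MP_abca01_gt.Sym

open Ess Variationaux Energyaux Borelaux Capaux

variable {E : Type} [NormedAddCommGroup E] [InnerProductSpace ℝ E] [FiniteDimensional ℝ E]
  [MeasurableSpace E] [BorelSpace E] {G : Subgroup (E ≃ₗᵢ[ℝ] E)}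

omit [FiniteDimensional ℝ E] [MeasurableSpace E] [BorelSpace E] in
theorem inner_PP {v : E} (hv : ‖v‖ = 1) (x : E) (z : (ℝ ∙ v)ᗮ) : ⟪x, (z : E)⟫ = ⟪PP hv x, z⟫ := by
  have h1 : ⟪PP hv x, z⟫ = ⟪pr v x, (z : E)⟫ := rfl
  rw [h1]
  unfold pr
  rw [inner_sub_left, real_inner_smul_left, real_inner_comm (z : E) v, inner_compl]
  ring

/-- Lower bound of the cone volume measure of a cylinder. -/
theorem cyl_low {v : E} (hv : ‖v‖ = 1) {K₁ : Set (ℝ ∙ v)ᗮ} (hK₁ : IsCompact K₁)
    (hK₁c : Convex ℝ K₁) (h0 : 0 ∈ K₁) {α β : ℝ} (hα : 0 ≤ α) (hβ : 0 ≤ β) {ω : Set E}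
    (hω : IsCompact ω) (hωs : ω ⊆ sphere (0 : E) 1) :
    (Module.finrank ℝ (ℝ ∙ v)ᗮ : ℝ) * volume.real (segs K₁ {z : (ℝ ∙ v)ᗮ | (z : E) ∈ ω}) * (α + β) +
      volume.real K₁ * (α * ω.indicator 1 v + β * ω.indicator 1 (-v)) ≤
      Module.finrank ℝ E * volume.real (segs (cyl hv (Icc (-β) α) K₁) ω) := by
  classical
  set k : ℕ := Module.finrank ℝ (ℝ ∙ v)ᗮ with hk
  set ω₁ : Set (ℝ ∙ v)ᗮ := {z : (ℝ ∙ v)ᗮ | (z : E) ∈ ω} with hω₁
  set s₁ : ℝ := volume.real (segs K₁ ω₁) with hs₁
  set i1 : ℝ := ω.indicator 1 v with hi1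
  set i2 : ℝ := ω.indicator 1 (-v) with hi2
  have hi1' : i1 = if v ∈ ω then 1 else 0 := by
    rw [hi1, indicator_apply]
    rfl
  have hi2' : i2 = if -v ∈ ω then 1 else 0 := by
    rw [hi2, indicator_apply]
    rfl
  have hi1b : 0 ≤ i1 ∧ i1 ≤ 1 := by
    rw [hi1']
    split_ifs <;> norm_num
  have hi2b : 0 ≤ i2 ∧ i2 ≤ 1 := by
    rw [hi2']
    split_ifs <;> norm_num
  have hω₁c : IsCompact ω₁ := by
    have hcl : IsClosed ω₁ := hω.isClosed.preimage continuous_subtype_val
    refine Metric.isCompact_of_isClosed_isBounded hcl ?_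
    refine (isBounded_closedBall (x := (0 : (ℝ ∙ v)ᗮ)) (r := 1)).subset ?_
    intro z hz
    have h1 := hωs hz
    rw [mem_sphere_zero_iff_norm] at h1
    rw [mem_closedBall, dist_zero_right]
    exact h1.le
  have hω₁s : ω₁ ⊆ sphere (0 : (ℝ ∙ v)ᗮ) 1 := by
    intro z hz
    have h1 := hωs hz
    rw [mem_sphere_zero_iff_norm] at h1 ⊢
    exact h1
  set K : Set E := cyl hv (Icc (-β) α) K₁ with hK
  have hKc : IsCompact K := isCompact_cyl hv isCompact_Icc hK₁
  have hKcv : Convex ℝ K := convex_cyl hv (convex_Icc _ _) hK₁c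
  have hPP0 : PP hv (0 : E) = 0 := by
    apply Subtype.ext
    change pr v 0 = 0
    unfold pr
    rw [inner_zero_left, zero_smul, sub_zero]
  have hK0 : (0 : E) ∈ K := by
    refine ⟨?_, ?_⟩
    · unfold ht
      rw [inner_zero_left]
      exact ⟨by linarith, hα⟩
    · rw [hPP0]
      exact h0
  apply low_segs hKc hKcv hK0 hω hωs
    (f := fun t => (((1 - t * i1) * α) - (-((1 - t * i2) * β))) *
      (volume.real K₁ - (1 - (1 - t) ^ k) * s₁))
  · rw [hK, volr_cyl hv (by linarith) hK₁]
    simp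
  · have e1 : HasDerivAt (fun t : ℝ => 1 - t) (-1) 0 := by
      simpa using (hasDerivAt_id (0 : ℝ)).const_sub 1
    have e2 : HasDerivAt (fun t : ℝ => (1 - t) ^ k) (-(k : ℝ)) 0 := by
      have := e1.fun_pow k
      simpa using this
    have e3 : HasDerivAt (fun t : ℝ => volume.real K₁ - (1 - (1 - t) ^ k) * s₁)
        (-(k * s₁)) 0 := by
      have := ((e2.const_sub 1).mul_const s₁).const_sub (volume.real K₁)
      simpa using this
    have e4 : HasDerivAt (fun t : ℝ => ((1 - t * i1) * α) - (-((1 - t * i2) * β)))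
        (-(i1 * α) - (-(-(i2 * β)))) 0 := by
      have f1 : ∀ i : ℝ, HasDerivAt (fun t : ℝ => 1 - t * i) (-i) 0 := by
        intro i
        have := ((hasDerivAt_id (0 : ℝ)).mul_const i).const_sub 1
        simpa using this
      have f2 := (f1 i1).mul_const α
      have f3 := ((f1 i2).mul_const β).neg
      have f4 := f2.sub f3
      have f5 : -i1 * α - -(-i2 * β) = -(i1 * α) - (-(-(i2 * β))) := by ring
      rw [f5] at f4
      exact f4
    have e5 := e4.mul e3
    have e6 : (-(i1 * α) - (-(-(i2 * β)))) * (volume.real K₁ - (1 - (1 - 0) ^ k) * s₁) +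
        (((1 - 0 * i1) * α) - (-((1 - 0 * i2) * β))) * (-(k * s₁)) =
        -(k * s₁ * (α + β) + volume.real K₁ * (α * i1 + β * i2)) := by
      simp only [sub_zero, one_pow, zero_mul]
      ring
    rw [e6] at e5
    exact e5
  · intro t ht0 ht1
    have h1t : 0 < 1 - t := by linarith
    have hb1 : 0 ≤ (1 - t * i1) * α := by
      apply mul_nonneg _ hα
      nlinarith [hi1b.1, hi1b.2]
    have hb2 : 0 ≤ (1 - t * i2) * β := by
      apply mul_nonneg _ hβ
      nlinarith [hi2b.1, hi2b.2]
    have hsub : cut K ω t ⊆ cyl hv (Icc (-((1 - t * i2) * β)) ((1 - t * i1) * α)) (cut K₁ ω₁ t) := by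
      rintro x ⟨hx, hxc⟩
      have hsuppv : supp K v ≤ α := supp_le ⟨0, hK0⟩ fun y hy => hy.1.2
      have hsuppnv : supp K (-v) ≤ β := by
        refine supp_le ⟨0, hK0⟩ fun y hy => ?_
        have h4 := hy.1.1
        rw [inner_neg_right]
        unfold ht at h4
        linarith
      refine ⟨⟨?_, ?_⟩, hx.2, ?_⟩
      · rw [hi2']
        split_ifs with h
        · have h2 := hxc (-v) h
          have h3 : (1 - t) * supp K (-v) ≤ (1 - t) * β := mul_le_mul_of_nonneg_left hsuppnv h1t.le
          rw [inner_neg_right] at h2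
          unfold ht
          rw [mul_one]
          linarith
        · rw [mul_zero, sub_zero, one_mul]
          exact hx.1.1
      · rw [hi1']
        split_ifs with h
        · have h2 := hxc v h
          have h3 : (1 - t) * supp K v ≤ (1 - t) * α := mul_le_mul_of_nonneg_left hsuppv h1t.le
          unfold ht
          rw [mul_one]
          linarith
        · rw [mul_zero, sub_zero, one_mul]
          exact hx.1.2
      · intro z hz
        have h2 := hxc (z : E) hz
        rw [inner_PP hv] at h2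
        have h3 : supp K (z : E) ≤ supp K₁ z := by
          refine supp_le ⟨0, hK0⟩ fun y hy => ?_
          rw [inner_PP hv]
          exact le_supp hK₁ hy.2 z
        exact h2.trans (mul_le_mul_of_nonneg_left h3 h1t.le)
    have hcc : IsCompact (cut K₁ ω₁ t) := isCompact_cut hK₁ t
    have h2 : volume.real (cut K ω t) ≤
        volume.real (cyl hv (Icc (-((1 - t * i2) * β)) ((1 - t * i1) * α)) (cut K₁ ω₁ t)) :=
      measureReal_mono hsub (isCompact_cyl hv isCompact_Icc hcc).measure_lt_top.ne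
    rw [volr_cyl hv (by linarith) hcc] at h2
    refine h2.trans (mul_le_mul_of_nonneg_left ?_ (by linarith))
    exact cut_le hK₁ hK₁c h0 hω₁c hω₁s ht0 ht1

/-- Existence in the case of equality. -/
theorem equality_exists [Finite G] {v : E} (hA : Axis G v) (hirr : Irr G v) (mu : Measure E)
    [IsFiniteMeasure mu] (hmu0 : mu ≠ 0)
    (hmuinv : ∀ g ∈ G, ∀ s, MeasurableSet s → mu (g ⁻¹' s) = mu s)
    (hsph : mu (sphere (0 : E) 1)ᶜ = 0) (hn : 2 ≤ Module.finrank ℝ E)
    (heq : (Module.finrank ℝ E : ℝ) * mu.real {u | ⟪u, v⟫ = 0} =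
      ((Module.finrank ℝ E : ℝ) - 1) * mu.real univ)
    (hrest : mu {u | ⟪u, v⟫ ≠ 0 ∧ u ≠ v ∧ u ≠ -v} = 0) :
    ∃ K : Set E, IsCompact K ∧ Convex ℝ K ∧ (interior K).Nonempty ∧ (0 : E) ∈ K ∧ Inv G K ∧
      ∀ ω : Set E, MeasurableSet ω → ω ⊆ sphere (0 : E) 1 → volume (segs K ω) = mu ω := by
  have hv := hA.norm
  have hMpos : 0 < mu.real univ := by
    rw [measureReal_def, ENNReal.toReal_pos_iff]
    refine ⟨?_, measure_lt_top _ _⟩
    rw [pos_iff_ne_zero]
    simpa using hmu0
  set n : ℕ := Module.finrank ℝ E with hnd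
  set k : ℕ := Module.finrank ℝ (ℝ ∙ v)ᗮ with hk
  have hnk : n = k + 1 := finrank_compl hv
  have hkpos : 0 < k := by omega
  have hn2 : (2 : ℝ) ≤ n := by exact_mod_cast hn
  have hnk' : (n : ℝ) = k + 1 := by
    rw [hnk]
    push_cast
    ring
  set Q : Set E := {u | ⟪u, v⟫ = 0} with hQ
  have hQm : MeasurableSet Q := (isClosed_eq (by fun_prop) continuous_const).measurableSet
  have hm1pos : 0 < mu.real Q := by
    have h1 : 0 < ((n : ℝ) - 1) * mu.real univ := mul_pos (by linarith) hMpos
    rw [← heq] at h1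
    exact pos_of_mul_pos_right h1 (by linarith)
  have hQ0 : mu Q ≠ 0 := by
    intro h
    rw [measureReal_def, h, ENNReal.toReal_zero] at hm1pos
    exact lt_irrefl _ hm1pos
  obtain ⟨K₁, hK₁, hK₁c, -, hK₁0, hK₁G, hseg⟩ :=
    base_exists hA hirr mu hmuinv hsph hQ0 hkpos
  have hPm : Measurable (PP hv) := (continuous_PP hv).measurable
  have hvol1 : volume.real K₁ = mu.real Q := by
    rw [← total_segs hkpos hK₁ hK₁c hK₁0, measureReal_def,
      hseg _ isClosed_sphere.measurableSet Subset.rfl, measureReal_def]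
    congr 1
    apply measure_congr
    have h1 : ∀ᵐ u ∂mu, u ∈ sphere (0 : E) 1 := hsph
    filter_upwards [h1] with u hu
    apply propext
    constructor
    · exact fun h => h.1
    · intro h
      refine ⟨h, ?_⟩
      have h' : ⟪u, v⟫ = 0 := h
      have h2 : ((PP hv u : (ℝ ∙ v)ᗮ) : E) = u := by
        change pr v u = u
        unfold pr
        rw [h', zero_smul, sub_zero]
      rw [mem_preimage, mem_sphere_zero_iff_norm]
      rw [mem_sphere_zero_iff_norm] at hu
      have h3 : ‖PP hv u‖ = ‖((PP hv u : (ℝ ∙ v)ᗮ) : E)‖ := rfl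
      rw [h3, h2, hu]
  have ha0 : 0 ≤ mu.real {v} := measureReal_nonneg
  have hb0 : 0 ≤ mu.real {-v} := measureReal_nonneg
  set α : ℝ := n * mu.real {v} / mu.real Q with hα
  set β : ℝ := n * mu.real {-v} / mu.real Q with hβ
  have hα0 : 0 ≤ α := by positivity
  have hβ0 : 0 ≤ β := by positivity
  have hvv : ⟪v, v⟫ = 1 := by
    rw [real_inner_self_eq_norm_sq, hv]
    norm_num
  have hvnv : v ≠ -v := by
    intro h'
    have h'' : ⟪v, v⟫ = ⟪-v, v⟫ := by rw [← h']
    rw [inner_neg_left, hvv] at h''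
    norm_num at h''
  -- every set splits
  have hsplit : ∀ ω : Set E, MeasurableSet ω →
      mu.real ω = mu.real (ω ∩ Q) + (mu.real (ω ∩ {v}) + mu.real (ω ∩ {-v})) := by
    intro ω hω
    have e1 : Disjoint (ω ∩ {v}) (ω ∩ {-v}) := by
      rw [Set.disjoint_left]
      rintro u ⟨-, hu⟩ ⟨-, hu'⟩
      have h1 : u = v := hu
      have h2 : u = -v := hu'
      exact hvnv (h1.symm.trans h2)
    have e2 : Disjoint (ω ∩ Q) (ω ∩ {v} ∪ ω ∩ {-v}) := by
      rw [Set.disjoint_left]
      rintro u ⟨-, hu⟩ (⟨-, h⟩ | ⟨-, h⟩)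
      · have hu' : ⟪u, v⟫ = 0 := hu
        have h' : u = v := h
        rw [h', hvv] at hu'
        exact one_ne_zero hu'
      · have hu' : ⟪u, v⟫ = 0 := hu
        have h' : u = -v := h
        rw [h', inner_neg_left, hvv] at hu'
        norm_num at hu'
    rw [← measureReal_union e1 (hω.inter (measurableSet_singleton _)),
      ← measureReal_union e2 ((hω.inter (measurableSet_singleton _)).union
        (hω.inter (measurableSet_singleton _)))]
    rw [measureReal_def, measureReal_def]
    congr 1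
    apply measure_congr
    have h1 : ∀ᵐ u ∂mu, ¬ (⟪u, v⟫ ≠ 0 ∧ u ≠ v ∧ u ≠ -v) := by
      rw [ae_iff]
      simpa using hrest
    filter_upwards [h1] with u hu
    apply propext
    constructor
    · intro h
      by_contra hcon
      apply hu
      refine ⟨fun h2 => hcon (Or.inl ⟨h, h2⟩), fun h2 => hcon (Or.inr (Or.inl ⟨h, h2⟩)),
        fun h2 => hcon (Or.inr (Or.inr ⟨h, h2⟩))⟩
    · rintro (h | h | h)
      · exact h.1
      · exact h.1
      · exact h.1
  have htot := hsplit univ MeasurableSet.univ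
  simp only [univ_inter] at htot
  have hQne : mu.real Q ≠ 0 := hm1pos.ne'
  have hαβ : (α + β) * mu.real Q = mu.real univ := by
    have h1 : (α + β) * mu.real Q = n * (mu.real {v} + mu.real {-v}) := by
      rw [hα, hβ]
      field_simp
    rw [h1]
    have h2 : mu.real {v} + mu.real {-v} = mu.real univ - mu.real Q := by linarith
    rw [h2, mul_sub, heq]
    ring
  set K : Set E := cyl hv (Icc (-β) α) K₁ with hK
  have hKc : IsCompact K := isCompact_cyl hv isCompact_Icc hK₁
  have hKcv : Convex ℝ K := convex_cyl hv (convex_Icc _ _) hK₁c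
  have hPP0 : PP hv (0 : E) = 0 := by
    apply Subtype.ext
    change pr v 0 = 0
    unfold pr
    rw [inner_zero_left, zero_smul, sub_zero]
  have hK0 : (0 : E) ∈ K := by
    refine ⟨?_, ?_⟩
    · unfold ht
      rw [inner_zero_left]
      exact ⟨by linarith, hα0⟩
    · rw [hPP0]
      exact hK₁0
  have hKG : Inv G K := by
    intro g hg x hx
    refine ⟨?_, ?_⟩
    · rw [ht_map hA.fix hg]
      exact hx.1
    · obtain ⟨f, hf, hfg⟩ := exists_res hA.fix hg
      rw [PP_map hv hA.fix hg hfg]
      exact hK₁G f hf _ hx.2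
  have hKV : volume.real K = mu.real univ := by
    rw [hK, volr_cyl hv (by linarith) hK₁, hvol1, ← hαβ]
    ring
  have hKpos : 0 < volume.real K := by
    rw [hKV]
    exact hMpos
  have hineq : ∀ ω : Set E, IsCompact ω → ω ⊆ sphere (0 : E) 1 →
      mu.real ω * volume.real K ≤ mu.real univ * volume.real (segs K ω) := by
    intro ω hω hωs
    have h1 := cyl_low hv hK₁ hK₁c hK₁0 hα0 hβ0 hω hωs
    have h2 : volume.real (segs K₁ {z : (ℝ ∙ v)ᗮ | (z : E) ∈ ω}) = mu.real (ω ∩ Q) := by
      have hm : MeasurableSet {z : (ℝ ∙ v)ᗮ | (z : E) ∈ ω} :=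
        hω.measurableSet.preimage measurable_subtype_coe
      rw [measureReal_def, hseg _ hm (by
        intro z hz
        have h3 := hωs hz
        rw [mem_sphere_zero_iff_norm] at h3 ⊢
        exact h3), measureReal_def]
      congr 2
      ext u
      constructor
      · rintro ⟨h3, h4⟩
        have h3' : ⟪u, v⟫ = 0 := h3
        have h5 : ((PP hv u : (ℝ ∙ v)ᗮ) : E) = u := by
          change pr v u = u
          unfold pr
          rw [h3', zero_smul, sub_zero]
        have h6 : ((PP hv u : (ℝ ∙ v)ᗮ) : E) ∈ ω := h4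
        rw [h5] at h6
        exact ⟨h6, h3⟩
      · rintro ⟨h3, h4⟩
        have h4' : ⟪u, v⟫ = 0 := h4
        have h5 : ((PP hv u : (ℝ ∙ v)ᗮ) : E) = u := by
          change pr v u = u
          unfold pr
          rw [h4', zero_smul, sub_zero]
        refine ⟨h4, ?_⟩
        change ((PP hv u : (ℝ ∙ v)ᗮ) : E) ∈ ω
        rw [h5]
        exact h3
    rw [h2, hvol1] at h1
    have h3 := hsplit ω hω.measurableSet
    have h4 : ∀ w : E, mu.real (ω ∩ {w}) = mu.real {w} * ω.indicator 1 w := by
      intro w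
      by_cases hw : w ∈ ω
      · rw [inter_eq_right.2 (singleton_subset_iff.2 hw), indicator_of_mem hw, Pi.one_apply, mul_one]
      · rw [indicator_of_notMem hw, mul_zero]
        have h5 : ω ∩ {w} = ∅ := by
          rw [eq_empty_iff_forall_notMem]
          rintro u ⟨h5, h6⟩
          have h7 : u = w := h6
          rw [h7] at h5
          exact hw h5
        rw [h5, measureReal_empty]
    rw [h4 v, h4 (-v)] at h3
    have h5 : (k : ℝ) * mu.real (ω ∩ Q) * (α + β) +
        mu.real Q * (α * ω.indicator 1 v + β * ω.indicator 1 (-v)) = n * mu.real ω := by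
      have h6 : (k : ℝ) * (α + β) = n := by
        have h7 : (k : ℝ) * (α + β) * mu.real Q = n * mu.real Q := by
          rw [mul_assoc, hαβ, heq, hnk']
          ring
        exact mul_right_cancel₀ hQne h7
      have h7 : mu.real Q * α = n * mu.real {v} := by
        rw [hα]
        field_simp
      have h8 : mu.real Q * β = n * mu.real {-v} := by
        rw [hβ]
        field_simp
      calc (k : ℝ) * mu.real (ω ∩ Q) * (α + β) +
          mu.real Q * (α * ω.indicator 1 v + β * ω.indicator 1 (-v))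
          = (k : ℝ) * (α + β) * mu.real (ω ∩ Q) + (mu.real Q * α) * ω.indicator 1 v +
            (mu.real Q * β) * ω.indicator 1 (-v) := by ring
        _ = n * mu.real ω := by
          rw [h6, h7, h8, h3]
          ring
    rw [h5] at h1
    have hnpos : (0 : ℝ) < n := by linarith
    have h6 : mu.real ω ≤ volume.real (segs K ω) := le_of_mul_le_mul_left h1 hnpos
    rw [hKV]
    calc mu.real ω * mu.real univ = mu.real univ * mu.real ω := by ring
      _ ≤ _ := mul_le_mul_of_nonneg_left h6 hMpos.le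
  have hbor := stmtBorel stmtOverlap E volume mu K hKc hKcv hK0 hKpos hmu0 hsph hineq
  exact normalise (by omega) hKc hKcv hK0 hKG hKpos mu hMpos hbor

end Pool.Agent.Lib.MP_abca01_gt.Sym
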