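import Pool.Agent.Lib.MP_abca01_gt.Sym.SSplit

/-!
# Cone volume measures with a fixed axis, 29: sufficiency of the conditions, with cases of equality
-/

set_option autoImplicit false

open MeasureTheory Set Metric Filter Topology
open scoped RealInnerProductSpace Pointwise ENNReal

namespace Pool.Agent.Lib.MP_abca01_gt.Sym

section alg

variable {E : Type} [NormedAddCommGroup E] [InnerProductSpace ℝ E]
  {G : Subgroup (E ≃ₗᵢ[ℝ] E)}

/-- The fixed vectors in an invariant subspace. -/
theorem exists_fix {A : Submodule ℝ E} (hA : SInv G A) {v : E}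
    (hline : ∀ x : E, (∀ g ∈ G, g x = x) → ∃ c : ℝ, x = c • v) :
    ∃ w : A, (∀ f ∈ GR G A, f w = w) ∧ ∀ z : A, (∀ f ∈ GR G A, f z = z) → ∃ c : ℝ, z = c • w := by
  have hfixE : ∀ z : A, (∀ f ∈ GR G A, f z = z) → ∀ g ∈ G, g (z : E) = z := by
    intro z hz g hg
    obtain ⟨f, hf, hfg⟩ := exists_resR hA hg
    rw [← hfg, hz f hf]
  by_cases h : ∃ w : A, w ≠ 0 ∧ ∀ f ∈ GR G A, f w = w
  · obtain ⟨w, hw0, hw⟩ := h
    refine ⟨w, hw, fun z hz => ?_⟩
    obtain ⟨c, hc⟩ := hline (z : E) (hfixE z hz)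
    obtain ⟨d, hd⟩ := hline (w : E) (hfixE w hw)
    have hd0 : d ≠ 0 := by
      rintro rfl
      rw [zero_smul] at hd
      exact hw0 (Subtype.ext hd)
    refine ⟨c * d⁻¹, ?_⟩
    apply Subtype.ext
    rw [Submodule.coe_smul, hc, hd, mul_smul, inv_smul_smul₀ hd0]
  · push Not at h
    refine ⟨0, fun f _ => map_zero f, fun z hz => ⟨0, ?_⟩⟩
    rw [smul_zero]
    by_contra hz0
    obtain ⟨f, hf, hfz⟩ := h z hz0
    exact hfz (hz f hf)

end alg

theorem pos_real {E : Type} [MeasurableSpace E] {mu : Measure E} [IsFiniteMeasure mu]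
    (hmu0 : mu ≠ 0) : 0 < mu.real univ := by
  rw [measureReal_def, ENNReal.toReal_pos_iff]
  refine ⟨?_, measure_lt_top _ _⟩
  rw [pos_iff_ne_zero]
  simpa using hmu0

/-- **Theorem** (sufficiency). The fixed space of `G` has dimension at most one. -/
theorem good_exists (N : ℕ) : ∀ (E : Type) [NormedAddCommGroup E] [InnerProductSpace ℝ E]
    [FiniteDimensional ℝ E] [MeasurableSpace E] [BorelSpace E] (G : Subgroup (E ≃ₗᵢ[ℝ] E))
    [Finite G] (v : E) (mu : Measure E) [IsFiniteMeasure mu], Module.finrank ℝ E = N →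
    0 < Module.finrank ℝ E → (∀ g ∈ G, g v = v) →
    (∀ x : E, (∀ g ∈ G, g x = x) → ∃ c : ℝ, x = c • v) → mu ≠ 0 →
    (∀ g ∈ G, ∀ s, MeasurableSet s → mu (g ⁻¹' s) = mu s) →
    mu (sphere (0 : E) 1)ᶜ = 0 →
    (∀ L : Submodule ℝ E, L ≠ ⊥ → L ≠ ⊤ → SInv G L → SCC mu L ∨ OneS G mu L) →
    Rep G mu := by
  induction N using Nat.strong_induction_on with
  | _ N ih =>
  intro E _ _ _ _ _ G _ v mu _ hN hn hfix hline hmu0 hmuinv hsph hC
  by_cases hstrict : ∀ L : Submodule ℝ E, L ≠ ⊥ → L ≠ ⊤ → SInv G L →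
      (Module.finrank ℝ E : ℝ) * mu.real (L : Set E) < Module.finrank ℝ L * mu.real univ ∨
      OneS G mu L
  · exact strict_exists v hfix hline mu hmu0 hn hmuinv hsph hstrict
  push Not at hstrict
  obtain ⟨A, hA, hA', hAG, hnot, hno⟩ := hstrict
  have hSCC : SCC mu A := (hC A hA hA' hAG).resolve_right hno
  have hkA := le_antisymm hSCC.1 hnot
  obtain ⟨B₀, hc₀, hmu₀⟩ := hSCC.2 hkA
  obtain ⟨B, hc, hBG, hAB⟩ := inv_compl hmuinv hAG hc₀ hmu₀
  have hMpos := pos_real hmu0
  have hB : B ≠ ⊥ := by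
    rintro rfl
    apply hA'
    have h1 := hc.sup_eq_top
    rwa [sup_bot_eq] at h1
  have hB' : B ≠ ⊤ := by
    rintro rfl
    apply hA
    have h1 := hc.inf_eq_bot
    rwa [inf_top_eq] at h1
  have hA0 : 0 < Module.finrank ℝ A := by
    rw [Module.finrank_pos_iff]
    exact (Submodule.nontrivial_iff_ne_bot).2 hA
  have hB0 : 0 < Module.finrank ℝ B := by
    rw [Module.finrank_pos_iff]
    exact (Submodule.nontrivial_iff_ne_bot).2 hB
  have hkl := Submodule.finrank_add_eq_of_isCompl hc
  have hkl' : (Module.finrank ℝ A : ℝ) + Module.finrank ℝ B = Module.finrank ℝ E := by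
    exact_mod_cast hkl
  have hn' : (0 : ℝ) < Module.finrank ℝ E := by exact_mod_cast hn
  have hA0' : (0 : ℝ) < Module.finrank ℝ A := by exact_mod_cast hA0
  have hB0' : (0 : ℝ) < Module.finrank ℝ B := by exact_mod_cast hB0
  have hsum : mu.real (A : Set E) + mu.real (B : Set E) = mu.real univ := by
    have h1 := measureReal_union_add_inter (μ := mu) (s := (A : Set E)) (meas_sub B)
    have h2 : mu.real ((A : Set E) ∩ B) = 0 := by
      rw [measureReal_def, ENNReal.toReal_eq_zero_iff]
      left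
      refine measure_mono_null ?_ hsph
      rintro x ⟨hx, hx'⟩ hxs
      have h3 := (Submodule.disjoint_def.1 hc.disjoint) x hx hx'
      rw [h3, mem_sphere_zero_iff_norm, norm_zero] at hxs
      exact zero_ne_one hxs
    have h3 : mu.real ((A : Set E) ∪ B) = mu.real univ := by
      rw [measureReal_def, measureReal_def]
      congr 1
      apply measure_congr
      have h4 : ∀ᵐ u ∂mu, u ∈ (A : Set E) ∪ B := hAB
      filter_upwards [h4] with u hu
      apply propext
      exact ⟨fun _ => trivial, fun _ => hu⟩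
    rw [h2, h3, add_zero] at h1
    exact h1.symm
  have hkB : (Module.finrank ℝ E : ℝ) * mu.real (B : Set E) =
      Module.finrank ℝ B * mu.real univ := by
    have h1 : mu.real (B : Set E) = mu.real univ - mu.real (A : Set E) := by linarith
    rw [h1, mul_sub, hkA, ← hkl']
    ring
  -- the two parts
  have key : ∀ C : Submodule ℝ E, SInv G C → C ≠ ⊤ → 0 < Module.finrank ℝ C →
      Module.finrank ℝ C < Module.finrank ℝ E →
      (Module.finrank ℝ E : ℝ) * mu.real (C : Set E) = Module.finrank ℝ C * mu.real univ →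
      Rep (GR G C) (mR C mu) := by
    intro C hCG hCtop hC0 hClt hkC
    obtain ⟨w, hw, hwline⟩ := exists_fix hCG hline
    have hC0' : (0 : ℝ) < Module.finrank ℝ C := by exact_mod_cast hC0
    apply ih (Module.finrank ℝ C) (by omega) C (GR G C) w (mR C mu) rfl hC0 hw hwline
    · intro h0
      have h1 := mR_real_univ C mu
      rw [h0] at h1
      have h2 : mu.real (C : Set E) = 0 := by
        rw [← h1]
        simp
      rw [h2, mul_zero] at hkC
      have h3 := mul_pos hC0' hMpos
      linarith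
    · exact mR_inv hCG hmuinv
    · exact mR_sph C hsph
    · intro L hL hL' hLG
      have h1 : L.map C.subtype ≠ ⊥ := by
        intro h
        apply hL
        rw [eq_bot_iff]
        intro z hz
        have h3 : (z : E) ∈ L.map C.subtype := ⟨z, hz, rfl⟩
        rw [h, Submodule.mem_bot] at h3
        rw [Submodule.mem_bot]
        exact Subtype.ext h3
      have h2 : L.map C.subtype ≠ ⊤ := by
        intro h
        apply hCtop
        rw [eq_top_iff, ← h]
        exact Submodule.map_subtype_le C L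
      rcases hC _ h1 h2 (hCG.map hLG) with h3 | h3
      · exact Or.inl (SCC.res hC0 hkC h3)
      · exact Or.inr (OneS.res h3)
  exact split_exists hc hAG hBG hA0 hB0 mu hmu0 hsph hAB hkA hkB
    (key A hAG hA' hA0 (by omega) hkA) (key B hBG hB' hB0 (by omega) hkB)

end Pool.Agent.Lib.MP_abca01_gt.Sym
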