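import Pool.Agent.Lib.MP_abca01_gt.Sym.SBdd
import Pool.Agent.Lib.MP_abca01_gt.ExistsMin

/-!
# Cone volume measures with a fixed axis, 6: the minimiser in the half space
-/

set_option autoImplicit false

open MeasureTheory Set Metric Filter Topology
open scoped RealInnerProductSpace Pointwise

namespace Pool.Agent.Lib.MP_abca01_gt.Sym

open Ess ExistsMinaux Variationaux Energyaux

variable {E : Type} [NormedAddCommGroup E] [InnerProductSpace ℝ E] [FiniteDimensional ℝ E]
  [MeasurableSpace E] [BorelSpace E] {G : Subgroup (E ≃ₗᵢ[ℝ] E)}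

theorem up_Q {v : E} (hA : Axis G v) : Up G v (QQ v (1 / 2)) := by
  obtain ⟨⟨hQcpt, hQcvx, hQ0⟩, ⟨hQv, -, -⟩, -⟩ :=
    stmtQGeom E volume v (1 / 2) hA.norm (by norm_num)
  refine ⟨hQcpt, hQcvx, hQ0, inv_QQ hA.fix _, hQv, Subset.rfl, v, ?_, QGeomaux.ht_self hA.norm⟩
  refine ⟨?_, ?_⟩
  · rw [QGeomaux.hor_self hA.norm, QGeomaux.ht_self hA.norm]
    norm_num
  · rw [QGeomaux.ht_self hA.norm]

theorem exists_min_up [Finite G] {v : E} (hA : Axis G v) {mu : Measure E} [IsFiniteMeasure mu]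
    (hmu : ∀ᵐ u ∂mu, ‖u‖ = 1 ∧ 0 ≤ ht v u) (hmu0 : 0 < mu.real univ) (hH : HypEq G v mu) {N : ℕ}
    (hN : Module.finrank ℝ E = N + 1) :
    ∃ K, Up G v K ∧ (∃ κ : ℝ, 0 < κ ∧ ∀ u : E, ‖u‖ = 1 → 0 ≤ ht v u → κ ≤ supp K u) ∧
      ∀ K', Up G v K' → Phi volume mu K ≤ Phi volume mu K' := by
  set n : ℕ := Module.finrank ℝ E with hndef
  have hn : 0 < n := by omega
  have hn' : (0 : ℝ) < n := by exact_mod_cast hn
  set M : ℝ := mu.real univ with hMdef
  have hMn : 0 < M / n := by positivity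
  set Q : Set E := QQ v (1 / 2) with hQdef
  have hQA : Up G v Q := up_Q hA
  -- bodies with a lower bound of the support function
  have hae : ∀ {K : Set E} {c : ℝ}, (∀ u : E, ‖u‖ = 1 → 0 ≤ ht v u → c ≤ supp K u) →
      ∀ᵐ u ∂mu, ‖u‖ = 1 ∧ c ≤ supp K u := by
    intro K c h
    filter_upwards [hmu] with u hu
    exact ⟨hu.1, h u hu.1 hu.2⟩
  have hint : ∀ {K : Set E} {c : ℝ}, IsCompact K → K.Nonempty → 0 < c →
      (∀ u : E, ‖u‖ = 1 → 0 ≤ ht v u → c ≤ supp K u) →
      Integrable (fun u => Real.log (supp K u)) mu := fun hK hne hc h =>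
    integrable_log_supp hK hne hc (hae h)
  have hlow : ∀ {K : Set E} {c : ℝ}, IsCompact K → K.Nonempty → 0 < c →
      (∀ u : E, ‖u‖ = 1 → 0 ≤ ht v u → c ≤ supp K u) →
      M * Real.log c ≤ ∫ u, Real.log (supp K u) ∂mu := by
    intro K c hK hne hc h
    have h1 : ∫ _u, Real.log c ∂mu ≤ ∫ u, Real.log (supp K u) ∂mu := by
      apply integral_mono_ae (integrable_const _) (hint hK hne hc h)
      filter_upwards [hae h] with u hu
      exact Real.log_le_log hc hu.2
    rwa [integral_const, smul_eq_mul] at h1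
  set 𝒜 : Set (Set E) := {K | Up G v K} with h𝒜
  have hbdd : BddBelow (Phi volume mu '' 𝒜) := by
    obtain ⟨κ, hκ, h⟩ := Up.coercive hA hmu hmu0 hH hN (Phi volume mu Q)
    refine ⟨min (Phi volume mu Q) (M * Real.log κ - M / n * Real.log (volume.real Q)), ?_⟩
    rintro _ ⟨K, hK, rfl⟩
    have hK' : Up G v K := hK
    rcases le_total (Phi volume mu K) (Phi volume mu Q) with hle | hle
    · have h1 := hlow hK'.cpt ⟨0, hK'.zero⟩ hκ (h K hK' hle)
      have h2 : Real.log (volume.real K) ≤ Real.log (volume.real Q) :=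
        Real.log_le_log hK'.vol (measureReal_mono hK'.up hQA.cpt.measure_lt_top.ne)
      have h3 := mul_le_mul_of_nonneg_left h2 hMn.le
      refine (min_le_right _ _).trans ?_
      unfold Phi
      linarith
    · exact (min_le_left _ _).trans hle
  obtain ⟨w, hwanti, hwlim, hwmem⟩ := exists_seq_tendsto_sInf (⟨_, Q, hQA, rfl⟩ :
    (Phi volume mu '' 𝒜).Nonempty) hbdd
  choose K hKA' hKw using hwmem
  have hKA : ∀ j, Up G v (K j) := hKA'
  obtain ⟨c, hc, hco⟩ := Up.coercive hA hmu hmu0 hH hN (w 0)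
  have hKc : ∀ j, ∀ u : E, ‖u‖ = 1 → 0 ≤ ht v u → c ≤ supp (K j) u := by
    intro j
    apply hco _ (hKA j)
    rw [hKw]
    exact hwanti (Nat.zero_le _)
  obtain ⟨φ, L, r, hφ, hLc, hLne, hLQ, hr, hr0, hKL, hLK⟩ := exists_limit hQA.cpt K
    (fun j => (hKA j).cpt) (fun j => ⟨0, (hKA j).zero⟩) (fun j => (hKA j).up)
  have hmemL : ∀ x, (∀ j, x ∈ K j) → x ∈ L := fun x hx =>
    mem_of_approx hLc.isClosed hr fun j => hKL j x (hx _)
  have hLcv : Convex ℝ L := convex_limit hLc.isClosed (fun j => (hKA (φ j)).cvx) hr hKL hLK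
  have hL0 : (0 : E) ∈ L := hmemL 0 fun j => (hKA j).zero
  have hLinv : Inv G L := by
    intro g hg x hx
    have hs : Tendsto (fun j => 2 * r j) atTop (𝓝 0) := by
      simpa using hr.const_mul 2
    apply mem_of_approx hLc.isClosed hs
    intro j
    obtain ⟨y, hy, hxy⟩ := hLK j x hx
    obtain ⟨z, hz, hyz⟩ := hKL j _ ((hKA (φ j)).inv g hg y hy)
    refine ⟨z, hz, ?_⟩
    have h1 : g x - z = g (x - y) + (g y - z) := by
      rw [map_sub]
      abel
    rw [h1]
    refine (norm_add_le _ _).trans ?_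
    rw [g.norm_map]
    linarith
  have hLlow : ∀ u : E, ‖u‖ = 1 → 0 ≤ ht v u → c ≤ supp L u := by
    intro u hu h0
    have h1 : ∀ j, c - r j ≤ supp L u := by
      intro j
      have h2 := supp_le_of_cthickening ⟨0, (hKA (φ j)).zero⟩ hLc (hKL j) u
      rw [hu, mul_one] at h2
      have h3 := hKc (φ j) u hu h0
      linarith
    have h2 : Tendsto (fun j => c - r j) atTop (𝓝 (c - 0)) := tendsto_const_nhds.sub hr
    rw [sub_zero] at h2
    exact le_of_tendsto' h2 h1
  have hLtop : ∃ x ∈ L, ht v x = 1 := by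
    obtain ⟨y, hy, hyv, hymax⟩ := exists_supp hLc hLne v
    refine ⟨y, hy, le_antisymm (hLQ hy).2 ?_⟩
    have h1 : ∀ j, 1 - r j ≤ ht v y := by
      intro j
      obtain ⟨x, hx, hx1⟩ := (hKA (φ j)).top
      obtain ⟨z, hz, hxz⟩ := hKL j x hx
      have h2 := hymax z hz
      have h3 : ⟪x, v⟫ = ⟪z, v⟫ + ⟪x - z, v⟫ := by
        rw [inner_sub_left]
        ring
      have h4 := real_inner_le_norm (x - z) v
      rw [hA.norm, mul_one] at h4
      have h5 : ⟪x, v⟫ = 1 := hx1
      unfold ht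
      linarith
    have h2 : Tendsto (fun j => 1 - r j) atTop (𝓝 (1 - 0)) := tendsto_const_nhds.sub hr
    rw [sub_zero] at h2
    exact le_of_tendsto' h2 h1
  -- volumes
  have hvol1 : ∀ j, volume.real (K (φ j)) ≤ volume.real (cthickening (r j) L) := by
    intro j
    apply measureReal_mono _ hLc.isBounded.cthickening.measure_lt_top.ne
    intro x hx
    obtain ⟨y, hy, hxy⟩ := hKL j x hx
    exact mem_cthickening_of_dist_le x y _ _ hy (by rwa [dist_eq_norm])
  have hvol2 : Tendsto (fun j => (volume : Measure E).real (cthickening (r j) L)) atTop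
      (𝓝 (volume.real L)) := by
    have h1 : Tendsto (fun j => (volume : Measure E) (cthickening (r j) L)) atTop
        (𝓝 (volume L)) :=
      (tendsto_measure_cthickening_of_isCompact hLc).comp hr
    exact (ENNReal.tendsto_toReal hLc.measure_lt_top.ne).comp h1
  -- a lower bound for the volumes
  have hexp : ∀ j, Real.exp (n / M * (M * Real.log c - w 0)) ≤ volume.real (K (φ j)) := by
    intro j
    have h1 : Phi volume mu (K (φ j)) ≤ w 0 := by
      rw [hKw]
      exact hwanti (Nat.zero_le _)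
    have h2 := hlow (hKA (φ j)).cpt ⟨0, (hKA (φ j)).zero⟩ hc (hKc (φ j))
    unfold Phi at h1
    have h3 : M * Real.log c - w 0 ≤ M / n * Real.log (volume.real (K (φ j))) := by linarith
    have h4 : n / M * (M * Real.log c - w 0) ≤
        n / M * (M / n * Real.log (volume.real (K (φ j)))) :=
      mul_le_mul_of_nonneg_left h3 (by positivity)
    have h5 : n / M * (M / n * Real.log (volume.real (K (φ j)))) =
        Real.log (volume.real (K (φ j))) := by field_simp
    rw [h5] at h4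
    calc Real.exp (n / M * (M * Real.log c - w 0))
        ≤ Real.exp (Real.log (volume.real (K (φ j)))) := Real.exp_le_exp.mpr h4
      _ = _ := Real.exp_log (hKA (φ j)).vol
  have hLv : 0 < volume.real L := by
    apply lt_of_lt_of_le (Real.exp_pos (n / M * (M * Real.log c - w 0)))
    apply ge_of_tendsto hvol2
    exact Eventually.of_forall fun j => (hexp j).trans (hvol1 j)
  -- the functional
  have hphi : ∀ j, ∫ u, Real.log (supp L u) ∂mu - M * (r j / c) -
      M / n * Real.log (volume.real (cthickening (r j) L)) ≤ w (φ j) := by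
    intro j
    have hIK := hint (hKA (φ j)).cpt ⟨0, (hKA (φ j)).zero⟩ hc (hKc (φ j))
    rw [← hKw]
    unfold Phi
    have h1 : ∫ u, Real.log (supp L u) ∂mu ≤
        ∫ u, (Real.log (supp (K (φ j)) u) + r j / c) ∂mu := by
      apply integral_mono_ae (hint hLc hLne hc hLlow) (hIK.add (integrable_const _))
      filter_upwards [hmu] with u hu
      have h2 := supp_le_of_cthickening hLne (hKA (φ j)).cpt (hLK j) u
      rw [hu.1, mul_one] at h2
      exact log_sub_log_le hc (hLlow u hu.1 hu.2) (hKc (φ j) u hu.1 hu.2) (hr0 j) h2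
    rw [integral_add hIK (integrable_const _), integral_const, smul_eq_mul] at h1
    have h2 : Real.log (volume.real (K (φ j))) ≤ Real.log (volume.real (cthickening (r j) L)) :=
      Real.log_le_log (hKA (φ j)).vol (hvol1 j)
    have h3 := mul_le_mul_of_nonneg_left h2 hMn.le
    have hM' : mu.real univ = M := rfl
    rw [hM'] at h1
    rw [hM']
    linarith
  have hlim : Tendsto (fun j => ∫ u, Real.log (supp L u) ∂mu - M * (r j / c) -
      M / n * Real.log (volume.real (cthickening (r j) L))) atTop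
      (𝓝 (∫ u, Real.log (supp L u) ∂mu - M * (0 / c) - M / n * Real.log (volume.real L))) := by
    apply Tendsto.sub
    · exact tendsto_const_nhds.sub ((hr.div_const c).const_mul M)
    · exact ((Real.continuousAt_log hLv.ne').tendsto.comp hvol2).const_mul _
  have hfinal : Phi volume mu L ≤ sInf (Phi volume mu '' 𝒜) := by
    have h1 := le_of_tendsto_of_tendsto' hlim (hwlim.comp hφ.tendsto_atTop) hphi
    have h2 : Phi volume mu L = ∫ u, Real.log (supp L u) ∂mu - M * (0 / c) -
        M / n * Real.log (volume.real L) := by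
      simp only [Phi, zero_div, mul_zero, sub_zero, hMdef, hndef]
    rw [h2]
    exact h1
  refine ⟨L, ⟨hLc, hLcv, hL0, hLinv, hLv, hLQ, hLtop⟩, ⟨c, hc, hLlow⟩, fun K' hK' => ?_⟩
  exact hfinal.trans (csInf_le hbdd ⟨K', hK', rfl⟩)

/-- The minimiser is also optimal among its cut offs. -/
theorem min_cut {v : E} (hA : Axis G v) {mu : Measure E} [IsFiniteMeasure mu]
    (hmu : ∀ᵐ u ∂mu, ‖u‖ = 1 ∧ 0 ≤ ht v u) {K : Set E} (hK : Up G v K) {κ : ℝ} (hκ : 0 < κ)
    (hlow : ∀ u : E, ‖u‖ = 1 → 0 ≤ ht v u → κ ≤ supp K u)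
    (hmin : ∀ K', Up G v K' → Phi volume mu K ≤ Phi volume mu K') {ω : Set E} (hω : Inv G ω)
    {t : ℝ} (ht0 : 0 < t) (ht1 : t < 1) : Phi volume mu K ≤ Phi volume mu (cut K ω t) := by
  have hn : 0 < Module.finrank ℝ E := by
    haveI : Nontrivial E := ⟨v, 0, by
      intro h
      have h1 := hA.norm
      rw [h, norm_zero] at h1
      exact zero_ne_one h1⟩
    exact Module.finrank_pos
  have hneK : K.Nonempty := ⟨0, hK.zero⟩
  have hsub : (1 - t) • K ⊆ cut K ω t := smul_subset_cut hK.cpt hK.cvx hK.zero ht0.le ht1.le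
  have hcutK : cut K ω t ⊆ K := fun x hx => hx.1
  have hcc : IsCompact (cut K ω t) := isCompact_cut hK.cpt t
  have h0c : (0 : E) ∈ cut K ω t := hsub ⟨0, hK.zero, by simp⟩
  have hnec : (cut K ω t).Nonempty := ⟨0, h0c⟩
  have hV' : 0 < volume.real (cut K ω t) := by
    have h2 : volume.real ((1 - t) • K) ≤ volume.real (cut K ω t) :=
      measureReal_mono hsub hcc.measure_lt_top.ne
    rw [real_smul volume (by linarith)] at h2
    have h4 : 0 < (1 - t) ^ Module.finrank ℝ E * volume.real K :=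
      mul_pos (pow_pos (by linarith) _) hK.vol
    linarith
  obtain ⟨y, hy, -, hymax⟩ := exists_supp hcc hnec v
  -- the maximal height
  have hypos : 0 < ht v y := by
    obtain ⟨x, hx, hx1⟩ := hK.top
    have h1 := hymax _ (hsub ⟨x, hx, rfl⟩)
    simp only [real_inner_smul_left] at h1
    have h2 : ⟪x, v⟫ = 1 := hx1
    rw [h2, mul_one] at h1
    unfold ht
    linarith
  have hb : 0 < (ht v y)⁻¹ := inv_pos.2 hypos
  have hup : Up G v ((ht v y)⁻¹ • cut K ω t) := by
    refine ⟨hcc.smul _, (convex_cut hK.cvx t).smul _, ⟨0, h0c, by simp⟩,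
      (hK.inv.cut hK.cpt hneK hω t).smul _, ?_, ?_, ⟨_, ⟨y, hy, rfl⟩, ?_⟩⟩
    · rw [real_smul volume hb.le]
      exact mul_pos (pow_pos hb _) hV'
    · rintro _ ⟨x, hx, rfl⟩
      have h1 := hK.up (hcutK hx)
      refine ⟨?_, ?_⟩
      · simp only
        rw [QGeomaux.hor_smul, QGeomaux.ht_smul, abs_of_pos hb]
        have h2 := mul_le_mul_of_nonneg_left h1.1 hb.le
        linarith
      · simp only
        rw [QGeomaux.ht_smul, inv_mul_le_iff₀ hypos, mul_one]
        exact hymax x hx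
    · simp only
      rw [QGeomaux.ht_smul, inv_mul_cancel₀ hypos.ne']
  have h1 := hmin _ hup
  rwa [Phi_smul volume mu hn hcc hnec hV' (c := (1 - t) * κ) (mul_pos (by linarith) hκ) _ hb] at h1
  filter_upwards [hmu] with u hu
  refine ⟨hu.1, ?_⟩
  have h2 := supp_mono (hneK.smul_set (a := 1 - t)) hcc hsub u
  rw [supp_smul (by linarith)] at h2
  have h3 := mul_le_mul_of_nonneg_left (hlow u hu.1 hu.2) (show 0 ≤ 1 - t by linarith)
  linarith

end Pool.Agent.Lib.MP_abca01_gt.Sym
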