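import Pool.Agent.Lib.MP_abca01_gt.Sym.SFibre
import Pool.Agent.Lib.MP_abca01_gt.Sym.SCdf

/-!
# Cone volume measures with a fixed axis, 34: equality in the Brunn–Minkowski inequality
-/

set_option autoImplicit false

open MeasureTheory Set Metric Filter Topology
open scoped RealInnerProductSpace Pointwise ENNReal NNReal

namespace Pool.Agent.Lib.MP_abca01_gt.Sym

open Capaux

variable {B : Type} [NormedAddCommGroup B] [InnerProductSpace ℝ B] [FiniteDimensional ℝ B]
  [MeasurableSpace B] [BorelSpace B]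

/-- The Brunn–Minkowski inequality with real volumes. -/
theorem bm_real {a b : ℝ} (ha : 0 < a) (hb : 0 < b) (hab : a + b = 1) {X Y Z : Set B}
    (hX : IsCompact X) (hY : IsCompact Y) (hZ : IsCompact Z) (hsub : a • X + b • Y ⊆ Z) :
    (volume.real X) ^ a * (volume.real Y) ^ b ≤ volume.real Z := by
  have h1 := (bm_mul ha hb hab hX hY).trans (measure_mono hsub)
  have h2 := ENNReal.toReal_mono hZ.measure_lt_top.ne h1
  rw [ENNReal.toReal_mul, ← ENNReal.toReal_rpow, ← ENNReal.toReal_rpow] at h2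
  exact h2

/-- The level sets of a nonzero linear functional are null. -/
theorem lvl_null {u : B} (hu : u ≠ 0) (t : ℝ) : volume {x : B | ⟪x, u⟫ = t} = 0 := by
  have hun : ⟪u, u⟫ ≠ 0 := fun h => hu (inner_self_eq_zero.1 h)
  set x₀ : B := (t / ⟪u, u⟫) • u with hx₀
  have h1 : {x : B | ⟪x, u⟫ = t} = (fun x => x + -x₀) ⁻¹' (((ℝ ∙ u)ᗮ : Submodule ℝ B) : Set B) := by
    ext x
    rw [mem_preimage, SetLike.mem_coe, Submodule.mem_orthogonal_singleton_iff_inner_left,
      inner_add_left, inner_neg_left, hx₀, real_inner_smul_left, div_mul_cancel₀ _ hun]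
    change ⟪x, u⟫ = t ↔ _
    constructor
    · intro h
      rw [h]
      ring
    · intro h
      linarith
  rw [h1, measure_preimage_add_right]
  apply Measure.addHaar_submodule
  intro h
  have h2 : u ∈ (ℝ ∙ u)ᗮ := by
    rw [h]
    trivial
  rw [Submodule.mem_orthogonal_singleton_iff_inner_left] at h2
  exact hun h2

/-- The part of `X` where the functional is at most `t`. -/
def hb (X : Set B) (u : B) (t : ℝ) : Set B := X ∩ {x | ⟪x, u⟫ ≤ t}

/-- The distribution function. -/
noncomputable def Fd (X : Set B) (u : B) (t : ℝ) : ℝ := volume.real (hb X u t)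

omit [FiniteDimensional ℝ B] [MeasurableSpace B] [BorelSpace B] in
theorem isCompact_hb {X : Set B} (hX : IsCompact X) (u : B) (t : ℝ) : IsCompact (hb X u t) :=
  hX.inter_right (isClosed_le (by fun_prop) continuous_const)

omit [FiniteDimensional ℝ B] [MeasurableSpace B] [BorelSpace B] in
theorem isCompact_slab {X : Set B} (hX : IsCompact X) (u : B) (s t : ℝ) :
    IsCompact (X ∩ {x | s ≤ ⟪x, u⟫ ∧ ⟪x, u⟫ ≤ t}) := by
  have h1 : IsClosed {x : B | s ≤ ⟪x, u⟫} := isClosed_le continuous_const (by fun_prop)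
  have h2 : IsClosed {x : B | ⟪x, u⟫ ≤ t} := isClosed_le (by fun_prop) continuous_const
  exact hX.inter_right (h1.inter h2)

theorem Fd_slab {X : Set B} (hX : IsCompact X) {u : B} (hu : u ≠ 0) {s t : ℝ} (hst : s ≤ t) :
    Fd X u t - Fd X u s = volume.real (X ∩ {x | s ≤ ⟪x, u⟫ ∧ ⟪x, u⟫ ≤ t}) := by
  have hsub : hb X u s ⊆ hb X u t := fun x hx => ⟨hx.1, le_trans hx.2 hst⟩
  unfold Fd
  rw [← measureReal_sdiff hsub (isCompact_hb hX u s).measurableSet
    (h₁ := (isCompact_hb hX u t).measure_lt_top.ne)]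
  rw [measureReal_def, measureReal_def]
  congr 1
  apply le_antisymm
  · apply measure_mono
    rintro x ⟨⟨hx, hxt⟩, hx'⟩
    refine ⟨hx, ?_, hxt⟩
    by_contra hcon
    exact hx' ⟨hx, (not_le.1 hcon).le⟩
  · calc volume (X ∩ {x | s ≤ ⟪x, u⟫ ∧ ⟪x, u⟫ ≤ t})
        ≤ volume ((hb X u t \ hb X u s) ∪ {x | ⟪x, u⟫ = s}) := by
          apply measure_mono
          rintro x ⟨hx, hxs, hxt⟩
          rcases eq_or_lt_of_le hxs with h | h
          · exact Or.inr h.symm
          · exact Or.inl ⟨⟨hx, hxt⟩, fun h' => not_le.2 h h'.2⟩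
      _ ≤ volume (hb X u t \ hb X u s) + volume {x : B | ⟪x, u⟫ = s} := measure_union_le _ _
      _ = _ := by rw [lvl_null hu s, add_zero]

theorem Fd_top {X : Set B} (hX : IsCompact X) {u : B} (hu : u ≠ 0) {R : ℝ}
    (hR : ∀ x ∈ X, |⟪x, u⟫| < R) (s : ℝ) :
    volume.real X - Fd X u s = volume.real (X ∩ {x | s ≤ ⟪x, u⟫}) := by
  have h1 : hb X u (max R s) = X := by
    apply Subset.antisymm inter_subset_left
    intro x hx
    exact ⟨hx, ((le_abs_self _).trans (hR x hx).le).trans (le_max_left _ _)⟩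
  have h2 := Fd_slab hX hu (le_max_right R s)
  have h3 : Fd X u (max R s) = volume.real X := by
    unfold Fd
    rw [h1]
  rw [h3] at h2
  rw [h2]
  congr 1
  ext x
  constructor
  · rintro ⟨hx, hxs, -⟩
    exact ⟨hx, hxs⟩
  · rintro ⟨hx, hxs⟩
    exact ⟨hx, hxs, ((le_abs_self _).trans (hR x hx).le).trans (le_max_left _ _)⟩

theorem Fd_cont {X : Set B} (hX : IsCompact X) {u : B} (hu : u ≠ 0) : Continuous (Fd X u) := by
  have hfin : IsFiniteMeasure (volume.restrict X) := by
    constructor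
    rw [Measure.restrict_apply_univ]
    exact hX.measure_lt_top
  have h1 : ∀ t, Fd X u t = ∫ x in X, (Iic t).indicator (fun _ => (1 : ℝ)) ⟪x, u⟫ := by
    intro t
    have h2 : (fun x : B => (Iic t).indicator (fun _ => (1 : ℝ)) ⟪x, u⟫) =
        {x : B | ⟪x, u⟫ ≤ t}.indicator (fun _ => (1 : ℝ)) := by
      ext x
      simp only [indicator_apply, mem_Iic, mem_ofPred_eq]
    have hm : MeasurableSet {x : B | ⟪x, u⟫ ≤ t} :=
      (isClosed_le (by fun_prop) continuous_const).measurableSet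
    rw [h2, integral_indicator hm, setIntegral_const, smul_eq_mul, mul_one]
    unfold Fd hb
    rw [measureReal_restrict_apply hm, inter_comm]
  rw [continuous_iff_continuousAt]
  intro t₀
  have h2 : Fd X u = fun t => ∫ x in X, (Iic t).indicator (fun _ => (1 : ℝ)) ⟪x, u⟫ := funext h1
  rw [h2]
  apply continuousAt_of_dominated (bound := fun _ => (1 : ℝ))
  · apply Eventually.of_forall
    intro t
    apply Measurable.aestronglyMeasurable
    exact (measurable_const.indicator measurableSet_Iic).comp (by fun_prop)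
  · apply Eventually.of_forall
    intro t
    apply Eventually.of_forall
    intro x
    by_cases h : ⟪x, u⟫ ∈ Iic t
    · rw [indicator_of_mem h]
      norm_num
    · rw [indicator_of_notMem h]
      norm_num
  · exact integrable_const _
  · have h3 : ∀ᵐ x ∂(volume.restrict X), ⟪x, u⟫ ≠ t₀ := by
      apply ae_restrict_of_ae
      rw [ae_iff]
      simp only [ne_eq, not_not]
      exact lvl_null hu t₀
    filter_upwards [h3] with x hx
    rcases lt_or_gt_of_ne hx with h | h
    · have h4 : (fun t : ℝ => (Iic t).indicator (fun _ => (1 : ℝ)) ⟪x, u⟫) =ᶠ[𝓝 t₀]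
          fun _ => (1 : ℝ) := by
        filter_upwards [lt_mem_nhds h] with t ht
        rw [indicator_of_mem (show ⟪x, u⟫ ∈ Iic t from ht.le)]
      exact continuousAt_const.congr h4.symm
    · have h4 : (fun t : ℝ => (Iic t).indicator (fun _ => (1 : ℝ)) ⟪x, u⟫) =ᶠ[𝓝 t₀]
          fun _ => (0 : ℝ) := by
        filter_upwards [gt_mem_nhds h] with t ht
        rw [indicator_of_notMem (show ⟪x, u⟫ ∉ Iic t from not_le.2 ht)]
      exact continuousAt_const.congr h4.symm

/-- The distribution function of a convex body in a direction. -/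
theorem lc_body {X : Set B} (hX : IsCompact X) (hXc : Convex ℝ X) {u : B} (hu : u ≠ 0) {R : ℝ}
    (hR : ∀ x ∈ X, |⟪x, u⟫| < R) : LC (volume.real X) R (Fd X u) := by
  refine ⟨Fd_cont hX hu, ?_, ?_, ?_, ?_, ?_⟩
  · intro s t hst
    exact measureReal_mono (fun x hx => ⟨hx.1, le_trans hx.2 hst⟩)
      (isCompact_hb hX u t).measure_lt_top.ne
  · intro t ht
    have h1 : hb X u t = ∅ := by
      rw [eq_empty_iff_forall_notMem]
      rintro x ⟨hx, hx'⟩
      have h2 := hR x hx
      have h3 : ⟪x, u⟫ ≤ t := hx'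
      have h4 := neg_abs_le ⟪x, u⟫
      linarith
    unfold Fd
    rw [h1, measureReal_empty]
  · intro t ht
    have h1 : hb X u t = X := by
      apply Subset.antisymm inter_subset_left
      intro x hx
      exact ⟨hx, ((le_abs_self _).trans (hR x hx).le).trans ht⟩
    unfold Fd
    rw [h1]
  · intro a b ha hb' hab s t
    apply bm_real ha hb' hab (isCompact_hb hX u s) (isCompact_hb hX u t) (isCompact_hb hX u _)
    rintro _ ⟨_, ⟨x, hx, rfl⟩, _, ⟨y, hy, rfl⟩, rfl⟩
    refine ⟨hXc hx.1 hy.1 ha.le hb'.le hab, ?_⟩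
    change ⟪a • x + b • y, u⟫ ≤ a * s + b * t
    rw [inner_add_left, real_inner_smul_left, real_inner_smul_left]
    have h1 : ⟪x, u⟫ ≤ s := hx.2
    have h2 : ⟪y, u⟫ ≤ t := hy.2
    nlinarith
  · intro a b ha hb' hab s t
    have hcl : ∀ s : ℝ, IsCompact (X ∩ {x | s ≤ ⟪x, u⟫}) := fun s =>
      hX.inter_right (isClosed_le continuous_const (by fun_prop))
    rw [Fd_top hX hu hR, Fd_top hX hu hR, Fd_top hX hu hR]
    apply bm_real ha hb' hab (hcl s) (hcl t) (hcl _)
    rintro _ ⟨_, ⟨x, hx, rfl⟩, _, ⟨y, hy, rfl⟩, rfl⟩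
    refine ⟨hXc hx.1 hy.1 ha.le hb'.le hab, ?_⟩
    change a * s + b * t ≤ ⟪a • x + b • y, u⟫
    rw [inner_add_left, real_inner_smul_left, real_inner_smul_left]
    have h1 : s ≤ ⟪x, u⟫ := hx.2
    have h2 : t ≤ ⟪y, u⟫ := hy.2
    nlinarith

omit [FiniteDimensional ℝ B] [MeasurableSpace B] [BorelSpace B] in
theorem exists_bound {X : Set B} (hX : IsCompact X) (u : B) :
    ∃ R : ℝ, ∀ x ∈ X, |⟪x, u⟫| < R := by
  have hc : ContinuousOn (fun x : B => |⟪x, u⟫|) X := by fun_prop
  obtain ⟨R, hR⟩ := (hX.image_of_continuousOn hc).bddAbove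
  exact ⟨R + 1, fun x hx => lt_of_le_of_lt (hR ⟨x, hx, rfl⟩) (by linarith)⟩

/-- Equality of the distribution functions up to a shift. -/
theorem exists_shift {X Y : Set B} (hX : IsCompact X) (hXc : Convex ℝ X) (hY : IsCompact Y)
    (hYc : Convex ℝ Y) (hpos : 0 < volume.real X) (hvol : volume.real Y = volume.real X)
    (hle : volume.real ((1 / 2 : ℝ) • X + (1 / 2 : ℝ) • Y) ≤ volume.real X) {u : B} (hu : u ≠ 0) :
    ∃ τ : ℝ, ∀ t, Fd Y u (t + τ) = Fd X u t := by
  set Z : Set B := (1 / 2 : ℝ) • X + (1 / 2 : ℝ) • Y with hZd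
  have hZ : IsCompact Z := (hX.smul _).add (hY.smul _)
  have hZc : Convex ℝ Z := (hXc.smul _).add (hYc.smul _)
  have hZvol : volume.real Z = volume.real X := by
    apply le_antisymm hle
    have h1 := bm_real (a := 1 / 2) (b := 1 / 2) (by norm_num) (by norm_num) (by norm_num)
      hX hY hZ Subset.rfl
    rw [hvol, ← Real.rpow_add hpos] at h1
    norm_num at h1
    exact h1
  obtain ⟨R₁, hR₁⟩ := exists_bound hX u
  obtain ⟨R₂, hR₂⟩ := exists_bound hY u
  obtain ⟨R₃, hR₃⟩ := exists_bound hZ u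
  set R := max (max R₁ R₂) R₃ with hR
  have h1 := lc_body hX hXc hu (R := R) (fun x hx =>
    (hR₁ x hx).trans_le ((le_max_left _ _).trans (le_max_left _ _)))
  have h2 := lc_body hY hYc hu (R := R) (fun x hx =>
    (hR₂ x hx).trans_le ((le_max_right _ _).trans (le_max_left _ _)))
  have h3 := lc_body hZ hZc hu (R := R) (fun x hx => (hR₃ x hx).trans_le (le_max_right _ _))
  rw [hvol] at h2
  rw [hZvol] at h3
  apply dist_eq_of_lc hpos h1 h2 h3
  intro s s' t t' hs ht
  rw [Fd_slab hX hu hs, Fd_slab hY hu ht, Fd_slab hZ hu (by linarith)]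
  have h4 := bm_real (a := 1 / 2) (b := 1 / 2) (by norm_num) (by norm_num) (by norm_num)
    (isCompact_slab hX u s s') (isCompact_slab hY u t t')
    (isCompact_slab hZ u ((s + t) / 2) ((s' + t') / 2)) (by
      rintro _ ⟨_, ⟨x, hx, rfl⟩, _, ⟨y, hy, rfl⟩, rfl⟩
      refine ⟨⟨_, ⟨x, hx.1, rfl⟩, _, ⟨y, hy.1, rfl⟩, rfl⟩, ?_⟩
      have e1 : s ≤ ⟪x, u⟫ ∧ ⟪x, u⟫ ≤ s' := hx.2
      have e2 : t ≤ ⟪y, u⟫ ∧ ⟪y, u⟫ ≤ t' := hy.2
      change (s + t) / 2 ≤ ⟪(1 / 2 : ℝ) • x + (1 / 2 : ℝ) • y, u⟫ ∧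
        ⟪(1 / 2 : ℝ) • x + (1 / 2 : ℝ) • y, u⟫ ≤ (s' + t') / 2
      rw [inner_add_left, real_inner_smul_left, real_inner_smul_left]
      constructor <;> linarith [e1.1, e1.2, e2.1, e2.2])
  set x := volume.real (X ∩ {x | s ≤ ⟪x, u⟫ ∧ ⟪x, u⟫ ≤ s'})
  set y := volume.real (Y ∩ {x | t ≤ ⟪x, u⟫ ∧ ⟪x, u⟫ ≤ t'})
  have hx0 : 0 ≤ x := measureReal_nonneg
  have hy0 : 0 ≤ y := measureReal_nonneg
  have h5 : x * y = (x ^ (1 / 2 : ℝ) * y ^ (1 / 2 : ℝ)) ^ 2 := by
    rw [mul_pow, ← Real.sqrt_eq_rpow, ← Real.sqrt_eq_rpow, Real.sq_sqrt hx0, Real.sq_sqrt hy0]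
  rw [h5]
  exact pow_le_pow_left₀ (by positivity) h4 2

/-- The shift is given by the centroids. -/
theorem shift_eq {X Y : Set B} (hX : IsCompact X) (hY : IsCompact Y) {u : B} {τ : ℝ}
    (h : ∀ t, Fd Y u (t + τ) = Fd X u t) :
    ⟪∫ y in Y, y, u⟫ = ⟪∫ x in X, x, u⟫ + volume.real X * τ := by
  have hfX : IsFiniteMeasure (volume.restrict X) := by
    constructor
    rw [Measure.restrict_apply_univ]
    exact hX.measure_lt_top
  have hfY : IsFiniteMeasure (volume.restrict Y) := by
    constructor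
    rw [Measure.restrict_apply_univ]
    exact hY.measure_lt_top
  have hm1 : Measurable fun x : B => ⟪x, u⟫ + τ := by fun_prop
  have hm2 : Measurable fun x : B => ⟪x, u⟫ := by fun_prop
  have hfin : IsFiniteMeasure ((volume.restrict X).map fun x : B => ⟪x, u⟫ + τ) :=
    Measure.isFiniteMeasure_map _ _
  have hmeas : (volume.restrict X).map (fun x : B => ⟪x, u⟫ + τ) =
      (volume.restrict Y).map (fun x : B => ⟪x, u⟫) := by
    apply Measure.ext_of_Iic
    intro t
    rw [Measure.map_apply hm1 measurableSet_Iic, Measure.map_apply hm2 measurableSet_Iic,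
      Measure.restrict_apply (hm1 measurableSet_Iic), Measure.restrict_apply (hm2 measurableSet_Iic)]
    have h1 : (fun x : B => ⟪x, u⟫ + τ) ⁻¹' Iic t ∩ X = hb X u (t - τ) := by
      ext x
      unfold hb
      simp only [mem_inter_iff, mem_preimage, mem_Iic, mem_ofPred_eq]
      constructor
      · rintro ⟨h1, h2⟩
        exact ⟨h2, by linarith⟩
      · rintro ⟨h1, h2⟩
        exact ⟨by linarith, h1⟩
    have h2 : (fun x : B => ⟪x, u⟫) ⁻¹' Iic t ∩ Y = hb Y u t := by
      ext x
      unfold hb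
      simp only [mem_inter_iff, mem_preimage, mem_Iic, mem_ofPred_eq]
      exact and_comm
    rw [h1, h2]
    have h3 := h (t - τ)
    rw [sub_add_cancel] at h3
    unfold Fd at h3
    rw [measureReal_def, measureReal_def] at h3
    exact ((ENNReal.toReal_eq_toReal_iff' (isCompact_hb hY u t).measure_lt_top.ne
      (isCompact_hb hX u _).measure_lt_top.ne).1 h3).symm
  have hiX : IntegrableOn (fun x : B => x) X := continuous_id.continuousOn.integrableOn_compact hX
  have hiY : IntegrableOn (fun x : B => x) Y := continuous_id.continuousOn.integrableOn_compact hY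
  have h1 : ∫ r, r ∂((volume.restrict X).map fun x : B => ⟪x, u⟫ + τ) =
      ∫ x in X, (⟪x, u⟫ + τ) := integral_map hm1.aemeasurable (by fun_prop)
  have h2 : ∫ r, r ∂((volume.restrict Y).map fun x : B => ⟪x, u⟫) = ∫ x in Y, ⟪x, u⟫ :=
    integral_map hm2.aemeasurable (by fun_prop)
  rw [hmeas, h2] at h1
  have e1 : ∀ S : Set B, IntegrableOn (fun x : B => x) S →
      ∫ x in S, ⟪x, u⟫ = ⟪∫ x in S, x, u⟫ := by
    intro S hS
    rw [real_inner_comm]
    rw [← integral_inner hS u]
    exact integral_congr_ae (Eventually.of_forall fun x => real_inner_comm u x)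
  have hiX' : IntegrableOn (fun x : B => ⟪x, u⟫) X := by
    have : ContinuousOn (fun x : B => ⟪x, u⟫) X := by fun_prop
    exact this.integrableOn_compact hX
  rw [integral_add hiX' (integrable_const τ), e1 X hiX, e1 Y hiY, setIntegral_const,
    smul_eq_mul] at h1
  exact h1

/-- Inclusion up to a translation. -/
theorem incl_of_dist {X Y : Set B} (hX : IsCompact X) (hXc : Convex ℝ X) (hXne : X.Nonempty)
    (hY : IsCompact Y) (hYc : Convex ℝ Y) (hpos : 0 < volume.real Y)
    (hvol : volume.real Y = volume.real X) {e : B}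
    (h : ∀ u : B, u ≠ 0 → ∀ t, Fd Y u (t + ⟪e, u⟫) = Fd X u t) {y : B} (hy : y ∈ Y) :
    y - e ∈ X := by
  by_contra hcon
  obtain ⟨f, s, hfs, hsx⟩ := geometric_hahn_banach_closed_point hXc hX.isClosed hcon
  let u : B := (InnerProductSpace.toDual ℝ B).symm f
  have hfu : ∀ y, f y = ⟪y, u⟫ := fun y => by
    rw [real_inner_comm]
    exact (InnerProductSpace.toDual_symm_apply).symm
  obtain ⟨x₀, hx₀⟩ := hXne
  have hu : u ≠ 0 := by
    intro h0
    have h1 := hfs x₀ hx₀
    rw [hfu, h0, inner_zero_right] at h1 hsx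
    linarith
  have h1 : Fd X u s = volume.real X := by
    unfold Fd
    congr 1
    apply Subset.antisymm inter_subset_left
    intro x hx
    refine ⟨hx, ?_⟩
    change ⟪x, u⟫ ≤ s
    rw [← hfu]
    exact (hfs x hx).le
  have h2 := h u hu s
  rw [h1, ← hvol] at h2
  set s' : ℝ := s + ⟪e, u⟫ with hs'
  have h3 : s' < ⟪y, u⟫ := by
    rw [hfu, inner_sub_left] at hsx
    linarith
  -- an open set of positive measure
  set U : Set B := interior Y ∩ {x | s' < ⟪x, u⟫} with hU
  have hUo : IsOpen U := isOpen_interior.inter (isOpen_lt continuous_const (by fun_prop))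
  have hUne : U.Nonempty := by
    have h4 : y ∈ closure (interior Y) := by
      rw [hYc.closure_interior_eq_closure_of_nonempty_interior (interior_nonempty volume hYc hpos)]
      exact subset_closure hy
    have h5 : {x : B | s' < ⟪x, u⟫} ∈ 𝓝 y :=
      (isOpen_lt continuous_const (by fun_prop)).mem_nhds h3
    obtain ⟨z, hz1, hz2⟩ := mem_closure_iff_nhds.1 h4 _ h5
    exact ⟨z, hz2, hz1⟩
  have hUpos : 0 < volume U := hUo.measure_pos volume hUne
  have h4 : volume.real (Y \ hb Y u s') = 0 := by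
    rw [measureReal_sdiff (s₁ := Y) (s₂ := hb Y u s') inter_subset_left
      (isCompact_hb hY u s').measurableSet (h₁ := hY.measure_lt_top.ne)]
    have h5 : volume.real (hb Y u s') = volume.real Y := h2
    rw [h5, sub_self]
  have h5 : volume U = 0 := by
    refine measure_mono_null (t := Y \ hb Y u s') ?_ ?_
    · rintro x ⟨hx1, hx2⟩
      refine ⟨interior_subset hx1, fun h' => ?_⟩
      have h6 : ⟪x, u⟫ ≤ s' := h'.2
      have h7 : s' < ⟪x, u⟫ := hx2
      linarith
    · rw [measureReal_def, ENNReal.toReal_eq_zero_iff] at h4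
      rcases h4 with h4 | h4
      · exact h4
      · exact absurd h4 (measure_ne_top_of_subset sdiff_subset hY.measure_lt_top.ne)
  rw [h5] at hUpos
  exact lt_irrefl _ hUpos

/-- **Equality in the Brunn–Minkowski inequality**: the bodies are translates. -/
theorem eq_translate {X Y : Set B} (hX : IsCompact X) (hXc : Convex ℝ X) (hY : IsCompact Y)
    (hYc : Convex ℝ Y) (hpos : 0 < volume.real X) (hvol : volume.real Y = volume.real X)
    (hle : volume.real ((1 / 2 : ℝ) • X + (1 / 2 : ℝ) • Y) ≤ volume.real X) :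
    ∃ e : B, ∀ x, x ∈ Y ↔ x - e ∈ X := by
  have hXne : X.Nonempty := by
    by_contra hcon
    rw [not_nonempty_iff_eq_empty] at hcon
    rw [hcon, measureReal_empty] at hpos
    exact lt_irrefl _ hpos
  have hYne : Y.Nonempty := by
    by_contra hcon
    rw [not_nonempty_iff_eq_empty] at hcon
    rw [hcon, measureReal_empty] at hvol
    rw [← hvol] at hpos
    exact lt_irrefl _ hpos
  set c := volume.real X with hc
  set e : B := c⁻¹ • ((∫ y in Y, y) - ∫ x in X, x) with he
  have h1 : ∀ u : B, u ≠ 0 → ∀ t, Fd Y u (t + ⟪e, u⟫) = Fd X u t := by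
    intro u hu
    obtain ⟨τ, hτ⟩ := exists_shift hX hXc hY hYc hpos hvol hle hu
    have h2 := shift_eq hX hY hτ
    have h3 : ⟪e, u⟫ = τ := by
      rw [he, real_inner_smul_left, inner_sub_left, h2]
      field_simp
      ring
    rw [h3]
    exact hτ
  refine ⟨e, fun x => ⟨fun hx => incl_of_dist hX hXc hXne hY hYc (by rw [hvol]; exact hpos) hvol
    h1 hx, fun hx => ?_⟩⟩
  have h2 : ∀ u : B, u ≠ 0 → ∀ t, Fd X u (t + ⟪-e, u⟫) = Fd Y u t := by
    intro u hu t
    rw [← h1 u hu, inner_neg_left]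
    congr 1
    ring
  have h3 := incl_of_dist hY hYc hYne hX hXc hpos hvol.symm h2 hx
  rwa [sub_neg_eq_add, sub_add_cancel] at h3

end Pool.Agent.Lib.MP_abca01_gt.Sym
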