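import Pool.Agent.Lib.MP_abca01_gt.Sym.SIneq
import Pool.Agent.Lib.MP_abca01_gt.Sym.STran
import Pool.Agent.Lib.MP_abca01_gt.Sym.SMain

/-!
# Cone volume measures with a fixed axis, 35: necessity of the conditions
-/

set_option autoImplicit false

open MeasureTheory Set Metric Filter Topology
open scoped RealInnerProductSpace Pointwise ENNReal NNReal

namespace Pool.Agent.Lib.MP_abca01_gt.Sym

open Ess Variationaux Energyaux Borelaux Capaux

section alg

variable {E : Type} [NormedAddCommGroup E] [InnerProductSpace ℝ E] [FiniteDimensional ℝ E]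
  {G : Subgroup (E ≃ₗᵢ[ℝ] E)}

/-- The projection of the interior. -/
def PI (L : Submodule ℝ E) (K : Set E) : Set L := pj L '' interior K

theorem isOpen_PI (L : Submodule ℝ E) (K : Set E) : IsOpen (PI L K) := by
  have hsurj : Function.Surjective (pj L) := fun z => ⟨(z : E), pj_coe L z⟩
  exact (pj L).isOpenMap hsurj _ isOpen_interior

theorem convex_PI (L : Submodule ℝ E) {K : Set E} (hK : Convex ℝ K) : Convex ℝ (PI L K) := by
  rintro _ ⟨x, hx, rfl⟩ _ ⟨y, hy, rfl⟩ a b ha hb hab
  refine ⟨a • x + b • y, hK.interior hx hy ha hb hab, ?_⟩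
  rw [map_add, map_smul, map_smul]

omit [FiniteDimensional ℝ E] in
theorem Inv.interior {K : Set E} (h : Inv G K) : Inv G (interior K) := by
  intro g hg x hx
  rw [mem_interior] at hx ⊢
  obtain ⟨U, hUK, hU, hxU⟩ := hx
  refine ⟨g '' U, ?_, g.toHomeomorph.isOpenMap U hU, x, hxU, rfl⟩
  rintro _ ⟨y, hy, rfl⟩
  exact h g hg y (hUK hy)

omit [FiniteDimensional ℝ E] in
/-- The orbit average in an invariant subspace without fixed vectors. -/
theorem sum_zero_GR {L : Submodule ℝ E} (hL : SInv G L)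
    (hz : ∀ x ∈ L, (∀ g ∈ G, g x = x) → x = 0) [Fintype (GR G L)] (a : L) :
    ∑ f : GR G L, (f : L ≃ₗᵢ[ℝ] L) a = 0 := by
  set w : L := ∑ f : GR G L, (f : L ≃ₗᵢ[ℝ] L) a with hw
  have h1 : ∀ f ∈ GR G L, f w = w := by
    intro f hf
    rw [hw, map_sum]
    exact Fintype.sum_equiv (Equiv.mulLeft ⟨f, hf⟩) _ _ fun h => rfl
  have h2 := hz (w : E) w.2 (by
    intro g hg
    obtain ⟨f, hf, hfg⟩ := exists_resR hL hg
    rw [← hfg, h1 f hf])
  exact Subtype.ext h2

theorem zero_mem_PI [Finite G] {L : Submodule ℝ E} (hL : SInv G L)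
    (hz : ∀ x ∈ L, (∀ g ∈ G, g x = x) → x = 0) {K : Set E} (hKc : Convex ℝ K)
    (hKi : (interior K).Nonempty) (hKG : Inv G K) : (0 : L) ∈ PI L K := by
  have := Fintype.ofFinite (GR G L)
  obtain ⟨x, hx⟩ := hKi
  have hcard := card_pos' (GR G L)
  have h1 := (convex_PI L hKc).sum_mem (t := Finset.univ)
    (w := fun _ : GR G L => (Fintype.card (GR G L) : ℝ)⁻¹)
    (z := fun f : GR G L => (f : L ≃ₗᵢ[ℝ] L) (pj L x)) (fun _ _ => by positivity) (by
      rw [Finset.sum_const, Finset.card_univ, nsmul_eq_mul]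
      exact mul_inv_cancel₀ hcard.ne') (by
      rintro ⟨f, g, hg, hfg⟩ _
      exact ⟨g x, hKG.interior g hg x hx, pj_map hfg x⟩)
  rw [← Finset.smul_sum, sum_zero_GR hL hz, smul_zero] at h1
  exact h1

/-- Over the boundary of the projection there are normals in `L`. -/
theorem exists_normal {L : Submodule ℝ E} {K : Set E} (hKc : Convex ℝ K)
    (hKi : (interior K).Nonempty) {x : E} (hx : pj L x ∉ PI L K) :
    ∃ u ∈ sL L, ∀ y ∈ K, ⟪y, u⟫ ≤ ⟪x, u⟫ := by
  obtain ⟨f, hf⟩ := geometric_hahn_banach_open_point (convex_PI L hKc) (isOpen_PI L K) hx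
  let w : L := (InnerProductSpace.toDual ℝ L).symm f
  have hfw : ∀ z : L, f z = ⟪z, w⟫ := fun z => by
    rw [real_inner_comm]
    exact (InnerProductSpace.toDual_symm_apply).symm
  have h1 : ∀ y ∈ interior K, ⟪y, (w : E)⟫ < ⟪x, (w : E)⟫ := by
    intro y hy
    have h2 := hf (pj L y) ⟨y, hy, rfl⟩
    rw [hfw, hfw, inner_pj, inner_pj] at h2
    exact h2
  have h2 : ∀ y ∈ K, ⟪y, (w : E)⟫ ≤ ⟪x, (w : E)⟫ := by
    intro y hy
    have h3 : y ∈ closure (interior K) := by
      rw [hKc.closure_interior_eq_closure_of_nonempty_interior hKi]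
      exact subset_closure hy
    have h4 : closure (interior K) ⊆ {z | ⟪z, (w : E)⟫ ≤ ⟪x, (w : E)⟫} :=
      closure_minimal (fun z hz => (h1 z hz).le) (isClosed_le (by fun_prop) continuous_const)
    exact h4 h3
  have hw0 : (w : E) ≠ 0 := by
    intro h
    obtain ⟨y, hy⟩ := hKi
    have h3 := h1 y hy
    rw [h, inner_zero_right, inner_zero_right] at h3
    exact lt_irrefl _ h3
  have hwn : 0 < ‖(w : E)‖ := norm_pos_iff.2 hw0
  refine ⟨‖(w : E)‖⁻¹ • (w : E), ⟨L.smul_mem _ w.2, ?_⟩, fun y hy => ?_⟩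
  · rw [mem_sphere_zero_iff_norm, norm_smul, norm_inv, norm_norm, inv_mul_cancel₀ hwn.ne']
  · rw [real_inner_smul_right, real_inner_smul_right]
    exact mul_le_mul_of_nonneg_left (h2 y hy) (by positivity)

end alg

variable {E : Type} [NormedAddCommGroup E] [InnerProductSpace ℝ E] [FiniteDimensional ℝ E]
  [MeasurableSpace E] [BorelSpace E] {G : Subgroup (E ≃ₗᵢ[ℝ] E)}

theorem fv_pos {L : Submodule ℝ E} {K : Set E} {a : L} (ha : a ∈ PI L K) : 0 < fv L K a := by
  obtain ⟨x, hx, rfl⟩ := ha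
  obtain ⟨ε, hε, hball⟩ := Metric.isOpen_iff.1 isOpen_interior x hx
  have h1 : ball (pj Lᗮ x) ε ⊆ fb L K (pj L x) := by
    intro b hb
    change ((pj L x : L) : E) + (b : E) ∈ K
    apply interior_subset
    apply hball
    rw [mem_ball, dist_eq_norm] at hb ⊢
    have h2 : ((pj L x : L) : E) + (b : E) - x = ((b - pj Lᗮ x : Lᗮ) : E) := by
      conv_lhs => rw [← pj_pj L x]
      rw [pj_add, Submodule.coe_sub]
      abel
    rw [h2]
    exact hb
  exact (measure_ball_pos volume _ hε).trans_le (measure_mono h1)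

/-- If there is no defect then the volume of the fibres is constant. -/
theorem fv_const [Finite G] {L : Submodule ℝ E} (hL : SInv G L)
    (hz : ∀ x ∈ L, (∀ g ∈ G, g x = x) → x = 0) {K : Set E} (hK : IsCompact K)
    (hKc : Convex ℝ K) (hKG : Inv G K) (hm : Measurable (fv L K))
    (hJ : ∫⁻ a : L, dfc L K a = 0) {a : L} (ha : a ∈ PI L K) : fv L K a = fv L K 0 := by
  apply le_antisymm (fv_le_zero hL hz hK hKc hKG a)
  have hdm : Measurable (dfc L K) := by
    unfold dfc
    exact (hm.ennreal_toReal.mul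
      (Real.measurable_log.comp (measurable_const.div hm.ennreal_toReal))).ennreal_ofReal
  rw [lintegral_eq_zero_iff hdm] at hJ
  have hN : volume {b : L | dfc L K b ≠ 0} = 0 := hJ
  have hN' : volume ((fun b : L => (2 : ℝ) • a - b) ⁻¹' {b : L | dfc L K b ≠ 0}) = 0 := by
    have h1 := Measure.measurePreserving_sub_left (volume : Measure L) ((2 : ℝ) • a)
    exact h1.quasiMeasurePreserving.preimage_null hN
  set U : Set L := PI L K ∩ (fun b : L => (2 : ℝ) • a - b) ⁻¹' PI L K with hU
  have hUo : IsOpen U := (isOpen_PI L K).inter ((isOpen_PI L K).preimage (by fun_prop))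
  have haU : a ∈ U := by
    refine ⟨ha, ?_⟩
    have h1 : (2 : ℝ) • a - a = a := by
      rw [two_smul]
      abel
    rw [mem_preimage, h1]
    exact ha
  have hUpos : 0 < volume U := hUo.measure_pos volume ⟨a, haU⟩
  obtain ⟨y, hyU, hy1, hy2⟩ : ∃ y ∈ U, dfc L K y = 0 ∧ dfc L K ((2 : ℝ) • a - y) = 0 := by
    by_contra hcon
    push Not at hcon
    have h1 : volume U = 0 := by
      refine measure_mono_null (t := {b : L | dfc L K b ≠ 0} ∪
        (fun b : L => (2 : ℝ) • a - b) ⁻¹' {b : L | dfc L K b ≠ 0}) ?_ ?_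
      · intro y hy
        by_cases h : dfc L K y = 0
        · exact Or.inr (hcon y hy h)
        · exact Or.inl h
      · exact measure_union_null hN hN'
    rw [h1] at hUpos
    exact lt_irrefl _ hUpos
  have key : ∀ z ∈ PI L K, dfc L K z = 0 → fv L K 0 ≤ fv L K z := by
    intro z hz' h
    have hpos := fv_pos hz'
    have hfin := (fv_lt_top L hK z).ne
    have hfin0 := (fv_lt_top L hK (0 : L)).ne
    have hx : 0 < (fv L K z).toReal := ENNReal.toReal_pos hpos.ne' hfin
    unfold dfc at h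
    rw [ENNReal.ofReal_eq_zero] at h
    by_contra hcon
    push Not at hcon
    have h1 : (fv L K z).toReal < (fv L K 0).toReal := (ENNReal.toReal_lt_toReal hfin hfin0).2 hcon
    have h2 : 0 < Real.log ((fv L K 0).toReal / (fv L K z).toReal) :=
      Real.log_pos (by rwa [one_lt_div hx])
    have h3 := mul_pos hx h2
    linarith
  have h1 := (convex_fv (L := L) hK hKc (fv L K 0)) (key y hyU.1 hy1)
    (key _ hyU.2 hy2) (show (0 : ℝ) ≤ 1 / 2 by norm_num) (show (0 : ℝ) ≤ 1 / 2 by norm_num)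
    (by norm_num)
  have h2 : (1 / 2 : ℝ) • y + (1 / 2 : ℝ) • ((2 : ℝ) • a - y) = a := by
    module
  rw [h2] at h1
  exact h1

/-- The fibres are translates. -/
theorem fb_translate [Finite G] {L : Submodule ℝ E} (hL : SInv G L)
    (hz : ∀ x ∈ L, (∀ g ∈ G, g x = x) → x = 0) {K : Set E} (hK : IsCompact K)
    (hKc : Convex ℝ K) (hKG : Inv G K) (h0 : (0 : L) ∈ PI L K)
    (hconst : ∀ a ∈ PI L K, fv L K a = fv L K 0) {a : L} (ha : a ∈ PI L K) :
    ∃ e : Lᗮ, ∀ b, b ∈ fb L K a ↔ b - e ∈ fb L K 0 := by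
  have hX := isCompact_fb L hK (0 : L)
  have hY := isCompact_fb L hK a
  apply eq_translate hX (convex_fb hKc 0) hY (convex_fb hKc a)
  · exact ENNReal.toReal_pos (fv_pos h0).ne' (fv_lt_top L hK 0).ne
  · rw [measureReal_def, measureReal_def]
    congr 1
    exact hconst a ha
  · rw [measureReal_def, measureReal_def]
    apply ENNReal.toReal_mono (fv_lt_top L hK 0).ne
    have h1 := fb_combo hKc (show (0 : ℝ) ≤ 1 / 2 by norm_num) (show (0 : ℝ) ≤ 1 / 2 by norm_num)
      (by norm_num) (0 : L) a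
    exact (measure_mono h1).trans (fv_le_zero hL hz hK hKc hKG _)

/-- A compact nonempty set which contains a translate of itself. -/
theorem translate_zero {B : Type} [NormedAddCommGroup B] [InnerProductSpace ℝ B] {X : Set B}
    (hX : IsCompact X) (hne : X.Nonempty) {w : B} (h : ∀ x ∈ X, x + w ∈ X) : w = 0 := by
  obtain ⟨x, hx, hmax⟩ := hX.exists_isMaxOn hne (f := fun x : B => ⟪x, w⟫) (by fun_prop)
  have h1 := hmax (h x hx)
  have h2 : ⟪x + w, w⟫ ≤ ⟪x, w⟫ := h1
  rw [inner_add_left] at h2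
  have h3 : ⟪w, w⟫ ≤ 0 := by linarith
  exact inner_self_eq_zero.1 (le_antisymm h3 real_inner_self_nonneg)

/-- The normals over the interior of the projection lie in a complement of `L`. -/
theorem exists_compl [Finite G] {L : Submodule ℝ E} (hL : SInv G L)
    (hz : ∀ x ∈ L, (∀ g ∈ G, g x = x) → x = 0) {K : Set E} (hK : IsCompact K)
    (hKc : Convex ℝ K) (hKG : Inv G K) (h0 : (0 : L) ∈ PI L K)
    (hconst : ∀ a ∈ PI L K, fv L K a = fv L K 0) :
    ∃ L' : Submodule ℝ E, IsCompl L L' ∧ ∀ x ∈ K, pj L x ∈ PI L K → ∀ u : E,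
      (∀ y ∈ K, ⟪y, u⟫ ≤ ⟪x, u⟫) → u ∈ L' := by
  have hex : ∀ a : L, ∃ e : Lᗮ, a ∈ PI L K → ∀ b, b ∈ fb L K a ↔ b - e ∈ fb L K 0 := by
    intro a
    by_cases ha : a ∈ PI L K
    · obtain ⟨e, he⟩ := fb_translate hL hz hK hKc hKG h0 hconst ha
      exact ⟨e, fun _ => he⟩
    · exact ⟨0, fun h => absurd h ha⟩
  choose e he using hex
  have hX := isCompact_fb L hK (0 : L)
  have hXne : (fb L K (0 : L)).Nonempty := by
    by_contra hcon
    rw [not_nonempty_iff_eq_empty] at hcon
    have h1 := fv_pos h0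
    unfold fv at h1
    rw [hcon, measure_empty] at h1
    exact lt_irrefl _ h1
  -- the translation is affine
  have haff : ∀ a ∈ PI L K, ∀ a' ∈ PI L K, ∀ s t : ℝ, 0 ≤ s → 0 ≤ t → s + t = 1 →
      e (s • a + t • a') = s • e a + t • e a' := by
    intro a ha a' ha' s t hs ht hst
    have ha'' : s • a + t • a' ∈ PI L K := convex_PI L hKc ha ha' hs ht hst
    have h1 : s • e a + t • e a' - e (s • a + t • a') = 0 := by
      apply translate_zero hX hXne
      intro x hx
      have h2 : x + e a ∈ fb L K a := by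
        rw [he a ha, add_sub_cancel_right]
        exact hx
      have h3 : x + e a' ∈ fb L K a' := by
        rw [he a' ha', add_sub_cancel_right]
        exact hx
      have h4 := fb_combo hKc hs ht hst a a' ⟨s • (x + e a), ⟨_, h2, rfl⟩, t • (x + e a'),
        ⟨_, h3, rfl⟩, rfl⟩
      rw [he _ ha''] at h4
      have h5 : x + (s • e a + t • e a' - e (s • a + t • a')) =
          s • (x + e a) + t • (x + e a') - e (s • a + t • a') := by
        have h6 : x = s • x + t • x := by
          rw [← add_smul, hst, one_smul]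
        rw [smul_add, smul_add]
        conv_lhs => rw [h6]
        abel
      rw [h5]
      exact h4
    exact (sub_eq_zero.1 h1).symm
  have he0 : e 0 = 0 := by
    have h1 : -e 0 = 0 := by
      apply translate_zero hX hXne
      intro x hx
      have h2 := (he 0 h0 x).1 hx
      rwa [sub_eq_add_neg] at h2
    exact neg_eq_zero.1 h1
  -- the subspace of the normals
  let M : Submodule ℝ E :=
    { carrier := {u | ∀ a ∈ PI L K, ⟪(a : E) + (e a : E), u⟫ = 0}
      add_mem' := by
        intro u w hu hw a ha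
        rw [inner_add_right, hu a ha, hw a ha, add_zero]
      zero_mem' := by
        intro a _
        exact inner_zero_right _
      smul_mem' := by
        intro c u hu a ha
        rw [real_inner_smul_right, hu a ha, mul_zero] }
  have hLM : Disjoint L M := by
    rw [Submodule.disjoint_def]
    intro u hu hu'
    obtain ⟨ε, hε, hball⟩ := Metric.isOpen_iff.1 (isOpen_PI L K) 0 h0
    by_contra hne
    have hun : 0 < ‖u‖ := norm_pos_iff.2 hne
    set a : L := (ε / (2 * ‖u‖)) • (⟨u, hu⟩ : L) with ha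
    have haP : a ∈ PI L K := by
      apply hball
      rw [mem_ball_zero_iff, ha, norm_smul, Real.norm_eq_abs, abs_of_pos (by positivity)]
      have h1 : ‖(⟨u, hu⟩ : L)‖ = ‖u‖ := rfl
      rw [h1]
      have h2 : ε / (2 * ‖u‖) * ‖u‖ = ε / 2 := by
        field_simp
      rw [h2]
      linarith
    have h1 : ⟪(a : E) + (e a : E), u⟫ = 0 := hu' a haP
    rw [inner_add_left, Submodule.inner_left_of_mem_orthogonal hu (e a).2, add_zero, ha,
      Submodule.coe_smul, real_inner_smul_left] at h1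
    have h2 : ⟪((⟨u, hu⟩ : L) : E), u⟫ = ‖u‖ ^ 2 := real_inner_self_eq_norm_sq u
    rw [h2] at h1
    have h3 : 0 < ε / (2 * ‖u‖) * ‖u‖ ^ 2 := by positivity
    linarith
  obtain ⟨C, hC⟩ := Submodule.exists_isCompl (L ⊔ M)
  refine ⟨M ⊔ C, hLM.isCompl_sup_right_of_isCompl_sup_left hC, ?_⟩
  intro x hx ha u hu
  apply Submodule.mem_sup_left
  set a : L := pj L x with had
  set b : Lᗮ := pj Lᗮ x with hbd
  have hab : (a : E) + (b : E) = x := pj_pj L x
  -- the affine function is nonpositive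
  have hle : ∀ a' ∈ PI L K, ⟪((a' : E) + (e a' : E)) - ((a : E) + (e a : E)), u⟫ ≤ 0 := by
    intro a' ha'
    have h1 : b - e a ∈ fb L K 0 := (he a ha b).1 (mem_fb hx)
    have h2 : b - e a + e a' ∈ fb L K a' := by
      rw [he a' ha', add_sub_cancel_right]
      exact h1
    have h3 := hu _ h2
    rw [← hab] at h3
    have h4 : (a' : E) + ((b - e a + e a' : Lᗮ) : E) =
        (a : E) + (b : E) + (((a' : E) + (e a' : E)) - ((a : E) + (e a : E))) := by
      rw [Submodule.coe_add, Submodule.coe_sub]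
      abel
    rw [h4, inner_add_left] at h3
    linarith
  have hzero : ∀ a' ∈ PI L K, ⟪((a' : E) + (e a' : E)) - ((a : E) + (e a : E)), u⟫ = 0 := by
    intro a' ha'
    apply le_antisymm (hle a' ha')
    obtain ⟨ε, hε, hball⟩ := Metric.isOpen_iff.1 (isOpen_PI L K) a ha
    set δ : ℝ := ε / (2 * (‖a' - a‖ + 1)) with hδ
    have hn : 0 ≤ ‖a' - a‖ := norm_nonneg _
    have hδ0 : 0 < δ := by positivity
    have ha2 : a - δ • (a' - a) ∈ PI L K := by
      apply hball
      rw [mem_ball, dist_eq_norm]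
      have h1 : a - δ • (a' - a) - a = -(δ • (a' - a)) := by abel
      rw [h1, norm_neg, norm_smul, Real.norm_eq_abs, abs_of_pos hδ0]
      have h2 : δ * ‖a' - a‖ ≤ ε / 2 := by
        rw [hδ, div_mul_eq_mul_div, div_le_iff₀ (by positivity)]
        nlinarith
      linarith
    have h1 := hle _ ha2
    set a2 : L := a - δ • (a' - a) with ha2d
    have h2 : (1 / (1 + δ)) • a2 + (δ / (1 + δ)) • a' = a := by
      have h3 : (1 + δ) ≠ 0 := by positivity
      have h4 : (1 + δ) • ((1 / (1 + δ)) • a2 + (δ / (1 + δ)) • a') = (1 + δ) • a := by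
        rw [smul_add, smul_smul, smul_smul, mul_one_div_cancel h3, mul_div_cancel₀ _ h3, ha2d]
        module
      exact smul_right_injective _ h3 h4
    have h3 := haff a2 ha2 a' ha' (1 / (1 + δ)) (δ / (1 + δ)) (by positivity) (by positivity)
      (by field_simp)
    rw [h2] at h3
    have h4 : (a : E) = (1 / (1 + δ)) • (a2 : E) + (δ / (1 + δ)) • (a' : E) := by
      have h5 := congr_arg (fun z : L => (z : E)) h2
      simp only [Submodule.coe_add, Submodule.coe_smul] at h5
      exact h5.symm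
    have h5 : (e a : E) = (1 / (1 + δ)) • (e a2 : E) + (δ / (1 + δ)) • (e a' : E) := by
      have h6 := congr_arg (fun z : Lᗮ => (z : E)) h3
      simp only [Submodule.coe_add, Submodule.coe_smul] at h6
      exact h6
    set p : E := (a : E) + (e a : E) with hp
    set p2 : E := (a2 : E) + (e a2 : E) with hp2
    set p' : E := (a' : E) + (e a' : E) with hp'
    have h6 : p = (1 / (1 + δ)) • p2 + (δ / (1 + δ)) • p' := by
      rw [hp, h4, h5, hp2, hp', smul_add, smul_add]
      abel
    have h7 : ⟪p, u⟫ = (1 / (1 + δ)) * ⟪p2, u⟫ + (δ / (1 + δ)) * ⟪p', u⟫ := by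
      rw [h6, inner_add_left, real_inner_smul_left, real_inner_smul_left]
    rw [inner_sub_left] at h1 ⊢
    have h8 : (1 + δ) * ⟪p, u⟫ = ⟪p2, u⟫ + δ * ⟪p', u⟫ := by
      rw [h7]
      field_simp
    have h9 : δ * (⟪p', u⟫ - ⟪p, u⟫) ≥ 0 := by nlinarith
    have h10 := (mul_nonneg_iff_of_pos_left hδ0).1 h9
    exact h10
  intro a' ha'
  have h1 := hzero a' ha'
  have h2 := hzero 0 h0
  rw [he0] at h2
  rw [inner_sub_left] at h1 h2
  have h3 : ⟪((0 : L) : E) + ((0 : Lᗮ) : E), u⟫ = 0 := by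
    simp
  rw [h3] at h2
  linarith

/-- **Necessity** of the subspace concentration condition for an invariant subspace without fixed
vectors. -/
theorem scc_of_rep [Finite G] {L : Submodule ℝ E} (hL : SInv G L)
    (hz : ∀ x ∈ L, (∀ g ∈ G, g x = x) → x = 0) (hn : 0 < Module.finrank ℝ E) {mu : Measure E}
    (hsph : mu (sphere (0 : E) 1)ᶜ = 0) (hrep : Rep G mu) : SCC mu L := by
  obtain ⟨K, hK, hKc, hKi, hK0, hKG, hseg⟩ := hrep
  obtain ⟨D, hDpos, hD⟩ := exists_vol_fib L
  obtain ⟨hJfin, hineq⟩ := mass_le hL hz hK hKc hK0 hKG hDpos hD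
  have hsae : ∀ᵐ u ∂mu, u ∈ sphere (0 : E) 1 := hsph
  have hmuL : mu.real (L : Set E) = volume.real (segs K (sL L)) := by
    rw [measureReal_def, measureReal_def,
      hseg _ (isCompact_sL L).measurableSet inter_subset_right]
    congr 1
    apply measure_congr
    filter_upwards [hsae] with u hu
    apply propext
    exact ⟨fun h => ⟨h, hu⟩, fun h => h.1⟩
  have hmuU : mu.real univ = volume.real K := by
    rw [← total_segs hn hK hKc hK0, measureReal_def, measureReal_def,
      hseg _ isClosed_sphere.measurableSet Subset.rfl]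
    congr 1
    apply measure_congr
    filter_upwards [hsae] with u hu
    apply propext
    exact ⟨fun _ => hu, fun _ => trivial⟩
  have hDJ : 0 ≤ (D : ℝ) * (∫⁻ a : L, dfc L K a).toReal := by positivity
  unfold SCC
  rw [hmuL, hmuU]
  refine ⟨by linarith, fun heq => ?_⟩
  have hJ : ∫⁻ a : L, dfc L K a = 0 := by
    have h1 : (D : ℝ) * (∫⁻ a : L, dfc L K a).toReal = 0 := by linarith
    have hD' : (D : ℝ) ≠ 0 := by
      exact_mod_cast hDpos.ne'
    rcases mul_eq_zero.1 h1 with h | h
    · exact absurd h hD'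
    · rw [ENNReal.toReal_eq_zero_iff] at h
      exact h.resolve_right hJfin
  have h0 := zero_mem_PI hL hz hKc hKi hKG
  have hconst : ∀ a ∈ PI L K, fv L K a = fv L K 0 := fun a ha =>
    fv_const hL hz hK hKc hKG (hD K hK.measurableSet).1 hJ ha
  obtain ⟨L', hc, hnorm⟩ := exists_compl hL hz hK hKc hKG h0 hconst
  refine ⟨L', hc, ?_⟩
  set ω : Set E := ((L : Set E) ∪ L')ᶜ ∩ sphere 0 1 with hω
  have hωm : MeasurableSet ω :=
    ((meas_sub L).union (meas_sub L')).compl.inter isClosed_sphere.measurableSet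
  have h1 : mu ((L : Set E) ∪ L')ᶜ = mu ω := by
    apply measure_congr
    filter_upwards [hsae] with u hu
    apply propext
    exact ⟨fun h => ⟨h, hu⟩, fun h => h.1⟩
  rw [h1, ← hseg ω hωm inter_subset_right]
  have hdisj : Disjoint ω (sL L) := by
    rw [Set.disjoint_left]
    rintro u ⟨hu, -⟩ ⟨hu', -⟩
    exact hu (Or.inl hu')
  refine measure_mono_null ?_ (stmtOverlap E volume K ω (sL L) hK hKc hK0 inter_subset_right
    inter_subset_right hdisj)
  intro x hx
  refine ⟨hx, ?_⟩
  obtain ⟨u, hu, y, hy, hmax, s, hs, rfl⟩ := hx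
  have h2 : pj L y ∉ PI L K := by
    intro hmem
    exact hu.1 (Or.inr (hnorm y hy hmem u hmax))
  obtain ⟨w, hw, hwmax⟩ := exists_normal hKc hKi h2
  exact ⟨w, hw, y, hy, hwmax, s, hs, rfl⟩

end Pool.Agent.Lib.MP_abca01_gt.Sym
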