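import Pool.Agent.Lib.MP_abca01_gt.Sym.SNecTwo

/-!
# Cone volume measures with a fixed axis, 18: the mass of the equator, the case of equality
-/

set_option autoImplicit false

open MeasureTheory Set Metric Filter Topology
open scoped RealInnerProductSpace Pointwise ENNReal

namespace Pool.Agent.Lib.MP_abca01_gt.Sym

open Variationaux Energyaux Borelaux Capaux

variable {E : Type} [NormedAddCommGroup E] [InnerProductSpace ℝ E] [FiniteDimensional ℝ E]
  [MeasurableSpace E] [BorelSpace E] {G : Subgroup (E ≃ₗᵢ[ℝ] E)}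

omit [FiniteDimensional ℝ E] [MeasurableSpace E] [BorelSpace E] in
theorem avg_mem' [Fintype G] {K : Set E} (hc : Convex ℝ K) {x : G → E} (hx : ∀ g, x g ∈ K) :
    ((Fintype.card G : ℝ)⁻¹) • ∑ g : G, x g ∈ K := by
  rw [Finset.smul_sum]
  apply hc.sum_mem
  · intro g _
    positivity
  · rw [Finset.sum_const, Finset.card_univ, nsmul_eq_mul]
    exact mul_inv_cancel₀ (card_pos' G).ne'
  · intro g _
    exact hx g

omit [FiniteDimensional ℝ E] [MeasurableSpace E] [BorelSpace E] in
theorem PP_comb {v : E} (hv : ‖v‖ = 1) (x y : E) (α β : ℝ) :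
    PP hv (α • x + β • y) = α • PP hv x + β • PP hv y := by
  apply Subtype.ext
  change pr v (α • x + β • y) = α • pr v x + β • pr v y
  unfold pr
  rw [inner_add_left, real_inner_smul_left, real_inner_smul_left]
  module

theorem volr_cyl {v : E} (hv : ‖v‖ = 1) {a b : ℝ} (hab : a ≤ b) {Z : Set (ℝ ∙ v)ᗮ}
    (hZ : IsCompact Z) : volume.real (cyl hv (Icc a b) Z) = (b - a) * volume.real Z := by
  rw [measureReal_def, vol_cyl hv measurableSet_Icc hZ.measurableSet, Real.volume_Icc,
    ENNReal.toReal_mul, ENNReal.toReal_ofReal (by linarith), ← measureReal_def]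

omit [FiniteDimensional ℝ E] [MeasurableSpace E] [BorelSpace E] in
theorem convex_cyl {v : E} (hv : ‖v‖ = 1) {I : Set ℝ} {Z : Set (ℝ ∙ v)ᗮ} (hI : Convex ℝ I)
    (hZ : Convex ℝ Z) : Convex ℝ (cyl hv I Z) := by
  intro x hx y hy α β hα hβ hαβ
  refine ⟨?_, ?_⟩
  · rw [QGeomaux.ht_add, QGeomaux.ht_smul, QGeomaux.ht_smul]
    exact hI hx.1 hy.1 hα hβ hαβ
  · rw [PP_comb]
    exact hZ hx.2 hy.2 hα hβ hαβ

omit [FiniteDimensional ℝ E] [MeasurableSpace E] [BorelSpace E] in
theorem convex_PP {v : E} (hv : ‖v‖ = 1) {K : Set E} (hK : Convex ℝ K) :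
    Convex ℝ (PP hv '' K) := by
  rintro _ ⟨x, hx, rfl⟩ _ ⟨y, hy, rfl⟩ α β hα hβ hαβ
  exact ⟨α • x + β • y, hK hx hy hα hβ hαβ, PP_comb hv x y α β⟩

/-- Heights of an invariant body are attained on the axis. -/
theorem axis_mem [Finite G] {v : E} (hA : Axis G v) {K : Set E} (hKc : Convex ℝ K)
    (hKG : Inv G K) {x : E} (hx : x ∈ K) : ht v x • v ∈ K := by
  have := Fintype.ofFinite G
  have h1 := avg_mem' hKc (x := fun g : G => (g : E ≃ₗᵢ[ℝ] E) x) fun g => hKG g g.2 x hx
  have h2 : ((Fintype.card G : ℝ)⁻¹) • ∑ g : G, (g : E ≃ₗᵢ[ℝ] E) x = ht v x • v := hA.avg x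
  rwa [h2] at h1

/-- The range of the heights of an invariant body. -/
theorem exists_heights [Finite G] {v : E} (hA : Axis G v) {K : Set E} (hK : IsCompact K)
    (hKc : Convex ℝ K) (h0 : (0 : E) ∈ K) (hKG : Inv G K) :
    ∃ a b : ℝ, a ≤ 0 ∧ 0 ≤ b ∧ a • v ∈ K ∧ b • v ∈ K ∧ ∀ x ∈ K, ht v x ∈ Icc a b := by
  obtain ⟨y, hy, -, hymax⟩ := exists_supp hK ⟨0, h0⟩ v
  obtain ⟨w, hw, -, hwmax⟩ := exists_supp hK ⟨0, h0⟩ (-v)
  have hw' : ∀ z ∈ K, ht v w ≤ ht v z := by
    intro z hz
    have h1 := hwmax z hz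
    rw [inner_neg_right, inner_neg_right] at h1
    unfold ht
    linarith
  have hh0 : ht v (0 : E) = 0 := inner_zero_left v
  refine ⟨ht v w, ht v y, ?_, ?_, axis_mem hA hKc hKG hw, axis_mem hA hKc hKG hy,
    fun x hx => ⟨hw' x hx, hymax x hx⟩⟩
  · rw [← hh0]
    exact hw' 0 h0
  · rw [← hh0]
    exact hymax 0 h0

/-- The cone over the top of a cylinder. -/
theorem top_le {v : E} (hv : ‖v‖ = 1) {K : Set E} (hK : IsCompact K) (hKc : Convex ℝ K)
    (h0 : (0 : E) ∈ K) {a b : ℝ} (ha : a ≤ 0) (hb : 0 ≤ b) {Z : Set (ℝ ∙ v)ᗮ} (hZ : IsCompact Z)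
    (hKcyl : K = cyl hv (Icc a b) Z) :
    b * volume.real Z ≤ Module.finrank ℝ E * volume.real (segs K {v}) := by
  apply low_segs hK hKc h0 isCompact_singleton (by simpa using hv)
    (f := fun t => ((1 - t) * b - a) * volume.real Z)
  · rw [hKcyl, volr_cyl hv (by linarith) hZ]
    ring
  · have e1 : HasDerivAt (fun t : ℝ => 1 - t) (-1) 0 := by
      simpa using (hasDerivAt_id (0 : ℝ)).const_sub 1
    have e2 := ((e1.mul_const b).sub_const a).mul_const (volume.real Z)
    have e3 : -1 * b * volume.real Z = -(b * volume.real Z) := by ring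
    rw [e3] at e2
    exact e2
  · intro t ht0 ht1
    have h1 : cut K {v} t ⊆ cyl hv (Icc a ((1 - t) * b)) Z := by
      rintro x ⟨hx, hxc⟩
      have hx' := hx
      rw [hKcyl] at hx'
      refine ⟨⟨hx'.1.1, ?_⟩, hx'.2⟩
      have h2 := hxc v rfl
      have h3 : supp K v ≤ b := by
        refine supp_le ⟨0, h0⟩ fun y hy => ?_
        rw [hKcyl] at hy
        exact hy.1.2
      have h4 : (1 - t) * supp K v ≤ (1 - t) * b := mul_le_mul_of_nonneg_left h3 (by linarith)
      exact h2.trans h4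
    have h2 : volume.real (cut K {v} t) ≤ volume.real (cyl hv (Icc a ((1 - t) * b)) Z) :=
      measureReal_mono h1 (isCompact_cyl hv isCompact_Icc hZ).measure_lt_top.ne
    refine h2.trans (le_of_eq ?_)
    rw [volr_cyl hv _ hZ]
    have : 0 ≤ (1 - t) * b := mul_nonneg (by linarith) hb
    linarith

/-- The cone over the bottom of a cylinder. -/
theorem bot_le {v : E} (hv : ‖v‖ = 1) {K : Set E} (hK : IsCompact K) (hKc : Convex ℝ K)
    (h0 : (0 : E) ∈ K) {a b : ℝ} (ha : a ≤ 0) (hb : 0 ≤ b) {Z : Set (ℝ ∙ v)ᗮ} (hZ : IsCompact Z)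
    (hKcyl : K = cyl hv (Icc a b) Z) :
    (-a) * volume.real Z ≤ Module.finrank ℝ E * volume.real (segs K {-v}) := by
  apply low_segs hK hKc h0 isCompact_singleton (by simpa using hv)
    (f := fun t => (b - (1 - t) * a) * volume.real Z)
  · rw [hKcyl, volr_cyl hv (by linarith) hZ]
    ring
  · have e1 : HasDerivAt (fun t : ℝ => 1 - t) (-1) 0 := by
      simpa using (hasDerivAt_id (0 : ℝ)).const_sub 1
    have e2 := ((e1.mul_const a).const_sub b).mul_const (volume.real Z)
    have e3 : -(-1 * a) * volume.real Z = -(-a * volume.real Z) := by ring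
    rw [e3] at e2
    exact e2
  · intro t ht0 ht1
    have h1 : cut K {-v} t ⊆ cyl hv (Icc ((1 - t) * a) b) Z := by
      rintro x ⟨hx, hxc⟩
      have hx' := hx
      rw [hKcyl] at hx'
      refine ⟨⟨?_, hx'.1.2⟩, hx'.2⟩
      have h2 := hxc (-v) rfl
      have h3 : supp K (-v) ≤ -a := by
        refine supp_le ⟨0, h0⟩ fun y hy => ?_
        rw [hKcyl] at hy
        have h4 := hy.1.1
        rw [inner_neg_right]
        unfold ht at h4
        linarith
      have h4 : (1 - t) * supp K (-v) ≤ (1 - t) * -a := mul_le_mul_of_nonneg_left h3 (by linarith)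
      rw [inner_neg_right] at h2
      unfold ht
      linarith
    have h2 : volume.real (cut K {-v} t) ≤ volume.real (cyl hv (Icc ((1 - t) * a) b) Z) :=
      measureReal_mono h1 (isCompact_cyl hv isCompact_Icc hZ).measure_lt_top.ne
    refine h2.trans (le_of_eq ?_)
    rw [volr_cyl hv _ hZ]
    have : 0 ≤ (1 - t) * -a := mul_nonneg (by linarith) (by linarith)
    linarith

/-- **Necessity** with the case of equality. -/
theorem nec_eq [Finite G] {v : E} (hA : Axis G v) {K : Set E} (hK : IsCompact K)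
    (hKc : Convex ℝ K) (h0 : (0 : E) ∈ K) (hKG : Inv G K) (hKi : (interior K).Nonempty)
    (mu : Measure E) [IsFiniteMeasure mu] (hsph : mu (sphere (0 : E) 1)ᶜ = 0)
    (hmu : ∀ ω : Set E, MeasurableSet ω → ω ⊆ sphere (0 : E) 1 → volume (segs K ω) = mu ω) :
    (Module.finrank ℝ E : ℝ) * mu.real {u | ⟪u, v⟫ = 0} ≤
        ((Module.finrank ℝ E : ℝ) - 1) * mu.real univ ∧
      ((Module.finrank ℝ E : ℝ) * mu.real {u | ⟪u, v⟫ = 0} =
        ((Module.finrank ℝ E : ℝ) - 1) * mu.real univ →
        mu {u | ⟪u, v⟫ ≠ 0 ∧ u ≠ v ∧ u ≠ -v} = 0) := by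
  have hv := hA.norm
  have hn : 0 < Module.finrank ℝ E := by
    rw [finrank_compl hv]
    omega
  have hn' : (0 : ℝ) < Module.finrank ℝ E := by exact_mod_cast hn
  obtain ⟨a, b, ha, hb, hav, hbv, hab⟩ := exists_heights hA hK hKc h0 hKG
  have hZ : IsCompact (PP hv '' K) := hK.image (continuous_PP hv)
  set C : Set E := cyl hv (Icc a b) (PP hv '' K) with hC
  have hCc : IsCompact C := isCompact_cyl hv isCompact_Icc hZ
  have hCcv : Convex ℝ C := convex_cyl hv (convex_Icc a b) (convex_PP hv hKc)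
  have hKC : K ⊆ C := fun x hx => ⟨hab x hx, x, hx, rfl⟩
  have h1 := equator_le hv hK hKc h0 (by linarith : a ≤ b) hav hbv
  have h2 : volume.real K ≤ volume.real C := measureReal_mono hKC hCc.measure_lt_top.ne
  -- the measure
  have hmus : ∀ s : Set E, MeasurableSet s → mu.real s = volume.real (segs K (s ∩ sphere 0 1)) := by
    intro s hs
    have h3 : mu s = mu (s ∩ sphere 0 1) := by
      apply measure_congr
      have h4 : ∀ᵐ u ∂mu, u ∈ sphere (0 : E) 1 := hsph
      filter_upwards [h4] with u hu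
      apply propext
      exact ⟨fun h => ⟨h, hu⟩, fun h => h.1⟩
    rw [measureReal_def, h3, ← hmu _ (hs.inter isClosed_sphere.measurableSet) inter_subset_right,
      measureReal_def]
  have hEq : MeasurableSet {u : E | ⟪u, v⟫ = 0} :=
    (isClosed_eq (by fun_prop) continuous_const).measurableSet
  have htot : mu.real univ = volume.real K := by
    rw [hmus _ MeasurableSet.univ, univ_inter, total_segs hn hK hKc h0]
  have hmeq : mu.real {u | ⟪u, v⟫ = 0} = volume.real (segs K (eq' v)) := hmus _ hEq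
  rw [hmeq, htot]
  refine ⟨by linarith, fun heq => ?_⟩
  -- equality
  have hWV : volume.real C ≤ volume.real K := by linarith
  have hVV : volume.real C = volume.real K := le_antisymm hWV h2
  have hdiff : volume (C \ K) = 0 := by
    have h3 : volume.real (C \ K) = volume.real C - volume.real K :=
      measureReal_sdiff hKC hK.measurableSet (h₁ := hCc.measure_lt_top.ne)
    rw [hVV, sub_self, measureReal_def, ENNReal.toReal_eq_zero_iff] at h3
    rcases h3 with h3 | h3
    · exact h3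
    · exact absurd h3 (measure_ne_top_of_subset sdiff_subset hCc.measure_lt_top.ne)
  have hCK : C ⊆ K := by
    have h3 : interior C ⊆ K := by
      have h4 : IsOpen (interior C \ K) := isOpen_interior.sdiff hK.isClosed
      have h5 : volume (interior C \ K) = 0 :=
        measure_mono_null (sdiff_subset_sdiff_left interior_subset) hdiff
      have h6 := (h4.measure_eq_zero_iff volume).1 h5
      intro x hx
      by_contra hcon
      have h7 : x ∈ interior C \ K := ⟨hx, hcon⟩
      rw [h6] at h7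
      exact h7
    have h4 : closure (interior C) = closure C :=
      hCcv.closure_interior_eq_closure_of_nonempty_interior (hKi.mono (interior_mono hKC))
    calc C ⊆ closure C := subset_closure
      _ = closure (interior C) := h4.symm
      _ ⊆ closure K := closure_mono h3
      _ = K := hK.isClosed.closure_eq
  have hKCeq : K = C := Subset.antisymm hKC hCK
  have htop := top_le hv hK hKc h0 ha hb hZ hKCeq
  have hbot := bot_le hv hK hKc h0 ha hb hZ hKCeq
  have hvolC : volume.real K = (b - a) * volume.real (PP hv '' K) := by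
    conv_lhs => rw [hKCeq]
    exact volr_cyl hv (by linarith) hZ
  have hmv : mu.real {v} = volume.real (segs K {v}) := by
    rw [hmus _ (measurableSet_singleton v), inter_eq_left.2 (by simpa using hv)]
  have hmnv : mu.real {-v} = volume.real (segs K {-v}) := by
    rw [hmus _ (measurableSet_singleton _), inter_eq_left.2 (by simpa using hv)]
  have hsum : volume.real K ≤ Module.finrank ℝ E * (mu.real {v} + mu.real {-v}) := by
    rw [hvolC, hmv, hmnv]
    have e1 : (b - a) * volume.real (PP hv '' K) =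
        b * volume.real (PP hv '' K) + (-a) * volume.real (PP hv '' K) := by ring
    rw [e1, mul_add]
    linarith
  have hvv : ⟪v, v⟫ = 1 := by
    rw [real_inner_self_eq_norm_sq, hv]
    norm_num
  have hv0 : v ≠ 0 := by
    intro h
    rw [h, norm_zero] at hv
    exact zero_ne_one hv
  -- additivity
  have hR : MeasurableSet {u : E | ⟪u, v⟫ ≠ 0 ∧ u ≠ v ∧ u ≠ -v} := by
    have e1 : {u : E | ⟪u, v⟫ ≠ 0 ∧ u ≠ v ∧ u ≠ -v} =
        {u : E | ⟪u, v⟫ = 0}ᶜ ∩ ({v}ᶜ ∩ {-v}ᶜ) := by
      ext u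
      simp
    rw [e1]
    exact hEq.compl.inter ((measurableSet_singleton v).compl.inter
      (measurableSet_singleton (-v)).compl)
  have hadd : mu.real {u | ⟪u, v⟫ = 0} + (mu.real {v} + (mu.real {-v} +
      mu.real {u | ⟪u, v⟫ ≠ 0 ∧ u ≠ v ∧ u ≠ -v})) ≤ mu.real univ := by
    have e1 : Disjoint {-v} {u : E | ⟪u, v⟫ ≠ 0 ∧ u ≠ v ∧ u ≠ -v} := by
      rw [disjoint_singleton_left]
      rintro ⟨-, -, h⟩
      exact h rfl
    have e2 : Disjoint {v} ({-v} ∪ {u : E | ⟪u, v⟫ ≠ 0 ∧ u ≠ v ∧ u ≠ -v}) := by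
      rw [disjoint_singleton_left]
      rintro (h | ⟨-, h, -⟩)
      · have h' : v = -v := h
        have h'' : ⟪v, v⟫ = ⟪-v, v⟫ := by rw [← h']
        rw [inner_neg_left, hvv] at h''
        norm_num at h''
      · exact h rfl
    have e3 : Disjoint {u : E | ⟪u, v⟫ = 0}
        ({v} ∪ ({-v} ∪ {u : E | ⟪u, v⟫ ≠ 0 ∧ u ≠ v ∧ u ≠ -v})) := by
      rw [Set.disjoint_left]
      rintro u hu (h | h | ⟨h, -, -⟩)
      · have hu' : ⟪u, v⟫ = 0 := hu
        have h' : u = v := h
        rw [h', hvv] at hu'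
        exact one_ne_zero hu'
      · have hu' : ⟪u, v⟫ = 0 := hu
        have h' : u = -v := h
        rw [h', inner_neg_left, hvv] at hu'
        norm_num at hu'
      · exact h hu
    rw [← measureReal_union e1 hR, ← measureReal_union e2 ((measurableSet_singleton _).union hR),
      ← measureReal_union e3 ((measurableSet_singleton _).union
        ((measurableSet_singleton _).union hR))]
    exact measureReal_mono (subset_univ _)
  rw [hmeq, htot] at hadd
  have hRz : mu.real {u | ⟪u, v⟫ ≠ 0 ∧ u ≠ v ∧ u ≠ -v} ≤ 0 := by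
    by_contra hcon
    push Not at hcon
    have h3 : (Module.finrank ℝ E : ℝ) * (volume.real (segs K (eq' v)) + (mu.real {v} +
        (mu.real {-v} + mu.real {u | ⟪u, v⟫ ≠ 0 ∧ u ≠ v ∧ u ≠ -v}))) ≤
        Module.finrank ℝ E * volume.real K := mul_le_mul_of_nonneg_left hadd hn'.le
    have h4 := mul_pos hn' hcon
    nlinarith
  have h3 : mu.real {u | ⟪u, v⟫ ≠ 0 ∧ u ≠ v ∧ u ≠ -v} = 0 := le_antisymm hRz measureReal_nonneg
  rw [measureReal_def, ENNReal.toReal_eq_zero_iff] at h3
  rcases h3 with h3 | h3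
  · exact h3
  · exact absurd h3 (measure_ne_top _ _)

end Pool.Agent.Lib.MP_abca01_gt.Sym
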