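import Pool.Agent.Lib.MP_abca01_gt.VolDeriv
import Pool.Agent.Lib.MP_abca01_gt.Sym.SBase

/-!
# Cone volume measures with a fixed axis, 15: lower bounds of the cone volume measure
-/

set_option autoImplicit false

open MeasureTheory Set Metric Filter Topology
open scoped RealInnerProductSpace Pointwise

namespace Pool.Agent.Lib.MP_abca01_gt.Sym

open Variationaux Energyaux

variable {E : Type} [NormedAddCommGroup E] [InnerProductSpace ℝ E] [FiniteDimensional ℝ E]
  [MeasurableSpace E] [BorelSpace E]

/-- A lower bound of the cone volume measure from the volume of the cut offs. -/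
theorem low_segs {K ω : Set E} (hK : IsCompact K) (hKc : Convex ℝ K) (h0 : (0 : E) ∈ K)
    (hω : IsCompact ω) (hωs : ω ⊆ sphere (0 : E) 1) {f : ℝ → ℝ} {d : ℝ} (hf0 : f 0 = volume.real K)
    (hf : HasDerivAt f (-d) 0) (hcut : ∀ t : ℝ, 0 < t → t < 1 → volume.real (cut K ω t) ≤ f t) :
    d ≤ Module.finrank ℝ E * volume.real (segs K ω) := by
  set n : ℕ := Module.finrank ℝ E with hn
  have key : ∀ ε : ℝ, 0 < ε → d ≤ n * (volume.real (segs K ω) + ε) := by
    intro ε hε
    obtain ⟨t₁, ht₁0, ht₁1, hvol⟩ := stmtVolDeriv E volume K ω hK hKc h0 hω hωs ε hε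
    have hd : HasDerivAt (fun t : ℝ => (1 - (1 - t) ^ n) * (volume.real (segs K ω) + ε) -
        (volume.real K - f t)) (n * (volume.real (segs K ω) + ε) - d) 0 := by
      have e1 : HasDerivAt (fun t : ℝ => 1 - t) (-1) 0 := by
        simpa using (hasDerivAt_id (0 : ℝ)).const_sub 1
      have e2 : HasDerivAt (fun t : ℝ => (1 - t) ^ n) (-(n : ℝ)) 0 := by
        have := e1.fun_pow n
        simpa using this
      have e3 : HasDerivAt (fun t : ℝ => (1 - (1 - t) ^ n) * (volume.real (segs K ω) + ε))
          (n * (volume.real (segs K ω) + ε)) 0 := by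
        have := (e2.const_sub 1).mul_const (volume.real (segs K ω) + ε)
        simpa using this
      have e4 : HasDerivAt (fun t : ℝ => volume.real K - f t) d 0 := by
        have := hf.const_sub (volume.real K)
        simpa using this
      exact e3.sub e4
    have h1 := deriv_nonneg_of_right (δ := t₁) ht₁0 (by simp [hf0]) hd (by
      intro t ht htt
      have h2 := hvol t ht htt
      have h3 := hcut t ht (lt_of_le_of_lt htt ht₁1)
      linarith)
    linarith
  by_contra hcon
  push Not at hcon
  have hgap : 0 < d - n * volume.real (segs K ω) := by linarith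
  rcases Nat.eq_zero_or_pos n with h0' | hpos
  · have h1 := key 1 one_pos
    rw [h0'] at h1 hcon
    simp only [Nat.cast_zero, zero_mul] at h1 hcon
    linarith
  · have hpos' : (0 : ℝ) < n := by exact_mod_cast hpos
    have h1 := key ((d - n * volume.real (segs K ω)) / (2 * n)) (by positivity)
    have h2 : (n : ℝ) * (volume.real (segs K ω) + (d - n * volume.real (segs K ω)) / (2 * n)) =
        n * volume.real (segs K ω) + (d - n * volume.real (segs K ω)) / 2 := by
      field_simp
    linarith

/-- The total mass of the cone volume measure is the volume. -/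
theorem total_segs {K : Set E} (hn : 0 < Module.finrank ℝ E) (hK : IsCompact K)
    (hKc : Convex ℝ K) (h0 : (0 : E) ∈ K) :
    volume.real (segs K (sphere (0 : E) 1)) = volume.real K := by
  apply le_antisymm
  · exact measureReal_mono (segs_subset hKc h0) hK.measure_lt_top.ne
  have hn' : (0 : ℝ) < Module.finrank ℝ E := by exact_mod_cast hn
  have h1 : (Module.finrank ℝ E : ℝ) * volume.real K ≤
      Module.finrank ℝ E * volume.real (segs K (sphere (0 : E) 1)) := by
    apply low_segs hK hKc h0 (isCompact_sphere 0 1) Subset.rfl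
      (f := fun t => (1 - t) ^ Module.finrank ℝ E * volume.real K)
    · simp
    · have e1 : HasDerivAt (fun t : ℝ => 1 - t) (-1) 0 := by
        simpa using (hasDerivAt_id (0 : ℝ)).const_sub 1
      have e2 := (e1.fun_pow (Module.finrank ℝ E)).mul_const (volume.real K)
      simpa using e2
    · intro t ht0 ht1
      have h2 : cut K (sphere (0 : E) 1) t ⊆ (1 - t) • K := by
        intro x hx
        by_contra hcon
        obtain ⟨f, s, hfs, hsx⟩ := geometric_hahn_banach_closed_point (hKc.smul (1 - t))
          (hK.smul (1 - t)).isClosed hcon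
        let u : E := (InnerProductSpace.toDual ℝ E).symm f
        have hfu : ∀ y, f y = ⟪y, u⟫ := fun y => by
          rw [real_inner_comm]
          exact (InnerProductSpace.toDual_symm_apply).symm
        have hu0 : u ≠ 0 := by
          intro h
          have h3 := hfs ((1 - t) • (0 : E)) ⟨0, h0, rfl⟩
          rw [hfu, h, inner_zero_right] at h3
          rw [hfu, h, inner_zero_right] at hsx
          linarith
        have hun : 0 < ‖u‖ := norm_pos_iff.2 hu0
        have h4 : ‖u‖⁻¹ • u ∈ sphere (0 : E) 1 := by
          rw [mem_sphere_zero_iff_norm, norm_smul, norm_inv, norm_norm, inv_mul_cancel₀ hun.ne']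
        have h5 := hx.2 _ h4
        obtain ⟨y, hy, hyu, -⟩ := exists_supp hK ⟨0, h0⟩ (‖u‖⁻¹ • u)
        rw [← hyu, real_inner_smul_right, real_inner_smul_right] at h5
        have h6 := hfs ((1 - t) • y) ⟨y, hy, rfl⟩
        rw [hfu, real_inner_smul_left] at h6
        rw [hfu] at hsx
        have h7 : ‖u‖⁻¹ * ⟪x, u⟫ ≤ ‖u‖⁻¹ * ((1 - t) * ⟪y, u⟫) := by linarith
        have h8 := le_of_mul_le_mul_left h7 (inv_pos.2 hun)
        linarith
      have h3 : volume.real (cut K (sphere (0 : E) 1) t) ≤ volume.real ((1 - t) • K) :=
        measureReal_mono h2 (hK.smul _).measure_lt_top.ne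
      rw [real_smul volume (by linarith)] at h3
      exact h3
  exact le_of_mul_le_mul_left h1 hn'

end Pool.Agent.Lib.MP_abca01_gt.Sym
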