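import Pool.Agent.Lib.MP_abca01_gt.Sym.SCyl
import Pool.Agent.Lib.MP_abca01_gt.Sym.SLow
import Pool.Agent.Lib.MP_abca01_gt.Sym.STot

/-!
# Cone volume measures with a fixed axis, 16: the mass of the equator
-/

set_option autoImplicit false

open MeasureTheory Set Metric Filter Topology
open scoped RealInnerProductSpace Pointwise ENNReal

namespace Pool.Agent.Lib.MP_abca01_gt.Sym

open Variationaux Energyaux Borelaux

section

variable {E : Type} [NormedAddCommGroup E] [InnerProductSpace ℝ E]

theorem continuous_PP {v : E} (hv : ‖v‖ = 1) : Continuous (PP hv) := by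
  unfold PP
  exact (continuous_pr v).subtype_mk _

/-- The cylinder over `Z` with heights in `I`. -/
def cyl {v : E} (hv : ‖v‖ = 1) (I : Set ℝ) (Z : Set (ℝ ∙ v)ᗮ) : Set E :=
  {x | ht v x ∈ I ∧ PP hv x ∈ Z}

theorem cyl_eq {v : E} (hv : ‖v‖ = 1) (I : Set ℝ) (Z : Set (ℝ ∙ v)ᗮ) :
    cyl hv I Z = TT v '' (I ×ˢ Z) := by
  ext x
  constructor
  · rintro ⟨h1, h2⟩
    exact ⟨(ht v x, PP hv x), ⟨h1, h2⟩, TT_PP hv x⟩
  · rintro ⟨p, ⟨h1, h2⟩, rfl⟩
    refine ⟨?_, ?_⟩
    · rw [ht_TT hv]
      exact h1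
    · rw [PP_TT hv]
      exact h2

theorem isCompact_cyl {v : E} (hv : ‖v‖ = 1) {I : Set ℝ} {Z : Set (ℝ ∙ v)ᗮ} (hI : IsCompact I)
    (hZ : IsCompact Z) : IsCompact (cyl hv I Z) := by
  rw [cyl_eq]
  exact (hI.prod hZ).image (continuous_TT v)

theorem preimage_cyl {v : E} (hv : ‖v‖ = 1) (I : Set ℝ) (Z : Set (ℝ ∙ v)ᗮ) :
    TT v ⁻¹' cyl hv I Z = I ×ˢ Z := by
  ext p
  constructor
  · rintro ⟨h1, h2⟩
    rw [ht_TT hv] at h1
    rw [PP_TT hv] at h2
    exact ⟨h1, h2⟩
  · rintro ⟨h1, h2⟩
    refine ⟨?_, ?_⟩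
    · rw [ht_TT hv]
      exact h1
    · rw [PP_TT hv]
      exact h2

theorem TT_add (v : E) (p q : ℝ × (ℝ ∙ v)ᗮ) : TT v (p + q) = TT v p + TT v q := by
  unfold TT
  simp only [Prod.fst_add, Prod.snd_add, Submodule.coe_add, add_smul]
  abel

theorem TT_smul (v : E) (c : ℝ) (p : ℝ × (ℝ ∙ v)ᗮ) : TT v (c • p) = c • TT v p := by
  unfold TT
  simp only [Prod.smul_fst, Prod.smul_snd, Submodule.coe_smul, smul_add, smul_eq_mul, mul_smul]

end

variable {E : Type} [NormedAddCommGroup E] [InnerProductSpace ℝ E] [FiniteDimensional ℝ E]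
  [MeasurableSpace E] [BorelSpace E]

theorem vol_cyl {v : E} (hv : ‖v‖ = 1) {I : Set ℝ} {Z : Set (ℝ ∙ v)ᗮ} (hI : MeasurableSet I)
    (hZ : MeasurableSet Z) : volume (cyl hv I Z) = volume I * volume Z := by
  have hm : MeasurableSet (cyl hv I Z) :=
    (hI.preimage (continuous_ht v).measurable).inter (hZ.preimage (continuous_PP hv).measurable)
  rw [← (mp_TT hv).measure_preimage hm.nullMeasurableSet, preimage_cyl, Measure.volume_eq_prod,
    Measure.prod_prod]

/-- The volume of a set as the integral over the complement of the axis. -/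
theorem vol_fib {v : E} (hv : ‖v‖ = 1) {K : Set E} (hK : MeasurableSet K) :
    volume K = ∫⁻ z : (ℝ ∙ v)ᗮ, volume {s : ℝ | TT v (s, z) ∈ K} := by
  rw [← (mp_TT hv).measure_preimage hK.nullMeasurableSet, Measure.volume_eq_prod,
    Measure.prod_apply_symm (hK.preimage (continuous_TT v).measurable)]
  rfl

theorem meas_fib {v : E} {K : Set E} (hK : MeasurableSet K) :
    Measurable fun z : (ℝ ∙ v)ᗮ => (volume {s : ℝ | TT v (s, z) ∈ K} : ℝ≥0∞) :=
  measurable_measure_prodMk_right (hK.preimage (continuous_TT v).measurable)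

/-- The volume of a set as the integral over the heights. -/
theorem vol_slice {v : E} (hv : ‖v‖ = 1) {K : Set E} (hK : MeasurableSet K) :
    volume K = ∫⁻ s : ℝ, volume {z : (ℝ ∙ v)ᗮ | TT v (s, z) ∈ K} := by
  rw [← (mp_TT hv).measure_preimage hK.nullMeasurableSet, Measure.volume_eq_prod,
    Measure.prod_apply (hK.preimage (continuous_TT v).measurable)]
  rfl

theorem finrank_compl {v : E} (hv : ‖v‖ = 1) :
    Module.finrank ℝ E = Module.finrank ℝ (ℝ ∙ v)ᗮ + 1 := by
  have h1 := (ℝ ∙ v).finrank_add_finrank_orthogonal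
  have h2 : Module.finrank ℝ (ℝ ∙ v) = 1 := finrank_span_singleton (by
    intro h
    rw [h, norm_zero] at hv
    exact zero_ne_one hv)
  omega

/-- The part of `K` over the shrinked projection, shrinked back. -/
def blow {v : E} (hv : ‖v‖ = 1) (K : Set E) (c : ℝ) : Set E :=
  {x | PP hv x ∈ PP hv '' K ∧ TT v (ht v x, c • PP hv x) ∈ K}

theorem vol_blow {v : E} (hv : ‖v‖ = 1) {K : Set E} (hK : IsCompact K) {c : ℝ} (hc : 0 < c) :
    volume {x | x ∈ K ∧ PP hv x ∈ c • (PP hv '' K)} =
      ENNReal.ofReal (c ^ Module.finrank ℝ (ℝ ∙ v)ᗮ) * volume (blow hv K c) := by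
  have hZ : IsCompact (PP hv '' K) := hK.image (continuous_PP hv)
  have hm1 : MeasurableSet {x | x ∈ K ∧ PP hv x ∈ c • (PP hv '' K)} :=
    hK.measurableSet.inter ((hZ.smul c).measurableSet.preimage (continuous_PP hv).measurable)
  have hcont : Continuous fun x : E => TT v (ht v x, c • PP hv x) :=
    (continuous_TT v).comp ((continuous_ht v).prodMk ((continuous_PP hv).const_smul c))
  have hm2 : MeasurableSet (blow hv K c) :=
    (hZ.measurableSet.preimage (continuous_PP hv).measurable).inter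
      (hK.measurableSet.preimage hcont.measurable)
  rw [vol_slice hv hm1, vol_slice hv hm2, ← lintegral_const_mul' _ _ ENNReal.ofReal_ne_top]
  refine lintegral_congr fun s => ?_
  have h1 : {z : (ℝ ∙ v)ᗮ | TT v (s, z) ∈ {x | x ∈ K ∧ PP hv x ∈ c • (PP hv '' K)}} =
      c • {z : (ℝ ∙ v)ᗮ | TT v (s, z) ∈ blow hv K c} := by
    ext z
    rw [mem_smul_set_iff_inv_smul_mem₀ hc.ne']
    constructor
    · rintro ⟨h2, h3⟩
      rw [PP_TT hv] at h3
      refine ⟨?_, ?_⟩
      · rw [PP_TT hv, ← mem_smul_set_iff_inv_smul_mem₀ hc.ne']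
        exact h3
      · rw [PP_TT hv, ht_TT hv, smul_inv_smul₀ hc.ne']
        exact h2
    · rintro ⟨h2, h3⟩
      rw [PP_TT hv] at h2
      rw [PP_TT hv, ht_TT hv, smul_inv_smul₀ hc.ne'] at h3
      refine ⟨h3, ?_⟩
      rw [PP_TT hv, mem_smul_set_iff_inv_smul_mem₀ hc.ne']
      exact h2
  rw [h1, Measure.addHaar_smul, abs_of_pos (pow_pos hc _)]

/-- The blown up set is large. -/
theorem le_vol_blow {v : E} (hv : ‖v‖ = 1) {K : Set E} (hK : IsCompact K) (hKc : Convex ℝ K)
    {a b : ℝ} (hab : a ≤ b) (ha : a • v ∈ K) (hb : b • v ∈ K) {t : ℝ} (ht0 : 0 < t) (ht1 : t < 1) :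
    ENNReal.ofReal (1 - t) * volume K +
        ENNReal.ofReal t * volume (cyl hv (Icc a b) (PP hv '' K)) ≤
      volume (blow hv K (1 - t)) := by
  have hZ : IsCompact (PP hv '' K) := hK.image (continuous_PP hv)
  have hcont : Continuous fun x : E => TT v (ht v x, (1 - t) • PP hv x) :=
    (continuous_TT v).comp ((continuous_ht v).prodMk ((continuous_PP hv).const_smul (1 - t)))
  have hm2 : MeasurableSet (blow hv K (1 - t)) :=
    (hZ.measurableSet.preimage (continuous_PP hv).measurable).inter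
      (hK.measurableSet.preimage hcont.measurable)
  have hmc : MeasurableSet (cyl hv (Icc a b) (PP hv '' K)) :=
    (isCompact_cyl hv isCompact_Icc hZ).measurableSet
  rw [vol_fib hv hK.measurableSet, vol_fib hv hmc, vol_fib hv hm2,
    ← lintegral_const_mul' _ _ ENNReal.ofReal_ne_top,
    ← lintegral_const_mul' _ _ ENNReal.ofReal_ne_top, ← lintegral_add_left
      ((meas_fib hK.measurableSet).const_mul _)]
  apply lintegral_mono
  intro z
  simp only
  by_cases hz : z ∈ PP hv '' K
  · -- the fibre of `K` is an interval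
    obtain ⟨x, hx, hxz⟩ := hz
    have hA : IsCompact {s : ℝ | TT v (s, z) ∈ K} := by
      have h1 : {s : ℝ | TT v (s, z) ∈ K} = ht v '' (K ∩ PP hv ⁻¹' {z}) := by
        ext s
        constructor
        · intro hs
          exact ⟨TT v (s, z), ⟨hs, by rw [mem_preimage, PP_TT hv]; rfl⟩, ht_TT hv _⟩
        · rintro ⟨y, ⟨hy, hy'⟩, rfl⟩
          have hy'' : PP hv y = z := hy'
          change TT v (ht v y, z) ∈ K
          rw [← hy'', TT_PP hv]
          exact hy
      rw [h1]
      exact (hK.inter_right (isClosed_singleton.preimage (continuous_PP hv))).image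
        (continuous_ht v)
    have hne : {s : ℝ | TT v (s, z) ∈ K}.Nonempty := by
      refine ⟨ht v x, ?_⟩
      change TT v (ht v x, z) ∈ K
      rw [← hxz, TT_PP hv]
      exact hx
    obtain ⟨α, hα, hαmin⟩ := hA.exists_isLeast hne
    obtain ⟨β, hβ, hβmax⟩ := hA.exists_isGreatest hne
    have hαβ : α ≤ β := hαmin hβ
    have hsub1 : {s : ℝ | TT v (s, z) ∈ K} ⊆ Icc α β := fun s hs => ⟨hαmin hs, hβmax hs⟩
    have h1 : volume {s : ℝ | TT v (s, z) ∈ K} ≤ ENNReal.ofReal (β - α) := by
      refine (measure_mono hsub1).trans ?_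
      rw [Real.volume_Icc]
    have h2 : volume {s : ℝ | TT v (s, z) ∈ cyl hv (Icc a b) (PP hv '' K)} ≤
        ENNReal.ofReal (b - a) := by
      refine (measure_mono (t := Icc a b) ?_).trans (by rw [Real.volume_Icc])
      intro s hs
      have h3 := hs.1
      rwa [ht_TT hv] at h3
    -- the end points of the fibre
    have hTv : ∀ s : ℝ, TT v (s, (0 : (ℝ ∙ v)ᗮ)) = s • v := by
      intro s
      unfold TT
      simp
    have hconv : ∀ s σ : ℝ, TT v (s, z) ∈ K → σ • v ∈ K →
        TT v ((1 - t) * s + t * σ, (1 - t) • z) ∈ K := by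
      intro s σ hs hσ
      have h3 := hKc hs hσ (show 0 ≤ 1 - t by linarith) ht0.le (by ring)
      rw [← hTv σ, ← TT_smul, ← TT_smul, ← TT_add] at h3
      have h4 : (1 - t) • (s, z) + t • (σ, (0 : (ℝ ∙ v)ᗮ)) =
          ((1 - t) * s + t * σ, (1 - t) • z) := by
        ext
        · simp
        · simp
      rwa [h4] at h3
    have h3 := hconv α a hα ha
    have h4 := hconv β b hβ hb
    have hsub2 : Icc ((1 - t) * α + t * a) ((1 - t) * β + t * b) ⊆
        {s : ℝ | TT v (s, z) ∈ blow hv K (1 - t)} := by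
      intro s hs
      refine ⟨?_, ?_⟩
      · rw [PP_TT hv]
        exact ⟨x, hx, hxz⟩
      · rw [PP_TT hv, ht_TT hv]
        change TT v (s, (1 - t) • z) ∈ K
        rcases eq_or_lt_of_le (hs.1.trans hs.2) with heq | hlt
        · have h5 : s = (1 - t) * α + t * a := le_antisymm (by rw [heq]; exact hs.2) hs.1
          rw [h5]
          exact h3
        · set p := (1 - t) * α + t * a
          set q := (1 - t) * β + t * b
          have hpq : 0 < q - p := by linarith
          have h5 := hKc h3 h4 (show 0 ≤ (q - s) / (q - p) from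
            div_nonneg (by linarith [hs.2]) hpq.le)
            (show 0 ≤ (s - p) / (q - p) from div_nonneg (by linarith [hs.1]) hpq.le)
            (by field_simp; ring)
          rw [← TT_smul, ← TT_smul, ← TT_add] at h5
          have h6 : ((q - s) / (q - p)) • (p, (1 - t) • z) + ((s - p) / (q - p)) • (q, (1 - t) • z) =
              (s, (1 - t) • z) := by
            ext
            · simp only [Prod.fst_add, Prod.smul_fst, smul_eq_mul]
              field_simp
              ring
            · simp only [Prod.snd_add, Prod.smul_snd, ← add_smul]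
              have h7 : (q - s) / (q - p) + (s - p) / (q - p) = 1 := by
                field_simp
                ring
              rw [h7, one_smul]
          rwa [h6] at h5
    have h5 : ENNReal.ofReal (((1 - t) * β + t * b) - ((1 - t) * α + t * a)) ≤
        volume {s : ℝ | TT v (s, z) ∈ blow hv K (1 - t)} := by
      rw [← Real.volume_Icc]
      exact measure_mono hsub2
    refine le_trans ?_ h5
    have h6 : ((1 - t) * β + t * b) - ((1 - t) * α + t * a) = (1 - t) * (β - α) + t * (b - a) := by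
      ring
    rw [h6, ENNReal.ofReal_add (mul_nonneg (by linarith) (by linarith))
      (mul_nonneg ht0.le (by linarith)), ENNReal.ofReal_mul (by linarith), ENNReal.ofReal_mul ht0.le]
    exact add_le_add (mul_le_mul_right h1 _) (mul_le_mul_right h2 _)
  · have h1 : {s : ℝ | TT v (s, z) ∈ K} = ∅ := by
      rw [eq_empty_iff_forall_notMem]
      intro s hs
      exact hz ⟨_, hs, PP_TT hv _⟩
    have h2 : {s : ℝ | TT v (s, z) ∈ cyl hv (Icc a b) (PP hv '' K)} = ∅ := by
      rw [eq_empty_iff_forall_notMem]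
      intro s hs
      have h3 := hs.2
      rw [PP_TT hv] at h3
      exact hz h3
    rw [h1, h2, measure_empty, mul_zero, mul_zero, add_zero]
    exact zero_le

end Pool.Agent.Lib.MP_abca01_gt.Sym
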