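import Pool.Agent.Lib.MP_abca01_gt.Sym.SNecOne

/-!
# Cone volume measures with a fixed axis, 17: the mass of the equator, the inequality
-/

set_option autoImplicit false

open MeasureTheory Set Metric Filter Topology
open scoped RealInnerProductSpace Pointwise ENNReal

namespace Pool.Agent.Lib.MP_abca01_gt.Sym

open Variationaux Energyaux Borelaux

variable {E : Type} [NormedAddCommGroup E] [InnerProductSpace ℝ E] [FiniteDimensional ℝ E]
  [MeasurableSpace E] [BorelSpace E]

/-- The unit vectors orthogonal to `v`. -/
def eq' (v : E) : Set E := {u | ⟪u, v⟫ = 0} ∩ sphere 0 1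

omit [MeasurableSpace E] [BorelSpace E] in
theorem isCompact_eq' (v : E) : IsCompact (eq' v) :=
  (isCompact_sphere (0 : E) 1).inter_left (isClosed_eq (by fun_prop) continuous_const)

/-- The equator has at most the mass left by the two caps of the enclosing cylinder. -/
theorem equator_le {v : E} (hv : ‖v‖ = 1) {K : Set E} (hK : IsCompact K) (hKc : Convex ℝ K)
    (h0 : (0 : E) ∈ K) {a b : ℝ} (hab : a ≤ b) (ha : a • v ∈ K) (hb : b • v ∈ K) :
    (Module.finrank ℝ E : ℝ) * volume.real (segs K (eq' v)) +
      volume.real (cyl hv (Icc a b) (PP hv '' K)) ≤ Module.finrank ℝ E * volume.real K := by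
  set n : ℕ := Module.finrank ℝ E with hn
  set k : ℕ := Module.finrank ℝ (ℝ ∙ v)ᗮ with hk
  have hnk : n = k + 1 := finrank_compl hv
  set S : Set E := segs K (eq' v) with hS
  set V : ℝ := volume.real K with hV
  set W : ℝ := volume.real (cyl hv (Icc a b) (PP hv '' K)) with hW
  have hSc : IsCompact S := isCompact_segs hK (isCompact_eq' v)
  have hZ : IsCompact (PP hv '' K) := hK.image (continuous_PP hv)
  have hWc : IsCompact (cyl hv (Icc a b) (PP hv '' K)) := isCompact_cyl hv isCompact_Icc hZ
  have hfr : volume (frontier K) = 0 := hKc.addHaar_frontier volume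
  have hSK : S ⊆ K := segs_subset hKc h0
  -- the main inequality
  have key : ∀ t : ℝ, 0 < t → t < 1 → (1 - (1 - t) ^ n) * volume.real S ≤
      V - (1 - t) ^ k * ((1 - t) * V + t * W) := by
    intro t ht0 ht1
    have h1t : 0 < 1 - t := by linarith
    set M : Set E := {x | x ∈ K ∧ PP hv x ∈ (1 - t) • (PP hv '' K)} with hM
    have hMm : MeasurableSet M :=
      hK.measurableSet.inter ((hZ.smul (1 - t)).measurableSet.preimage (continuous_PP hv).measurable)
    have hMK : M ⊆ K := fun x hx => hx.1
    -- the star shaped set
    have hstar : (1 - t) • S ⊆ S := by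
      rintro _ ⟨_, ⟨u, hu, y, hy, hmax, s, hs, rfl⟩, rfl⟩
      refine ⟨u, hu, y, hy, hmax, (1 - t) * s, ⟨mul_nonneg h1t.le hs.1, ?_⟩, ?_⟩
      · nlinarith [hs.2, hs.1]
      · simp only [smul_smul]
    have hsub : S \ (1 - t) • S ⊆ (K \ M) ∪ frontier K := by
      rintro x ⟨hxS, hx⟩
      obtain ⟨u, hu, y, hy, hmax, s, hs, rfl⟩ := hxS
      have hu0 : ⟪u, v⟫ = 0 := hu.1
      have hu1 : ‖u‖ = 1 := by simpa using hu.2
      have hxK : s • y ∈ K := hKc.smul_mem_of_zero_mem h0 hy hs
      have hs1 : 1 - t < s := by
        by_contra hcon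
        push Not at hcon
        apply hx
        refine ⟨(s / (1 - t)) • y, ⟨u, hu, y, hy, hmax, s / (1 - t),
          ⟨div_nonneg hs.1 h1t.le, ?_⟩, rfl⟩, ?_⟩
        · rw [div_le_one h1t]
          exact hcon
        · simp only [smul_smul]
          congr 1
          field_simp
      by_cases hxM : s • y ∈ M
      · right
        refine ⟨subset_closure hxK, ?_⟩
        intro hint
        obtain ⟨_, ⟨x', hx', rfl⟩, hxz⟩ := hxM.2
        -- the inner products
        have hpp : ∀ x : E, ⟪x, u⟫ = ⟪((PP hv x : (ℝ ∙ v)ᗮ) : E), u⟫ := by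
          intro x
          change ⟪x, u⟫ = ⟪pr v x, u⟫
          unfold pr
          rw [inner_sub_left, real_inner_smul_left, real_inner_comm u v, hu0]
          ring
        have h1 : ⟪s • y, u⟫ = (1 - t) * ⟪x', u⟫ := by
          rw [hpp (s • y), ← hxz, hpp x']
          simp only [Submodule.coe_smul, real_inner_smul_left]
        rw [real_inner_smul_left] at h1
        have h2 := hmax x' hx'
        have h3 := hmax 0 h0
        rw [inner_zero_left] at h3
        have h4 : ⟪y, u⟫ = 0 := by
          have h5 : s * ⟪y, u⟫ ≤ (1 - t) * ⟪y, u⟫ := by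
            rw [h1]
            exact mul_le_mul_of_nonneg_left h2 h1t.le
          nlinarith
        obtain ⟨ε, hε, hball⟩ := Metric.isOpen_iff.1 isOpen_interior _ hint
        have h5 : s • y + (ε / 2) • u ∈ K := by
          apply interior_subset
          apply hball
          rw [mem_ball, dist_eq_norm, add_sub_cancel_left, norm_smul, hu1, mul_one,
            Real.norm_eq_abs, abs_of_pos (by linarith)]
          linarith
        have h6 := hmax _ h5
        rw [inner_add_left, real_inner_smul_left, real_inner_smul_left,
          real_inner_self_eq_norm_sq, hu1, h4] at h6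
        linarith
      · left
        exact ⟨hxK, hxM⟩
    have hSt : volume.real ((1 - t) • S) = (1 - t) ^ n * volume.real S :=
      real_smul volume h1t.le S
    have h1 : volume.real S - (1 - t) ^ n * volume.real S ≤ volume.real K - volume.real M := by
      have h2 : volume.real (S \ (1 - t) • S) = volume.real S - (1 - t) ^ n * volume.real S := by
        rw [measureReal_sdiff hstar (hSc.smul _).measurableSet
          (h₁ := hSc.measure_lt_top.ne), hSt]
      have h3 : volume.real (K \ M) = volume.real K - volume.real M :=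
        measureReal_sdiff hMK hMm (h₁ := hK.measure_lt_top.ne)
      rw [← h2, ← h3]
      have h4 : (volume : Measure E) ((K \ M) ∪ frontier K) ≤ volume (K \ M) := by
        refine (measure_union_le _ _).trans ?_
        rw [hfr, add_zero]
      exact ENNReal.toReal_mono (measure_ne_top_of_subset sdiff_subset hK.measure_lt_top.ne)
        ((measure_mono hsub).trans h4)
    -- the volume of `M`
    have h2 : (1 - t) ^ k * ((1 - t) * V + t * W) ≤ volume.real M := by
      have h3 := le_vol_blow hv hK hKc hab ha hb ht0 ht1
      have h4 := vol_blow hv hK h1t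
      have h5 : volume (blow hv K (1 - t)) ≠ ⊤ := by
        intro htop
        rw [htop, ENNReal.mul_top (by simpa using pow_pos h1t _)] at h4
        exact measure_ne_top_of_subset hMK hK.measure_lt_top.ne h4
      have h6 : (1 - t) * V + t * W ≤ (volume (blow hv K (1 - t))).toReal := by
        have h7 := ENNReal.toReal_mono h5 h3
        rw [ENNReal.toReal_add (ENNReal.mul_ne_top ENNReal.ofReal_ne_top hK.measure_lt_top.ne)
          (ENNReal.mul_ne_top ENNReal.ofReal_ne_top hWc.measure_lt_top.ne), ENNReal.toReal_mul,
          ENNReal.toReal_mul, ENNReal.toReal_ofReal h1t.le, ENNReal.toReal_ofReal ht0.le] at h7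
        exact h7
      have h7 : volume.real M = (1 - t) ^ k * (volume (blow hv K (1 - t))).toReal := by
        rw [measureReal_def, h4, ENNReal.toReal_mul, ENNReal.toReal_ofReal (pow_nonneg h1t.le _)]
      rw [h7]
      exact mul_le_mul_of_nonneg_left h6 (pow_nonneg h1t.le _)
    linarith
  -- the derivative at zero
  have hd : HasDerivAt (fun t : ℝ => V - (1 - t) ^ k * ((1 - t) * V + t * W) -
      (1 - (1 - t) ^ n) * volume.real S) (n * V - W - n * volume.real S) 0 := by
    have e1 : HasDerivAt (fun t : ℝ => 1 - t) (-1) 0 := by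
      simpa using (hasDerivAt_id (0 : ℝ)).const_sub 1
    have e2 : HasDerivAt (fun t : ℝ => (1 - t) ^ n) (-(n : ℝ)) 0 := by
      have := e1.fun_pow n
      simpa using this
    have e3 : HasDerivAt (fun t : ℝ => (1 - t) ^ k) (-(k : ℝ)) 0 := by
      have := e1.fun_pow k
      simpa using this
    have e4 : HasDerivAt (fun t : ℝ => (1 - t) * V + t * W) (-1 * V + 1 * W) 0 :=
      (e1.mul_const V).add ((hasDerivAt_id (0 : ℝ)).mul_const W)
    have e5 := (e3.mul e4).const_sub V
    have e6 := (e2.const_sub 1).mul_const (volume.real S)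
    have e7 := e5.sub e6
    have e8 : -(-(k : ℝ) * ((1 - 0) * V + 0 * W) + (1 - 0) ^ k * (-1 * V + 1 * W)) -
        - -(n : ℝ) * volume.real S = n * V - W - n * volume.real S := by
      rw [hnk]
      push_cast
      ring
    rw [e8] at e7
    exact e7
  have h1 := deriv_nonneg_of_right (δ := 1 / 2) (by norm_num) (by simp) hd (by
    intro t ht0 ht1
    have := key t ht0 (by linarith)
    linarith)
  linarith

end Pool.Agent.Lib.MP_abca01_gt.Sym
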