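import Pool.Agent.Lib.MP_abca01_gt.Sym.SAll
import Pool.Agent.Lib.MP_abca01_gt.Sym.SCut

/-!
# Cone volume measures with a fixed axis, 20: the group and the measure on the complement of the axis
-/

set_option autoImplicit false

open MeasureTheory Set Metric Filter Topology
open scoped RealInnerProductSpace Pointwise ENNReal

namespace Pool.Agent.Lib.MP_abca01_gt.Sym

open Ess

section alg

variable {E : Type} [NormedAddCommGroup E] [InnerProductSpace ℝ E]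
  {G : Subgroup (E ≃ₗᵢ[ℝ] E)}

/-- The restrictions of the isometries of `G` to the complement of the axis. -/
def GF (G : Subgroup (E ≃ₗᵢ[ℝ] E)) (v : E) : Subgroup ((ℝ ∙ v)ᗮ ≃ₗᵢ[ℝ] (ℝ ∙ v)ᗮ) where
  carrier := {f | ∃ g ∈ G, ∀ z : (ℝ ∙ v)ᗮ, (f z : E) = g z}
  mul_mem' := by
    rintro f f' ⟨g, hg, h⟩ ⟨g', hg', h'⟩
    refine ⟨g * g', G.mul_mem hg hg', fun z => ?_⟩
    change (f (f' z) : E) = g (g' z)
    rw [h, h']
  one_mem' := ⟨1, G.one_mem, fun z => rfl⟩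
  inv_mem' := by
    rintro f ⟨g, hg, h⟩
    refine ⟨g⁻¹, G.inv_mem hg, fun z => ?_⟩
    have h1 := h ((f⁻¹ : (ℝ ∙ v)ᗮ ≃ₗᵢ[ℝ] (ℝ ∙ v)ᗮ) z)
    rw [inv_apply f z] at h1
    rw [h1, inv_apply']

instance [Finite G] (v : E) : Finite (GF G v) := by
  have h1 : ∀ f : GF G v, ∃ g : G, ∀ z : (ℝ ∙ v)ᗮ, ((f : (ℝ ∙ v)ᗮ ≃ₗᵢ[ℝ] (ℝ ∙ v)ᗮ) z : E) =
      (g : E ≃ₗᵢ[ℝ] E) z := by
    rintro ⟨f, g, hg, h⟩
    exact ⟨⟨g, hg⟩, h⟩
  choose φ hφ using h1
  apply Finite.of_injective φ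
  intro f f' hff
  apply Subtype.ext
  ext z
  rw [hφ f, hφ f', hff]

/-- Every element of `G` restricts. -/
theorem exists_res {v : E} (hfix : ∀ g ∈ G, g v = v) {g : E ≃ₗᵢ[ℝ] E} (hg : g ∈ G) :
    ∃ f ∈ GF G v, ∀ z : (ℝ ∙ v)ᗮ, (f z : E) = g z := by
  have hmem : ∀ g ∈ G, ∀ z : (ℝ ∙ v)ᗮ, g (z : E) ∈ (ℝ ∙ v)ᗮ := by
    intro g hg z
    rw [Submodule.mem_orthogonal_singleton_iff_inner_left, inner_inv, hfix _ (G.inv_mem hg)]
    exact inner_compl z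
  let f : (ℝ ∙ v)ᗮ ≃ₗᵢ[ℝ] (ℝ ∙ v)ᗮ :=
    { toFun := fun z => ⟨g z, hmem g hg z⟩
      map_add' := by
        intro x y
        apply Subtype.ext
        simp
      map_smul' := by
        intro c x
        apply Subtype.ext
        simp
      invFun := fun z => ⟨(g⁻¹ : E ≃ₗᵢ[ℝ] E) z, hmem g⁻¹ (G.inv_mem hg) z⟩
      left_inv := by
        intro z
        apply Subtype.ext
        exact inv_apply' g _
      right_inv := by
        intro z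
        apply Subtype.ext
        exact inv_apply g _
      norm_map' := by
        intro z
        exact g.norm_map z }
  exact ⟨f, ⟨g, hg, fun z => rfl⟩, fun z => rfl⟩

theorem PP_map {v : E} (hv : ‖v‖ = 1) (hfix : ∀ g ∈ G, g v = v) {g : E ≃ₗᵢ[ℝ] E} (hg : g ∈ G)
    {f : (ℝ ∙ v)ᗮ ≃ₗᵢ[ℝ] (ℝ ∙ v)ᗮ} (hf : ∀ z : (ℝ ∙ v)ᗮ, (f z : E) = g z) (x : E) :
    PP hv (g x) = f (PP hv x) := by
  apply Subtype.ext
  rw [hf]
  change pr v (g x) = g (pr v x)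
  unfold pr
  have h1 := ht_map hfix hg x
  unfold ht at h1
  rw [h1, map_sub, map_smul, hfix g hg]

end alg

end Pool.Agent.Lib.MP_abca01_gt.Sym
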