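import Pool.Agent.Lib.MP_abca01_gt.Defs

/-!
# Cone volume measures with a fixed axis: statement of the module `SNec` (necessity)
-/

set_option autoImplicit false

open MeasureTheory Set Metric
open scoped RealInnerProductSpace Pointwise

namespace Pool.Agent.Lib.MP_abca01_gt.Sym

/-- **SNec.** The subspace concentration inequality for the subspaces `L` orthogonal to the centroid.
(Boroczky-Henk for centred bodies; here `0` need not be the centroid.) Write `n = dim E`, `k = dim L`,
`V = vol K`, `S = segs K (L ∩ sphere)`. To be proved in `Sym/SNec.lean` as `theorem stmtNec : StmtNec`.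
Proof. (k = 0: the set `L ∩ sphere` is empty, so `S` is empty.)
(1) Coordinates: an orthonormal basis of `E` adapted to `L` gives a measure preserving linear isometry
`E ≃ ℝ^k × ℝ^m`, `m = n - k` (`stdOrthonormalBasis` of `L` and of `Lᗮ`, `Submodule.orthogonalDecomposition`,
`LinearIsometryEquiv.measurePreserving`, `PiLp.volume_preserving_ofLp`, ...). For `z : ℝ^k` let `w z` be the
volume of the fibre `K_z = {y | (z, y) ∈ K}` (compact convex) and `Z = {z | K_z ≠ ∅}` (compact convex, the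
projection of `K`). `w` is measurable, `∫ w = V` (Fubini, `Measure.volume_eq_prod`), `∫ z_i w(z) dz = 0`
(hypothesis). `Z` has `0` in its interior (if `0 ∉ interior Z`, separate: `u ≠ 0` with `⟪z, u⟫ ≥ 0` on `Z`, and
`∫_K ⟪x, u⟫ = 0` forces `⟪x, u⟫ = 0` a.e. on `K`, impossible as `vol K > 0`); `w > 0` on the interior of `Z`.
(2) For `z ∈ Z`, `0 < a < 1`: `a K_z + (1 - a) K_0 ⊆ K_{a z}`, so `w (a z) ≥ w(z)^a w(0)^(1-a)`
(`Pool.Agent.Lib.MP_0c1c75_co.…prekopa_leindler` in `Lib/MP_0c1c75_co/BM.lean` with indicators).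
(3) `log w` is concave on the open convex set `{w > 0} ∩ interior Z = interior Z`, so there is `p` with
`w z ≤ w 0 * exp ⟪p, z⟫` on `interior Z` (supergradient at `0`: Hahn-Banach for the hypograph, or any other way),
hence almost everywhere (the frontier of `Z` is null). With (2): `w ((1 - t) z) ≥ w z * (w 0 / w z)^t ≥
w z * exp (-t ⟪p, z⟫) ≥ w z * (1 - t ⟪p, z⟫)` for almost every `z`, `0 < t < 1` (trivial if `w z = 0`: left side
`≥ 0`). Integrate: `∫_Z w ((1 - t) z) dz ≥ ∫ w - t ⟪p, ∫ z w⟫ = V`, i.e. by scaling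
`vol {x ∈ K | P_L x ∈ (1 - t) Z} ≥ (1 - t)^k V`.
(4) `S` is compact (`Borelaux.isCompact_segs`), `(1 - t) • S ⊆ S` and up to a null set
`S \ (1 - t) • S ⊆ K \ {x ∈ K | P_L x ∈ (1 - t) Z}`: let `x = s • y`, `y ∈ K`, `u ∈ L` unit, `⟪y, u⟫ = supp K u =: h`,
`x ∉ (1 - t) • S`; then `s > 1 - t`; if `h = 0` then `⟪x, u⟫ = supp K u`, so `x` is in the frontier of `K`, which is null
(`Convex.addHaar_frontier`); if `h > 0` then `⟪x, u⟫ = s h > (1 - t) h = max {⟪z, u⟫ | z ∈ (1 - t) Z}`.
So `(1 - (1 - t)^n) vol S ≤ (1 - (1 - t)^k) V` for `0 < t < 1`. Divide by `t` and let `t → 0`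
(`Variationaux.deriv_nonneg_of_right` in `Variation.lean`). -/
def StmtNec : Prop :=
  ∀ (E : Type) [NormedAddCommGroup E] [InnerProductSpace ℝ E] [FiniteDimensional ℝ E]
    [MeasurableSpace E] [BorelSpace E] (K : Set E) (L : Submodule ℝ E),
    IsCompact K → Convex ℝ K → 0 < volume.real K → (0 : E) ∈ K →
    (∀ u ∈ L, ∫ x in K, ⟪x, u⟫ = 0) →
    (Module.finrank ℝ E : ℝ) * volume.real (segs K ((L : Set E) ∩ sphere 0 1)) ≤
      Module.finrank ℝ L * volume.real K

end Pool.Agent.Lib.MP_abca01_gt.Sym
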