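import Pool.Agent.Lib.MP_abca01_gt.Sym.SGood
import Pool.Agent.Lib.MP_abca01_gt.Sym.SChar

/-!
# Cone volume measures with a fixed axis, 27: existence without cases of equality
-/

set_option autoImplicit false

open MeasureTheory Set Metric Filter Topology
open scoped RealInnerProductSpace Pointwise ENNReal

namespace Pool.Agent.Lib.MP_abca01_gt.Sym

open Ess

variable {E : Type} [NormedAddCommGroup E] [InnerProductSpace ℝ E] [FiniteDimensional ℝ E]
  [MeasurableSpace E] [BorelSpace E] {G : Subgroup (E ≃ₗᵢ[ℝ] E)}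

/-- Existence for groups without fixed vectors, strict inequalities. -/
theorem strict_zero [Finite G] (hz : ∀ x : E, (∀ g ∈ G, g x = x) → x = 0) (mu : Measure E)
    [IsFiniteMeasure mu] (hmu0 : mu ≠ 0) (hn : 0 < Module.finrank ℝ E)
    (hmuinv : ∀ g ∈ G, ∀ s, MeasurableSet s → mu (g ⁻¹' s) = mu s)
    (hsph : mu (sphere (0 : E) 1)ᶜ = 0)
    (hC : ∀ L : Submodule ℝ E, L ≠ ⊥ → L ≠ ⊤ → SInv G L →
      (Module.finrank ℝ E : ℝ) * mu.real (L : Set E) < Module.finrank ℝ L * mu.real univ) :
    Rep G mu := by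
  have := Fintype.ofFinite G
  have hMpos : 0 < mu.real univ := by
    rw [measureReal_def, ENNReal.toReal_pos_iff]
    refine ⟨?_, measure_lt_top _ _⟩
    rw [pos_iff_ne_zero]
    simpa using hmu0
  set Sg : Set E := msupp mu with hSg
  have hSgmu : mu Sgᶜ = 0 := measure_msupp mu
  have hSgc : IsClosed Sg := isClosed_msupp mu
  have hSgG : Inv G Sg := inv_msupp hmuinv
  have hSgs : Sg ⊆ sphere (0 : E) 1 := by
    intro u hu
    by_contra hcon
    exact notMem_of_null isClosed_sphere.isOpen_compl hsph hu hcon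
  obtain ⟨w, hw⟩ : Sg.Nonempty := by
    by_contra hcon
    rw [not_nonempty_iff_eq_empty] at hcon
    rw [hcon, compl_empty] at hSgmu
    rw [measureReal_def, hSgmu, ENNReal.toReal_zero] at hMpos
    exact lt_irrefl _ hMpos
  have hsum : ∀ u : E, ∑ g : G, (g : E ≃ₗᵢ[ℝ] E) u = 0 := by
    intro u
    apply hz
    intro g hg
    rw [map_sum]
    exact Fintype.sum_equiv (Equiv.mulLeft ⟨g, hg⟩) _ _ fun h => rfl
  have hex : ∀ x : E, x ≠ 0 → ∃ u ∈ Sg, ⟪u, x⟫ < 0 := by
    intro x hx
    by_contra hcon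
    push Not at hcon
    have h2 : ∀ u ∈ Sg, ⟪u, x⟫ = 0 := by
      intro u hu
      have h3 : ∑ g : G, ⟪(g : E ≃ₗᵢ[ℝ] E) u, x⟫ = 0 := by
        rw [← sum_inner, hsum, inner_zero_left]
      have h5 : ∀ g ∈ (Finset.univ : Finset G), 0 ≤ ⟪(g : E ≃ₗᵢ[ℝ] E) u, x⟫ :=
        fun g _ => hcon _ (hSgG g g.2 u hu)
      exact (Finset.sum_eq_zero_iff_of_nonneg h5).1 h3 1 (Finset.mem_univ _)
    have h3 : ∀ y ∈ Submodule.span ℝ Sg, ⟪y, x⟫ = 0 := by
      intro y hy
      induction hy using Submodule.span_induction with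
      | mem y hy => exact h2 y hy
      | zero => exact inner_zero_left _
      | add y z _ _ hy hz => rw [inner_add_left, hy, hz, add_zero]
      | smul a y _ hy => rw [real_inner_smul_left, hy, mul_zero]
    have hLtop : Submodule.span ℝ Sg ≠ ⊤ := by
      intro h
      have h4 := h3 x (by rw [h]; trivial)
      exact hx (inner_self_eq_zero.1 h4)
    have hLbot : Submodule.span ℝ Sg ≠ ⊥ := by
      intro h
      have h4 : w ∈ Submodule.span ℝ Sg := Submodule.subset_span hw
      rw [h, Submodule.mem_bot] at h4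
      have h5 := hSgs hw
      rw [h4, mem_sphere_zero_iff_norm, norm_zero] at h5
      exact zero_ne_one h5
    have hLG : SInv G (Submodule.span ℝ Sg) := by
      intro g hg y hy
      induction hy using Submodule.span_induction with
      | mem y hy => exact Submodule.subset_span (hSgG g hg y hy)
      | zero => rw [map_zero]; exact Submodule.zero_mem _
      | add y z _ _ hy hz => rw [map_add]; exact Submodule.add_mem _ hy hz
      | smul a y _ hy => rw [map_smul]; exact Submodule.smul_mem _ _ hy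
    have h4 := hC _ hLbot hLtop hLG
    have h5 : mu.real ((Submodule.span ℝ Sg : Submodule ℝ E) : Set E) = mu.real univ := by
      rw [measureReal_def, measureReal_def]
      congr 1
      apply measure_congr
      have h6 : ∀ᵐ u ∂mu, u ∈ Sg := hSgmu
      filter_upwards [h6] with u hu
      apply propext
      exact ⟨fun _ => trivial, fun _ => Submodule.subset_span hu⟩
    rw [h5] at h4
    have h6 : (Module.finrank ℝ (Submodule.span ℝ Sg) : ℝ) ≤ Module.finrank ℝ E := by
      exact_mod_cast Submodule.finrank_le _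
    have h7 := mul_le_mul_of_nonneg_right h6 hMpos.le
    linarith
  have hpl : ∀ x : E, x ≠ 0 → mu {u | ⟪u, x⟫ ≠ 0} ≠ 0 := by
    intro x hx h0
    obtain ⟨u, hu, hux⟩ := hex x hx
    have hU : IsOpen {u : E | ⟪u, x⟫ ≠ 0} := isOpen_ne_fun (by fun_prop) continuous_const
    exact notMem_of_null hU h0 hu hux.ne
  exact two_sided mu hn hmuinv Sg hSgc hSgG hSgs hSgmu hex hpl
    (fun L hL hL' hLG => Or.inl (hC L hL hL' hLG))

/-- Existence without cases of equality. -/
theorem strict_exists [Finite G] (v : E) (hfix : ∀ g ∈ G, g v = v)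
    (hline : ∀ x : E, (∀ g ∈ G, g x = x) → ∃ c : ℝ, x = c • v) (mu : Measure E)
    [IsFiniteMeasure mu] (hmu0 : mu ≠ 0) (hn : 0 < Module.finrank ℝ E)
    (hmuinv : ∀ g ∈ G, ∀ s, MeasurableSet s → mu (g ⁻¹' s) = mu s)
    (hsph : mu (sphere (0 : E) 1)ᶜ = 0)
    (hC : ∀ L : Submodule ℝ E, L ≠ ⊥ → L ≠ ⊤ → SInv G L →
      (Module.finrank ℝ E : ℝ) * mu.real (L : Set E) < Module.finrank ℝ L * mu.real univ ∨
      OneS G mu L) :
    Rep G mu := by
  by_cases hv : v = 0
  · have hz : ∀ x : E, (∀ g ∈ G, g x = x) → x = 0 := by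
      intro x hx
      obtain ⟨c, hc⟩ := hline x hx
      rw [hc, hv, smul_zero]
    apply strict_zero hz mu hmu0 hn hmuinv hsph
    intro L hL hL' hLG
    rcases hC L hL hL' hLG with h | ⟨w, -, hw, hw0, -⟩
    · exact h
    · exact absurd (hz w hw) hw0
  · have hvn : 0 < ‖v‖ := norm_pos_iff.2 hv
    set e : E := ‖v‖⁻¹ • v with he
    have hve : v = ‖v‖ • e := by
      rw [he, smul_inv_smul₀ hvn.ne']
    have hA : Axis G e := by
      refine ⟨?_, ?_, ?_⟩
      · rw [he, norm_smul, norm_inv, norm_norm, inv_mul_cancel₀ hvn.ne']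
      · intro g hg
        rw [he, map_smul, hfix g hg]
      · intro x hx
        obtain ⟨c, hc⟩ := hline x hx
        refine ⟨c * ‖v‖, ?_⟩
        rw [hc, mul_smul, ← hve]
    apply axis_theorem hA mu hmu0 hmuinv hsph
    intro L hL hL' hLG
    rcases hC L hL hL' hLG with h | ⟨w, hwL, hw, hw0, ε, hε, h0⟩
    · exact Or.inl h
    · right
      obtain ⟨c, hc⟩ := hA.line w hw
      have hc0 : c ≠ 0 := by
        rintro rfl
        apply hw0
        rw [hc, zero_smul]
      have heL : e ∈ L := by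
        have h1 : e = c⁻¹ • w := by
          rw [hc, inv_smul_smul₀ hc0]
        rw [h1]
        exact L.smul_mem _ hwL
      refine ⟨heL, ε, hε, ?_⟩
      rcases lt_or_gt_of_ne hc0 with hneg | hpos
      · right
        refine measure_mono_null ?_ h0
        rintro u ⟨h1, h2⟩
        refine ⟨h1, ?_⟩
        rw [hc, real_inner_smul_right]
        exact mul_pos_of_neg_of_neg hneg h2
      · left
        refine measure_mono_null ?_ h0
        rintro u ⟨h1, h2⟩
        refine ⟨h1, ?_⟩
        rw [hc, real_inner_smul_right]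
        exact mul_pos hpos h2

end Pool.Agent.Lib.MP_abca01_gt.Sym
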