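import Pool.Agent.Lib.MP_abca01_gt.Sym.SDec
import Pool.Agent.Lib.MP_abca01_gt.Sym.SStrict

/-!
# Cone volume measures with a fixed axis, 28: products
-/

set_option autoImplicit false

open MeasureTheory Set Metric Filter Topology
open scoped RealInnerProductSpace Pointwise ENNReal

namespace Pool.Agent.Lib.MP_abca01_gt.Sym

open Ess

variable {E : Type} [NormedAddCommGroup E] [InnerProductSpace ℝ E] [FiniteDimensional ℝ E]
  [MeasurableSpace E] [BorelSpace E] {G : Subgroup (E ≃ₗᵢ[ℝ] E)}

/-- The product of two solutions. -/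
theorem split_exists {A B : Submodule ℝ E} (hc : IsCompl A B) (hAG : SInv G A) (hBG : SInv G B)
    (hA0 : 0 < Module.finrank ℝ A) (hB0 : 0 < Module.finrank ℝ B) (mu : Measure E)
    [IsFiniteMeasure mu] (hmu0 : mu ≠ 0) (hsph : mu (sphere (0 : E) 1)ᶜ = 0)
    (hAB : mu ((A : Set E) ∪ B)ᶜ = 0)
    (hkA : (Module.finrank ℝ E : ℝ) * mu.real (A : Set E) = Module.finrank ℝ A * mu.real univ)
    (hkB : (Module.finrank ℝ E : ℝ) * mu.real (B : Set E) = Module.finrank ℝ B * mu.real univ)
    (h1 : Rep (GR G A) (mR A mu)) (h2 : Rep (GR G B) (mR B mu)) : Rep G mu := by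
  obtain ⟨K₁, hK₁, hK₁c, hK₁i, h01, hK₁G, hseg1⟩ := h1
  obtain ⟨K₂, hK₂, hK₂c, hK₂i, h02, hK₂G, hseg2⟩ := h2
  obtain ⟨D, hD, hvol⟩ := exists_vol_bx hc
  have hMpos : 0 < mu.real univ := by
    rw [measureReal_def, ENNReal.toReal_pos_iff]
    refine ⟨?_, measure_lt_top _ _⟩
    rw [pos_iff_ne_zero]
    simpa using hmu0
  set M : ℝ := mu.real univ with hM
  have hkl : (Module.finrank ℝ A : ℝ) + Module.finrank ℝ B = Module.finrank ℝ E := by
    exact_mod_cast Submodule.finrank_add_eq_of_isCompl hc
  have hA0' : (0 : ℝ) < Module.finrank ℝ A := by exact_mod_cast hA0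
  have hB0' : (0 : ℝ) < Module.finrank ℝ B := by exact_mod_cast hB0
  have hn' : (0 : ℝ) < Module.finrank ℝ E := by linarith
  have hn : 0 < Module.finrank ℝ E := by exact_mod_cast hn'
  have hvol1 : volume.real K₁ = mu.real (A : Set E) := by
    rw [← total_segs hA0 hK₁ hK₁c h01, measureReal_def,
      hseg1 _ isClosed_sphere.measurableSet Subset.rfl, ← mR_real_univ, measureReal_def]
    congr 1
    apply measure_congr
    have h3 : ∀ᵐ u ∂(mR A mu), u ∈ sphere (0 : A) 1 := mR_sph A hsph
    filter_upwards [h3] with u hu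
    apply propext
    exact ⟨fun _ => trivial, fun _ => hu⟩
  have hvol2 : volume.real K₂ = mu.real (B : Set E) := by
    rw [← total_segs hB0 hK₂ hK₂c h02, measureReal_def,
      hseg2 _ isClosed_sphere.measurableSet Subset.rfl, ← mR_real_univ, measureReal_def]
    congr 1
    apply measure_congr
    have h3 : ∀ᵐ u ∂(mR B mu), u ∈ sphere (0 : B) 1 := mR_sph B hsph
    filter_upwards [h3] with u hu
    apply propext
    exact ⟨fun _ => trivial, fun _ => hu⟩
  set a : ℝ := mu.real (A : Set E) with ha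
  set b : ℝ := mu.real (B : Set E) with hb
  set k : ℝ := (Module.finrank ℝ A : ℝ) with hk
  set l : ℝ := (Module.finrank ℝ B : ℝ) with hl
  set n : ℝ := (Module.finrank ℝ E : ℝ) with hnn
  have ha0 : 0 < a := by
    have h3 : 0 < n * a := by
      rw [hkA]
      positivity
    exact pos_of_mul_pos_right h3 hn'.le
  have hb0 : 0 < b := by
    have h3 : 0 < n * b := by
      rw [hkB]
      positivity
    exact pos_of_mul_pos_right h3 hn'.le
  set K : Set E := bx A B K₁ K₂ with hK
  have hKc : IsCompact K := isCompact_bx hc hK₁ hK₂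
  have hKcv : Convex ℝ K := convex_bx hK₁c hK₂c
  have hK0 : (0 : E) ∈ K := zero_mem_bx h01 h02
  have hKG : Inv G K := by
    intro g hg x hx
    refine ⟨?_, ?_⟩
    · obtain ⟨f, hf, hfg⟩ := exists_resR hAG hg
      rw [pj_map hfg]
      exact hK₁G f hf _ hx.1
    · obtain ⟨f, hf, hfg⟩ := exists_resR hBG hg
      rw [pj_map hfg]
      exact hK₂G f hf _ hx.2
  have hKV : volume.real K = D * (a * b) := by
    rw [hK, hvol K₁ K₂ hK₁.measurableSet hK₂.measurableSet, hvol1, hvol2]
  have hKpos : 0 < volume.real K := by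
    rw [hKV]
    positivity
  have hineq : ∀ ω : Set E, IsCompact ω → ω ⊆ sphere (0 : E) 1 →
      mu.real ω * volume.real K ≤ M * volume.real (segs K ω) := by
    intro ω hω hωs
    have h3 := bx_low hc hvol hD hK₁ hK₁c h01 hK₂ hK₂c h02 hω hωs
    have hpart : ∀ C : Submodule ℝ E, MeasurableSet {z : C | (z : E) ∈ ω} ∧
        {z : C | (z : E) ∈ ω} ⊆ sphere (0 : C) 1 ∧
        (mR C mu).real {z : C | (z : E) ∈ ω} = mu.real (ω ∩ C) := by
      intro C
      refine ⟨hω.measurableSet.preimage measurable_subtype_coe, ?_, ?_⟩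
      · intro z hz
        have h4 := hωs hz
        rw [mem_sphere_zero_iff_norm] at h4 ⊢
        exact h4
      · rw [measureReal_def, mR_apply, measureReal_def]
        congr 2
        ext u
        constructor
        · rintro ⟨z, hz, rfl⟩
          exact ⟨hz, z.2⟩
        · rintro ⟨h4, h5⟩
          exact ⟨⟨u, h5⟩, h4, rfl⟩
    have h4 : volume.real (segs K₁ {z : A | (z : E) ∈ ω}) = mu.real (ω ∩ A) := by
      rw [measureReal_def, hseg1 _ (hpart A).1 (hpart A).2.1, ← (hpart A).2.2, measureReal_def]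
    have h5 : volume.real (segs K₂ {z : B | (z : E) ∈ ω}) = mu.real (ω ∩ B) := by
      rw [measureReal_def, hseg2 _ (hpart B).1 (hpart B).2.1, ← (hpart B).2.2, measureReal_def]
    rw [h4, h5, hvol1, hvol2] at h3
    have h6 : mu.real ω ≤ mu.real (ω ∩ A) + mu.real (ω ∩ B) := by
      have h7 : mu ω ≤ mu (ω ∩ A) + mu (ω ∩ B) := by
        calc mu ω ≤ mu ((ω ∩ A ∪ ω ∩ B) ∪ ((A : Set E) ∪ B)ᶜ) := by
              apply measure_mono
              intro u hu
              by_cases h8 : u ∈ (A : Set E) ∪ B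
              · left
                rcases h8 with h8 | h8
                · exact Or.inl ⟨hu, h8⟩
                · exact Or.inr ⟨hu, h8⟩
              · exact Or.inr h8
          _ ≤ mu (ω ∩ A ∪ ω ∩ B) + mu ((A : Set E) ∪ B)ᶜ := measure_union_le _ _
          _ = mu (ω ∩ A ∪ ω ∩ B) := by rw [hAB, add_zero]
          _ ≤ _ := measure_union_le _ _
      rw [measureReal_def, measureReal_def, measureReal_def, ← ENNReal.toReal_add
        (measure_ne_top _ _) (measure_ne_top _ _)]
      exact ENNReal.toReal_mono (ENNReal.add_ne_top.2 ⟨measure_ne_top _ _, measure_ne_top _ _⟩) h7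
    have e1 : k * b = l * a := by
      have h8 : n * (k * b) = n * (l * a) := by
        calc n * (k * b) = k * (n * b) := by ring
          _ = l * (n * a) := by rw [hkA, hkB]; ring
          _ = _ := by ring
      exact mul_left_cancel₀ hn'.ne' h8
    have h7 : D * (k * mu.real (ω ∩ A) * b + l * mu.real (ω ∩ B) * a) =
        D * (k * b) * (mu.real (ω ∩ A) + mu.real (ω ∩ B)) := by
      have h8 : l * mu.real (ω ∩ B) * a = (k * b) * mu.real (ω ∩ B) := by
        rw [e1]
        ring
      rw [h8]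
      ring
    rw [h7] at h3
    have h8 : D * (k * b) * mu.real ω ≤ n * volume.real (segs K ω) :=
      (mul_le_mul_of_nonneg_left h6 (by positivity)).trans h3
    have h9 : n * (mu.real ω * volume.real K) ≤ n * (M * volume.real (segs K ω)) := by
      rw [hKV]
      calc n * (mu.real ω * (D * (a * b))) = D * (n * a) * b * mu.real ω := by ring
        _ = M * (D * (k * b) * mu.real ω) := by rw [hkA]; ring
        _ ≤ M * (n * volume.real (segs K ω)) := mul_le_mul_of_nonneg_left h8 hMpos.le
        _ = _ := by ring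
    exact le_of_mul_le_mul_left h9 hn'
  have hbor := stmtBorel stmtOverlap E volume mu K hKc hKcv hK0 hKpos hmu0 hsph hineq
  exact normalise hn hKc hKcv hK0 hKG hKpos mu hMpos hbor

end Pool.Agent.Lib.MP_abca01_gt.Sym
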