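import Pool.Agent.Lib.MP_abca01_gt.Sym.SAll
import Pool.Agent.Lib.MP_abca01_gt.Sym.SCut

/-!
# Cone volume measures with a fixed axis, 24: restriction to an invariant subspace
-/

set_option autoImplicit false

open MeasureTheory Set Metric Filter Topology
open scoped RealInnerProductSpace Pointwise ENNReal

namespace Pool.Agent.Lib.MP_abca01_gt.Sym

section alg

variable {E : Type} [NormedAddCommGroup E] [InnerProductSpace ℝ E]
  {G : Subgroup (E ≃ₗᵢ[ℝ] E)}

/-- `A` is mapped into itself by the isometries of `G`. -/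
def SInv (G : Subgroup (E ≃ₗᵢ[ℝ] E)) (A : Submodule ℝ E) : Prop := ∀ g ∈ G, ∀ x ∈ A, g x ∈ A

/-- The restrictions of the isometries of `G` to the subspace `A`. -/
def GR (G : Subgroup (E ≃ₗᵢ[ℝ] E)) (A : Submodule ℝ E) : Subgroup (A ≃ₗᵢ[ℝ] A) where
  carrier := {f | ∃ g ∈ G, ∀ z : A, (f z : E) = g z}
  mul_mem' := by
    rintro f f' ⟨g, hg, h⟩ ⟨g', hg', h'⟩
    refine ⟨g * g', G.mul_mem hg hg', fun z => ?_⟩
    change (f (f' z) : E) = g (g' z)
    rw [h, h']
  one_mem' := ⟨1, G.one_mem, fun z => rfl⟩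
  inv_mem' := by
    rintro f ⟨g, hg, h⟩
    refine ⟨g⁻¹, G.inv_mem hg, fun z => ?_⟩
    have h1 := h ((f⁻¹ : A ≃ₗᵢ[ℝ] A) z)
    rw [inv_apply f z] at h1
    rw [h1, inv_apply']

instance finite_GR [Finite G] (A : Submodule ℝ E) : Finite (GR G A) := by
  have h1 : ∀ f : GR G A, ∃ g : G, ∀ z : A, ((f : A ≃ₗᵢ[ℝ] A) z : E) =
      (g : E ≃ₗᵢ[ℝ] E) z := by
    rintro ⟨f, g, hg, h⟩
    exact ⟨⟨g, hg⟩, h⟩
  choose φ hφ using h1
  apply Finite.of_injective φ
  intro f f' hff
  apply Subtype.ext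
  ext z
  rw [hφ f, hφ f', hff]

/-- Every element of `G` restricts to an invariant subspace. -/
theorem exists_resR {A : Submodule ℝ E} (hA : SInv G A) {g : E ≃ₗᵢ[ℝ] E} (hg : g ∈ G) :
    ∃ f ∈ GR G A, ∀ z : A, (f z : E) = g z := by
  let f : A ≃ₗᵢ[ℝ] A :=
    { toFun := fun z => ⟨g z, hA g hg z z.2⟩
      map_add' := by
        intro x y
        apply Subtype.ext
        simp
      map_smul' := by
        intro c x
        apply Subtype.ext
        simp
      invFun := fun z => ⟨(g⁻¹ : E ≃ₗᵢ[ℝ] E) z, hA g⁻¹ (G.inv_mem hg) z z.2⟩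
      left_inv := by
        intro z
        apply Subtype.ext
        exact inv_apply' g _
      right_inv := by
        intro z
        apply Subtype.ext
        exact inv_apply g _
      norm_map' := by
        intro z
        exact g.norm_map z }
  exact ⟨f, ⟨g, hg, fun z => rfl⟩, fun z => rfl⟩

theorem SInv.map {A : Submodule ℝ E} (hA : SInv G A) {L : Submodule ℝ A} (hL : SInv (GR G A) L) :
    SInv G (L.map A.subtype) := by
  rintro g hg _ ⟨z, hz, rfl⟩
  obtain ⟨f, hf, hfg⟩ := exists_resR hA hg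
  exact ⟨f z, hL f hf z hz, hfg z⟩

end alg

section proj

variable {E : Type} [NormedAddCommGroup E] [InnerProductSpace ℝ E] [FiniteDimensional ℝ E]
  {G : Subgroup (E ≃ₗᵢ[ℝ] E)}

/-- The orthogonal projection onto `A`, with values in `A`. -/
noncomputable def pj (A : Submodule ℝ E) : E →L[ℝ] A := A.orthogonalProjectionOnto

theorem inner_pj (A : Submodule ℝ E) (x : E) (z : A) : ⟪pj A x, z⟫ = ⟪x, (z : E)⟫ :=
  Submodule.inner_orthogonalProjectionOnto_eq_of_mem_right z x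

theorem pj_coe (A : Submodule ℝ E) (z : A) : pj A (z : E) = z :=
  Submodule.orthogonalProjectionOnto_mem_subspace_eq_self z

theorem pj_map {A : Submodule ℝ E} {g : E ≃ₗᵢ[ℝ] E} {f : A ≃ₗᵢ[ℝ] A}
    (hf : ∀ z : A, (f z : E) = g z) (x : E) : pj A (g x) = f (pj A x) := by
  apply ext_inner_right ℝ
  intro z
  have h1 : (z : E) = g ((f⁻¹ : A ≃ₗᵢ[ℝ] A) z) := by
    rw [← hf, inv_apply]
  have h2 : ⟪f (pj A x), z⟫ = ⟪pj A x, (f⁻¹ : A ≃ₗᵢ[ℝ] A) z⟫ := inner_inv f _ _
  rw [inner_pj, h2, inner_pj, h1, g.inner_map_map]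

end proj

variable {E : Type} [NormedAddCommGroup E] [InnerProductSpace ℝ E] [FiniteDimensional ℝ E]
  [MeasurableSpace E] [BorelSpace E] {G : Subgroup (E ≃ₗᵢ[ℝ] E)}

/-- The part of `mu` on the subspace `A`, as a measure on `A`. -/
noncomputable def mR (A : Submodule ℝ E) (mu : Measure E) : Measure A := mu.comap Subtype.val

theorem meas_sub (A : Submodule ℝ E) : MeasurableSet (A : Set E) :=
  A.closed_of_finiteDimensional.measurableSet

theorem mR_apply (A : Submodule ℝ E) (mu : Measure E) (s : Set A) :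
    mR A mu s = mu (Subtype.val '' s) :=
  (MeasurableEmbedding.subtype_coe (meas_sub A)).comap_apply mu s

theorem mR_univ (A : Submodule ℝ E) (mu : Measure E) : mR A mu univ = mu (A : Set E) := by
  rw [mR_apply]
  congr 1
  ext x
  constructor
  · rintro ⟨z, -, rfl⟩
    exact z.2
  · intro hx
    exact ⟨⟨x, hx⟩, trivial, rfl⟩

instance finite_mR (A : Submodule ℝ E) (mu : Measure E) [IsFiniteMeasure mu] :
    IsFiniteMeasure (mR A mu) := by
  constructor
  rw [mR_univ]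
  exact measure_lt_top _ _

theorem mR_sph (A : Submodule ℝ E) {mu : Measure E} (hsph : mu (sphere (0 : E) 1)ᶜ = 0) :
    mR A mu (sphere (0 : A) 1)ᶜ = 0 := by
  rw [mR_apply]
  refine measure_mono_null ?_ hsph
  rintro _ ⟨z, hz, rfl⟩ hcon
  apply hz
  rw [mem_sphere_zero_iff_norm] at hcon ⊢
  exact hcon

theorem mR_inv {A : Submodule ℝ E} (hA : SInv G A) {mu : Measure E}
    (hmuinv : ∀ g ∈ G, ∀ s, MeasurableSet s → mu (g ⁻¹' s) = mu s) :
    ∀ f ∈ GR G A, ∀ s, MeasurableSet s → mR A mu (f ⁻¹' s) = mR A mu s := by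
  rintro f ⟨g, hg, hfg⟩ s hs
  rw [mR_apply, mR_apply]
  refine Eq.trans ?_ (hmuinv g hg _ ((MeasurableEmbedding.subtype_coe
    (meas_sub A)).measurableSet_image' hs))
  congr 1
  ext x
  constructor
  · rintro ⟨z, hz, rfl⟩
    exact ⟨f z, hz, hfg z⟩
  · rintro ⟨z, hz, hzx⟩
    have h1 : x ∈ A := by
      have h2 := hA g⁻¹ (G.inv_mem hg) z z.2
      have h3 : (g⁻¹ : E ≃ₗᵢ[ℝ] E) (z : E) = x := by
        rw [hzx, inv_apply']
      rwa [h3] at h2
    refine ⟨⟨x, h1⟩, ?_, rfl⟩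
    have h2 : f ⟨x, h1⟩ = z := by
      apply Subtype.ext
      rw [hfg, hzx]
    rw [mem_preimage, h2]
    exact hz

theorem mR_coe {A : Submodule ℝ E} (mu : Measure E) (L : Submodule ℝ A) :
    mR A mu (L : Set A) = mu ((L.map A.subtype : Submodule ℝ E) : Set E) := by
  rw [mR_apply, Submodule.map_coe]
  rfl

end Pool.Agent.Lib.MP_abca01_gt.Sym
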